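import Pool.Agent.VPF.P4f

set_option autoImplicit false
open MeasureTheory ProbabilityTheory
open scoped ENNReal Nat

namespace Pool.Agent.VPF

theorem P4_thr : ∀ n < 30, 3 ≤ n → P4.Mn n ≤ (if n = 3 then 460 else if n = 4 then 306 else
    if n ≤ 10 then 414 else if n ≤ 15 then 543 else if n ≤ 20 then 675 else if n ≤ 25 then 807 else 912) := by
  decide +kernel

/-- P4 -/
theorem scalar_large (n m : ℕ) (hn : 3 ≤ n) (hn2 : n ≤ 29) (hm : (if n = 3 then 600 else 1000) ≤ m) :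
    1 ≤ ((n+m).choose n : ℝ≥0∞) * ∫⁻ x, (∫⁻ b in Set.Ioi (0:ℝ), ∫⁻ a : ℝ,
      QQ (|x|/√(n:ℝ)) a b ^ m * KK n a b) ∂(gaussianReal 0 1) := by
  apply P4.scalar_large' n m hn hn2
  have := P4_thr n (by omega) hn
  split_ifs at this hm <;> omega

end Pool.Agent.VPF
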