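import Mathlib

set_option autoImplicit false

/-!
Kernel-evaluated arithmetic for the numerical part of the proof of S08087 (3 <= n <= 29, small m).
All functions use raw recursors and accelerated natural number operations.
-/

namespace Pool.Agent.VPF.Num

/-- strict application: forces evaluation of `x` in the kernel -/
noncomputable def strict {α : Type} (x : ℕ) (f : ℕ → α) : α :=
  Nat.rec (motive := fun _ => α) (f 0) (fun n _ => f n) (Nat.add x 1)

theorem strict_eq {α : Type} (x : ℕ) (f : ℕ → α) : strict x f = f x := rfl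

/-- lower and upper bound of `2^64 exp(-1/2^21)` -/
noncomputable def Ld0 : ℕ := 18446735277618626559
noncomputable def Hd0 : ℕ := 18446735277618626560
/-- lower and upper bound of `2^64 exp(-1/2^20)` -/
noncomputable def Lr : ℕ := 18446726481531895805
noncomputable def Hr : ℕ := 18446726481531895806

/-- verification of the table `T`: entry `k` (72 bits) contains `E_k` (36 bits) and `W_k` (36 bits).
At `p = 2 k`: `L, H` are bounds of `2^64 exp(-(p/1024)^2/2)`, `Ld, Hd` bounds of
`2^64 exp(-(2p+1)/2^21)`, `WL, WH` bounds of `2^64 ∫_0^{p/1024} exp(-t^2/2) dt`. -/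
noncomputable def tblLoop (fuel : ℕ) : ℕ → ℕ → ℕ → ℕ → ℕ → ℕ → ℕ → ℕ → Bool :=
  Nat.rec (motive := fun _ => ℕ → ℕ → ℕ → ℕ → ℕ → ℕ → ℕ → ℕ → Bool)
    (fun _ _ _ _ _ _ _ _ => true)
    (fun _ ih p L H Ld Hd WL WH T =>
      strict (Nat.mod T 0x1000000000) fun e =>
      strict (Nat.mod (Nat.div T 0x1000000000) 0x1000000000) fun w =>
      cond (Nat.ble (Nat.mul e 0x100000000) L)
      (cond (Nat.ble H (Nat.mul (Nat.add e 2) 0x100000000))
      (cond (Nat.ble (Nat.mul w 0x100000000) WL)
      (cond (Nat.ble WH (Nat.mul (Nat.add w 2) 0x100000000))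
        (strict (Nat.div (Nat.mul L Ld) 0x10000000000000000) fun Lm =>
         strict (Nat.add (Nat.div (Nat.mul H Hd) 0x10000000000000000) 1) fun Hm =>
         strict (Nat.div (Nat.mul Ld Lr) 0x10000000000000000) fun Ld1 =>
         strict (Nat.add (Nat.div (Nat.mul Hd Hr) 0x10000000000000000) 1) fun Hd1 =>
         strict (Nat.mul (Nat.add p 1) (Nat.add p 1)) fun q =>
         strict (Nat.add WL (Nat.div (Nat.mul Lm (Nat.sub (Nat.add 69175279281294540800
           (Nat.mul q 10485760)) (Nat.mul q 3))) 35417748621522339102720)) fun WL' =>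
         strict (Nat.add (Nat.add WH (Nat.div (Nat.mul Hm (Nat.add (Nat.add
           (Nat.mul q 10995116277760) (Nat.mul 3 (Nat.mul q q)))
           72535537647666002948784128)) 37138201178561408246973726720)) 1) fun WH' =>
         strict (Nat.div (Nat.mul Lm Ld1) 0x10000000000000000) fun L' =>
         strict (Nat.add (Nat.div (Nat.mul Hm Hd1) 0x10000000000000000) 1) fun H' =>
         strict (Nat.div (Nat.mul Ld1 Lr) 0x10000000000000000) fun Ld' =>
         strict (Nat.add (Nat.div (Nat.mul Hd1 Hr) 0x10000000000000000) 1) fun Hd' =>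
         strict (Nat.add p 2) fun p' =>
         strict (Nat.div T 0x1000000000000000000) fun T' =>
           ih p' L' H' Ld' Hd' WL' WH' T')
        false) false) false) false) fuel

/-- `E_k` in the table `T` -/
noncomputable def eT (T k : ℕ) : ℕ := Nat.mod (Nat.shiftRight T (Nat.mul 72 k)) 0x1000000000

/-- `W_k` in the table `T` -/
noncomputable def wT (T k : ℕ) : ℕ :=
  Nat.mod (Nat.shiftRight T (Nat.add (Nat.mul 72 k) 36)) 0x1000000000

/-- the two conditions at the right end point `k2` (`V` upper bound at the left end point,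
`s = k1 + k2`, `d = k2 - k1`, `G` level, `R` ordinate); `K w` is the remaining check -/
noncomputable def rightOK (T G R k2 V s d : ℕ) (K : ℕ → Bool) : Bool :=
  cond (Nat.ble (Nat.mul (Nat.mul R d) 4096) (Nat.mul G s))
    (cond (Nat.ble k2 3072)
      (strict (wT T k2) fun w => strict (eT T k2) fun e =>
        cond (Nat.ble (Nat.mul (Nat.mul G s) 409600000000)
          (Nat.mul 79788456 (Nat.sub (Nat.add (Nat.mul k2 w) (Nat.mul 512 e)) V))) (K w) false)
      (strict (wT T 3072) fun w =>
        cond (Nat.ble (Nat.mul (Nat.mul G s) 409600000000)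
          (Nat.sub (Nat.mul k2 429496729600000000) (Nat.mul 79788457 V))) (K w) false))
    false

/-- check of one node `x = (k1 + 4096) + 2^13 k2 + 2^33 c` -/
noncomputable def nodeOK (T G R x : ℕ) : Bool :=
  strict (Nat.mod x 0x2000) fun u =>
  strict (Nat.mod (Nat.div x 0x2000) 0x100000) fun k2 =>
  strict (Nat.div x 0x200000000) fun c =>
  cond (Nat.ble 4096 u)
    (strict (Nat.sub u 4096) fun a => strict (eT T a) fun e => strict (wT T a) fun w =>
      cond (Nat.ble a 3072) (cond (Nat.ble (Nat.add a 1) k2)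
        (rightOK T G R k2 (Nat.add (Nat.mul a (Nat.add w 2)) (Nat.mul 512 (Nat.add e 2)))
          (Nat.add k2 a) (Nat.sub k2 a)
          (fun w2 => Nat.ble (Nat.mul (Nat.mul c (Nat.sub k2 a)) 512) (Nat.sub w2 (Nat.add w 2))))
        false) false)
    (strict (Nat.sub 4096 u) fun a => strict (eT T a) fun e => strict (wT T a) fun w =>
      cond (Nat.ble a 3072) (cond (Nat.ble (Nat.add a 1) k2)
        (rightOK T G R k2 (Nat.add (Nat.mul a (Nat.add w 2)) (Nat.mul 512 (Nat.add e 2)))
          (Nat.sub k2 a) (Nat.add k2 a)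
          (fun w2 => Nat.ble (Nat.mul (Nat.mul c (Nat.add k2 a)) 512) (Nat.add w2 w)))
        false) false)

/-- check of a row of nodes (level `G`, ordinates and weights `l`, packed nodes `P`) -/
noncomputable def rowOK (T G : ℕ) (l : List (ℕ × ℕ)) : ℕ → Bool :=
  List.rec (motive := fun _ => ℕ → Bool) (fun _ => true)
    (fun h _ ih P => cond (strict (Nat.mod P 0x1000000000000) fun x => nodeOK T G h.1 x)
      (strict (Nat.div P 0x1000000000000) fun P' => ih P') false) l

/-- check of all rows -/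
noncomputable def rowsOK (T : ℕ) (l : List (ℕ × ℕ)) (gp : List (ℕ × ℕ)) : Bool :=
  List.rec (motive := fun _ => Bool) true (fun h _ ih => cond (rowOK T h.1 l h.2) ih false) gp

/-- `∑ weight * c ^ k` over a row (added to `acc`) -/
noncomputable def lam (k : ℕ) (l : List (ℕ × ℕ)) : ℕ → ℕ → ℕ :=
  List.rec (motive := fun _ => ℕ → ℕ → ℕ) (fun _ acc => acc)
    (fun h _ ih P acc =>
      strict (Nat.add acc (Nat.mul h.2
        (Nat.pow (Nat.mod (Nat.div P 0x200000000) 0x8000) k))) fun acc' =>
      strict (Nat.div P 0x1000000000000) fun P' => ih P' acc') l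

/-- the list of pairs `(G, Λ)`, in continuation passing style (reversed order) -/
noncomputable def lams (k : ℕ) (l : List (ℕ × ℕ)) (gp : List (ℕ × ℕ)) :
    List (ℕ × ℕ) → (List (ℕ × ℕ) → Bool) → Bool :=
  List.rec (motive := fun _ => List (ℕ × ℕ) → (List (ℕ × ℕ) → Bool) → Bool)
    (fun acc K => K acc)
    (fun h _ ih acc K => strict (lam k l h.2 0) fun v => ih ((h.1, v) :: acc) K) gp

/-- the list of pairs `(Q, V^n)`, in continuation passing style (reversed order) -/
noncomputable def vpows (n : ℕ) (qv : List (ℕ × ℕ)) :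
    List (ℕ × ℕ) → (List (ℕ × ℕ) → Bool) → Bool :=
  List.rec (motive := fun _ => List (ℕ × ℕ) → (List (ℕ × ℕ) → Bool) → Bool)
    (fun acc K => K acc)
    (fun h _ ih acc K => strict (Nat.pow h.2 n) fun v => ih ((h.1, v) :: acc) K) qv

/-- `∑ Q^e * V` -/
noncomputable def jsum (e : ℕ) (l : List (ℕ × ℕ)) : ℕ → ℕ :=
  List.rec (motive := fun _ => ℕ → ℕ) (fun acc => acc)
    (fun h _ ih acc => strict (Nat.add acc (Nat.mul (Nat.pow h.1 e) h.2)) fun acc' => ih acc') l

/-- for a list with decreasing first components `G_J, ..., G_1`: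
`∑ (G_{j+1}^e - G_j^e) Λ_{j+1}` with `G_0 = 0`; `pr`, `v` are the previous power and value -/
noncomputable def bsum (e : ℕ) (l : List (ℕ × ℕ)) : ℕ → ℕ → ℕ → ℕ :=
  List.rec (motive := fun _ => ℕ → ℕ → ℕ → ℕ)
    (fun pr v acc => Nat.add acc (Nat.mul pr v))
    (fun h _ ih pr v acc =>
      strict (Nat.pow h.1 e) fun p =>
      strict (Nat.add acc (Nat.mul (Nat.sub pr p) v)) fun acc' => ih p h.2 acc') l

/-- `∏_{i<n} (s + 1 + i)` -/
noncomputable def asc (s n : ℕ) : ℕ :=
  Nat.rec (motive := fun _ => ℕ) 1 (fun i ih => Nat.mul ih (Nat.add (Nat.add s 1) i)) n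

/-- one block: `n! 10^8 32 256 2^(20(n+2e)+14(n-1)) <= asc C0 n jsum bsum` -/
noncomputable def blkOK (n s e : ℕ) (jl bl : List (ℕ × ℕ)) : Bool :=
  strict (jsum e jl 0) fun a => strict (bsum e bl 0 0 0) fun b =>
  Nat.ble (Nat.mul (Nat.mul (asc 0 n) 819200000000)
      (Nat.pow 2 (Nat.add (Nat.mul 20 (Nat.add n (Nat.mul 2 e))) (Nat.mul 14 (Nat.sub n 1)))))
    (Nat.mul (Nat.mul (asc s n) (Nat.mul 79788456 n)) (Nat.mul a b))

/-- all blocks: `es` are the right end points, `s` the left end point of the current block -/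
noncomputable def blksOK (n : ℕ) (jl bl : List (ℕ × ℕ)) (es : List ℕ) : ℕ → Bool :=
  List.rec (motive := fun _ => ℕ → Bool) (fun _ => true)
    (fun e _ ih s => cond (blkOK n s e jl bl) (strict (Nat.add e 1) fun s' => ih s') false) es

/-- the complete check for one dimension -/
noncomputable def dimOK (n : ℕ) (rw gp qv : List (ℕ × ℕ)) (es : List ℕ) : Bool :=
  vpows n qv [] fun jl => lams (Nat.sub n 1) rw gp [] fun bl => blksOK n jl bl es 1

/-- check of the quadrature data: `Q^2 10^16 2^24 <= C0^2 W W'`, `V^2 2^24 <= E E'` at `16 i, 16 (i+1)` -/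
noncomputable def qvOK (T : ℕ) (l : List (ℕ × ℕ)) : ℕ → Bool :=
  List.rec (motive := fun _ => ℕ → Bool) (fun _ => true)
    (fun h _ ih k => strict (Nat.add k 16) fun k' =>
      cond (Nat.ble (Nat.mul (Nat.mul h.1 h.1) 167772160000000000000000)
        (Nat.mul 6366197710863936 (Nat.mul (wT T k) (wT T k'))))
      (cond (Nat.ble (Nat.mul (Nat.mul h.2 h.2) 0x1000000) (Nat.mul (eT T k) (eT T k')))
        (ih k') false) false) l

end Pool.Agent.VPF.Num
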