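import Pool.Agent.VPF.Facts
import Pool.Agent.VPF.NumDefs

set_option autoImplicit false
open MeasureTheory ProbabilityTheory
open scoped ENNReal Matrix

namespace Pool.Agent.VPF

open Pool.Agent.VPF.Num

namespace J10046

theorem cosh_lo (x : ℝ) : 1 + x ^ 2 / 2 ≤ Real.cosh x := by
  have h1 : Real.cosh x = 1 + 2 * Real.sinh (|x| / 2) ^ 2 := by
    have h2 := Real.cosh_two_mul (|x| / 2)
    have h3 := Real.cosh_sq (|x| / 2)
    rw [show 2 * (|x| / 2) = |x| by ring, Real.cosh_abs] at h2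
    rw [h2, h3]
    ring
  have h4 : |x| / 2 ≤ Real.sinh (|x| / 2) := Real.self_le_sinh_iff.2 (by positivity)
  have h5 : 0 ≤ |x| / 2 := by positivity
  have h6 : x ^ 2 = |x| ^ 2 := (sq_abs x).symm
  rw [h1, h6]
  nlinarith

theorem W_aux (c d : ℝ) : (∫ t in (c - d)..(c + d), Real.exp (-t ^ 2 / 2)) =
    Real.exp (-c ^ 2 / 2) * ∫ s in (-d)..d, Real.cosh (c * s) * Real.exp (-s ^ 2 / 2) := by
  have h1 : (∫ t in (c - d)..(c + d), Real.exp (-t ^ 2 / 2)) =
      ∫ s in (-d)..d, Real.exp (-(s + c) ^ 2 / 2) := by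
    rw [intervalIntegral.integral_comp_add_right (fun t => Real.exp (-t ^ 2 / 2)) c]
    congr 1 <;> ring
  have h2 : (∫ s in (-d)..d, Real.exp (-(s + c) ^ 2 / 2)) =
      ∫ s in (-d)..d, Real.exp (-(-s + c) ^ 2 / 2) := by
    rw [intervalIntegral.integral_comp_neg (fun s => Real.exp (-(s + c) ^ 2 / 2))]
    simp
  have c1 : Continuous (fun s : ℝ => Real.exp (-(s + c) ^ 2 / 2)) := by fun_prop
  have c2 : Continuous (fun s : ℝ => Real.exp (-(-s + c) ^ 2 / 2)) := by fun_prop
  have h3 : (∫ s in (-d)..d, Real.exp (-(s + c) ^ 2 / 2)) +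
      (∫ s in (-d)..d, Real.exp (-(-s + c) ^ 2 / 2)) =
      ∫ s in (-d)..d, (Real.exp (-(s + c) ^ 2 / 2) + Real.exp (-(-s + c) ^ 2 / 2)) :=
    (intervalIntegral.integral_add (c1.intervalIntegrable _ _) (c2.intervalIntegrable _ _)).symm
  have h4 : (∫ s in (-d)..d, (Real.exp (-(s + c) ^ 2 / 2) + Real.exp (-(-s + c) ^ 2 / 2))) =
      ∫ s in (-d)..d, 2 * (Real.exp (-c ^ 2 / 2) * (Real.cosh (c * s) * Real.exp (-s ^ 2 / 2))) := by
    congr 1
    ext s
    have e1 : Real.exp (-(s + c) ^ 2 / 2) =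
        Real.exp (-c ^ 2 / 2) * Real.exp (-s ^ 2 / 2) * Real.exp (-(c * s)) := by
      rw [← Real.exp_add, ← Real.exp_add]; congr 1; ring
    have e2 : Real.exp (-(-s + c) ^ 2 / 2) =
        Real.exp (-c ^ 2 / 2) * Real.exp (-s ^ 2 / 2) * Real.exp (c * s) := by
      rw [← Real.exp_add, ← Real.exp_add]; congr 1; ring
    rw [e1, e2, Real.cosh_eq]
    ring
  rw [intervalIntegral.integral_const_mul, intervalIntegral.integral_const_mul] at h4
  rw [h1]
  linarith


theorem W_step (c d : ℝ) (hc : 0 ≤ c) (hd : 0 < d) (hcd : (c ^ 2 + 1) * d ^ 2 ≤ 1) :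
    Real.exp (-c ^ 2 / 2) * (2 * d * (1 + (c ^ 2 - 1) * d ^ 2 / 6 - c ^ 2 * d ^ 4 / 20)) ≤
      (∫ t in (c - d)..(c + d), Real.exp (-t ^ 2 / 2)) ∧
    (∫ t in (c - d)..(c + d), Real.exp (-t ^ 2 / 2)) ≤
      Real.exp (-c ^ 2 / 2) * (2 * d * (1 + (c ^ 2 - 1) * d ^ 2 / 6 + (c ^ 2 - 1) ^ 2 * d ^ 4 / 20)) := by

  rw [W_aux]
  have cI : Continuous (fun s : ℝ => Real.cosh (c * s) * Real.exp (-s ^ 2 / 2)) := by
    have := Real.continuous_cosh
    fun_prop
  have cL : Continuous (fun s : ℝ => 1 + (c ^ 2 - 1) / 2 * s ^ 2 - c ^ 2 / 4 * s ^ 4) := by fun_prop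
  have cU : Continuous (fun s : ℝ => 1 + (c ^ 2 - 1) / 2 * s ^ 2 + (c ^ 2 - 1) ^ 2 / 4 * s ^ 4) := by
    fun_prop
  have hE : 0 ≤ Real.exp (-c ^ 2 / 2) := (Real.exp_pos _).le
  have iL : (∫ s in (-d)..d, (1 + (c ^ 2 - 1) / 2 * s ^ 2 - c ^ 2 / 4 * s ^ 4)) =
      2 * d * (1 + (c ^ 2 - 1) * d ^ 2 / 6 - c ^ 2 * d ^ 4 / 20) := by
    rw [intervalIntegral.integral_sub, intervalIntegral.integral_add,
      intervalIntegral.integral_const_mul, intervalIntegral.integral_const_mul,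
      integral_pow, integral_pow, intervalIntegral.integral_const]
    · simp only [smul_eq_mul]
      push_cast
      ring
    all_goals exact Continuous.intervalIntegrable (by fun_prop) _ _
  have iU : (∫ s in (-d)..d, (1 + (c ^ 2 - 1) / 2 * s ^ 2 + (c ^ 2 - 1) ^ 2 / 4 * s ^ 4)) =
      2 * d * (1 + (c ^ 2 - 1) * d ^ 2 / 6 + (c ^ 2 - 1) ^ 2 * d ^ 4 / 20) := by
    rw [intervalIntegral.integral_add, intervalIntegral.integral_add,
      intervalIntegral.integral_const_mul, intervalIntegral.integral_const_mul,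
      integral_pow, integral_pow, intervalIntegral.integral_const]
    · simp only [smul_eq_mul]
      push_cast
      ring
    all_goals exact Continuous.intervalIntegrable (by fun_prop) _ _
  constructor
  · refine mul_le_mul_of_nonneg_left ?_ hE
    rw [← iL]
    refine intervalIntegral.integral_mono_on (by linarith) (cL.intervalIntegrable _ _)
      (cI.intervalIntegrable _ _) ?_
    intro s _
    have a1 : 1 + (c * s) ^ 2 / 2 ≤ Real.cosh (c * s) := cosh_lo _
    have a2 : 1 - s ^ 2 / 2 ≤ Real.exp (-s ^ 2 / 2) := by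
      have := Real.add_one_le_exp (-s ^ 2 / 2)
      linarith
    have a3 : 0 ≤ Real.exp (-s ^ 2 / 2) := (Real.exp_pos _).le
    have a4 : 0 ≤ 1 + (c * s) ^ 2 / 2 := by positivity
    calc 1 + (c ^ 2 - 1) / 2 * s ^ 2 - c ^ 2 / 4 * s ^ 4
        = (1 + (c * s) ^ 2 / 2) * (1 - s ^ 2 / 2) := by ring
      _ ≤ (1 + (c * s) ^ 2 / 2) * Real.exp (-s ^ 2 / 2) := mul_le_mul_of_nonneg_left a2 a4
      _ ≤ _ := mul_le_mul_of_nonneg_right a1 a3
  · refine mul_le_mul_of_nonneg_left ?_ hE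
    rw [← iU]
    refine intervalIntegral.integral_mono_on (by linarith) (cI.intervalIntegrable _ _)
      (cU.intervalIntegrable _ _) ?_
    intro s hs
    have a1 : Real.cosh (c * s) ≤ Real.exp ((c * s) ^ 2 / 2) := Real.cosh_le_exp_half_sq _
    have hs2 : s ^ 2 ≤ d ^ 2 := by
      rw [Set.mem_Icc] at hs
      nlinarith [hs.1, hs.2]
    have hu : |(c ^ 2 - 1) / 2 * s ^ 2| ≤ 1 := by
      have h0 : 0 ≤ s ^ 2 := sq_nonneg s
      have h1 : 0 ≤ c ^ 2 * s ^ 2 := by positivity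
      have h2 : (c ^ 2 + 1) * s ^ 2 ≤ 1 := by
        have : (c ^ 2 + 1) * s ^ 2 ≤ (c ^ 2 + 1) * d ^ 2 :=
          mul_le_mul_of_nonneg_left hs2 (by positivity)
        linarith
      rw [abs_le]
      constructor <;> nlinarith
    have a2 : Real.exp ((c ^ 2 - 1) / 2 * s ^ 2) ≤
        1 + (c ^ 2 - 1) / 2 * s ^ 2 + ((c ^ 2 - 1) / 2 * s ^ 2) ^ 2 := by
      have := Real.abs_exp_sub_one_sub_id_le hu
      rw [abs_le] at this
      linarith [this.2]
    calc Real.cosh (c * s) * Real.exp (-s ^ 2 / 2)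
        ≤ Real.exp ((c * s) ^ 2 / 2) * Real.exp (-s ^ 2 / 2) :=
          mul_le_mul_of_nonneg_right a1 (Real.exp_pos _).le
      _ = Real.exp ((c ^ 2 - 1) / 2 * s ^ 2) := by
          rw [← Real.exp_add]; congr 1; ring
      _ ≤ 1 + (c ^ 2 - 1) / 2 * s ^ 2 + ((c ^ 2 - 1) / 2 * s ^ 2) ^ 2 := a2
      _ = _ := by ring

theorem eT_zero (T : ℕ) : eT T 0 = T % 68719476736 := by
  simp [eT]
  rfl

theorem wT_zero (T : ℕ) : wT T 0 = T / 68719476736 % 68719476736 := by
  have : wT T 0 = (T >>> 36) % 68719476736 := rfl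
  rw [this, Nat.shiftRight_eq_div_pow]

theorem eT_succ (T k : ℕ) : eT T (k + 1) = eT (T / 4722366482869645213696) k := by
  have h1 : ∀ S j : ℕ, eT S j = (S >>> (72 * j)) % 68719476736 := fun S j => rfl
  have h2 : (2 : ℕ) ^ (72 * (k + 1)) = 4722366482869645213696 * 2 ^ (72 * k) := by
    rw [show 72 * (k + 1) = 72 + 72 * k by ring, pow_add]
    norm_num
  rw [h1, h1, Nat.shiftRight_eq_div_pow, Nat.shiftRight_eq_div_pow, h2, Nat.div_div_eq_div_mul]

theorem wT_succ (T k : ℕ) : wT T (k + 1) = wT (T / 4722366482869645213696) k := by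
  have h1 : ∀ S j : ℕ, wT S j = (S >>> (72 * j + 36)) % 68719476736 := fun S j => rfl
  have h2 : (2 : ℕ) ^ (72 * (k + 1) + 36) = 4722366482869645213696 * 2 ^ (72 * k + 36) := by
    rw [show 72 * (k + 1) + 36 = 72 + (72 * k + 36) by ring, pow_add]
    norm_num
  rw [h1, h1, Nat.shiftRight_eq_div_pow, Nat.shiftRight_eq_div_pow, h2, Nat.div_div_eq_div_mul]

theorem strict_eq2 {α : Type} (x : ℕ) (f : ℕ → α) : strict x f = f x := by
  have h := strict_eq x f
  rw [h]

theorem tblLoop_succ (n p L H Ld Hd WL WH T : ℕ) :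
    tblLoop (n + 1) p L H Ld Hd WL WH T =
      cond (Nat.ble ((T % 68719476736) * 4294967296) L)
      (cond (Nat.ble H ((T % 68719476736 + 2) * 4294967296))
      (cond (Nat.ble ((T / 68719476736 % 68719476736) * 4294967296) WL)
      (cond (Nat.ble WH ((T / 68719476736 % 68719476736 + 2) * 4294967296))
        (tblLoop n (p + 2)
          ((L * Ld / 18446744073709551616) * (Ld * Lr / 18446744073709551616) / 18446744073709551616)
          ((H * Hd / 18446744073709551616 + 1) * (Hd * Hr / 18446744073709551616 + 1) / 18446744073709551616 + 1)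
          ((Ld * Lr / 18446744073709551616) * Lr / 18446744073709551616)
          ((Hd * Hr / 18446744073709551616 + 1) * Hr / 18446744073709551616 + 1)
          (WL + (L * Ld / 18446744073709551616) * (69175279281294540800 +
            ((p + 1) * (p + 1)) * 10485760 - ((p + 1) * (p + 1)) * 3) / 35417748621522339102720)
          (WH + (H * Hd / 18446744073709551616 + 1) * (((p + 1) * (p + 1)) * 10995116277760 +
            3 * (((p + 1) * (p + 1)) * ((p + 1) * (p + 1))) + 72535537647666002948784128) /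
              37138201178561408246973726720 + 1)
          (T / 4722366482869645213696))
        false) false) false) false := by
  have h0 : tblLoop (n + 1) p L H Ld Hd WL WH T =
      (strict (Nat.mod T 0x1000000000) fun e =>
      strict (Nat.mod (Nat.div T 0x1000000000) 0x1000000000) fun w =>
      cond (Nat.ble (Nat.mul e 0x100000000) L)
      (cond (Nat.ble H (Nat.mul (Nat.add e 2) 0x100000000))
      (cond (Nat.ble (Nat.mul w 0x100000000) WL)
      (cond (Nat.ble WH (Nat.mul (Nat.add w 2) 0x100000000))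
        (strict (Nat.div (Nat.mul L Ld) 0x10000000000000000) fun Lm =>
         strict (Nat.add (Nat.div (Nat.mul H Hd) 0x10000000000000000) 1) fun Hm =>
         strict (Nat.div (Nat.mul Ld Lr) 0x10000000000000000) fun Ld1 =>
         strict (Nat.add (Nat.div (Nat.mul Hd Hr) 0x10000000000000000) 1) fun Hd1 =>
         strict (Nat.mul (Nat.add p 1) (Nat.add p 1)) fun q =>
         strict (Nat.add WL (Nat.div (Nat.mul Lm (Nat.sub (Nat.add 69175279281294540800
           (Nat.mul q 10485760)) (Nat.mul q 3))) 35417748621522339102720)) fun WL' =>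
         strict (Nat.add (Nat.add WH (Nat.div (Nat.mul Hm (Nat.add (Nat.add
           (Nat.mul q 10995116277760) (Nat.mul 3 (Nat.mul q q)))
           72535537647666002948784128)) 37138201178561408246973726720)) 1) fun WH' =>
         strict (Nat.div (Nat.mul Lm Ld1) 0x10000000000000000) fun L' =>
         strict (Nat.add (Nat.div (Nat.mul Hm Hd1) 0x10000000000000000) 1) fun H' =>
         strict (Nat.div (Nat.mul Ld1 Lr) 0x10000000000000000) fun Ld' =>
         strict (Nat.add (Nat.div (Nat.mul Hd1 Hr) 0x10000000000000000) 1) fun Hd' =>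
         strict (Nat.add p 2) fun p' =>
         strict (Nat.div T 0x1000000000000000000) fun T' =>
           tblLoop n p' L' H' Ld' Hd' WL' WH' T')
        false) false) false) false) := rfl
  have e1 : ∀ a b : ℕ, Nat.mod a b = a % b := fun _ _ => rfl
  have e2 : ∀ a b : ℕ, Nat.div a b = a / b := fun _ _ => rfl
  have e3 : ∀ a b : ℕ, Nat.mul a b = a * b := fun _ _ => rfl
  have e4 : ∀ a b : ℕ, Nat.add a b = a + b := fun _ _ => rfl
  have e5 : ∀ a b : ℕ, Nat.sub a b = a - b := fun _ _ => rfl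
  rw [h0]
  simp only [strict_eq2, e1, e2, e3, e4, e5]

theorem tblLoop_true (n p L H Ld Hd WL WH T : ℕ)
    (h : tblLoop (n + 1) p L H Ld Hd WL WH T = true) :
      (T % 68719476736) * 4294967296 ≤ L ∧
      H ≤ (T % 68719476736 + 2) * 4294967296 ∧
      (T / 68719476736 % 68719476736) * 4294967296 ≤ WL ∧
      WH ≤ (T / 68719476736 % 68719476736 + 2) * 4294967296 ∧
      tblLoop n (p + 2)
          ((L * Ld / 18446744073709551616) * (Ld * Lr / 18446744073709551616) / 18446744073709551616)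
          ((H * Hd / 18446744073709551616 + 1) * (Hd * Hr / 18446744073709551616 + 1) / 18446744073709551616 + 1)
          ((Ld * Lr / 18446744073709551616) * Lr / 18446744073709551616)
          ((Hd * Hr / 18446744073709551616 + 1) * Hr / 18446744073709551616 + 1)
          (WL + (L * Ld / 18446744073709551616) * (69175279281294540800 +
            ((p + 1) * (p + 1)) * 10485760 - ((p + 1) * (p + 1)) * 3) / 35417748621522339102720)
          (WH + (H * Hd / 18446744073709551616 + 1) * (((p + 1) * (p + 1)) * 10995116277760 +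
            3 * (((p + 1) * (p + 1)) * ((p + 1) * (p + 1))) + 72535537647666002948784128) /
              37138201178561408246973726720 + 1)
          (T / 4722366482869645213696) = true := by
  rw [tblLoop_succ] at h
  have key : ∀ (a : Bool) (b : Bool), cond a b false = true → a = true ∧ b = true := by
    intro a b hab
    cases a <;> simp_all
  obtain ⟨h1, h⟩ := key _ _ h
  obtain ⟨h2, h⟩ := key _ _ h
  obtain ⟨h3, h⟩ := key _ _ h
  obtain ⟨h4, h⟩ := key _ _ h
  exact ⟨Nat.le_of_ble_eq_true h1, Nat.le_of_ble_eq_true h2, Nat.le_of_ble_eq_true h3,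
    Nat.le_of_ble_eq_true h4, h⟩

/-- floor division, lower bound -/
theorem fl_lo (a b : ℕ) (x y : ℝ) (hx : 0 ≤ x)
    (ha : (a : ℝ) ≤ 18446744073709551616 * x) (hb : (b : ℝ) ≤ 18446744073709551616 * y) :
    ((a * b / 18446744073709551616 : ℕ) : ℝ) ≤ 18446744073709551616 * (x * y) := by
  have h1 : ((a * b / 18446744073709551616 : ℕ) : ℝ) ≤ ((a * b : ℕ) : ℝ) / ((18446744073709551616 : ℕ) : ℝ) :=
    Nat.cast_div_le
  refine h1.trans ?_
  rw [div_le_iff₀ (by norm_num)]
  push_cast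
  have h2 : (a : ℝ) * b ≤ (18446744073709551616 * x) * (18446744073709551616 * y) :=
    mul_le_mul ha hb (Nat.cast_nonneg _) (by positivity)
  nlinarith [h2]

/-- floor division plus one, upper bound -/
theorem fl_hi (a b : ℕ) (x y : ℝ) (hx : 0 ≤ x) (hy : 0 ≤ y)
    (ha : 18446744073709551616 * x ≤ (a : ℝ)) (hb : 18446744073709551616 * y ≤ (b : ℝ)) :
    18446744073709551616 * (x * y) ≤ ((a * b / 18446744073709551616 + 1 : ℕ) : ℝ) := by
  have h1 : ((a * b : ℕ) : ℝ) / ((18446744073709551616 : ℕ) : ℝ) <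
      ((a * b / 18446744073709551616 + 1 : ℕ) : ℝ) := by
    rw [div_lt_iff₀ (by norm_num)]
    exact_mod_cast (by
      have := Nat.lt_mul_div_succ (a * b) (show 0 < 18446744073709551616 by norm_num)
      linarith : a * b < (a * b / 18446744073709551616 + 1) * 18446744073709551616)
  refine le_trans ?_ h1.le
  rw [le_div_iff₀ (by norm_num)]
  push_cast
  have h2 : (18446744073709551616 * x) * (18446744073709551616 * y) ≤ (a : ℝ) * b :=
    mul_le_mul ha hb (by positivity) (Nat.cast_nonneg _)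
  nlinarith [h2]

theorem exp_const (x : ℝ) (hx : 0 ≤ x) (hx1 : x ≤ 1) :
    1 - x + x ^ 2 / 2 - x ^ 3 / 6 - x ^ 4 * (5 / 96) ≤ Real.exp (-x) ∧
    Real.exp (-x) ≤ 1 - x + x ^ 2 / 2 - x ^ 3 / 6 + x ^ 4 * (5 / 96) := by
  have h := Real.exp_bound (x := -x) (by rw [abs_neg, abs_of_nonneg hx]; exact hx1)
    (n := 4) (by norm_num)
  simp only [Finset.sum_range_succ, Finset.sum_range_zero, abs_neg, abs_of_nonneg hx] at h
  norm_num [Nat.factorial] at h
  rw [abs_le] at h
  constructor <;> nlinarith [h.1, h.2]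

theorem Ld0_bd : (Ld0 : ℝ) ≤ 18446744073709551616 * Real.exp (-(1 / 2097152)) ∧
    18446744073709551616 * Real.exp (-(1 / 2097152)) ≤ (Hd0 : ℝ) := by
  obtain ⟨h1, h2⟩ := exp_const (1 / 2097152) (by norm_num) (by norm_num)
  have e1 : (Ld0 : ℝ) = 18446735277618626559 := by
    have : Ld0 = 18446735277618626559 := rfl
    rw [this]; norm_num
  have e2 : (Hd0 : ℝ) = 18446735277618626560 := by
    have : Hd0 = 18446735277618626560 := rfl
    rw [this]; norm_num
  rw [e1, e2]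
  norm_num at h1 h2 ⊢
  constructor <;> linarith

theorem Lr_bd : (Lr : ℝ) ≤ 18446744073709551616 * Real.exp (-(1 / 1048576)) ∧
    18446744073709551616 * Real.exp (-(1 / 1048576)) ≤ (Hr : ℝ) := by
  obtain ⟨h1, h2⟩ := exp_const (1 / 1048576) (by norm_num) (by norm_num)
  have e1 : (Lr : ℝ) = 18446726481531895805 := by
    have : Lr = 18446726481531895805 := rfl
    rw [this]; norm_num
  have e2 : (Hr : ℝ) = 18446726481531895806 := by
    have : Hr = 18446726481531895806 := rfl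
    rw [this]; norm_num
  rw [e1, e2]
  norm_num at h1 h2 ⊢
  constructor <;> linarith

theorem W_lo (A N : ℕ) (x y : ℝ) (B : ℕ) (hB : (B : ℝ) ≤ 18446744073709551616 * y)
    (hA : (A : ℝ) ≤ 18446744073709551616 * x) :
    ((B + A * N / 35417748621522339102720 : ℕ) : ℝ) ≤
      18446744073709551616 * (y + x * ((N : ℝ) / 35417748621522339102720)) := by
  have h1 : ((A * N / 35417748621522339102720 : ℕ) : ℝ) ≤
      ((A * N : ℕ) : ℝ) / ((35417748621522339102720 : ℕ) : ℝ) := Nat.cast_div_le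
  have h2 : ((A * N : ℕ) : ℝ) / ((35417748621522339102720 : ℕ) : ℝ) ≤
      18446744073709551616 * (x * ((N : ℝ) / 35417748621522339102720)) := by
    rw [div_le_iff₀ (by norm_num)]
    push_cast
    have h3 : (A : ℝ) * N ≤ (18446744073709551616 * x) * N :=
      mul_le_mul_of_nonneg_right hA (Nat.cast_nonneg _)
    calc (A : ℝ) * N ≤ (18446744073709551616 * x) * N := h3
      _ = _ := by ring
  rw [Nat.cast_add]
  linarith

theorem W_hi (A N : ℕ) (x y : ℝ) (B : ℕ) (hB : 18446744073709551616 * y ≤ (B : ℝ))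
    (hA : 18446744073709551616 * x ≤ (A : ℝ)) :
    18446744073709551616 * (y + x * ((N : ℝ) / 37138201178561408246973726720)) ≤
      ((B + A * N / 37138201178561408246973726720 + 1 : ℕ) : ℝ) := by
  have h1 : ((A * N : ℕ) : ℝ) / ((37138201178561408246973726720 : ℕ) : ℝ) <
      ((A * N / 37138201178561408246973726720 + 1 : ℕ) : ℝ) := by
    rw [div_lt_iff₀ (by norm_num)]
    exact_mod_cast (by
      have := Nat.lt_mul_div_succ (A * N) (show 0 < 37138201178561408246973726720 by norm_num)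
      linarith :
        A * N < (A * N / 37138201178561408246973726720 + 1) * 37138201178561408246973726720)
  have h2 : 18446744073709551616 * (x * ((N : ℝ) / 37138201178561408246973726720)) ≤
      ((A * N : ℕ) : ℝ) / ((37138201178561408246973726720 : ℕ) : ℝ) := by
    rw [le_div_iff₀ (by norm_num)]
    push_cast
    have h3 : (18446744073709551616 * x) * N ≤ (A : ℝ) * N :=
      mul_le_mul_of_nonneg_right hA (Nat.cast_nonneg _)
    calc _ = (18446744073709551616 * x) * N := by ring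
      _ ≤ _ := h3
  have h4 : ((B + A * N / 37138201178561408246973726720 + 1 : ℕ) : ℝ) =
      (B : ℝ) + ((A * N / 37138201178561408246973726720 + 1 : ℕ) : ℝ) := by
    push_cast; ring
  rw [h4]
  linarith

theorem W_incr (k : ℕ) (hk : k ≤ 3072) :
    (∫ t in (0 : ℝ)..((k : ℝ) / 512), Real.exp (-t ^ 2 / 2)) +
      Real.exp (-((2 * (k : ℝ) + 1) ^ 2 / 2097152)) *
        ((((69175279281294540800 + ((2 * k + 1) * (2 * k + 1)) * 10485760 -
          ((2 * k + 1) * (2 * k + 1)) * 3 : ℕ)) : ℝ) / 35417748621522339102720) ≤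
      (∫ t in (0 : ℝ)..(((k + 1 : ℕ) : ℝ) / 512), Real.exp (-t ^ 2 / 2)) ∧
    (∫ t in (0 : ℝ)..(((k + 1 : ℕ) : ℝ) / 512), Real.exp (-t ^ 2 / 2)) ≤
    (∫ t in (0 : ℝ)..((k : ℝ) / 512), Real.exp (-t ^ 2 / 2)) +
      Real.exp (-((2 * (k : ℝ) + 1) ^ 2 / 2097152)) *
        ((((((2 * k + 1) * (2 * k + 1)) * 10995116277760 +
            3 * (((2 * k + 1) * (2 * k + 1)) * ((2 * k + 1) * (2 * k + 1))) +
              72535537647666002948784128 : ℕ)) : ℝ) / 37138201178561408246973726720) := by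
  have hk' : (k : ℝ) ≤ 3072 := by exact_mod_cast hk
  have hk0 : (0 : ℝ) ≤ k := Nat.cast_nonneg _
  obtain ⟨h1, h2⟩ := W_step ((2 * (k : ℝ) + 1) / 1024) (1 / 1024) (by positivity) (by norm_num)
    (by nlinarith)
  have cI : Continuous (fun t : ℝ => Real.exp (-t ^ 2 / 2)) := by fun_prop
  have h3 : (∫ t in (0 : ℝ)..(((k + 1 : ℕ) : ℝ) / 512), Real.exp (-t ^ 2 / 2)) =
      (∫ t in (0 : ℝ)..((k : ℝ) / 512), Real.exp (-t ^ 2 / 2)) +
      ∫ t in ((2 * (k : ℝ) + 1) / 1024 - 1 / 1024)..((2 * (k : ℝ) + 1) / 1024 + 1 / 1024),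
        Real.exp (-t ^ 2 / 2) := by
    rw [show (2 * (k : ℝ) + 1) / 1024 - 1 / 1024 = (k : ℝ) / 512 by ring,
      show (2 * (k : ℝ) + 1) / 1024 + 1 / 1024 = ((k + 1 : ℕ) : ℝ) / 512 by push_cast; ring]
    exact (intervalIntegral.integral_add_adjacent_intervals (cI.intervalIntegrable _ _)
      (cI.intervalIntegrable _ _)).symm
  have h4 : -((2 * (k : ℝ) + 1) / 1024) ^ 2 / 2 = -((2 * (k : ℝ) + 1) ^ 2 / 2097152) := by ring
  rw [h4] at h1 h2
  rw [h3]
  have hE : 0 ≤ Real.exp (-((2 * (k : ℝ) + 1) ^ 2 / 2097152)) := (Real.exp_pos _).le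
  constructor
  · have h5 : (((69175279281294540800 + ((2 * k + 1) * (2 * k + 1)) * 10485760 -
          ((2 * k + 1) * (2 * k + 1)) * 3 : ℕ)) : ℝ) =
        69175279281294540800 + ((2 * (k : ℝ) + 1) * (2 * k + 1)) * 10485760 -
          ((2 * (k : ℝ) + 1) * (2 * k + 1)) * 3 := by
      rw [Nat.cast_sub]
      · push_cast; ring
      · have : 0 ≤ (2 * k + 1) * (2 * k + 1) := Nat.zero_le _
        omega
    rw [h5]
    refine le_trans (le_of_eq ?_) (add_le_add_right h1 _)
    congr 1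
    congr 1
    ring
  · push_cast
    refine le_trans (add_le_add_right h2 _) ?_
    refine add_le_add_right (mul_le_mul_of_nonneg_left ?_ hE) _
    have hq : 0 ≤ (2 * (k : ℝ) + 1) ^ 2 := by positivity
    nlinarith [hq]

theorem main_ind (n : ℕ) : ∀ (k L H Ld Hd WL WH T : ℕ), n + k ≤ 3073 →
    (L : ℝ) ≤ 18446744073709551616 * Real.exp (-((2 * (k : ℝ)) ^ 2 / 2097152)) →
    18446744073709551616 * Real.exp (-((2 * (k : ℝ)) ^ 2 / 2097152)) ≤ (H : ℝ) →
    (Ld : ℝ) ≤ 18446744073709551616 * Real.exp (-((2 * (2 * (k : ℝ)) + 1) / 2097152)) →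
    18446744073709551616 * Real.exp (-((2 * (2 * (k : ℝ)) + 1) / 2097152)) ≤ (Hd : ℝ) →
    (WL : ℝ) ≤ 18446744073709551616 * (∫ t in (0 : ℝ)..((k : ℝ) / 512), Real.exp (-t ^ 2 / 2)) →
    18446744073709551616 * (∫ t in (0 : ℝ)..((k : ℝ) / 512), Real.exp (-t ^ 2 / 2)) ≤ (WH : ℝ) →
    tblLoop n (2 * k) L H Ld Hd WL WH T = true → ∀ j < n,
      (eT T j : ℝ) ≤ 4294967296 * Real.exp (-(((k + j : ℕ) : ℝ) / 512) ^ 2 / 2) ∧
      4294967296 * Real.exp (-(((k + j : ℕ) : ℝ) / 512) ^ 2 / 2) ≤ (eT T j : ℝ) + 2 ∧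
      (wT T j : ℝ) ≤ 4294967296 * (∫ t in (0 : ℝ)..(((k + j : ℕ) : ℝ) / 512), Real.exp (-t ^ 2 / 2)) ∧
      4294967296 * (∫ t in (0 : ℝ)..(((k + j : ℕ) : ℝ) / 512), Real.exp (-t ^ 2 / 2)) ≤
        (wT T j : ℝ) + 2 := by
  induction n with
  | zero => intro k L H Ld Hd WL WH T _ _ _ _ _ _ _ _ j hj; omega
  | succ n ih =>
    intro k L H Ld Hd WL WH T hk hL hH hLd hHd hWL hWH ht j hj
    obtain ⟨t1, t2, t3, t4, t5⟩ := tblLoop_true _ _ _ _ _ _ _ _ _ ht
    obtain ⟨r1, r2⟩ := Lr_bd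
    -- intermediate bounds
    have Em : Real.exp (-((2 * (k : ℝ)) ^ 2 / 2097152)) *
        Real.exp (-((2 * (2 * (k : ℝ)) + 1) / 2097152)) =
        Real.exp (-((2 * (k : ℝ) + 1) ^ 2 / 2097152)) := by
      rw [← Real.exp_add]; congr 1; ring
    have Ed : Real.exp (-((2 * (2 * (k : ℝ)) + 1) / 2097152)) * Real.exp (-(1 / 1048576)) =
        Real.exp (-((2 * (2 * (k : ℝ)) + 3) / 2097152)) := by
      rw [← Real.exp_add]; congr 1; ring
    have Ed2 : Real.exp (-((2 * (2 * (k : ℝ)) + 3) / 2097152)) * Real.exp (-(1 / 1048576)) =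
        Real.exp (-((2 * (2 * (((k + 1 : ℕ) : ℝ))) + 1) / 2097152)) := by
      rw [← Real.exp_add]; congr 1; push_cast; ring
    have En : Real.exp (-((2 * (k : ℝ) + 1) ^ 2 / 2097152)) *
        Real.exp (-((2 * (2 * (k : ℝ)) + 3) / 2097152)) =
        Real.exp (-((2 * (((k + 1 : ℕ) : ℝ))) ^ 2 / 2097152)) := by
      rw [← Real.exp_add]; congr 1; push_cast; ring
    have hLm := fl_lo L Ld _ _ (Real.exp_pos _).le hL hLd
    have hHm := fl_hi H Hd _ _ (Real.exp_pos _).le (Real.exp_pos _).le hH hHd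
    have hLd1 := fl_lo Ld Lr _ _ (Real.exp_pos _).le hLd r1
    have hHd1 := fl_hi Hd Hr _ _ (Real.exp_pos _).le (Real.exp_pos _).le hHd r2
    rw [Em] at hLm hHm
    rw [Ed] at hLd1 hHd1
    have hL' := fl_lo _ _ _ _ (Real.exp_pos _).le hLm hLd1
    have hH' := fl_hi _ _ _ _ (Real.exp_pos _).le (Real.exp_pos _).le hHm hHd1
    rw [En] at hL' hH'
    have hLd' := fl_lo _ _ _ _ (Real.exp_pos _).le hLd1 r1
    have hHd' := fl_hi _ _ _ _ (Real.exp_pos _).le (Real.exp_pos _).le hHd1 r2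
    rw [Ed2] at hLd' hHd'
    obtain ⟨i1, i2⟩ := W_incr k (by omega)
    have hWL' := (W_lo _ (69175279281294540800 + ((2 * k + 1) * (2 * k + 1)) * 10485760 -
          ((2 * k + 1) * (2 * k + 1)) * 3) _ _ WL hWL hLm).trans
      (mul_le_mul_of_nonneg_left i1 (by norm_num : (0 : ℝ) ≤ 18446744073709551616))
    have hWH' := (mul_le_mul_of_nonneg_left i2 (by norm_num : (0 : ℝ) ≤ 18446744073709551616)).trans
      (W_hi _ (((2 * k + 1) * (2 * k + 1)) * 10995116277760 +
            3 * (((2 * k + 1) * (2 * k + 1)) * ((2 * k + 1) * (2 * k + 1))) +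
              72535537647666002948784128) _ _ WH hWH hHm)
    rcases j with _ | j
    · rw [eT_zero, wT_zero, Nat.add_zero]
      have q1 : (((T % 68719476736 : ℕ)) : ℝ) * 4294967296 ≤ L := by exact_mod_cast t1
      have q2 : (H : ℝ) ≤ ((((T % 68719476736 : ℕ)) : ℝ) + 2) * 4294967296 := by exact_mod_cast t2
      have q3 : (((T / 68719476736 % 68719476736 : ℕ)) : ℝ) * 4294967296 ≤ WL := by
        exact_mod_cast t3
      have q4 : (WH : ℝ) ≤ ((((T / 68719476736 % 68719476736 : ℕ)) : ℝ) + 2) * 4294967296 := by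
        exact_mod_cast t4
      have q5 : -((k : ℝ) / 512) ^ 2 / 2 = -((2 * (k : ℝ)) ^ 2 / 2097152) := by ring
      rw [q5]
      refine ⟨?_, ?_, ?_, ?_⟩ <;> linarith
    · rw [eT_succ, wT_succ]
      have := ih (k + 1) _ _ _ _ _ _ _ (by omega) hL' hH' hLd' hHd' hWL' hWH' t5 j (by omega)
      rw [show k + (j + 1) = k + 1 + j by ring]
      exact this


theorem tbl_sound (T : ℕ)
    (h : tblLoop 3073 0 0x10000000000000000 0x10000000000000000 Ld0 Hd0 0 0 T = true) :
    ∀ k : ℕ, k ≤ 3072 →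
      (eT T k : ℝ) ≤ 4294967296 * Real.exp (-((k : ℝ) / 512) ^ 2 / 2) ∧
      4294967296 * Real.exp (-((k : ℝ) / 512) ^ 2 / 2) ≤ (eT T k : ℝ) + 2 ∧
      (wT T k : ℝ) ≤ 4294967296 * ∫ t in (0 : ℝ)..((k : ℝ) / 512), Real.exp (-t ^ 2 / 2) ∧
      4294967296 * (∫ t in (0 : ℝ)..((k : ℝ) / 512), Real.exp (-t ^ 2 / 2)) ≤ (wT T k : ℝ) + 2 := by

  obtain ⟨d1, d2⟩ := Ld0_bd
  intro k hk
  have := main_ind 3073 0 _ _ _ _ _ _ T (by norm_num) (by norm_num) (by norm_num)
    (by simpa using d1) (by simpa using d2) (by simp) (by simp) h k (by omega)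
  simpa using this

end J10046

end Pool.Agent.VPF
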