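import Pool.Agent.VPF.Facts
import Pool.Agent.VPF.NumDefs

set_option autoImplicit false
open MeasureTheory ProbabilityTheory
open scoped ENNReal Matrix

namespace Pool.Agent.VPF

open Pool.Agent.VPF.Num

namespace J10047

theorem kap_bounds833 : (0.79788456 : ℝ) ≤ 2 / √(2 * Real.pi) ∧ 2 / √(2 * Real.pi) ≤ (0.79788457 : ℝ) := by
  have h1 := Real.pi_gt_d20
  have h2 := Real.pi_lt_d20
  have hs : 0 < √(2 * Real.pi) := Real.sqrt_pos.mpr (by positivity)
  have hsq : √(2 * Real.pi) ^ 2 = 2 * Real.pi := Real.sq_sqrt (by positivity)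
  constructor
  · rw [le_div_iff₀ hs]
    by_contra hcon
    push Not at hcon
    have h3 : (2:ℝ) ^ 2 < (0.79788456 * √(2 * Real.pi)) ^ 2 := pow_lt_pow_left₀ hcon (by norm_num) (by norm_num)
    rw [mul_pow, hsq] at h3
    norm_num at h2 h3
    linarith
  · rw [div_le_iff₀ hs]
    by_contra hcon
    push Not at hcon
    have h3 : (0.79788457 * √(2 * Real.pi)) ^ 2 < (2:ℝ) ^ 2 := pow_lt_pow_left₀ hcon (by positivity) (by norm_num)
    rw [mul_pow, hsq] at h3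
    norm_num at h1 h3
    linarith

theorem PP_eq833 (y : ℝ) : PP y = 2 / √(2 * Real.pi) * ∫ t in (0 : ℝ)..y, Real.exp (-t ^ 2 / 2) := by
  unfold PP ph
  rw [intervalIntegral.integral_div]
  ring

theorem II_eq833 (y : ℝ) : II y = 2 / √(2 * Real.pi) *
    (y * (∫ t in (0 : ℝ)..y, Real.exp (-t ^ 2 / 2)) + Real.exp (-y ^ 2 / 2)) := by
  unfold II
  rw [PP_eq833]
  unfold ph
  ring

theorem cond_iff833 {c a b : Bool} : (cond c a b = true) ↔ (c = true ∧ a = true) ∨ (c = false ∧ b = true) := by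
  cases c <;> simp

theorem cond_false833 {c a : Bool} : (cond c a false = true) ↔ c = true ∧ a = true := by
  cases c <;> simp

/-- analytic core -/
theorem core833
    (GG_mul : ∀ a b : ℝ, 0 < b → GG a b * a = rr a b * b)
    (mu_zero : ∀ a b : ℝ, 0 < b → mu 0 a b = √(2 * Real.pi) * (PP (a + b) - PP (a - b)) / (4 * b))
    (rr_eq : ∀ a b : ℝ, 0 < b → rr a b = (II (a + b) - II (a - b)) / (2 * b))
    (PP_mono : StrictMono PP) (y1 y2 : ℝ) (s d c G R : ℕ) (hs : 1 ≤ s) (hd : 1 ≤ d)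
    (e1 : y2 + y1 = (s : ℝ) / 512) (e2 : y2 - y1 = (d : ℝ) / 512)
    (h1 : R * d * 4096 ≤ G * s)
    (h2 : G = 0 ∨ (G : ℝ) * s * 4096 ≤ 2199023255552 * (II y2 - II y1))
    (h3 : c = 0 ∨ (c : ℝ) * d * 512 ≤ 4294967296 * ((∫ t in (0 : ℝ)..y2, Real.exp (-t ^ 2 / 2)) -
      ∫ t in (0 : ℝ)..y1, Real.exp (-t ^ 2 / 2))) :
    ∃ a b : ℝ, 0 < a ∧ 0 < b ∧ (G : ℝ) / 1048576 ≤ GG a b ∧ (R : ℝ) / 256 ≤ rr a b ∧
      (c : ℝ) / 16384 ≤ mu 0 a b := by
  have hsR : (1 : ℝ) ≤ s := by exact_mod_cast hs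
  have hdR : (1 : ℝ) ≤ d := by exact_mod_cast hd
  obtain ⟨a, ha⟩ : ∃ a : ℝ, a = (s : ℝ) / 1024 := ⟨_, rfl⟩
  obtain ⟨b, hb⟩ : ∃ b : ℝ, b = (d : ℝ) / 1024 := ⟨_, rfl⟩
  have ha0 : 0 < a := by rw [ha]; positivity
  have hb0 : 0 < b := by rw [hb]; positivity
  have hab : a + b = y2 := by rw [ha, hb]; linarith
  have hab' : a - b = y1 := by rw [ha, hb]; linarith
  have hGG0 : 0 ≤ GG a b := by
    unfold GG
    apply intervalIntegral.integral_nonneg (by norm_num)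
    intro t _
    have := PP_mono.monotone (show t * a - b ≤ t * a + b by linarith)
    linarith
  have hrr := rr_eq a b hb0
  have hGm := GG_mul a b hb0
  have hGG : (G : ℝ) / 1048576 ≤ GG a b := by
    rcases h2 with h2 | h2
    · rw [h2]; simpa using hGG0
    · have h4 : GG a b * a = (II y2 - II y1) / 2 := by
        rw [hGm, hrr, hab, hab']
        field_simp
      have h5 : (G : ℝ) / 1048576 * a ≤ GG a b * a := by
        rw [h4, ha]
        linarith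
      exact le_of_mul_le_mul_right h5 ha0
  have hR : (R : ℝ) / 256 ≤ rr a b := by
    have h1R : (R : ℝ) * d * 4096 ≤ G * s := by exact_mod_cast h1
    have h4 : (R : ℝ) / 256 * b ≤ rr a b * b := by
      rw [← hGm]
      have h5 : (G : ℝ) / 1048576 * a ≤ GG a b * a := mul_le_mul_of_nonneg_right hGG ha0.le
      refine le_trans ?_ h5
      rw [ha, hb]
      linarith
    exact le_of_mul_le_mul_right h4 hb0
  refine ⟨a, b, ha0, hb0, hGG, hR, ?_⟩
  rw [mu_zero a b hb0, hab, hab']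
  have hy : y1 ≤ y2 := by
    have : 0 < (d : ℝ) / 512 := by positivity
    linarith
  rcases h3 with h3 | h3
  · rw [h3]
    have h4 := PP_mono.monotone hy
    have h5 : 0 ≤ √(2 * Real.pi) * (PP y2 - PP y1) / (4 * b) := by
      apply div_nonneg _ (by positivity)
      apply mul_nonneg (Real.sqrt_nonneg _)
      linarith
    simpa using h5
  · have hsp : 0 < √(2 * Real.pi) := Real.sqrt_pos.mpr (by positivity)
    rw [PP_eq833, PP_eq833]
    generalize (∫ t in (0 : ℝ)..y2, Real.exp (-t ^ 2 / 2)) = w2 at h3 ⊢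
    generalize (∫ t in (0 : ℝ)..y1, Real.exp (-t ^ 2 / 2)) = w1 at h3 ⊢
    have h4 : √(2 * Real.pi) * (2 / √(2 * Real.pi) * w2 - 2 / √(2 * Real.pi) * w1) / (4 * b) =
        (w2 - w1) / (2 * b) := by
      field_simp
      norm_num
      ring
    rw [h4, le_div_iff₀ (by positivity), hb]
    linarith

theorem nsub833 {A B C : ℕ} (h : A ≤ B - C) : A = 0 ∨ (A : ℝ) ≤ (B : ℝ) - C := by
  rcases le_or_gt C B with hBC | hBC
  · right
    have : (A : ℝ) ≤ ((B - C : ℕ) : ℝ) := by exact_mod_cast h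
    rwa [Nat.cast_sub hBC] at this
  · left
    omega

theorem right_unf833 (T G R k2 V s d : ℕ) (K : ℕ → Bool) (m n0 A B1 B2 B3 : ℕ)
    (h : cond (Nat.ble (Nat.mul (Nat.mul R d) m) (Nat.mul G s))
    (cond (Nat.ble k2 n0)
      (strict (wT T k2) fun w => strict (eT T k2) fun e =>
        cond (Nat.ble (Nat.mul (Nat.mul G s) A)
          (Nat.mul B1 (Nat.sub (Nat.add (Nat.mul k2 w) (Nat.mul 512 e)) V))) (K w) false)
      (strict (wT T n0) fun w =>
        cond (Nat.ble (Nat.mul (Nat.mul G s) A)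
          (Nat.sub (Nat.mul k2 B2) (Nat.mul B3 V))) (K w) false))
    false = true) :
    R * d * m ≤ G * s ∧
      ((k2 ≤ n0 ∧ G * s * A ≤ B1 * (k2 * wT T k2 + 512 * eT T k2 - V) ∧ K (wT T k2) = true) ∨
      (n0 < k2 ∧ G * s * A ≤ k2 * B2 - B3 * V ∧ K (wT T n0) = true)) := by
  simp only [strict_eq] at h
  simp only [cond_iff833, Nat.ble_eq, Nat.add_eq, Nat.sub_eq, Nat.mul_eq, Bool.false_eq_true, and_false,
    or_false] at h
  refine ⟨h.1, ?_⟩
  rcases h.2 with ⟨hk, hc, hK⟩ | ⟨hk, hc, hK⟩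
  · exact Or.inl ⟨hk, hc, hK⟩
  · refine Or.inr ⟨?_, hc, hK⟩
    by_contra hcon
    push Not at hcon
    rw [Nat.ble_eq.mpr hcon] at hk
    exact Bool.noConfusion hk

/-- right end point -/
theorem right833 (II_ge : ∀ y : ℝ, y ≤ II y) (PP_mono : StrictMono PP)
    (T : ℕ) (hT : ∀ k : ℕ, k ≤ 3072 →
      (eT T k : ℝ) ≤ 4294967296 * Real.exp (-((k : ℝ) / 512) ^ 2 / 2) ∧
      4294967296 * Real.exp (-((k : ℝ) / 512) ^ 2 / 2) ≤ (eT T k : ℝ) + 2 ∧
      (wT T k : ℝ) ≤ 4294967296 * ∫ t in (0 : ℝ)..((k : ℝ) / 512), Real.exp (-t ^ 2 / 2) ∧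
      4294967296 * (∫ t in (0 : ℝ)..((k : ℝ) / 512), Real.exp (-t ^ 2 / 2)) ≤ (wT T k : ℝ) + 2)
    (G R k2 V s d : ℕ) (K : ℕ → Bool) (hs : 1 ≤ s) (h : rightOK T G R k2 V s d K = true) :
    R * d * 4096 ≤ G * s ∧
    (G = 0 ∨ (G : ℝ) * s * 4096 ≤ 2199023255552 * II ((k2 : ℝ) / 512) - 2 / √(2 * Real.pi) * V) ∧
    ∃ w2 : ℕ, K w2 = true ∧
      (w2 : ℝ) ≤ 4294967296 * ∫ t in (0 : ℝ)..((k2 : ℝ) / 512), Real.exp (-t ^ 2 / 2) := by
  obtain ⟨κ1, κ2⟩ := kap_bounds833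
  have hκ0 : 0 < 2 / √(2 * Real.pi) := by linarith
  obtain ⟨g1, g2⟩ := right_unf833 T G R k2 V s d K 4096 3072 409600000000 79788456 429496729600000000 79788457 h
  refine ⟨g1, ?_⟩
  have hG0 : ∀ A : ℕ, G * s * A = 0 → A ≠ 0 → G = 0 := by
    intro A h1 h2
    rcases Nat.mul_eq_zero.mp h1 with h3 | h3
    · rcases Nat.mul_eq_zero.mp h3 with h4 | h4
      · exact h4
      · omega
    · exact absurd h3 h2
  rcases g2 with ⟨hk, hc, hK⟩ | ⟨hk, hc, hK⟩
  · obtain ⟨t1, t2, t3, t4⟩ := hT k2 hk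
    refine ⟨?_, wT T k2, hK, t3⟩
    have hc2 : G * s * 409600000000 ≤ 79788456 * (k2 * wT T k2 + 512 * eT T k2) - 79788456 * V := by
      rw [← Nat.mul_sub]; exact hc
    rcases nsub833 hc2 with h5 | h5
    · left; exact hG0 _ h5 (by norm_num)
    · right
      push_cast at h5
      rw [II_eq833]
      generalize (∫ t in (0 : ℝ)..((k2 : ℝ) / 512), Real.exp (-t ^ 2 / 2)) = W at t3 ⊢
      generalize Real.exp (-((k2 : ℝ) / 512) ^ 2 / 2) = E at t1 ⊢
      generalize 2 / √(2 * Real.pi) = κ at κ1 κ2 hκ0 ⊢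
      generalize (wT T k2 : ℝ) = w at t3 h5
      generalize (eT T k2 : ℝ) = e at t1 h5
      have hk0 : (0 : ℝ) ≤ k2 := by positivity
      have m1 : (k2 : ℝ) * w ≤ k2 * (4294967296 * W) := mul_le_mul_of_nonneg_left t3 hk0
      -- N := k2 w + 512 e - V
      have n1 : (k2 : ℝ) * w + 512 * e - V ≤ 2199023255552 * (k2 / 512 * W + E) - V := by nlinarith
      have n2 : κ * ((k2 : ℝ) * w + 512 * e - V) ≤ κ * (2199023255552 * (k2 / 512 * W + E) - V) :=
        mul_le_mul_of_nonneg_left n1 hκ0.le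
      have hGs : (0 : ℝ) ≤ G * s := by positivity
      have n3 : 0 ≤ (k2 : ℝ) * w + 512 * e - V := by nlinarith
      have n4 : 0.79788456 * ((k2 : ℝ) * w + 512 * e - V) ≤ κ * ((k2 : ℝ) * w + 512 * e - V) :=
        mul_le_mul_of_nonneg_right κ1 n3
      have n5 : (G : ℝ) * s * 4096 ≤ 0.79788456 * ((k2 : ℝ) * w + 512 * e - V) := by
        norm_num
        linarith
      nlinarith
  · have hk' : 3072 < k2 := hk
    obtain ⟨t1, t2, t3, t4⟩ := hT 3072 le_rfl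
    refine ⟨?_, wT T 3072, hK, t3.trans ?_⟩
    · rcases nsub833 hc with h5 | h5
      · left; exact hG0 _ h5 (by norm_num)
      · right
        push_cast at h5
        have h6 := II_ge ((k2 : ℝ) / 512)
        have hV : (0 : ℝ) ≤ V := by positivity
        have h7 : 2 / √(2 * Real.pi) * V ≤ 0.79788457 * V := mul_le_mul_of_nonneg_right κ2 hV
        generalize 2 / √(2 * Real.pi) * (V : ℝ) = κV at h7 ⊢
        norm_num at h7
        linarith
    · have h6 := PP_mono.monotone (show (((3072 : ℕ) : ℝ) / 512) ≤ (k2 : ℝ) / 512 by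
        have : ((3072 : ℕ) : ℝ) ≤ k2 := by exact_mod_cast hk'.le
        exact div_le_div_of_nonneg_right this (by norm_num))
      rw [PP_eq833, PP_eq833] at h6
      have h7 := le_of_mul_le_mul_left h6 hκ0
      linarith

/-- left end point -/
theorem left833 (T : ℕ) (hT : ∀ k : ℕ, k ≤ 3072 →
      (eT T k : ℝ) ≤ 4294967296 * Real.exp (-((k : ℝ) / 512) ^ 2 / 2) ∧
      4294967296 * Real.exp (-((k : ℝ) / 512) ^ 2 / 2) ≤ (eT T k : ℝ) + 2 ∧
      (wT T k : ℝ) ≤ 4294967296 * ∫ t in (0 : ℝ)..((k : ℝ) / 512), Real.exp (-t ^ 2 / 2) ∧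
      4294967296 * (∫ t in (0 : ℝ)..((k : ℝ) / 512), Real.exp (-t ^ 2 / 2)) ≤ (wT T k : ℝ) + 2)
    (a : ℕ) (ha : a ≤ 3072) :
    2199023255552 * II ((a : ℝ) / 512) ≤ 2 / √(2 * Real.pi) *
      ((a * (wT T a + 2) + 512 * (eT T a + 2) : ℕ) : ℝ) := by
  obtain ⟨κ1, κ2⟩ := kap_bounds833
  have hκ0 : 0 < 2 / √(2 * Real.pi) := by linarith
  obtain ⟨t1, t2, t3, t4⟩ := hT a ha
  rw [II_eq833]
  push_cast
  have ha0 : (0 : ℝ) ≤ a := by positivity
  have m1 : (a : ℝ) * (4294967296 * (∫ t in (0 : ℝ)..((a : ℝ) / 512), Real.exp (-t ^ 2 / 2))) ≤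
      a * ((wT T a : ℝ) + 2) := mul_le_mul_of_nonneg_left t4 ha0
  have m2 : 2199023255552 * ((a : ℝ) / 512 * (∫ t in (0 : ℝ)..((a : ℝ) / 512), Real.exp (-t ^ 2 / 2)) +
      Real.exp (-((a : ℝ) / 512) ^ 2 / 2)) ≤ a * ((wT T a : ℝ) + 2) + 512 * ((eT T a : ℝ) + 2) := by
    linarith
  have m3 := mul_le_mul_of_nonneg_left m2 hκ0.le
  linarith

theorem node_aux833 
    (GG_mul : ∀ a b : ℝ, 0 < b → GG a b * a = rr a b * b)
    (mu_zero : ∀ a b : ℝ, 0 < b → mu 0 a b = √(2 * Real.pi) * (PP (a + b) - PP (a - b)) / (4 * b))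
    (rr_eq : ∀ a b : ℝ, 0 < b → rr a b = (II (a + b) - II (a - b)) / (2 * b))
    (II_even : ∀ y : ℝ, II (-y) = II y) (II_ge : ∀ y : ℝ, y ≤ II y)
    (PP_odd : ∀ y : ℝ, PP (-y) = - PP y) (PP_mono : StrictMono PP)
    (T : ℕ) (hT : ∀ k : ℕ, k ≤ 3072 →
      (eT T k : ℝ) ≤ 4294967296 * Real.exp (-((k : ℝ) / 512) ^ 2 / 2) ∧
      4294967296 * Real.exp (-((k : ℝ) / 512) ^ 2 / 2) ≤ (eT T k : ℝ) + 2 ∧
      (wT T k : ℝ) ≤ 4294967296 * ∫ t in (0 : ℝ)..((k : ℝ) / 512), Real.exp (-t ^ 2 / 2) ∧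
      4294967296 * (∫ t in (0 : ℝ)..((k : ℝ) / 512), Real.exp (-t ^ 2 / 2)) ≤ (wT T k : ℝ) + 2)
    (m M1 M2 M3 n0 : ℕ) (hn0 : n0 = 3072) (G R x : ℕ)
    (h : (strict (Nat.mod x M1) fun u =>
  strict (Nat.mod (Nat.div x M1) M2) fun k2 =>
  strict (Nat.div x M3) fun c =>
  cond (Nat.ble m u)
    (strict (Nat.sub u m) fun a => strict (eT T a) fun e => strict (wT T a) fun w =>
      cond (Nat.ble a n0) (cond (Nat.ble (Nat.add a 1) k2)
        (rightOK T G R k2 (Nat.add (Nat.mul a (Nat.add w 2)) (Nat.mul 512 (Nat.add e 2)))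
          (Nat.add k2 a) (Nat.sub k2 a)
          (fun w2 => Nat.ble (Nat.mul (Nat.mul c (Nat.sub k2 a)) 512) (Nat.sub w2 (Nat.add w 2))))
        false) false)
    (strict (Nat.sub m u) fun a => strict (eT T a) fun e => strict (wT T a) fun w =>
      cond (Nat.ble a n0) (cond (Nat.ble (Nat.add a 1) k2)
        (rightOK T G R k2 (Nat.add (Nat.mul a (Nat.add w 2)) (Nat.mul 512 (Nat.add e 2)))
          (Nat.sub k2 a) (Nat.add k2 a)
          (fun w2 => Nat.ble (Nat.mul (Nat.mul c (Nat.add k2 a)) 512) (Nat.add w2 w)))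
        false) false)) = true) :
    ∃ a b : ℝ, 0 < a ∧ 0 < b ∧ (G : ℝ) / 1048576 ≤ GG a b ∧ (R : ℝ) / 256 ≤ rr a b ∧
      ((x / M3 : ℕ) : ℝ) / 16384 ≤ mu 0 a b := by
  simp only [strict_eq] at h
  have hc : Nat.div x M3 = x / M3 := rfl
  rw [hc] at h
  generalize x / M3 = c at h ⊢
  generalize Nat.mod x M1 = u at h
  generalize Nat.mod (Nat.div x M1) M2 = k2 at h
  simp only [cond_iff833, Nat.ble_eq, Nat.add_eq, Nat.sub_eq, Nat.mul_eq, Bool.false_eq_true, and_false,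
    or_false] at h
  have h' := h
  rcases h' with ⟨-, ha, hak, hr⟩ | ⟨-, ha, hak, hr⟩
  · generalize u - m = a at ha hak hr
    obtain ⟨r1, r2, w2, hK, hw2⟩ := right833 II_ge PP_mono T hT G R k2 _ (k2 + a) (k2 - a) _ (by omega) hr
    rw [Nat.ble_eq] at hK
    rw [hn0] at ha
    have hl := left833 T hT a ha
    obtain ⟨t1, t2, t3, t4⟩ := hT a ha
    have hsub : ((k2 - a : ℕ) : ℝ) = k2 - a := by rw [Nat.cast_sub (by omega)]
    apply core833 GG_mul mu_zero rr_eq PP_mono ((a : ℝ) / 512) ((k2 : ℝ) / 512) (k2 + a) (k2 - a) c G R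
      (by omega) (by omega)
    · push_cast; ring
    · rw [hsub]; ring
    · exact r1
    · rcases r2 with r2 | r2
      · exact Or.inl r2
      · right
        refine r2.trans ?_
        rw [mul_sub]
        linarith
    · rcases nsub833 hK with h5 | h5
      · left
        rcases Nat.mul_eq_zero.mp h5 with h6 | h6
        · rcases Nat.mul_eq_zero.mp h6 with h7 | h7
          · exact h7
          · omega
        · norm_num at h6
      · right
        push_cast at h5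
        refine h5.trans ?_
        rw [mul_sub]
        linarith
  · generalize m - u = a at ha hak hr
    obtain ⟨r1, r2, w2, hK, hw2⟩ := right833 II_ge PP_mono T hT G R k2 _ (k2 - a) (k2 + a) _ (by omega) hr
    rw [Nat.ble_eq] at hK
    rw [hn0] at ha
    have hl := left833 T hT a ha
    obtain ⟨t1, t2, t3, t4⟩ := hT a ha
    have hsub : ((k2 - a : ℕ) : ℝ) = k2 - a := by rw [Nat.cast_sub (by omega)]
    have hodd : ∫ t in (0 : ℝ)..(-((a : ℝ) / 512)), Real.exp (-t ^ 2 / 2) =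
        - ∫ t in (0 : ℝ)..((a : ℝ) / 512), Real.exp (-t ^ 2 / 2) := by
      have h5 := PP_odd ((a : ℝ) / 512)
      rw [PP_eq833, PP_eq833, ← mul_neg] at h5
      have hκ0 : 2 / √(2 * Real.pi) ≠ 0 := by
        have := kap_bounds833.1
        intro h0
        rw [h0] at this
        norm_num at this
      exact mul_left_cancel₀ hκ0 h5
    apply core833 GG_mul mu_zero rr_eq PP_mono (-((a : ℝ) / 512)) ((k2 : ℝ) / 512) (k2 - a) (k2 + a) c G R
      (by omega) (by omega)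
    · rw [hsub]; ring
    · push_cast; ring
    · exact r1
    · rcases r2 with r2 | r2
      · exact Or.inl r2
      · right
        refine r2.trans ?_
        rw [mul_sub, II_even]
        linarith
    · right
      have h5 : ((c * (k2 + a) * 512 : ℕ) : ℝ) ≤ ((w2 + wT T a : ℕ) : ℝ) := by exact_mod_cast hK
      push_cast at h5 ⊢
      refine h5.trans ?_
      rw [hodd, mul_sub, mul_neg]
      linarith

theorem node_sound
    (GG_mul : ∀ a b : ℝ, 0 < b → GG a b * a = rr a b * b)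
    (mu_zero : ∀ a b : ℝ, 0 < b → mu 0 a b = √(2 * Real.pi) * (PP (a + b) - PP (a - b)) / (4 * b))
    (rr_eq : ∀ a b : ℝ, 0 < b → rr a b = (II (a + b) - II (a - b)) / (2 * b))
    (II_even : ∀ y : ℝ, II (-y) = II y) (II_ge : ∀ y : ℝ, y ≤ II y)
    (PP_odd : ∀ y : ℝ, PP (-y) = - PP y) (PP_mono : StrictMono PP)
    (T : ℕ) (hT : ∀ k : ℕ, k ≤ 3072 →
      (eT T k : ℝ) ≤ 4294967296 * Real.exp (-((k : ℝ) / 512) ^ 2 / 2) ∧
      4294967296 * Real.exp (-((k : ℝ) / 512) ^ 2 / 2) ≤ (eT T k : ℝ) + 2 ∧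
      (wT T k : ℝ) ≤ 4294967296 * ∫ t in (0 : ℝ)..((k : ℝ) / 512), Real.exp (-t ^ 2 / 2) ∧
      4294967296 * (∫ t in (0 : ℝ)..((k : ℝ) / 512), Real.exp (-t ^ 2 / 2)) ≤ (wT T k : ℝ) + 2)
    (G R x : ℕ) (h : nodeOK T G R x = true) :
    ∃ a b : ℝ, 0 < a ∧ 0 < b ∧ (G : ℝ) / 1048576 ≤ GG a b ∧ (R : ℝ) / 256 ≤ rr a b ∧
      ((x / 0x200000000 : ℕ) : ℝ) / 16384 ≤ mu 0 a b := node_aux833 GG_mul mu_zero rr_eq II_even II_ge PP_odd PP_mono T hT 4096 0x2000 0x100000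
    0x200000000 3072 rfl G R x h

end J10047

end Pool.Agent.VPF
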