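import Pool.Agent.VPF.Facts
import Pool.Agent.VPF.NumDefs

set_option autoImplicit false
open MeasureTheory ProbabilityTheory
open scoped ENNReal Matrix

namespace Pool.Agent.VPF

open Pool.Agent.VPF.Num

namespace J10048

/-- the weights are the differences of the ordinates -/
def wtOK : ℕ → List (ℕ × ℕ) → Prop
  | _, [] => True
  | p, (h :: t) => h.1 = p + h.2 ∧ wtOK h.1 t


section aux10048

theorem rowOK_cons0_10048 (T G : ℕ) (h : ℕ × ℕ) (t : List (ℕ × ℕ)) (P : ℕ) :
    rowOK T G (h :: t) P = cond (strict (Nat.mod P 0x1000000000000) fun x => nodeOK T G h.1 x)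
      (strict (Nat.div P 0x1000000000000) fun P' => rowOK T G t P') false := by
  unfold rowOK
  rfl

theorem rowOK_cons_10048 (T G : ℕ) (h : ℕ × ℕ) (t : List (ℕ × ℕ)) (P : ℕ) :
    rowOK T G (h :: t) P = cond (nodeOK T G h.1 (P % 0x1000000000000))
      (rowOK T G t (P / 0x1000000000000)) false := by
  rw [rowOK_cons0_10048, strict_eq, strict_eq]
  have e1 : ∀ a b : ℕ, Nat.mod a b = a % b := fun a b => rfl
  have e2 : ∀ a b : ℕ, Nat.div a b = a / b := fun a b => rfl
  rw [e1, e2]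

theorem lam_nil_10048 (k P acc : ℕ) : lam k [] P acc = acc := by
  unfold lam
  rfl

theorem lam_cons0_10048 (k : ℕ) (h : ℕ × ℕ) (t : List (ℕ × ℕ)) (P acc : ℕ) :
    lam k (h :: t) P acc = strict (Nat.add acc (Nat.mul h.2
        (Nat.pow (Nat.mod (Nat.div P 0x200000000) 0x8000) k))) fun acc' =>
      strict (Nat.div P 0x1000000000000) fun P' => lam k t P' acc' := by
  unfold lam
  rfl

theorem lam_cons_10048 (k : ℕ) (h : ℕ × ℕ) (t : List (ℕ × ℕ)) (P acc : ℕ) :
    lam k (h :: t) P acc = lam k t (P / 0x1000000000000)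
      (acc + h.2 * (P / 0x200000000 % 0x8000) ^ k) := by
  rw [lam_cons0_10048, strict_eq, strict_eq]
  have e1 : ∀ a b : ℕ, Nat.mod a b = a % b := fun a b => rfl
  have e2 : ∀ a b : ℕ, Nat.div a b = a / b := fun a b => rfl
  have e3 : ∀ a b : ℕ, Nat.add a b = a + b := fun a b => rfl
  have e4 : ∀ a b : ℕ, Nat.mul a b = a * b := fun a b => rfl
  have e5 : ∀ a b : ℕ, Nat.pow a b = a ^ b := fun a b => rfl
  rw [e1, e2, e2, e3, e4, e5]

/-- the packed nodes -/
def xx10048 (P i : ℕ) : ℕ := P / 0x1000000000000 ^ i % 0x1000000000000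

theorem xx_zero_10048 (P : ℕ) : xx10048 P 0 = P % 0x1000000000000 := by
  unfold xx10048
  rw [pow_zero, Nat.div_one]

theorem xx_succ_10048 (P i : ℕ) : xx10048 P (i + 1) = xx10048 (P / 0x1000000000000) i := by
  unfold xx10048
  rw [pow_succ', Nat.div_div_eq_div_mul]

theorem node_of_row_10048 (T G : ℕ) : ∀ (l : List (ℕ × ℕ)) (P : ℕ), rowOK T G l P = true →
    ∀ i < l.length, nodeOK T G (l.getD i (0, 0)).1 (xx10048 P i) = true := by
  intro l
  induction l with
  | nil => intro P _ i hi; simp at hi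
  | cons h t ih =>
    intro P hP i hi
    rw [rowOK_cons_10048] at hP
    cases hn : nodeOK T G h.1 (P % 0x1000000000000) with
    | false => rw [hn] at hP; simp at hP
    | true =>
      rw [hn] at hP
      have hP' : rowOK T G t (P / 0x1000000000000) = true := hP
      cases i with
      | zero => rw [List.getD_cons_zero, xx_zero_10048]; exact hn
      | succ i =>
        rw [List.getD_cons_succ, xx_succ_10048]
        exact ih _ hP' i (by simpa using hi)

theorem lam_sum_10048 (k : ℕ) : ∀ (l : List (ℕ × ℕ)) (P acc : ℕ), lam k l P acc =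
    acc + ∑ i ∈ Finset.range l.length, (l.getD i (0, 0)).2 * (xx10048 P i / 0x200000000) ^ k := by
  intro l
  induction l with
  | nil => intro P acc; simp [lam_nil_10048]
  | cons h t ih =>
    intro P acc
    rw [lam_cons_10048, ih, List.length_cons, Finset.sum_range_succ']
    have e1 : P / 0x200000000 % 0x8000 = xx10048 P 0 / 0x200000000 := by
      rw [xx_zero_10048]
      omega
    have e2 : ∀ i ∈ Finset.range t.length,
        (t.getD i (0, 0)).2 * (xx10048 (P / 0x1000000000000) i / 0x200000000) ^ k =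
        ((h :: t).getD (i + 1) (0, 0)).2 * (xx10048 P (i + 1) / 0x200000000) ^ k := by
      intro i _
      rw [List.getD_cons_succ, xx_succ_10048]
    rw [Finset.sum_congr rfl e2, e1, List.getD_cons_zero]
    ring

/-- the ordinates -/
def rN10048 (p : ℕ) (l : List (ℕ × ℕ)) : ℕ → ℕ
  | 0 => p
  | i + 1 => (l.getD i (0, 0)).1

theorem rN_step_10048 : ∀ (l : List (ℕ × ℕ)) (p : ℕ), wtOK p l → ∀ i < l.length,
    rN10048 p l (i + 1) = rN10048 p l i + (l.getD i (0, 0)).2 := by
  intro l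
  induction l with
  | nil => intro p _ i hi; simp at hi
  | cons h t ih =>
    intro p hp i hi
    obtain ⟨hp1, hp2⟩ := hp
    cases i with
    | zero =>
      simp only [rN10048, List.getD_cons_zero]
      exact hp1
    | succ i =>
      have h3 := ih h.1 hp2 i (by simpa using hi)
      have e1 : rN10048 p (h :: t) (i + 1 + 1) = rN10048 h.1 t (i + 1) := by
        simp only [rN10048, List.getD_cons_succ]
      have e2 : rN10048 p (h :: t) (i + 1) = rN10048 h.1 t i := by
        cases i with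
        | zero => simp only [rN10048, List.getD_cons_zero]
        | succ i => simp only [rN10048, List.getD_cons_succ]
      rw [e1, e2, List.getD_cons_succ]
      exact h3

end aux10048

theorem row_sound (T : ℕ)
    (node_sound : ∀ G R x : ℕ, nodeOK T G R x = true →
      ∃ a b : ℝ, 0 < a ∧ 0 < b ∧ (G : ℝ) / 1048576 ≤ GG a b ∧ (R : ℝ) / 256 ≤ rr a b ∧
        ((x / 0x200000000 : ℕ) : ℝ) / 16384 ≤ mu 0 a b)
    (n : ℕ) (hn : 2 ≤ n)
    (nu_lower : ∀ (g : ℝ) (I : ℕ) (a b ρ μ : ℕ → ℝ),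
      (∀ i < I, 0 < a i ∧ 0 < b i ∧ g ≤ GG (a i) (b i) ∧ ρ (i + 1) ≤ rr (a i) (b i) ∧
        0 ≤ μ i ∧ μ i ≤ mu 0 (a i) (b i)) →
      ρ 0 = 0 → (∀ i < I, ρ i ≤ ρ (i + 1)) →
      ENNReal.ofReal (√(n : ℝ) * ∑ i ∈ Finset.range I, (ρ (i + 1) - ρ i) * μ i ^ (n - 1)) ≤
        ∫⁻ b in Set.Ioi (0 : ℝ), ∫⁻ a : ℝ, (if g ≤ GG a b then ENNReal.ofReal (dn n a b) else 0))
    (G P : ℕ) (l : List (ℕ × ℕ)) (hl : wtOK 0 l)
    (h : rowOK T G l P = true) :
    ENNReal.ofReal (√(n : ℝ) * ((lam (n - 1) l P 0 : ℕ) : ℝ) / (256 * 16384 ^ (n - 1))) ≤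
      ∫⁻ b in Set.Ioi (0 : ℝ), ∫⁻ a : ℝ,
        (if (G : ℝ) / 1048576 ≤ GG a b then ENNReal.ofReal (dn n a b) else 0) := by
  have hnode := node_of_row_10048 T G l P h
  have hex : ∀ i : ℕ, ∃ a b : ℝ, i < l.length → (0 < a ∧ 0 < b ∧ (G : ℝ) / 1048576 ≤ GG a b ∧
      ((l.getD i (0, 0)).1 : ℝ) / 256 ≤ rr a b ∧
      ((xx10048 P i / 0x200000000 : ℕ) : ℝ) / 16384 ≤ mu 0 a b) := by
    intro i
    by_cases hi : i < l.length
    · obtain ⟨a, b, hab⟩ := node_sound G _ _ (hnode i hi)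
      exact ⟨a, b, fun _ => hab⟩
    · exact ⟨0, 0, fun h' => absurd h' hi⟩
  choose a b hab using hex
  have hstep := rN_step_10048 l 0 hl
  have key := nu_lower ((G : ℝ) / 1048576) l.length a b (fun i => (rN10048 0 l i : ℝ) / 256)
    (fun i => ((xx10048 P i / 0x200000000 : ℕ) : ℝ) / 16384) (fun i hi => by
      obtain ⟨h1, h2, h3, h4, h5⟩ := hab i hi
      exact ⟨h1, h2, h3, h4, by positivity, h5⟩) (by simp [rN10048]) (fun i hi => by
      have h1 := hstep i hi
      have h2 : rN10048 0 l i ≤ rN10048 0 l (i + 1) := by omega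
      have h3 : (rN10048 0 l i : ℝ) ≤ (rN10048 0 l (i + 1) : ℝ) := by exact_mod_cast h2
      show (rN10048 0 l i : ℝ) / 256 ≤ (rN10048 0 l (i + 1) : ℝ) / 256
      linarith)
  refine le_trans (le_of_eq ?_) key
  congr 1
  rw [mul_div_assoc]
  congr 1
  rw [lam_sum_10048, zero_add, Nat.cast_sum, Finset.sum_div]
  apply Finset.sum_congr rfl
  intro i hi
  have h1 := hstep i (Finset.mem_range.1 hi)
  have h2 : (rN10048 0 l (i + 1) : ℝ) = (rN10048 0 l i : ℝ) + ((l.getD i (0, 0)).2 : ℝ) := by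
    exact_mod_cast h1
  rw [h2, div_pow, Nat.cast_mul, Nat.cast_pow]
  have h3 : (16384 : ℝ) ^ (n - 1) ≠ 0 := by positivity
  field_simp
  ring

end J10048

end Pool.Agent.VPF
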