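import Pool.Agent.VPF.Facts
import Pool.Agent.VPF.NumDefs

set_option autoImplicit false
open MeasureTheory ProbabilityTheory
open scoped ENNReal Matrix

namespace Pool.Agent.VPF

open Pool.Agent.VPF.Num

namespace J10049

/-! auxiliary lemmas for `dim_sound` -/

theorem vpows_cons' (n : ℕ) (h : ℕ × ℕ) (t acc : List (ℕ × ℕ)) (K : List (ℕ × ℕ) → Bool) :
    vpows n (h :: t) acc K = vpows n t ((h.1, h.2 ^ n) :: acc) K := rfl

theorem vpows_eq' (n : ℕ) (K : List (ℕ × ℕ) → Bool) : ∀ (l acc : List (ℕ × ℕ)),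
    vpows n l acc K = K ((l.map (fun h => (h.1, h.2 ^ n))).reverse ++ acc) := by
  intro l
  induction l with
  | nil => intro acc; rfl
  | cons h t ih =>
    intro acc
    rw [vpows_cons', ih]
    congr 1
    simp

theorem lams_cons' (k : ℕ) (rw : List (ℕ × ℕ)) (h : ℕ × ℕ) (t acc : List (ℕ × ℕ))
    (K : List (ℕ × ℕ) → Bool) :
    lams k rw (h :: t) acc K = lams k rw t ((h.1, lam k rw h.2 0) :: acc) K := rfl

theorem lams_eq' (k : ℕ) (rw : List (ℕ × ℕ)) (K : List (ℕ × ℕ) → Bool) :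
    ∀ (l acc : List (ℕ × ℕ)),
    lams k rw l acc K = K ((l.map (fun h => (h.1, lam k rw h.2 0))).reverse ++ acc) := by
  intro l
  induction l with
  | nil => intro acc; rfl
  | cons h t ih =>
    intro acc
    rw [lams_cons', ih]
    congr 1
    simp

theorem jsum_cons' (e : ℕ) (h : ℕ × ℕ) (t : List (ℕ × ℕ)) (acc : ℕ) :
    jsum e (h :: t) acc = jsum e t (acc + h.1 ^ e * h.2) := rfl

theorem jsum_eq' (e : ℕ) : ∀ (l : List (ℕ × ℕ)) (acc : ℕ),
    jsum e l acc = acc + (l.map (fun h => h.1 ^ e * h.2)).sum := by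
  intro l
  induction l with
  | nil => intro acc; rfl
  | cons h t ih =>
    intro acc
    rw [jsum_cons', ih, List.map_cons, List.sum_cons]
    ring

theorem bsum_nil' (e pr v acc : ℕ) : bsum e [] pr v acc = acc + pr * v := rfl

theorem bsum_cons' (e : ℕ) (h : ℕ × ℕ) (t : List (ℕ × ℕ)) (pr v acc : ℕ) :
    bsum e (h :: t) pr v acc = bsum e t (h.1 ^ e) h.2 (acc + (pr - h.1 ^ e) * v) := rfl

/-- the levels as a sequence, with `0` in front -/
def gN (l : List (ℕ × ℕ)) : ℕ → ℕ
  | 0 => 0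
  | j + 1 => (l.getD j (0, 0)).1

def LN (l : List (ℕ × ℕ)) : ℕ → ℕ
  | 0 => 0
  | j + 1 => (l.getD j (0, 0)).2

theorem gN_append (l : List (ℕ × ℕ)) (x : ℕ × ℕ) (j : ℕ) (hj : j ≤ l.length) :
    gN (l ++ [x]) j = gN l j := by
  cases j with
  | zero => rfl
  | succ j =>
    show ((l ++ [x]).getD j (0, 0)).1 = (l.getD j (0, 0)).1
    rw [List.getD_append _ _ _ _ (by omega)]

theorem LN_append (l : List (ℕ × ℕ)) (x : ℕ × ℕ) (j : ℕ) (hj : j ≤ l.length) :
    LN (l ++ [x]) j = LN l j := by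
  cases j with
  | zero => rfl
  | succ j =>
    show ((l ++ [x]).getD j (0, 0)).2 = (l.getD j (0, 0)).2
    rw [List.getD_append _ _ _ _ (by omega)]

theorem gN_last (l : List (ℕ × ℕ)) (x : ℕ × ℕ) : gN (l ++ [x]) (l.length + 1) = x.1 := by
  show ((l ++ [x]).getD l.length (0, 0)).1 = x.1
  rw [List.getD_append_right _ _ _ _ le_rfl]
  simp

theorem LN_last (l : List (ℕ × ℕ)) (x : ℕ × ℕ) : LN (l ++ [x]) (l.length + 1) = x.2 := by
  show ((l ++ [x]).getD l.length (0, 0)).2 = x.2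
  rw [List.getD_append_right _ _ _ _ le_rfl]
  simp

theorem bsum_eq' (e : ℕ) (he : 1 ≤ e) (l : List (ℕ × ℕ)) :
    ∀ (pr v acc : ℕ), l.Pairwise (fun x y => x.1 ≤ y.1) → (∀ x ∈ l, x.1 ^ e ≤ pr) →
    (bsum e l.reverse pr v acc : ℝ) = acc + ((pr : ℝ) - (gN l l.length : ℝ) ^ e) * v +
      ∑ j ∈ Finset.range l.length, ((gN l (j + 1) : ℝ) ^ e - (gN l j : ℝ) ^ e) * LN l (j + 1) := by
  induction l using List.reverseRecOn with
  | nil =>
    intro pr v acc _ _
    rw [List.reverse_nil, bsum_nil']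
    simp only [List.length_nil, Finset.range_zero, Finset.sum_empty, gN]
    push_cast
    rw [zero_pow (by omega)]
    ring
  | append_singleton l x ih =>
    intro pr v acc hp hb
    have hp1 : l.Pairwise (fun x y => x.1 ≤ y.1) := (List.pairwise_append.1 hp).1
    have hp2 : ∀ y ∈ l, y.1 ≤ x.1 := fun y hy =>
      (List.pairwise_append.1 hp).2.2 y hy x (List.mem_singleton_self x)
    have hx : x.1 ^ e ≤ pr := hb x (by simp)
    rw [List.reverse_append, List.reverse_singleton, List.singleton_append, bsum_cons',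
      ih (x.1 ^ e) x.2 _ hp1 (fun y hy => Nat.pow_le_pow_left (hp2 y hy) e)]
    rw [List.length_append, List.length_singleton, Finset.sum_range_succ, gN_last, LN_last,
      gN_append l x l.length le_rfl]
    have h1 : ∑ j ∈ Finset.range l.length, ((gN (l ++ [x]) (j + 1) : ℝ) ^ e -
        (gN (l ++ [x]) j : ℝ) ^ e) * LN (l ++ [x]) (j + 1) =
        ∑ j ∈ Finset.range l.length, ((gN l (j + 1) : ℝ) ^ e - (gN l j : ℝ) ^ e) * LN l (j + 1) := by
      refine Finset.sum_congr rfl (fun j hj => ?_)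
      have hj' := Finset.mem_range.1 hj
      rw [gN_append l x (j + 1) (by omega), gN_append l x j (by omega),
        LN_append l x (j + 1) (by omega)]
    rw [h1]
    push_cast [Nat.cast_sub hx]
    ring

theorem asc_eq' (s : ℕ) : ∀ n : ℕ, asc s n = n.factorial * (s + n).choose n := by
  have h : ∀ n : ℕ, asc s n = (s + 1).ascFactorial n := by
    intro n
    induction n with
    | zero => rfl
    | succ n ih =>
      have : asc s (n + 1) = asc s n * (s + 1 + n) := rfl
      rw [this, ih, Nat.ascFactorial_succ]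
      ring
  intro n
  rw [h, Nat.ascFactorial_eq_factorial_mul_choose]

theorem sum_getD (f : ℕ × ℕ → ℕ) : ∀ l : List (ℕ × ℕ),
    (l.map f).sum = ∑ i ∈ Finset.range l.length, f (l.getD i (0, 0)) := by
  intro l
  induction l with
  | nil => rfl
  | cons h t ih =>
    rw [List.map_cons, List.sum_cons, List.length_cons, Finset.sum_range_succ', ih, add_comm]
    rfl

theorem qvOK_cons' (T : ℕ) (h : ℕ × ℕ) (t : List (ℕ × ℕ)) (k : ℕ) :
    qvOK T (h :: t) k = cond (Nat.ble (h.1 * h.1 * 167772160000000000000000)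
      (6366197710863936 * (wT T k * wT T (k + 16))))
      (cond (Nat.ble (h.2 * h.2 * 0x1000000) (eT T k * eT T (k + 16)))
        (qvOK T t (k + 16)) false) false := rfl

theorem qvOK_get (T : ℕ) : ∀ (l : List (ℕ × ℕ)) (k : ℕ), qvOK T l k = true → ∀ i < l.length,
    (l.getD i (0, 0)).1 * (l.getD i (0, 0)).1 * 167772160000000000000000 ≤
      6366197710863936 * (wT T (k + 16 * i) * wT T (k + 16 * i + 16)) ∧
    (l.getD i (0, 0)).2 * (l.getD i (0, 0)).2 * 0x1000000 ≤
      eT T (k + 16 * i) * eT T (k + 16 * i + 16) := by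
  intro l
  induction l with
  | nil => intro k _ i hi; simp at hi
  | cons h t ih =>
    intro k hk i hi
    rw [qvOK_cons'] at hk
    cases h1 : Nat.ble (h.1 * h.1 * 167772160000000000000000)
      (6366197710863936 * (wT T k * wT T (k + 16))) with
    | false => rw [h1] at hk; simp at hk
    | true =>
      rw [h1, cond_true] at hk
      cases h2 : Nat.ble (h.2 * h.2 * 0x1000000) (eT T k * eT T (k + 16)) with
      | false => rw [h2] at hk; simp at hk
      | true =>
        rw [h2, cond_true] at hk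
        cases i with
        | zero => exact ⟨Nat.le_of_ble_eq_true h1, Nat.le_of_ble_eq_true h2⟩
        | succ i =>
          have := ih (k + 16) hk i (by simpa using hi)
          rw [show k + 16 * (i + 1) = k + 16 + 16 * i by ring]
          exact this

theorem blksOK_cons' (n : ℕ) (jl bl : List (ℕ × ℕ)) (e : ℕ) (t : List ℕ) (s : ℕ) :
    blksOK n jl bl (e :: t) s = cond (blkOK n s e jl bl) (blksOK n jl bl t (e + 1)) false := rfl

theorem blksOK_get (n : ℕ) (jl bl : List (ℕ × ℕ)) (m : ℕ) : ∀ (es : List ℕ) (s : ℕ),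
    blksOK n jl bl es s = true → s ≤ m → (∃ e ∈ es, m ≤ e) →
    ∃ s' e, s' ≤ m ∧ m ≤ e ∧ blkOK n s' e jl bl = true := by
  intro es
  induction es with
  | nil =>
    rintro s _ _ ⟨e, he, _⟩
    simp at he
  | cons e t ih =>
    intro s hk hs hex
    rw [blksOK_cons'] at hk
    cases h1 : blkOK n s e jl bl with
    | false => rw [h1] at hk; simp at hk
    | true =>
      rw [h1, cond_true] at hk
      by_cases hme : m ≤ e
      · exact ⟨s, e, hs, hme, h1⟩
      · refine ih (e + 1) hk (by omega) ?_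
        obtain ⟨e', he', hme'⟩ := hex
        rcases List.mem_cons.1 he' with rfl | he''
        · exact absurd hme' hme
        · exact ⟨e', he'', hme'⟩

theorem blkOK_iff' (n s e : ℕ) (jl bl : List (ℕ × ℕ)) (h : blkOK n s e jl bl = true) :
    asc 0 n * 819200000000 * 2 ^ (20 * (n + 2 * e) + 14 * (n - 1)) ≤
      asc s n * (79788456 * n) * (jsum e jl 0 * bsum e bl 0 0 0) :=
  Nat.le_of_ble_eq_true h

theorem c0_le : (79788456 / 100000000 : ℝ) ≤ 2 / √(2 * Real.pi) := by
  have hpi := Real.pi_lt_d20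
  have hp := Real.pi_pos
  have hs : 0 < √(2 * Real.pi) := Real.sqrt_pos.2 (by positivity)
  rw [le_div_iff₀ hs]
  have h1 : √(2 * Real.pi) ≤ 2 / (79788456 / 100000000) := by
    rw [Real.sqrt_le_left (by norm_num)]
    norm_num at hpi ⊢
    linarith
  calc (79788456 / 100000000 : ℝ) * √(2 * Real.pi)
      ≤ (79788456 / 100000000 : ℝ) * (2 / (79788456 / 100000000)) :=
        mul_le_mul_of_nonneg_left h1 (by norm_num)
    _ = 2 := by norm_num

theorem PP_eq' (y : ℝ) : PP y = 2 / √(2 * Real.pi) * ∫ t in (0 : ℝ)..y, Real.exp (-t ^ 2 / 2) := by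
  unfold PP ph
  rw [intervalIntegral.integral_div]
  ring

theorem dim_sound (T : ℕ)
    (hT : ∀ k : ℕ, k ≤ 3072 →
      (eT T k : ℝ) ≤ 4294967296 * Real.exp (-((k : ℝ) / 512) ^ 2 / 2) ∧
      4294967296 * Real.exp (-((k : ℝ) / 512) ^ 2 / 2) ≤ (eT T k : ℝ) + 2 ∧
      (wT T k : ℝ) ≤ 4294967296 * ∫ t in (0 : ℝ)..((k : ℝ) / 512), Real.exp (-t ^ 2 / 2) ∧
      4294967296 * (∫ t in (0 : ℝ)..((k : ℝ) / 512), Real.exp (-t ^ 2 / 2)) ≤ (wT T k : ℝ) + 2)
    (n : ℕ) (hn : 2 ≤ n) (EE BI : ℕ → ℝ≥0∞) (hEE : ∀ m m' : ℕ, m ≤ m' → EE m' ≤ EE m)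
    (hprod : ∀ m : ℕ, 1 ≤ m → J1 n m * BI m ≤ EE m)
    (J1_quad : ∀ (m L : ℕ), 1 ≤ m → ∀ (Δ : ℝ), 0 < Δ → ∀ (q v : ℕ → ℝ),
      (∀ l < L, 0 ≤ q l ∧ q l ^ 2 ≤ PP (l * Δ) * PP ((l + 1) * Δ)) →
      (∀ l < L, 0 ≤ v l ∧ v l ≤ Real.exp (-((l * Δ) ^ 2 + ((l + 1) * Δ) ^ 2) / 4)) →
      ENNReal.ofReal (2 * √(n : ℝ) / √(2 * Real.pi) * Δ *
        ∑ l ∈ Finset.range L, v l ^ n * q l ^ m) ≤ J1 n m)
    (nuG : ℝ → ℝ≥0∞)
    (BB_lower : ∀ (m : ℕ), 1 ≤ m → ∀ (J : ℕ) (g Λ : ℕ → ℝ), g 0 = 0 →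
      (∀ j < J, g j ≤ g (j + 1)) → (∀ j, 0 ≤ Λ j) →
      (∀ j < J, ENNReal.ofReal (Λ (j + 1)) ≤ nuG (g (j + 1))) →
      ENNReal.ofReal (∑ j ∈ Finset.range J, (g (j + 1) ^ m - g j ^ m) * Λ (j + 1)) ≤ BI m)
    (rw gp qv : List (ℕ × ℕ)) (es : List ℕ)
    (hgp : gp.Pairwise (fun x y => x.1 ≤ y.1))
    (hrow : ∀ h ∈ gp, ENNReal.ofReal (√(n : ℝ) * ((lam (n - 1) rw h.2 0 : ℕ) : ℝ) /
      (256 * 16384 ^ (n - 1))) ≤ nuG ((h.1 : ℝ) / 1048576))
    (hqlen : qv.length ≤ 192) (hqv : qvOK T qv 0 = true)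
    (h : dimOK n rw gp qv es = true) (m : ℕ) (hm : 1 ≤ m) (hme : ∃ e ∈ es, m ≤ e) :
    1 ≤ ((n + m).choose n : ℝ≥0∞) * EE m := by
  obtain ⟨s, e, hsm, hme', hblk⟩ : ∃ s e, s ≤ m ∧ m ≤ e ∧
      blkOK n s e ((qv.map (fun h => (h.1, h.2 ^ n))).reverse)
        ((gp.map (fun h => (h.1, lam (n - 1) rw h.2 0))).reverse) = true := by
    have h1 : dimOK n rw gp qv es = blksOK n ((qv.map (fun h => (h.1, h.2 ^ n))).reverse)
        ((gp.map (fun h => (h.1, lam (n - 1) rw h.2 0))).reverse) es 1 := by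
      show vpows n qv [] (fun jl => lams (n - 1) rw gp [] (fun bl => blksOK n jl bl es 1)) = _
      rw [vpows_eq', lams_eq', List.append_nil, List.append_nil]
    rw [h1] at h
    exact blksOK_get n _ _ m es 1 h hm hme
  have he : 1 ≤ e := hm.trans hme'
  have hineq := blkOK_iff' _ _ _ _ _ hblk
  rw [asc_eq', asc_eq'] at hineq
  -- the quadrature sum
  set a : ℕ := jsum e ((qv.map (fun h => (h.1, h.2 ^ n))).reverse) 0 with ha
  have ha' : (a : ℝ) = ∑ l ∈ Finset.range qv.length,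
      ((qv.getD l (0, 0)).1 : ℝ) ^ e * ((qv.getD l (0, 0)).2 : ℝ) ^ n := by
    have h1 : a = (qv.map (fun h => h.1 ^ e * h.2 ^ n)).sum := by
      rw [ha, jsum_eq', zero_add, List.map_reverse, List.sum_reverse, List.map_map]
      rfl
    rw [h1, sum_getD]
    push_cast
    rfl
  have hA : ENNReal.ofReal (2 * √(n : ℝ) / √(2 * Real.pi) * (1 / 32) *
      ((a : ℝ) / (1048576 ^ n * 1048576 ^ e))) ≤ J1 n e := by
    have hget := qvOK_get T qv 0 hqv
    have h1 := J1_quad e qv.length he (1 / 32) (by norm_num)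
      (fun l => ((qv.getD l (0, 0)).1 : ℝ) / 1048576) (fun l => ((qv.getD l (0, 0)).2 : ℝ) / 1048576)
      ?_ ?_
    · have h2 : ∑ l ∈ Finset.range qv.length, (((qv.getD l (0, 0)).2 : ℝ) / 1048576) ^ n *
          (((qv.getD l (0, 0)).1 : ℝ) / 1048576) ^ e = (a : ℝ) / (1048576 ^ n * 1048576 ^ e) := by
        rw [ha', Finset.sum_div]
        refine Finset.sum_congr rfl (fun l _ => ?_)
        rw [div_pow, div_pow]
        field_simp
      rw [h2] at h1
      exact h1
    · intro l hl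
      obtain ⟨g1, -⟩ := hget l hl
      rw [zero_add] at g1
      obtain ⟨-, -, t1, -⟩ := hT (16 * l) (by omega)
      obtain ⟨-, -, t2, -⟩ := hT (16 * l + 16) (by omega)
      refine ⟨by positivity, ?_⟩
      have e1 : (l : ℝ) * (1 / 32) = ((16 * l : ℕ) : ℝ) / 512 := by push_cast; ring
      have e2 : ((l : ℝ) + 1) * (1 / 32) = ((16 * l + 16 : ℕ) : ℝ) / 512 := by push_cast; ring
      rw [e1, e2, PP_eq', PP_eq']
      generalize (∫ t in (0 : ℝ)..(((16 * l : ℕ) : ℝ) / 512), Real.exp (-t ^ 2 / 2)) = I1 at *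
      generalize (∫ t in (0 : ℝ)..(((16 * l + 16 : ℕ) : ℝ) / 512), Real.exp (-t ^ 2 / 2)) = I2 at *
      have hc := c0_le
      generalize 2 / √(2 * Real.pi) = c at *
      have w1 : (0 : ℝ) ≤ wT T (16 * l) := Nat.cast_nonneg _
      have w2 : (0 : ℝ) ≤ wT T (16 * l + 16) := Nat.cast_nonneg _
      have g1' : ((qv.getD l (0, 0)).1 : ℝ) * ((qv.getD l (0, 0)).1 : ℝ) * 167772160000000000000000 ≤
          6366197710863936 * ((wT T (16 * l) : ℝ) * (wT T (16 * l + 16) : ℝ)) := by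
        exact_mod_cast g1
      have u1 : (79788456 / 100000000 : ℝ) * (wT T (16 * l) / 4294967296) ≤ c * I1 := by
        apply mul_le_mul hc _ (by positivity) (le_trans (by norm_num) hc)
        rw [div_le_iff₀ (by norm_num)]
        linarith
      have u2 : (79788456 / 100000000 : ℝ) * (wT T (16 * l + 16) / 4294967296) ≤ c * I2 := by
        apply mul_le_mul hc _ (by positivity) (le_trans (by norm_num) hc)
        rw [div_le_iff₀ (by norm_num)]
        linarith
      calc (((qv.getD l (0, 0)).1 : ℝ) / 1048576) ^ 2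
          = (((qv.getD l (0, 0)).1 : ℝ) * ((qv.getD l (0, 0)).1 : ℝ) * 167772160000000000000000) /
            (1048576 ^ 2 * 167772160000000000000000) := by
            rw [div_pow, sq]
            field_simp
        _ ≤ (6366197710863936 * ((wT T (16 * l) : ℝ) * (wT T (16 * l + 16) : ℝ))) /
            (1048576 ^ 2 * 167772160000000000000000) := by gcongr
        _ = ((79788456 / 100000000 : ℝ) * (wT T (16 * l) / 4294967296)) *
            ((79788456 / 100000000 : ℝ) * (wT T (16 * l + 16) / 4294967296)) := by ring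
        _ ≤ (c * I1) * (c * I2) := mul_le_mul u1 u2 (by positivity) (le_trans (by positivity) u1)
    · intro l hl
      obtain ⟨-, g1⟩ := hget l hl
      rw [zero_add] at g1
      obtain ⟨t1, -, -, -⟩ := hT (16 * l) (by omega)
      obtain ⟨t2, -, -, -⟩ := hT (16 * l + 16) (by omega)
      refine ⟨by positivity, ?_⟩
      have e1 : (l : ℝ) * (1 / 32) = ((16 * l : ℕ) : ℝ) / 512 := by push_cast; ring
      have e2 : ((l : ℝ) + 1) * (1 / 32) = ((16 * l + 16 : ℕ) : ℝ) / 512 := by push_cast; ring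
      rw [e1, e2]
      generalize (((16 * l : ℕ) : ℝ) / 512) = y1 at *
      generalize (((16 * l + 16 : ℕ) : ℝ) / 512) = y2 at *
      have g1' : ((qv.getD l (0, 0)).2 : ℝ) * ((qv.getD l (0, 0)).2 : ℝ) * 16777216 ≤
          (eT T (16 * l) : ℝ) * (eT T (16 * l + 16) : ℝ) := by
        exact_mod_cast g1
      have hsq : (((qv.getD l (0, 0)).2 : ℝ) / 1048576) ^ 2 ≤
          Real.exp (-(y1 ^ 2 + y2 ^ 2) / 4) ^ 2 := by
        calc (((qv.getD l (0, 0)).2 : ℝ) / 1048576) ^ 2
            = (((qv.getD l (0, 0)).2 : ℝ) * ((qv.getD l (0, 0)).2 : ℝ) * 16777216) /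
              (4294967296 * 4294967296) := by
              rw [div_pow, sq]
              ring
          _ ≤ ((eT T (16 * l) : ℝ) * (eT T (16 * l + 16) : ℝ)) / (4294967296 * 4294967296) := by
              gcongr
          _ ≤ ((4294967296 * Real.exp (-y1 ^ 2 / 2)) * (4294967296 * Real.exp (-y2 ^ 2 / 2))) /
              (4294967296 * 4294967296) := by gcongr
          _ = Real.exp (-y1 ^ 2 / 2) * Real.exp (-y2 ^ 2 / 2) := by ring
          _ = Real.exp (-(y1 ^ 2 + y2 ^ 2) / 4) ^ 2 := by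
              rw [sq (Real.exp _), ← Real.exp_add, ← Real.exp_add]
              congr 1
              ring
      exact (pow_le_pow_iff_left₀ (by positivity) (Real.exp_pos _).le (by norm_num)).1 hsq
  -- the other sum
  set bl : List (ℕ × ℕ) := gp.map (fun h => (h.1, lam (n - 1) rw h.2 0)) with hbl
  have hblp : bl.Pairwise (fun x y => x.1 ≤ y.1) := by
    rw [hbl, List.pairwise_map]
    exact hgp
  set b : ℕ := bsum e bl.reverse 0 0 0 with hb
  have hgpair : ∀ j < bl.length, gN bl j ≤ gN bl (j + 1) := by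
    intro j hj
    cases j with
    | zero => exact Nat.zero_le _
    | succ i =>
      show (bl.getD i (0, 0)).1 ≤ (bl.getD (i + 1) (0, 0)).1
      rw [List.getD_eq_getElem _ _ (by omega), List.getD_eq_getElem _ _ hj]
      exact List.pairwise_iff_getElem.1 hblp i (i + 1) (by omega) hj (by omega)
  have hb' : (b : ℝ) = ∑ j ∈ Finset.range bl.length,
      ((gN bl (j + 1) : ℝ) ^ e - (gN bl j : ℝ) ^ e) * LN bl (j + 1) := by
    rcases List.eq_nil_or_concat bl with h0 | ⟨l', x, h0⟩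
    · rw [hb, h0]
      simp [bsum_nil']
    · rw [List.concat_eq_append] at h0
      have h1 : bl.reverse = x :: l'.reverse := by rw [h0]; simp
      have h2 : b = bsum e bl.reverse (x.1 ^ e) 0 0 := by
        rw [hb, h1, bsum_cons', bsum_cons']
        simp
      have h3 := bsum_eq' e he bl (x.1 ^ e) 0 0 hblp (by
        intro y hy
        apply Nat.pow_le_pow_left
        rw [h0] at hy hblp
        rcases List.mem_append.1 hy with hy | hy
        · exact (List.pairwise_append.1 hblp).2.2 y hy x (List.mem_singleton_self x)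
        · rw [List.mem_singleton.1 hy])
      rw [h2, h3]
      simp
  have hB : ENNReal.ofReal (√(n : ℝ) / (256 * 16384 ^ (n - 1)) * ((b : ℝ) / 1048576 ^ e)) ≤ BI e := by
    have h1 := BB_lower e he bl.length (fun j => (gN bl j : ℝ) / 1048576)
      (fun j => √(n : ℝ) * (LN bl j : ℝ) / (256 * 16384 ^ (n - 1))) (by simp [gN])
      (fun j hj => by
        have := hgpair j hj
        show (gN bl j : ℝ) / 1048576 ≤ (gN bl (j + 1) : ℝ) / 1048576
        gcongr)
      (fun j => by positivity)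
      (fun j hj => by
        have hj' : j < gp.length := by simpa [hbl] using hj
        have h2 : bl.getD j (0, 0) = ((gp[j]).1, lam (n - 1) rw (gp[j]).2 0) := by
          rw [List.getD_eq_getElem _ _ hj]
          simp [hbl]
        have h3 := hrow gp[j] (List.getElem_mem hj')
        show ENNReal.ofReal (√(n : ℝ) * ((bl.getD j (0, 0)).2 : ℝ) / (256 * 16384 ^ (n - 1))) ≤
          nuG (((bl.getD j (0, 0)).1 : ℝ) / 1048576)
        rw [h2]
        exact h3)
    refine le_trans (le_of_eq ?_) h1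
    congr 1
    rw [hb', Finset.sum_div, Finset.mul_sum]
    refine Finset.sum_congr rfl (fun j _ => ?_)
    rw [div_pow, div_pow]
    field_simp
  -- conclusion
  have hfin : (1 : ℝ) ≤ ((s + n).choose n : ℝ) * ((2 * √(n : ℝ) / √(2 * Real.pi) * (1 / 32) *
      ((a : ℝ) / (1048576 ^ n * 1048576 ^ e))) *
      (√(n : ℝ) / (256 * 16384 ^ (n - 1)) * ((b : ℝ) / 1048576 ^ e))) := by
    have hnf : (0 : ℝ) < (n.factorial : ℝ) := by exact_mod_cast n.factorial_pos
    have hin : (n.factorial : ℝ) * (819200000000 * 2 ^ (20 * (n + 2 * e) + 14 * (n - 1))) ≤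
        (n.factorial : ℝ) * (((s + n).choose n : ℝ) * (79788456 * n) * (a * b)) := by
      have h1 : n.factorial * (0 + n).choose n * 819200000000 *
          2 ^ (20 * (n + 2 * e) + 14 * (n - 1)) ≤
          n.factorial * (s + n).choose n * (79788456 * n) * (a * b) := hineq
      rw [zero_add, Nat.choose_self, mul_one] at h1
      have h2 : (n.factorial : ℝ) * 819200000000 * 2 ^ (20 * (n + 2 * e) + 14 * (n - 1)) ≤
          (n.factorial : ℝ) * ((s + n).choose n : ℝ) * (79788456 * n) * (a * b) := by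
        exact_mod_cast h1
      linarith
    have hin2 := le_of_mul_le_mul_left hin hnf
    have hn0 : (0 : ℝ) ≤ n := Nat.cast_nonneg n
    have hsqn : √(n : ℝ) * √(n : ℝ) = n := Real.mul_self_sqrt hn0
    have e1 : ((s + n).choose n : ℝ) * ((2 * √(n : ℝ) / √(2 * Real.pi) * (1 / 32) *
      ((a : ℝ) / (1048576 ^ n * 1048576 ^ e))) *
      (√(n : ℝ) / (256 * 16384 ^ (n - 1)) * ((b : ℝ) / 1048576 ^ e))) =
      (2 / √(2 * Real.pi)) * (((s + n).choose n : ℝ) * (√(n : ℝ) * √(n : ℝ)) * (a * b)) /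
        (8192 * 2 ^ (20 * (n + 2 * e) + 14 * (n - 1))) := by
      have p1 : (2 : ℝ) ^ (20 * (n + 2 * e) + 14 * (n - 1)) =
          1048576 ^ n * 1048576 ^ e * 1048576 ^ e * 16384 ^ (n - 1) := by
        rw [pow_add, pow_mul, pow_mul, pow_add, two_mul e, pow_add]
        norm_num
        ring
      rw [p1]
      have hs0 : √(2 * Real.pi) ≠ 0 := (Real.sqrt_pos.2 (by positivity)).ne'
      generalize √(n : ℝ) = sn
      generalize √(2 * Real.pi) = sp at *
      field_simp
      ring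
    rw [e1, hsqn, le_div_iff₀ (by positivity), one_mul]
    have hc := c0_le
    have hX : (0 : ℝ) ≤ ((s + n).choose n : ℝ) * n * (a * b) := by positivity
    have := mul_le_mul_of_nonneg_right hc hX
    linarith
  have hchoose : ((s + n).choose n : ℝ≥0∞) ≤ ((n + m).choose n : ℝ≥0∞) := by
    rw [add_comm s n]
    exact_mod_cast Nat.choose_le_choose n (by omega)
  calc (1 : ℝ≥0∞) = ENNReal.ofReal 1 := ENNReal.ofReal_one.symm
    _ ≤ ENNReal.ofReal (((s + n).choose n : ℝ) * ((2 * √(n : ℝ) / √(2 * Real.pi) * (1 / 32) *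
      ((a : ℝ) / (1048576 ^ n * 1048576 ^ e))) *
      (√(n : ℝ) / (256 * 16384 ^ (n - 1)) * ((b : ℝ) / 1048576 ^ e)))) :=
        ENNReal.ofReal_le_ofReal hfin
    _ = ((s + n).choose n : ℝ≥0∞) * (ENNReal.ofReal (2 * √(n : ℝ) / √(2 * Real.pi) * (1 / 32) *
      ((a : ℝ) / (1048576 ^ n * 1048576 ^ e))) *
      ENNReal.ofReal (√(n : ℝ) / (256 * 16384 ^ (n - 1)) * ((b : ℝ) / 1048576 ^ e))) := by
        rw [ENNReal.ofReal_mul (by positivity), ENNReal.ofReal_mul (by positivity),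
          ENNReal.ofReal_natCast]
    _ ≤ ((n + m).choose n : ℝ≥0∞) * (J1 n e * BI e) := by
        gcongr
    _ ≤ ((n + m).choose n : ℝ≥0∞) * EE m := by
        gcongr
        exact (hprod e he).trans (hEE m e hme')

end J10049

end Pool.Agent.VPF
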