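import Pool.Agent.VPF.NumData

set_option autoImplicit false
set_option maxRecDepth 100000

namespace Pool.Agent.VPF.Num

theorem tbl_check : tblLoop 3073 0 0x10000000000000000 0x10000000000000000 Ld0 Hd0 0 0 TT = true := by
  decide +kernel

theorem rows_check : rowsOK TT RW GP = true := by decide +kernel

theorem qv_check : qvOK TT QV 0 = true := by decide +kernel

noncomputable def es3 : List ℕ := [1, 2, 3, 4, 5, 6, 7, 8, 9, 10, 11, 12, 13, 14, 15, 16, 17, 18, 19, 20, 21, 22, 23, 24, 25, 26, 27, 28, 29, 30, 32, 34, 36, 38, 40, 42, 44, 46, 48, 50, 52, 54, 56, 58, 60, 62, 65, 68, 71, 74, 77, 80, 83, 86, 89, 92, 95, 98, 102, 106, 110, 114, 118, 122, 126, 130, 134, 138, 142, 147, 152, 157, 162, 167, 172, 177, 182, 187, 193, 199, 205, 211, 217, 223, 229, 235, 241, 248, 255, 262, 269, 276, 283, 290, 297, 305, 313, 321, 329, 337, 345, 353, 361, 369, 378, 387, 396, 405, 414, 423, 432, 441, 450, 460, 470, 480, 490, 500, 510, 520,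 530, 540, 551, 562, 573, 584, 595, 606, 617, 628, 639, 650, 661, 672, 684, 696, 708, 720, 732, 744, 756, 768, 780, 792, 804, 816, 828, 840, 852, 864, 876, 889, 902, 915, 928, 941, 954, 967, 980, 993, 1000]

theorem dim3 : dimOK 3 RW GP QV es3 = true := by decide +kernel

noncomputable def es4 : List ℕ := [1, 2, 3, 4, 5, 6, 7, 8, 9, 10, 11, 12, 13, 14, 15, 16, 17, 18, 19, 20, 21, 23, 25, 27, 29, 31, 33, 35, 37, 39, 42, 45, 48, 51, 54, 57, 61, 65, 69, 73, 78, 83, 88, 93, 99, 105, 111, 118, 125, 132, 140, 148, 157, 166, 176, 186, 197, 208, 220, 233, 246, 260, 275, 290, 306, 323, 341, 360, 380, 401, 423, 446, 470, 495, 521, 549, 578, 608, 640, 673, 708, 744, 782, 822, 863, 906, 951, 998, 1000]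

theorem dim4 : dimOK 4 RW GP QV es4 = true := by decide +kernel

noncomputable def es5 : List ℕ := [1, 2, 3, 4, 5, 6, 7, 8, 9, 10, 11, 12, 13, 14, 15, 16, 17, 18, 20, 22, 24, 26, 28, 30, 32, 35, 38, 41, 44, 47, 51, 55, 59, 64, 69, 74, 80, 86, 93, 100, 108, 116, 125, 135, 146, 157, 169, 182, 196, 211, 228, 246, 265, 286, 308, 332, 358, 386, 416, 448, 483, 521, 561, 604, 651, 701, 755, 813, 875, 942, 1000]

theorem dim5 : dimOK 5 RW GP QV es5 = true := by decide +kernel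

noncomputable def es6 : List ℕ := [1, 2, 3, 4, 5, 6, 7, 8, 9, 10, 11, 12, 13, 14, 15, 16, 17, 19, 21, 23, 25, 27, 29, 31, 34, 37, 40, 43, 47, 51, 55, 60, 65, 71, 77, 84, 91, 99, 108, 118, 129, 141, 154, 168, 184, 201, 220, 241, 264, 289, 316, 346, 379, 415, 455, 499, 547, 600, 658, 721, 791, 867, 951, 1000]

theorem dim6 : dimOK 6 RW GP QV es6 = true := by decide +kernel

noncomputable def es7 : List ℕ := [1, 2, 3, 4, 5, 6, 7, 8, 9, 10, 11, 12, 13, 14, 15, 16, 18, 20, 22, 24, 26, 28, 31, 34, 37, 40, 44, 48, 52, 57, 62, 68, 74, 81, 89, 98, 108, 119, 131, 144, 159, 175, 193, 213, 235, 260, 287, 318, 352, 390, 432, 479, 531, 589, 654, 727, 808, 898, 999, 1000]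

theorem dim7 : dimOK 7 RW GP QV es7 = true := by decide +kernel

noncomputable def es8 : List ℕ := [1, 2, 3, 4, 5, 6, 7, 8, 9, 10, 11, 12, 13, 14, 15, 16, 18, 20, 22, 24, 26, 28, 31, 34, 37, 40, 44, 48, 53, 58, 64, 70, 77, 85, 94, 104, 115, 127, 141, 156, 173, 192, 213, 237, 264, 294, 328, 366, 409, 458, 513, 575, 645, 724, 813, 914, 1000]

theorem dim8 : dimOK 8 RW GP QV es8 = true := by decide +kernel

noncomputable def es9 : List ℕ := [1, 2, 3, 4, 5, 6, 7, 8, 9, 10, 11, 12, 13, 14, 15, 17, 19, 21, 23, 25, 27, 30, 33, 36, 39, 43, 47, 52, 57, 63, 69, 76, 84, 93, 103, 114, 127, 141, 157, 175, 195, 218, 244, 273, 306, 344, 387, 436, 491, 554, 626, 708, 801, 907, 1000]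

theorem dim9 : dimOK 9 RW GP QV es9 = true := by decide +kernel

noncomputable def es10 : List ℕ := [1, 2, 3, 4, 5, 6, 7, 8, 9, 10, 11, 12, 13, 14, 15, 17, 19, 21, 23, 25, 27, 30, 33, 36, 39, 43, 47, 52, 57, 63, 69, 76, 84, 93, 103, 114, 127, 142, 159, 178, 199, 223, 251, 283, 319, 360, 407, 461, 523, 594, 675, 769, 877, 1000]

theorem dim10 : dimOK 10 RW GP QV es10 = true := by decide +kernel

noncomputable def es11 : List ℕ := [1, 2, 3, 4, 5, 6, 7, 8, 9, 10, 11, 12, 13, 14, 15, 17, 19, 21, 23, 25, 27, 30, 33, 36, 39, 43, 47, 52, 57, 63, 70, 77, 85, 94, 104, 116, 129, 144, 161, 181, 203, 229, 258, 292, 331, 375, 426, 485, 553, 631, 722, 827, 948, 1000]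

theorem dim11 : dimOK 11 RW GP QV es11 = true := by decide +kernel

noncomputable def es12 : List ℕ := [1, 2, 3, 4, 5, 6, 7, 8, 9, 10, 11, 12, 13, 14, 15, 17, 19, 21, 23, 25, 27, 30, 33, 36, 39, 43, 47, 52, 57, 63, 70, 77, 85, 94, 105, 117, 131, 147, 165, 186, 210, 237, 268, 304, 345, 393, 448, 512, 586, 672, 772, 888, 1000]

theorem dim12 : dimOK 12 RW GP QV es12 = true := by decide +kernel

noncomputable def es13 : List ℕ := [1, 2, 3, 4, 5, 6, 7, 8, 9, 10, 11, 12, 13, 14, 15, 17, 19, 21, 23, 25, 27, 30, 33, 36, 39, 43, 47, 52, 57, 63, 70, 77, 85, 94, 105, 117, 131, 147, 165, 186, 210, 238, 270, 307, 350, 400, 458, 525, 603, 694, 800, 924, 1000]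

theorem dim13 : dimOK 13 RW GP QV es13 = true := by decide +kernel

noncomputable def es14 : List ℕ := [1, 2, 3, 4, 5, 6, 7, 8, 9, 10, 11, 12, 13, 14, 15, 16, 18, 20, 22, 24, 26, 28, 31, 34, 37, 40, 44, 48, 53, 58, 64, 71, 79, 88, 98, 109, 122, 137, 154, 173, 195, 221, 251, 285, 325, 371, 425, 488, 561, 647, 747, 865, 1000]

theorem dim14 : dimOK 14 RW GP QV es14 = true := by decide +kernel

noncomputable def es15 : List ℕ := [1, 2, 3, 4, 5, 6, 7, 8, 9, 10, 11, 12, 13, 14, 15, 16, 18, 20, 22, 24, 26, 28, 31, 34, 37, 40, 44, 48, 53, 58, 64, 71, 79, 88, 98, 109, 122, 137, 154, 173, 195, 221, 251, 286, 326, 373, 428, 492, 567, 655, 758, 880, 1000]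

theorem dim15 : dimOK 15 RW GP QV es15 = true := by decide +kernel

noncomputable def es16 : List ℕ := [1, 2, 3, 4, 5, 6, 7, 8, 9, 10, 11, 12, 13, 14, 15, 16, 18, 20, 22, 24, 26, 28, 31, 34, 37, 40, 44, 48, 53, 58, 64, 71, 78, 86, 96, 107, 119, 133, 149, 168, 190, 215, 244, 278, 317, 363, 417, 480, 554, 641, 743, 864, 1000]

theorem dim16 : dimOK 16 RW GP QV es16 = true := by decide +kernel

noncomputable def es17 : List ℕ := [1, 2, 3, 4, 5, 6, 7, 8, 9, 10, 11, 12, 13, 14, 15, 16, 18, 20, 22, 24, 26, 28, 31, 34, 37, 40, 44, 48, 53, 58, 64, 71, 78, 86, 95, 106, 118, 132, 148, 167, 189, 214, 243, 277, 316, 362, 416, 479, 553, 641, 744, 866, 1000]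

theorem dim17 : dimOK 17 RW GP QV es17 = true := by decide +kernel

noncomputable def es18 : List ℕ := [1, 2, 3, 4, 5, 6, 7, 8, 9, 10, 11, 12, 13, 14, 15, 16, 18, 20, 22, 24, 26, 28, 31, 34, 37, 40, 44, 48, 53, 58, 64, 70, 77, 85, 94, 105, 117, 131, 147, 165, 186, 211, 240, 273, 312, 357, 410, 473, 547, 634, 737, 859, 1000]

theorem dim18 : dimOK 18 RW GP QV es18 = true := by decide +kernel

noncomputable def es19 : List ℕ := [1, 2, 3, 4, 5, 6, 7, 8, 9, 10, 11, 12, 13, 14, 15, 16, 18, 20, 22, 24, 26, 28, 31, 34, 37, 40, 44, 48, 52, 57, 63, 69, 76, 84, 93, 103, 115, 129, 145, 163, 184, 208, 236, 269, 307, 352, 405, 467, 540, 626, 728, 849, 993, 1000]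

theorem dim19 : dimOK 19 RW GP QV es19 = true := by decide +kernel

noncomputable def es20 : List ℕ := [1, 2, 3, 4, 5, 6, 7, 8, 9, 10, 11, 12, 13, 14, 15, 16, 18, 20, 22, 24, 26, 28, 31, 34, 37, 40, 44, 48, 52, 57, 62, 68, 75, 83, 92, 102, 114, 127, 142, 160, 180, 204, 231, 263, 300, 344, 395, 455, 526, 610, 710, 829, 971, 1000]

theorem dim20 : dimOK 20 RW GP QV es20 = true := by decide +kernel

noncomputable def es21 : List ℕ := [1, 2, 3, 4, 5, 6, 7, 8, 9, 10, 11, 12, 13, 14, 15, 16, 18, 20, 22, 24, 26, 28, 31, 34, 37, 40, 44, 48, 52, 57, 62, 68, 75, 83, 92, 102, 113, 126, 141, 158, 178, 201, 228, 259, 296, 339, 390, 450, 521, 605, 704, 822, 963, 1000]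

theorem dim21 : dimOK 21 RW GP QV es21 = true := by decide +kernel

noncomputable def es22 : List ℕ := [1, 2, 3, 4, 5, 6, 7, 8, 9, 10, 11, 12, 13, 14, 15, 16, 18, 20, 22, 24, 26, 28, 31, 34, 37, 40, 44, 48, 52, 57, 62, 68, 75, 83, 92, 102, 113, 126, 141, 158, 178, 201, 228, 259, 296, 339, 390, 450, 521, 605, 705, 824, 966, 1000]

theorem dim22 : dimOK 22 RW GP QV es22 = true := by decide +kernel

noncomputable def es23 : List ℕ := [1, 2, 3, 4, 5, 6, 7, 8, 9, 10, 11, 12, 13, 14, 15, 16, 18, 20, 22, 24, 26, 28, 30, 33, 36, 39, 42, 46, 50, 55, 60, 66, 72, 79, 87, 96, 106, 118, 132, 148, 166, 187, 211, 239, 272, 311, 357, 411, 475, 550, 639, 745, 872, 1000]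

theorem dim23 : dimOK 23 RW GP QV es23 = true := by decide +kernel

noncomputable def es24 : List ℕ := [1, 2, 3, 4, 5, 6, 7, 8, 9, 10, 11, 12, 13, 14, 15, 16, 17, 19, 21, 23, 25, 27, 29, 32, 35, 38, 41, 45, 49, 53, 58, 63, 69, 76, 84, 93, 103, 114, 127, 142, 159, 179, 202, 229, 260, 297, 340, 391, 451, 522, 606, 706, 826, 969, 1000]

theorem dim24 : dimOK 24 RW GP QV es24 = true := by decide +kernel

noncomputable def es25 : List ℕ := [1, 2, 3, 4, 5, 6, 7, 8, 9, 10, 11, 12, 13, 14, 15, 16, 17, 19, 21, 23, 25, 27, 29, 32, 35, 38, 41, 45, 49, 53, 58, 63, 69, 76, 84, 93, 103, 114, 127, 142, 159, 179, 202, 229, 260, 297, 340, 391, 451, 522, 606, 706, 826, 970, 1000]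

theorem dim25 : dimOK 25 RW GP QV es25 = true := by decide +kernel

noncomputable def es26 : List ℕ := [1, 2, 3, 4, 5, 6, 7, 8, 9, 10, 11, 12, 13, 14, 15, 16, 17, 19, 21, 23, 25, 27, 29, 32, 35, 38, 41, 45, 49, 53, 58, 63, 69, 76, 83, 91, 100, 111, 123, 137, 153, 172, 194, 219, 248, 282, 322, 369, 425, 491, 570, 664, 776, 910, 1000]

theorem dim26 : dimOK 26 RW GP QV es26 = true := by decide +kernel

noncomputable def es27 : List ℕ := [1, 2, 3, 4, 5, 6, 7, 8, 9, 10, 11, 12, 13, 14, 15, 16, 17, 19, 21, 23, 25, 27, 29, 32, 35, 38, 41, 45, 49, 53, 58, 63, 69, 76, 83, 91, 100, 111, 123, 137, 153, 172, 194, 219, 248, 282, 322, 369, 425, 491, 569, 662, 774, 908, 1000]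

theorem dim27 : dimOK 27 RW GP QV es27 = true := by decide +kernel

noncomputable def es28 : List ℕ := [1, 2, 3, 4, 5, 6, 7, 8, 9, 10, 11, 12, 13, 14, 15, 16, 17, 19, 21, 23, 25, 27, 29, 32, 35, 38, 41, 45, 49, 53, 58, 63, 69, 75, 82, 90, 99, 109, 121, 135, 151, 169, 190, 214, 242, 275, 314, 360, 414, 478, 554, 645, 753, 883, 1000]

theorem dim28 : dimOK 28 RW GP QV es28 = true := by decide +kernel

noncomputable def es29 : List ℕ := [1, 2, 3, 4, 5, 6, 7, 8, 9, 10, 11, 12, 13, 14, 15, 16, 17, 19, 21, 23, 25, 27, 29, 32, 35, 38, 41, 45, 49, 53, 58, 63, 69, 75, 82, 90, 99, 109, 121, 134, 149, 167, 188, 212, 240, 273, 311, 356, 409, 472, 547, 636, 742, 869, 1000]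

theorem dim29 : dimOK 29 RW GP QV es29 = true := by decide +kernel

end Pool.Agent.VPF.Num
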