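import Pool.Agent.VPF.Facts
import Pool.Agent.VPF.NumChk
import Pool.Agent.VPF.J10046
import Pool.Agent.VPF.J10047
import Pool.Agent.VPF.J10048
import Pool.Agent.VPF.J10049

set_option autoImplicit false
set_option maxRecDepth 100000
open MeasureTheory ProbabilityTheory
open scoped ENNReal Matrix

namespace Pool.Agent.VPF

open Pool.Agent.VPF.Num

theorem hTT : ∀ k : ℕ, k ≤ 3072 →
      (eT TT k : ℝ) ≤ 4294967296 * Real.exp (-((k : ℝ) / 512) ^ 2 / 2) ∧
      4294967296 * Real.exp (-((k : ℝ) / 512) ^ 2 / 2) ≤ (eT TT k : ℝ) + 2 ∧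
      (wT TT k : ℝ) ≤ 4294967296 * ∫ t in (0 : ℝ)..((k : ℝ) / 512), Real.exp (-t ^ 2 / 2) ∧
      4294967296 * (∫ t in (0 : ℝ)..((k : ℝ) / 512), Real.exp (-t ^ 2 / 2)) ≤ (wT TT k : ℝ) + 2 :=
  J10046.tbl_sound TT Num.tbl_check

theorem nodeTT : ∀ G R x : ℕ, nodeOK TT G R x = true →
      ∃ a b : ℝ, 0 < a ∧ 0 < b ∧ (G : ℝ) / 1048576 ≤ GG a b ∧ (R : ℝ) / 256 ≤ rr a b ∧
        ((x / 0x200000000 : ℕ) : ℝ) / 16384 ≤ mu 0 a b :=
  J10047.node_sound J7666.GG_mul J7666.mu_zero J7666.rr_eq J7666.II_even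
  J7666.II_ge J7666.PP_odd J7666.PP_strictMono_7666 TT hTT

theorem rowsOK_mem (T : ℕ) (l gp : List (ℕ × ℕ)) (h : rowsOK T l gp = true) :
    ∀ x ∈ gp, rowOK T x.1 l x.2 = true := by
  induction gp with
  | nil => intro x hx; simp at hx
  | cons y t ih =>
    have e : rowsOK T l (y :: t) = cond (rowOK T y.1 l y.2) (rowsOK T l t) false := rfl
    rw [e] at h
    cases hy : rowOK T y.1 l y.2 with
    | false => rw [hy] at h; simp at h
    | true =>
      rw [hy, cond_true] at h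
      intro x hx
      rcases List.mem_cons.1 hx with rfl | hx
      · exact hy
      · exact ih h x hx

/-- Boolean form of `wtOK` -/
noncomputable def wtB (l : List (ℕ × ℕ)) : ℕ → Bool :=
  List.rec (motive := fun _ => ℕ → Bool) (fun _ => true)
    (fun h _ ih p => and (Nat.beq h.1 (Nat.add p h.2)) (ih h.1)) l

theorem wt_of_wtB (l : List (ℕ × ℕ)) : ∀ p : ℕ, wtB l p = true → J10048.wtOK p l := by
  induction l with
  | nil => intro p _; exact trivial
  | cons h t ih =>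
    intro p hp
    have e : wtB (h :: t) p = and (Nat.beq h.1 (Nat.add p h.2)) (wtB t h.1) := rfl
    rw [e, Bool.and_eq_true] at hp
    exact ⟨Nat.eq_of_beq_eq_true hp.1, ih h.1 hp.2⟩

theorem RW_ok : J10048.wtOK 0 RW := wt_of_wtB RW 0 (by decide +kernel)

theorem GP_sorted : GP.Pairwise (fun x y => x.1 ≤ y.1) := by
  decide +kernel

theorem row_all (n : ℕ) (hn : 2 ≤ n) : ∀ h ∈ GP,
    ENNReal.ofReal (√(n : ℝ) * ((lam (n - 1) RW h.2 0 : ℕ) : ℝ) / (256 * 16384 ^ (n - 1))) ≤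
      nuG n ((h.1 : ℝ) / 1048576) := fun h hh =>
  J10048.row_sound TT nodeTT n hn (nu_lower n hn) h.1 h.2 RW RW_ok
    (rowsOK_mem TT RW GP Num.rows_check h hh)

theorem dim_all (n : ℕ) (hn : 2 ≤ n) (es : List ℕ) (h : dimOK n RW GP QV es = true)
    (m : ℕ) (hm : 1 ≤ m) (hme : ∃ e ∈ es, m ≤ e) :
    1 ≤ ((n + m).choose n : ℝ≥0∞) * EE n m :=
  J10049.dim_sound TT hTT n hn (EE n) (BI n) (EE_anti n) (fun m hm => EE_prod n m (by omega) hm)
    (fun m L hm Δ hΔ q v hq hv => J7673.J1_quad n m L (by omega) hm Δ hΔ q v hq hv)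
    (nuG n) (fun m hm J g Λ => BB_lower n hn m hm J g Λ) RW GP QV es GP_sorted (row_all n hn)
    (by decide +kernel) Num.qv_check h m hm hme

theorem small (n m : ℕ) (h3 : 3 ≤ n) (h29 : n ≤ 29) (hm : 1 ≤ m) (hm' : m ≤ 1000) :
    1 ≤ ((n + m).choose n : ℝ≥0∞) * EE n m := by
  have key : ∃ es : List ℕ, dimOK n RW GP QV es = true ∧ 1000 ∈ es := by
    interval_cases n
    · exact ⟨es3, dim3, by decide +kernel⟩
    · exact ⟨es4, dim4, by decide +kernel⟩
    · exact ⟨es5, dim5, by decide +kernel⟩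
    · exact ⟨es6, dim6, by decide +kernel⟩
    · exact ⟨es7, dim7, by decide +kernel⟩
    · exact ⟨es8, dim8, by decide +kernel⟩
    · exact ⟨es9, dim9, by decide +kernel⟩
    · exact ⟨es10, dim10, by decide +kernel⟩
    · exact ⟨es11, dim11, by decide +kernel⟩
    · exact ⟨es12, dim12, by decide +kernel⟩
    · exact ⟨es13, dim13, by decide +kernel⟩
    · exact ⟨es14, dim14, by decide +kernel⟩
    · exact ⟨es15, dim15, by decide +kernel⟩
    · exact ⟨es16, dim16, by decide +kernel⟩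
    · exact ⟨es17, dim17, by decide +kernel⟩
    · exact ⟨es18, dim18, by decide +kernel⟩
    · exact ⟨es19, dim19, by decide +kernel⟩
    · exact ⟨es20, dim20, by decide +kernel⟩
    · exact ⟨es21, dim21, by decide +kernel⟩
    · exact ⟨es22, dim22, by decide +kernel⟩
    · exact ⟨es23, dim23, by decide +kernel⟩
    · exact ⟨es24, dim24, by decide +kernel⟩
    · exact ⟨es25, dim25, by decide +kernel⟩
    · exact ⟨es26, dim26, by decide +kernel⟩
    · exact ⟨es27, dim27, by decide +kernel⟩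
    · exact ⟨es28, dim28, by decide +kernel⟩
    · exact ⟨es29, dim29, by decide +kernel⟩
  obtain ⟨es, h1, h2⟩ := key
  exact dim_all n (by omega) es h1 m hm ⟨1000, h2, hm'⟩

end Pool.Agent.VPF
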