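import Pool.Agent.VPF.Defs

set_option autoImplicit false

namespace Pool.Agent.VPF

/-- the set of `(a, b)` for which the Sidak bound at height `h` is at least `PP η` -/
def Sset (h η : ℝ) : Set (ℝ × ℝ) := {p | η * √(h ^ 2 + p.1 ^ 2) ≤ p.2 * h}

end Pool.Agent.VPF
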