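import Pool.Agent.VPF.Defs

set_option autoImplicit false
open MeasureTheory ProbabilityTheory
open scoped ENNReal Matrix


namespace Pool.Agent.VPF

namespace J7666

theorem ph_pos_7666 (y : ℝ) : 0 < ph y := by
  unfold ph
  positivity

theorem ph_cont_7666 : Continuous ph := by
  unfold ph
  fun_prop

theorem ph_neg_7666 (y : ℝ) : ph (-y) = ph y := by
  unfold ph
  rw [neg_sq]

theorem ph_deriv_7666 (y : ℝ) : HasDerivAt ph (-y * ph y) y := by
  unfold ph
  have h1 : HasDerivAt (fun y : ℝ => -y ^ 2 / 2) (-y) y := by
    have h := ((hasDerivAt_pow 2 y).neg).div_const 2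
    exact h.congr_deriv (by norm_num; ring)
  have h2 := (h1.exp).div_const (√(2 * Real.pi))
  exact h2.congr_deriv (by ring)

theorem PP_deriv (y : ℝ) : HasDerivAt PP (2 * ph y) y := by
  have h := (ph_cont_7666.integral_hasStrictDerivAt 0 y).hasDerivAt.const_mul 2
  exact h

theorem II_deriv (y : ℝ) : HasDerivAt II (PP y) y := by
  have h1 := (hasDerivAt_id y).mul (PP_deriv y)
  have h2 := (ph_deriv_7666 y).const_mul 2
  have h3 := h1.add h2
  exact h3.congr_deriv (by simp only [id_eq]; ring)

theorem PP_odd (y : ℝ) : PP (-y) = - PP y := by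
  unfold PP
  have h1 : ∫ t in (0 : ℝ)..y, ph (-t) = ∫ t in (-y)..(-0 : ℝ), ph t :=
    intervalIntegral.integral_comp_neg _
  have h2 : ∫ t in (0 : ℝ)..y, ph (-t) = ∫ t in (0 : ℝ)..y, ph t := by
    simp_rw [ph_neg_7666]
  rw [h2, neg_zero] at h1
  rw [h1, intervalIntegral.integral_symm]
  ring

theorem PP_tendsto : Filter.Tendsto PP Filter.atTop (nhds 1) := by
  have hint : Integrable ph := by
    have h := (integrable_exp_neg_mul_sq (show (0 : ℝ) < 1 / 2 by norm_num)).div_const
      (√(2 * Real.pi))
    refine h.congr (Filter.Eventually.of_forall fun x => ?_)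
    show Real.exp (-(1 / 2) * x ^ 2) / √(2 * Real.pi) = ph x
    unfold ph
    congr 2
    ring
  have h1 : ∫ x in Set.Ioi (0 : ℝ), ph x = 1 / 2 := by
    have h2 := integral_gaussian_Ioi (1 / 2)
    have h3 : ∫ x in Set.Ioi (0 : ℝ), ph x =
        (∫ x in Set.Ioi (0 : ℝ), Real.exp (-(1 / 2) * x ^ 2)) / √(2 * Real.pi) := by
      rw [← integral_div]
      congr 1
      ext x
      unfold ph
      congr 2
      ring
    rw [h3, h2]
    have h4 : Real.pi / (1 / 2) = 2 * Real.pi := by ring
    rw [h4]
    have h5 : √(2 * Real.pi) ≠ 0 := by positivity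
    field_simp
  have h6 := intervalIntegral_tendsto_integral_Ioi 0 hint.integrableOn Filter.tendsto_id
  rw [h1] at h6
  have h7 := h6.const_mul 2
  have h8 : (2 : ℝ) * (1 / 2) = 1 := by norm_num
  rw [h8] at h7
  exact h7

theorem PP_strictMono_7666 : StrictMono PP := by
  apply strictMono_of_deriv_pos
  intro x
  rw [(PP_deriv x).deriv]
  have := ph_pos_7666 x
  positivity

theorem PP_lt_one (y : ℝ) : PP y < 1 :=
  lt_of_lt_of_le (PP_strictMono_7666 (lt_add_one y))
    (PP_strictMono_7666.monotone.ge_of_tendsto PP_tendsto (y + 1))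

theorem II_even (y : ℝ) : II (-y) = II y := by
  unfold II
  rw [PP_odd, ph_neg_7666]
  ring

theorem PP_zero_7666 : PP 0 = 0 := by
  unfold PP
  simp

theorem PP_nonneg_7666 {y : ℝ} (hy : 0 ≤ y) : 0 ≤ PP y := by
  rw [← PP_zero_7666]
  exact PP_strictMono_7666.monotone hy

theorem II_nonneg_7666 {y : ℝ} (hy : 0 ≤ y) : 0 ≤ II y := by
  unfold II
  have h1 := PP_nonneg_7666 hy
  have h2 := ph_pos_7666 y
  positivity

theorem II_ge (y : ℝ) : y ≤ II y := by
  rcases le_or_gt y 0 with hy | hy
  · have h1 : 0 ≤ II (-y) := II_nonneg_7666 (by linarith)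
    rw [II_even] at h1
    linarith
  · have hder : ∀ t : ℝ, 0 < t →
        HasDerivAt (fun t => 2 * ph t / t - (1 - PP t)) (-(2 * ph t / t ^ 2)) t := by
      intro t ht
      have h1 := ((ph_deriv_7666 t).const_mul 2).div (hasDerivAt_id t) ht.ne'
      have h2 := (PP_deriv t).const_sub 1
      have h3 := h1.sub h2
      refine h3.congr_deriv ?_
      simp only [id_eq]
      field_simp
      ring
    have hanti : AntitoneOn (fun t => 2 * ph t / t - (1 - PP t)) (Set.Ioi 0) := by
      apply antitoneOn_of_deriv_nonpos (convex_Ioi 0)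
      · intro t ht
        exact (hder t ht).continuousAt.continuousWithinAt
      · intro t ht
        rw [interior_Ioi] at ht
        exact (hder t ht).differentiableAt.differentiableWithinAt
      · intro t ht
        rw [interior_Ioi] at ht
        rw [(hder t ht).deriv]
        have := ph_pos_7666 t
        have h5 : 0 ≤ 2 * ph t / t ^ 2 := by positivity
        linarith
    have hlim : Filter.Tendsto (fun t => -(1 - PP t)) Filter.atTop (nhds (-(1 - 1))) :=
      (PP_tendsto.const_sub 1).neg
    have h0 : (-(1 - 1) : ℝ) ≤ 2 * ph y / y - (1 - PP y) := by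
      refine le_of_tendsto hlim ?_
      filter_upwards [Filter.eventually_ge_atTop y] with t ht
      have h1 := hanti (show y ∈ Set.Ioi (0 : ℝ) from hy)
        (show t ∈ Set.Ioi (0 : ℝ) from lt_of_lt_of_le hy ht) ht
      have h2 : 0 < 2 * ph t / t := by
        have := ph_pos_7666 t
        have := lt_of_lt_of_le hy ht
        positivity
      have h3 : 2 * ph t / t - (1 - PP t) ≤ 2 * ph y / y - (1 - PP y) := h1
      linarith
    have h1 : 0 ≤ y * (2 * ph y / y - (1 - PP y)) := by
      apply mul_nonneg hy.le
      linarith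
    have h2 : y * (2 * ph y / y - (1 - PP y)) = 2 * ph y - y * (1 - PP y) := by
      field_simp
    rw [h2] at h1
    unfold II
    linarith

theorem mu_zero (a b : ℝ) (hb : 0 < b) :
    mu 0 a b = √(2 * Real.pi) * (PP (a + b) - PP (a - b)) / (4 * b) := by
  unfold mu
  have h0 : √(2 * Real.pi) ≠ 0 := by positivity
  have h1 : ∫ z in (-1 : ℝ)..1, z ^ 0 * Real.exp (-(a + z * b) ^ 2 / 2) =
      √(2 * Real.pi) * PP (a + 1 * b) / (2 * b) - √(2 * Real.pi) * PP (a + (-1) * b) / (2 * b) := by
    apply intervalIntegral.integral_eq_sub_of_hasDerivAt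
      (f := fun z => √(2 * Real.pi) * PP (a + z * b) / (2 * b))
    · intro z _
      have h2 : HasDerivAt (fun z : ℝ => a + z * b) b z := by
        have := ((hasDerivAt_id z).mul_const b).const_add a
        simpa using this
      have h3 := (((PP_deriv (a + z * b)).comp z h2).const_mul (√(2 * Real.pi))).div_const (2 * b)
      refine h3.congr_deriv ?_
      unfold ph
      field_simp
      try ring
    · apply Continuous.intervalIntegrable
      fun_prop
  rw [h1]
  have h4 : a + (-1) * b = a - b := by ring
  rw [h4, one_mul]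
  field_simp
  ring

theorem PP_cont_7666 : Continuous PP :=
  continuous_iff_continuousAt.mpr fun x => (PP_deriv x).continuousAt

theorem rr_eq (a b : ℝ) (hb : 0 < b) : rr a b = (II (a + b) - II (a - b)) / (2 * b) := by
  unfold rr
  have hc := PP_cont_7666
  have h1 : ∫ z in (-1 : ℝ)..1, PP (a + z * b) =
      II (a + 1 * b) / b - II (a + (-1) * b) / b := by
    apply intervalIntegral.integral_eq_sub_of_hasDerivAt (f := fun z => II (a + z * b) / b)
    · intro z _
      have h2 : HasDerivAt (fun z : ℝ => a + z * b) b z := by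
        have := ((hasDerivAt_id z).mul_const b).const_add a
        simpa using this
      have h3 := ((II_deriv (a + z * b)).comp z h2).div_const b
      refine h3.congr_deriv ?_
      field_simp
    · apply Continuous.intervalIntegrable
      fun_prop
  rw [h1]
  have h4 : a + (-1) * b = a - b := by ring
  rw [h4, one_mul]
  field_simp

theorem GG_mul (a b : ℝ) (hb : 0 < b) : GG a b * a = rr a b * b := by
  rw [rr_eq a b hb]
  unfold GG
  have hc := PP_cont_7666
  have h1 : ∫ s in (0 : ℝ)..1, (PP (s * a + b) - PP (s * a - b)) / 2 * a =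
      (II (1 * a + b) - II (1 * a - b)) / 2 - (II (0 * a + b) - II (0 * a - b)) / 2 := by
    apply intervalIntegral.integral_eq_sub_of_hasDerivAt
      (f := fun s => (II (s * a + b) - II (s * a - b)) / 2)
    · intro s _
      have h2 : HasDerivAt (fun s : ℝ => s * a + b) a s := by
        have := ((hasDerivAt_id s).mul_const a).add_const b
        simpa using this
      have h2' : HasDerivAt (fun s : ℝ => s * a - b) a s := by
        have := ((hasDerivAt_id s).mul_const a).sub_const b
        simpa using this
      have h3 := (((II_deriv (s * a + b)).comp s h2).sub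
        ((II_deriv (s * a - b)).comp s h2')).div_const 2
      refine h3.congr_deriv ?_
      ring
    · apply Continuous.intervalIntegrable
      fun_prop
  rw [← intervalIntegral.integral_mul_const, h1]
  have h5 : II (0 * a - b) = II (0 * a + b) := by
    rw [zero_mul, zero_add, zero_sub, II_even]
  rw [h5, one_mul]
  field_simp
  ring

end J7666

end Pool.Agent.VPF
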