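import Pool.Agent.VPF.Defs

set_option autoImplicit false
open MeasureTheory ProbabilityTheory
open scoped ENNReal Matrix


namespace Pool.Agent.VPF

namespace J7667

theorem param_7667 (f f' : ℝ → ℝ) (hf : ∀ y, HasDerivAt f (f' y) y) (hf' : Continuous f')
    (a b : ℝ) :
    HasFDerivAt (fun p : ℝ × ℝ => ∫ z in (-1 : ℝ)..1, f (p.1 + z * p.2))
      ((∫ z in (-1 : ℝ)..1, f' (a + z * b)) • ContinuousLinearMap.fst ℝ ℝ ℝ +
        (∫ z in (-1 : ℝ)..1, z * f' (a + z * b)) • ContinuousLinearMap.snd ℝ ℝ ℝ) (a, b) := by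
  have hfc : Continuous f := continuous_iff_continuousAt.2 fun y => (hf y).continuousAt
  set M : ℝ := |a| + |b| + 2 with hM
  obtain ⟨C, hC⟩ := (isCompact_Icc (a := -M) (b := M)).exists_bound_of_continuousOn
    hf'.continuousOn
  have hC0 : 0 ≤ C := (norm_nonneg _).trans (hC 0 ⟨by rw [hM]; linarith [abs_nonneg a, abs_nonneg b],
    by rw [hM]; linarith [abs_nonneg a, abs_nonneg b]⟩)
  have key := intervalIntegral.hasFDerivAt_integral_of_dominated_of_fderiv_le (𝕜 := ℝ)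
    (μ := volume) (a := -1) (b := 1)
    (F := fun (p : ℝ × ℝ) (z : ℝ) => f (p.1 + z * p.2))
    (F' := fun (p : ℝ × ℝ) (z : ℝ) => (f' (p.1 + z * p.2)) •
      (ContinuousLinearMap.fst ℝ ℝ ℝ + z • ContinuousLinearMap.snd ℝ ℝ ℝ))
    (x₀ := (a, b)) (s := Metric.ball (a, b) 1) (bound := fun _ => C * 2)
    (Metric.ball_mem_nhds _ one_pos)
    (Filter.Eventually.of_forall fun p => by
      exact (Continuous.aestronglyMeasurable (by fun_prop)))
    ((by fun_prop : Continuous fun z : ℝ => f ((a, b).1 + z * (a, b).2)).intervalIntegrable _ _)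
    ((by fun_prop : Continuous fun z : ℝ => (f' ((a, b).1 + z * (a, b).2)) •
      (ContinuousLinearMap.fst ℝ ℝ ℝ + z • ContinuousLinearMap.snd ℝ ℝ ℝ)).aestronglyMeasurable)
    (Filter.Eventually.of_forall fun z hz p hp => by
      rw [Set.uIoc_of_le (by norm_num)] at hz
      rw [norm_smul]
      rw [Metric.mem_ball, Prod.dist_eq, max_lt_iff] at hp
      obtain ⟨h1, h2⟩ := hp
      rw [Real.dist_eq] at h1 h2
      simp only at h1 h2
      obtain ⟨h11, h12⟩ := abs_lt.1 h1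
      obtain ⟨h21, h22⟩ := abs_lt.1 h2
      have hp1 : |p.1| ≤ |a| + 1 := by
        have := abs_sub_abs_le_abs_sub p.1 a
        linarith
      have hp2 : |p.2| ≤ |b| + 1 := by
        have := abs_sub_abs_le_abs_sub p.2 b
        linarith
      have hz1 : |z| ≤ 1 := abs_le.2 ⟨by linarith [hz.1], hz.2⟩
      have hzp : |z * p.2| ≤ |b| + 1 := by
        rw [abs_mul]
        calc |z| * |p.2| ≤ 1 * |p.2| := mul_le_mul_of_nonneg_right hz1 (abs_nonneg _)
          _ ≤ _ := by linarith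
      have hsum : |p.1 + z * p.2| ≤ M := (abs_add_le _ _).trans (by rw [hM]; linarith)
      apply mul_le_mul (hC _ (abs_le.1 hsum)) _ (norm_nonneg _) hC0
      refine (norm_add_le _ _).trans ?_
      rw [norm_smul, Real.norm_eq_abs]
      have n1 : ‖ContinuousLinearMap.fst ℝ ℝ ℝ‖ ≤ 1 := ContinuousLinearMap.norm_fst_le ..
      have n2 : ‖ContinuousLinearMap.snd ℝ ℝ ℝ‖ ≤ 1 := ContinuousLinearMap.norm_snd_le ..
      nlinarith [abs_nonneg z, norm_nonneg (ContinuousLinearMap.snd ℝ ℝ ℝ)])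
    (intervalIntegrable_const)
    (Filter.Eventually.of_forall fun z hz p hp => by
      have h1 : HasFDerivAt (fun p : ℝ × ℝ => p.1 + z * p.2)
          (ContinuousLinearMap.fst ℝ ℝ ℝ + z • ContinuousLinearMap.snd ℝ ℝ ℝ) p :=
        hasFDerivAt_fst.add (hasFDerivAt_snd.const_mul z)
      have h2 := (hf (p.1 + z * p.2)).comp_hasFDerivAt p h1
      exact h2)
  have e : (∫ z in (-1 : ℝ)..1, (f' (a + z * b)) •
      (ContinuousLinearMap.fst ℝ ℝ ℝ + z • ContinuousLinearMap.snd ℝ ℝ ℝ)) =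
      (∫ z in (-1 : ℝ)..1, f' (a + z * b)) • ContinuousLinearMap.fst ℝ ℝ ℝ +
        (∫ z in (-1 : ℝ)..1, z * f' (a + z * b)) • ContinuousLinearMap.snd ℝ ℝ ℝ := by
    have s1 : (∫ z in (-1 : ℝ)..1, (f' (a + z * b)) • ContinuousLinearMap.fst ℝ ℝ ℝ) =
        (∫ z in (-1 : ℝ)..1, f' (a + z * b)) • ContinuousLinearMap.fst ℝ ℝ ℝ :=
      intervalIntegral.integral_smul_const (𝕜 := ℝ) (fun z => f' (a + z * b))
        (ContinuousLinearMap.fst ℝ ℝ ℝ)
    have s2 : (∫ z in (-1 : ℝ)..1, (z * f' (a + z * b)) • ContinuousLinearMap.snd ℝ ℝ ℝ) =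
        (∫ z in (-1 : ℝ)..1, z * f' (a + z * b)) • ContinuousLinearMap.snd ℝ ℝ ℝ :=
      intervalIntegral.integral_smul_const (𝕜 := ℝ) (fun z => z * f' (a + z * b))
        (ContinuousLinearMap.snd ℝ ℝ ℝ)
    have j1 : IntervalIntegrable (fun z : ℝ => (f' (a + z * b)) •
        ContinuousLinearMap.fst ℝ ℝ ℝ) volume (-1) 1 :=
      (by fun_prop : Continuous fun z : ℝ => (f' (a + z * b)) •
        ContinuousLinearMap.fst ℝ ℝ ℝ).intervalIntegrable _ _
    have j2 : IntervalIntegrable (fun z : ℝ => (z * f' (a + z * b)) •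
        ContinuousLinearMap.snd ℝ ℝ ℝ) volume (-1) 1 :=
      (by fun_prop : Continuous fun z : ℝ => (z * f' (a + z * b)) •
        ContinuousLinearMap.snd ℝ ℝ ℝ).intervalIntegrable _ _
    have s3 := intervalIntegral.integral_add j1 j2
    rw [s1, s2] at s3
    refine Eq.trans ?_ s3
    congr 1
    funext z
    rw [smul_add, smul_smul, mul_comm z (f' (a + z * b))]
  rw [← e]
  exact key

theorem cont_ph_7667 : Continuous ph := by
  unfold ph
  fun_prop

theorem PP_deriv_7667 (y : ℝ) : HasDerivAt PP (2 * ph y) y := by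
  unfold PP
  have h1 : HasDerivAt (fun y => ∫ t in (0 : ℝ)..y, ph t) (ph y) y :=
    intervalIntegral.integral_hasDerivAt_right (cont_ph_7667.intervalIntegrable _ _)
      cont_ph_7667.stronglyMeasurable.stronglyMeasurableAtFilter cont_ph_7667.continuousAt
  exact h1.const_mul 2

theorem rr_deriv_7667 (a b : ℝ) : HasFDerivAt (fun p : ℝ × ℝ => rr p.1 p.2)
    ((2 / √(2 * Real.pi)) • (mu 0 a b • ContinuousLinearMap.fst ℝ ℝ ℝ +
          mu 1 a b • ContinuousLinearMap.snd ℝ ℝ ℝ)) (a, b) := by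
  have h1 := (param_7667 PP (fun y => 2 * ph y) PP_deriv_7667
    (continuous_const.mul cont_ph_7667) a b).const_mul (1 / 2 : ℝ)
  unfold rr
  refine h1.congr_fderiv ?_
  have e0 : (∫ z in (-1 : ℝ)..1, 2 * ph (a + z * b)) =
      2 * ((2 / √(2 * Real.pi)) * mu 0 a b) := by
    unfold mu ph
    rw [← intervalIntegral.integral_const_mul, ← intervalIntegral.integral_const_mul,
      ← intervalIntegral.integral_const_mul]
    congr 1
    funext z
    ring
  have e1 : (∫ z in (-1 : ℝ)..1, z * (2 * ph (a + z * b))) =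
      2 * ((2 / √(2 * Real.pi)) * mu 1 a b) := by
    unfold mu ph
    rw [← intervalIntegral.integral_const_mul, ← intervalIntegral.integral_const_mul,
      ← intervalIntegral.integral_const_mul]
    congr 1
    funext z
    ring
  rw [e0, e1, smul_add, smul_add, smul_smul, smul_smul, smul_smul, smul_smul]
  congr 2 <;> ring

theorem mu0_deriv_7667 (a b : ℝ) : HasFDerivAt (fun p : ℝ × ℝ => mu 0 p.1 p.2)
    ((-(a * mu 0 a b + b * mu 1 a b)) • ContinuousLinearMap.fst ℝ ℝ ℝ +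
           (-(a * mu 1 a b + b * mu 2 a b)) • ContinuousLinearMap.snd ℝ ℝ ℝ) (a, b) := by
  have hd : ∀ y : ℝ, HasDerivAt (fun y : ℝ => Real.exp (-y ^ 2 / 2))
      (-y * Real.exp (-y ^ 2 / 2)) y := by
    intro y
    have h1 : HasDerivAt (fun y : ℝ => -y ^ 2 / 2) (-y) y := by
      have := ((hasDerivAt_pow 2 y).neg).div_const 2
      refine this.congr_deriv ?_
      push_cast
      ring
    have h2 := h1.exp
    convert h2 using 1
    ring
  have h1 := (param_7667 (fun y => Real.exp (-y ^ 2 / 2)) (fun y => -y * Real.exp (-y ^ 2 / 2)) hd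
    (by fun_prop) a b).const_mul (1 / 2 : ℝ)
  have e : (fun p : ℝ × ℝ => mu 0 p.1 p.2) = fun p : ℝ × ℝ =>
      (1 / 2 : ℝ) * ∫ z in (-1 : ℝ)..1, (fun y => Real.exp (-y ^ 2 / 2)) (p.1 + z * p.2) := by
    funext p
    unfold mu
    simp
  rw [e]
  refine h1.congr_fderiv ?_
  have i0 : IntervalIntegrable (fun z : ℝ => z ^ 0 * Real.exp (-(a + z * b) ^ 2 / 2)) volume
    (-1) 1 := (by fun_prop : Continuous _).intervalIntegrable _ _
  have i1 : IntervalIntegrable (fun z : ℝ => z ^ 1 * Real.exp (-(a + z * b) ^ 2 / 2)) volume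
    (-1) 1 := (by fun_prop : Continuous _).intervalIntegrable _ _
  have i2 : IntervalIntegrable (fun z : ℝ => z ^ 2 * Real.exp (-(a + z * b) ^ 2 / 2)) volume
    (-1) 1 := (by fun_prop : Continuous _).intervalIntegrable _ _
  have e0 : (∫ z in (-1 : ℝ)..1, -(a + z * b) * Real.exp (-(a + z * b) ^ 2 / 2)) =
      2 * (-(a * mu 0 a b + b * mu 1 a b)) := by
    have : (∫ z in (-1 : ℝ)..1, -(a + z * b) * Real.exp (-(a + z * b) ^ 2 / 2)) =
        (-a) * (∫ z in (-1 : ℝ)..1, z ^ 0 * Real.exp (-(a + z * b) ^ 2 / 2)) +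
        (-b) * (∫ z in (-1 : ℝ)..1, z ^ 1 * Real.exp (-(a + z * b) ^ 2 / 2)) := by
      rw [← intervalIntegral.integral_const_mul, ← intervalIntegral.integral_const_mul,
        ← intervalIntegral.integral_add (i0.const_mul _) (i1.const_mul _)]
      congr 1
      funext z
      ring
    rw [this]
    unfold mu
    ring
  have e1 : (∫ z in (-1 : ℝ)..1, z * (-(a + z * b) * Real.exp (-(a + z * b) ^ 2 / 2))) =
      2 * (-(a * mu 1 a b + b * mu 2 a b)) := by
    have : (∫ z in (-1 : ℝ)..1, z * (-(a + z * b) * Real.exp (-(a + z * b) ^ 2 / 2))) =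
        (-a) * (∫ z in (-1 : ℝ)..1, z ^ 1 * Real.exp (-(a + z * b) ^ 2 / 2)) +
        (-b) * (∫ z in (-1 : ℝ)..1, z ^ 2 * Real.exp (-(a + z * b) ^ 2 / 2)) := by
      rw [← intervalIntegral.integral_const_mul, ← intervalIntegral.integral_const_mul,
        ← intervalIntegral.integral_add (i1.const_mul _) (i2.const_mul _)]
      congr 1
      funext z
      ring
    rw [this]
    unfold mu
    ring
  rw [e0, e1, smul_add, smul_smul, smul_smul]
  congr 2 <;> ring

/-- derivative of `(a, b) ↦ (rr a b, mu 0 a b ^ (n-1))` -/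
theorem F_deriv (n : ℕ) (hn : 2 ≤ n) (a b : ℝ) :
    HasFDerivAt (fun p : ℝ × ℝ => (rr p.1 p.2, mu 0 p.1 p.2 ^ (n - 1)))
      (((2 / √(2 * Real.pi)) • (mu 0 a b • ContinuousLinearMap.fst ℝ ℝ ℝ +
          mu 1 a b • ContinuousLinearMap.snd ℝ ℝ ℝ)).prod
        (((n - 1 : ℝ) * mu 0 a b ^ (n - 2)) •
          ((-(a * mu 0 a b + b * mu 1 a b)) • ContinuousLinearMap.fst ℝ ℝ ℝ +
           (-(a * mu 1 a b + b * mu 2 a b)) • ContinuousLinearMap.snd ℝ ℝ ℝ))) (a, b) := by
  apply HasFDerivAt.prodMk (rr_deriv_7667 a b)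
  have h := (mu0_deriv_7667 a b).pow (n - 1)
  have e : ((n - 1 : ℕ) : ℝ) = (n : ℝ) - 1 := by
    rw [Nat.cast_sub (by omega)]; simp
  refine h.congr_fderiv ?_
  rw [nsmul_eq_mul, e]
  rfl

theorem mu0_pos_7667 (a b : ℝ) : 0 < mu 0 a b := by
  unfold mu
  apply mul_pos (by norm_num)
  apply intervalIntegral.intervalIntegral_pos_of_pos
  · exact (by fun_prop : Continuous fun z : ℝ =>
      z ^ 0 * Real.exp (-(a + z * b) ^ 2 / 2)).intervalIntegrable _ _
  · intro z
    simp only [pow_zero, one_mul]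
    exact Real.exp_pos _
  · norm_num

theorem cs_7667 (a b : ℝ) : mu 1 a b ^ 2 ≤ mu 0 a b * mu 2 a b := by
  have h0 := mu0_pos_7667 a b
  set c := mu 1 a b / mu 0 a b with hc
  have i0 : IntervalIntegrable (fun z : ℝ => z ^ 0 * Real.exp (-(a + z * b) ^ 2 / 2)) volume
    (-1) 1 := (by fun_prop : Continuous _).intervalIntegrable _ _
  have i1 : IntervalIntegrable (fun z : ℝ => z ^ 1 * Real.exp (-(a + z * b) ^ 2 / 2)) volume
    (-1) 1 := (by fun_prop : Continuous _).intervalIntegrable _ _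
  have i2 : IntervalIntegrable (fun z : ℝ => z ^ 2 * Real.exp (-(a + z * b) ^ 2 / 2)) volume
    (-1) 1 := (by fun_prop : Continuous _).intervalIntegrable _ _
  have h1 : 0 ≤ ∫ z in (-1 : ℝ)..1, (z - c) ^ 2 * Real.exp (-(a + z * b) ^ 2 / 2) := by
    apply intervalIntegral.integral_nonneg (by norm_num)
    intro z _
    positivity
  have h2 : (∫ z in (-1 : ℝ)..1, (z - c) ^ 2 * Real.exp (-(a + z * b) ^ 2 / 2)) =
      (∫ z in (-1 : ℝ)..1, z ^ 2 * Real.exp (-(a + z * b) ^ 2 / 2)) +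
      ((-2 * c) * (∫ z in (-1 : ℝ)..1, z ^ 1 * Real.exp (-(a + z * b) ^ 2 / 2)) +
      c ^ 2 * (∫ z in (-1 : ℝ)..1, z ^ 0 * Real.exp (-(a + z * b) ^ 2 / 2))) := by
    rw [← intervalIntegral.integral_const_mul, ← intervalIntegral.integral_const_mul,
      ← intervalIntegral.integral_add (i1.const_mul _) (i0.const_mul _),
      ← intervalIntegral.integral_add i2 ((i1.const_mul _).add (i0.const_mul _))]
    congr 1
    funext z
    ring
  have h3 : 0 ≤ mu 2 a b + ((-2 * c) * mu 1 a b + c ^ 2 * mu 0 a b) := by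
    rw [h2] at h1
    unfold mu
    linarith
  have h4 : mu 1 a b = c * mu 0 a b := by rw [hc]; field_simp
  have h5 : 0 ≤ mu 0 a b * (mu 2 a b + ((-2 * c) * mu 1 a b + c ^ 2 * mu 0 a b)) :=
    mul_nonneg h0.le h3
  rw [h4] at h5 ⊢
  nlinarith

theorem F_det (n : ℕ) (hn : 2 ≤ n) (a b : ℝ) (hb : 0 < b) :
    |(((2 / √(2 * Real.pi)) • (mu 0 a b • ContinuousLinearMap.fst ℝ ℝ ℝ +
          mu 1 a b • ContinuousLinearMap.snd ℝ ℝ ℝ)).prod
        (((n - 1 : ℝ) * mu 0 a b ^ (n - 2)) •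
          ((-(a * mu 0 a b + b * mu 1 a b)) • ContinuousLinearMap.fst ℝ ℝ ℝ +
           (-(a * mu 1 a b + b * mu 2 a b)) • ContinuousLinearMap.snd ℝ ℝ ℝ))).det| * (√(n : ℝ) / 2)
      = dn n a b := by
  have hdet : ∀ c d x y u v : ℝ, ((c • (x • ContinuousLinearMap.fst ℝ ℝ ℝ +
      y • ContinuousLinearMap.snd ℝ ℝ ℝ)).prod (d • (u • ContinuousLinearMap.fst ℝ ℝ ℝ +
      v • ContinuousLinearMap.snd ℝ ℝ ℝ))).det = c * d * (x * v - y * u) := by
    intro c d x y u v
    rw [ContinuousLinearMap.det, ← LinearMap.det_toMatrix (Module.Basis.finTwoProd ℝ),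
      Matrix.det_fin_two]
    simp [LinearMap.toMatrix_apply]
    ring
  rw [hdet]
  have h0 := mu0_pos_7667 a b
  have hcs := cs_7667 a b
  have hn1 : (0 : ℝ) ≤ (n : ℝ) - 1 := by
    have : (2 : ℝ) ≤ n := by exact_mod_cast hn
    linarith
  have hs : 0 < √(2 * Real.pi) := Real.sqrt_pos.2 (by positivity)
  have e : 2 / √(2 * Real.pi) * ((n - 1 : ℝ) * mu 0 a b ^ (n - 2)) *
      (mu 0 a b * (-(a * mu 1 a b + b * mu 2 a b)) - mu 1 a b * (-(a * mu 0 a b + b * mu 1 a b))) =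
      -(2 / √(2 * Real.pi) * ((n - 1 : ℝ) * mu 0 a b ^ (n - 2)) *
        (b * (mu 0 a b * mu 2 a b - mu 1 a b ^ 2))) := by
    ring
  rw [e, abs_neg, abs_of_nonneg]
  · unfold dn
    ring
  · apply mul_nonneg
    · positivity
    · apply mul_nonneg hb.le
      linarith

end J7667

end Pool.Agent.VPF
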