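import Pool.Agent.VPF.Defs

set_option autoImplicit false
open MeasureTheory ProbabilityTheory
open scoped ENNReal Matrix


namespace Pool.Agent.VPF

namespace J7668


theorem aux_ph_pos (y : ℝ) : 0 < ph y := by
  unfold ph; positivity

theorem aux_ph_cont : Continuous ph := by
  unfold ph; fun_prop

theorem aux_ph_neg (y : ℝ) : ph (-y) = ph y := by
  unfold ph; rw [neg_sq]

theorem aux_PP_deriv (y : ℝ) : HasDerivAt PP (2 * ph y) y := by
  have h := intervalIntegral.integral_hasDerivAt_right
    (aux_ph_cont.intervalIntegrable (μ := volume) 0 y)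
    (aux_ph_cont.stronglyMeasurableAtFilter volume (nhds y)) aux_ph_cont.continuousAt
  exact h.const_mul 2

theorem aux_PP_cont : Continuous PP :=
  continuous_iff_continuousAt.mpr fun y => (aux_PP_deriv y).continuousAt

theorem aux_PP_mono : StrictMono PP := by
  refine strictMono_of_deriv_pos ?_
  intro x
  rw [(aux_PP_deriv x).deriv]
  have := aux_ph_pos x
  positivity

theorem aux_PP_neg (y : ℝ) : PP (-y) = -PP y := by
  unfold PP
  have h : (∫ t in (0 : ℝ)..y, ph (-t)) = ∫ t in -y..(-0 : ℝ), ph t :=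
    intervalIntegral.integral_comp_neg ph
  simp only [aux_ph_neg, neg_zero] at h
  rw [h, intervalIntegral.integral_symm (-y) 0]
  ring

theorem aux_PP_zero : PP 0 = 0 := by
  unfold PP; simp

theorem aux_gauss : (∫ y in Set.Ioi (0 : ℝ), Real.exp (-y ^ 2 / 2)) = √(2 * Real.pi) / 2 := by
  have h := integral_gaussian_Ioi (1 / 2 : ℝ)
  have e1 : (fun y : ℝ => Real.exp (-y ^ 2 / 2)) = fun y : ℝ => Real.exp (-(1 / 2) * y ^ 2) := by
    funext y; congr 1; ring
  have e2 : Real.pi / (1 / 2) = 2 * Real.pi := by ring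
  rw [e1, h, e2]

theorem aux_gauss_full : (∫ y : ℝ, Real.exp (-y ^ 2 / 2)) = √(2 * Real.pi) := by
  have h := integral_gaussian (1 / 2 : ℝ)
  have e1 : (fun y : ℝ => Real.exp (-y ^ 2 / 2)) = fun y : ℝ => Real.exp (-(1 / 2) * y ^ 2) := by
    funext y; congr 1; ring
  have e2 : Real.pi / (1 / 2) = 2 * Real.pi := by ring
  rw [e1, h, e2]

theorem aux_exp_int : Integrable (fun y : ℝ => Real.exp (-y ^ 2 / 2)) := by
  have h := integrable_exp_neg_mul_sq (b := (1 / 2 : ℝ)) (by norm_num)
  have e1 : (fun y : ℝ => Real.exp (-y ^ 2 / 2)) = fun y : ℝ => Real.exp (-(1 / 2) * y ^ 2) := by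
    funext y; congr 1; ring
  rw [e1]; exact h

theorem aux_sqrt_pos : 0 < √(2 * Real.pi) := by
  apply Real.sqrt_pos.mpr; positivity

theorem aux_PP_tendsto : Filter.Tendsto PP Filter.atTop (nhds 1) := by
  have hint : IntegrableOn ph (Set.Ioi 0) := by
    unfold ph
    exact (aux_exp_int.div_const _).integrableOn
  have h := intervalIntegral_tendsto_integral_Ioi (μ := volume) (0 : ℝ) hint Filter.tendsto_id
  have hv : (∫ y in Set.Ioi (0 : ℝ), ph y) = 1 / 2 := by
    unfold ph
    rw [integral_div, aux_gauss]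
    have := aux_sqrt_pos
    field_simp
  rw [hv] at h
  have h2 := h.const_mul 2
  have e : (2 : ℝ) * (1 / 2) = 1 := by norm_num
  rw [e] at h2
  exact h2

theorem aux_PP_lt_one (y : ℝ) : PP y < 1 := by
  have h1 : PP (y + 1) ≤ 1 := by
    refine ge_of_tendsto aux_PP_tendsto ?_
    filter_upwards [Filter.eventually_ge_atTop (y + 1)] with z hz
    exact aux_PP_mono.monotone hz
  have h2 : PP y < PP (y + 1) := aux_PP_mono (by linarith)
  linarith

/-- the symmetric comparison -/
theorem aux_odd_int (g : ℝ → ℝ) (hg : Continuous g) (hodd : ∀ y, g (-y) = -g y)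
    (hpos : ∀ y, 0 ≤ y → 0 ≤ g y) (a b : ℝ) (ha : 0 ≤ a) (hb : 0 < b) :
    0 ≤ ∫ y in (a - b)..(a + b), g y := by
  have hii : ∀ x y, IntervalIntegrable g volume x y := fun x y => hg.intervalIntegrable x y
  rcases le_total 0 (a - b) with h | h
  · exact intervalIntegral.integral_nonneg (by linarith) (fun y hy => hpos y (le_trans h hy.1))
  · rw [← intervalIntegral.integral_add_adjacent_intervals (hii (a - b) (-(a - b)))
      (hii (-(a - b)) (a + b))]
    have h0 : (∫ y in (a - b)..(-(a - b)), g y) = 0 := by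
      have e : (∫ t in (a - b)..(-(a - b)), g (-t)) = ∫ t in (-(-(a - b)))..(-(a - b)), g t :=
        intervalIntegral.integral_comp_neg g
      simp only [hodd, neg_neg, intervalIntegral.integral_neg] at e
      linarith
    rw [h0, zero_add]
    exact intervalIntegral.integral_nonneg (by linarith)
      (fun y hy => hpos y (le_trans (by linarith) hy.1))

theorem aux_anti (e : ℝ → ℝ) (he : Continuous e) (b : ℝ)
    (h : ∀ c, 0 ≤ c → e (c + b) ≤ e (c - b)) :
    AntitoneOn (fun c => (∫ t in (0 : ℝ)..(c + b), e t) - ∫ t in (0 : ℝ)..(c - b), e t)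
      (Set.Ici 0) := by
  have hF : ∀ y, HasDerivAt (fun y => ∫ t in (0 : ℝ)..y, e t) (e y) y := fun y =>
    intervalIntegral.integral_hasDerivAt_right (he.intervalIntegrable (μ := volume) 0 y)
      (he.stronglyMeasurableAtFilter volume (nhds y)) he.continuousAt
  have hD : ∀ c, HasDerivAt (fun c => (∫ t in (0 : ℝ)..(c + b), e t) -
      ∫ t in (0 : ℝ)..(c - b), e t) (e (c + b) - e (c - b)) c := by
    intro c
    exact ((hF (c + b)).comp_add_const c b).sub ((hF (c - b)).comp_sub_const c b)
  refine antitoneOn_of_deriv_nonpos (convex_Ici 0) ?_ ?_ ?_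
  · exact fun c _ => (hD c).continuousAt.continuousWithinAt
  · exact fun c _ => (hD c).differentiableAt.differentiableWithinAt
  · intro c hc
    rw [interior_Ici] at hc
    rw [(hD c).deriv]
    have := h c (le_of_lt hc)
    linarith

theorem aux_exp_anti (c b : ℝ) (hc : 0 ≤ c) (hb : 0 < b) :
    Real.exp (-(c + b) ^ 2 / 2) ≤ Real.exp (-(c - b) ^ 2 / 2) := by
  apply Real.exp_le_exp.mpr
  have : 0 ≤ c * b := by positivity
  nlinarith

theorem aux_ph_anti (c b : ℝ) (hc : 0 ≤ c) (hb : 0 < b) : ph (c + b) ≤ ph (c - b) := by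
  unfold ph
  exact div_le_div_of_nonneg_right (aux_exp_anti c b hc hb) aux_sqrt_pos.le

theorem aux_PPdiff_anti (b : ℝ) (hb : 0 < b) :
    AntitoneOn (fun c => PP (c + b) - PP (c - b)) (Set.Ici 0) := by
  have h := aux_anti ph aux_ph_cont b (fun c hc => aux_ph_anti c b hc hb)
  intro x hx y hy hxy
  have h2 := h hx hy hxy
  simp only at h2
  unfold PP
  simp only
  linarith

theorem aux_sub (f : ℝ → ℝ) (a b : ℝ) (hb : 0 < b) :
    (∫ z in (-1 : ℝ)..1, f (a + z * b)) = b⁻¹ * ∫ y in (a - b)..(a + b), f y := by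
  have h := intervalIntegral.integral_comp_add_mul (a := (-1 : ℝ)) (b := 1) f (ne_of_gt hb) a
  have e : (fun z : ℝ => f (a + z * b)) = fun z => f (a + b * z) := by
    funext z; rw [mul_comm]
  rw [e, h]
  simp only [smul_eq_mul, mul_neg, mul_one, sub_eq_add_neg]

theorem aux_mu0 (a b : ℝ) (hb : 0 < b) :
    mu 0 a b = (1 / (2 * b)) * ∫ y in (a - b)..(a + b), Real.exp (-y ^ 2 / 2) := by
  unfold mu
  simp only [pow_zero, one_mul]
  rw [aux_sub (fun y => Real.exp (-y ^ 2 / 2)) a b hb]
  field_simp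

theorem rr_zero (b : ℝ) : rr 0 b = 0 := by
  unfold rr
  have e : (∫ t in (-1 : ℝ)..1, PP (0 + (-t) * b)) = ∫ t in (-1 : ℝ)..(-(-1)), PP (0 + t * b) :=
    intervalIntegral.integral_comp_neg (fun t => PP (0 + t * b))
  have e2 : ∀ t : ℝ, PP (0 + (-t) * b) = -PP (0 + t * b) := by
    intro t
    rw [← aux_PP_neg]; congr 1; ring
  simp only [e2, neg_neg, intervalIntegral.integral_neg] at e
  linarith

theorem rr_strictMono (b : ℝ) (hb : 0 < b) : StrictMono (fun a => rr a b) := by
  intro a a' haa
  unfold rr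
  have hc : ∀ a : ℝ, Continuous fun z : ℝ => PP (a + z * b) := fun a =>
    aux_PP_cont.comp (by fun_prop)
  have h := intervalIntegral.integral_lt_integral_of_continuousOn_of_le_of_exists_lt
    (a := (-1 : ℝ)) (b := 1) (f := fun z => PP (a + z * b)) (g := fun z => PP (a' + z * b))
    (by norm_num) (hc a).continuousOn (hc a').continuousOn
    (fun z _ => (aux_PP_mono (by linarith : a + z * b < a' + z * b)).le)
    ⟨0, by constructor <;> norm_num, aux_PP_mono (by linarith)⟩
  simp only
  linarith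

theorem rr_lt_one (a b : ℝ) (hb : 0 < b) : rr a b < 1 := by
  unfold rr
  have hc : Continuous fun z : ℝ => PP (a + z * b) := aux_PP_cont.comp (by fun_prop)
  have h := intervalIntegral.integral_lt_integral_of_continuousOn_of_le_of_exists_lt
    (a := (-1 : ℝ)) (b := 1) (f := fun z => PP (a + z * b)) (g := fun _ => (1 : ℝ))
    (by norm_num) hc.continuousOn continuousOn_const
    (fun z _ => (aux_PP_lt_one _).le)
    ⟨0, by constructor <;> norm_num, aux_PP_lt_one _⟩
  rw [intervalIntegral.integral_const] at h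
  simp only [smul_eq_mul] at h
  linarith

theorem rr_tendsto (b : ℝ) (hb : 0 < b) :
    Filter.Tendsto (fun a => rr a b) Filter.atTop (nhds 1) := by
  have hlow : ∀ a : ℝ, PP (a - b) ≤ rr a b := by
    intro a
    unfold rr
    have hc : Continuous fun z : ℝ => PP (a + z * b) := aux_PP_cont.comp (by fun_prop)
    have h := intervalIntegral.integral_mono_on (μ := volume) (a := (-1 : ℝ)) (b := 1)
      (f := fun _ => PP (a - b)) (g := fun z => PP (a + z * b)) (by norm_num)
      (continuous_const.intervalIntegrable _ _) (hc.intervalIntegrable _ _)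
      (fun z hz => aux_PP_mono.monotone (by nlinarith [hz.1]))
    rw [intervalIntegral.integral_const] at h
    simp only [smul_eq_mul] at h
    linarith
  have hT : Filter.Tendsto (fun a => PP (a - b)) Filter.atTop (nhds 1) :=
    aux_PP_tendsto.comp (Filter.tendsto_atTop_add_const_right _ (-b) Filter.tendsto_id)
  exact tendsto_of_tendsto_of_tendsto_of_le_of_le hT tendsto_const_nhds hlow
    (fun a => (rr_lt_one a b hb).le)

theorem rr_cont : Continuous (fun p : ℝ × ℝ => rr p.1 p.2) := by
  unfold rr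
  refine continuous_const.mul ?_
  refine intervalIntegral.continuous_parametric_intervalIntegral_of_continuous' ?_ _ _
  exact aux_PP_cont.comp (by fun_prop)

theorem mu_cont (k : ℕ) : Continuous (fun p : ℝ × ℝ => mu k p.1 p.2) := by
  unfold mu
  refine continuous_const.mul ?_
  refine intervalIntegral.continuous_parametric_intervalIntegral_of_continuous' ?_ _ _
  simp only [Function.uncurry_def]
  fun_prop

theorem mu0_pos (a b : ℝ) : 0 < mu 0 a b := by
  unfold mu
  have h : 0 < ∫ z in (-1 : ℝ)..1, z ^ 0 * Real.exp (-(a + z * b) ^ 2 / 2) := by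
    refine intervalIntegral.intervalIntegral_pos_of_pos ?_ ?_ (by norm_num)
    · exact Continuous.intervalIntegrable (by fun_prop) _ _
    · intro z
      rw [pow_zero, one_mul]
      exact Real.exp_pos _
  linarith

theorem rr_scale (a b l : ℝ) (ha : 0 ≤ a) (hb : 0 < b) (hl : 1 ≤ l) :
    rr a b ≤ rr (l * a) (l * b) := by
  have hcP : Continuous PP := aux_PP_cont
  have hg : Continuous fun y : ℝ => PP (l * y) - PP y :=
    (hcP.comp (by fun_prop)).sub hcP
  have h := aux_odd_int (fun y => PP (l * y) - PP y) hg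
    (by
      intro y
      rw [mul_neg, aux_PP_neg, aux_PP_neg]; ring)
    (by
      intro y hy
      have : PP y ≤ PP (l * y) := aux_PP_mono.monotone (by nlinarith)
      linarith) a b ha hb
  have h2 := aux_sub (fun y => PP (l * y) - PP y) a b hb
  have h3 : 0 ≤ ∫ z in (-1 : ℝ)..1, (PP (l * (a + z * b)) - PP (a + z * b)) := by
    rw [h2]; positivity
  rw [intervalIntegral.integral_sub
    ((show Continuous fun z : ℝ => PP (l * (a + z * b)) from
      hcP.comp (by fun_prop)).intervalIntegrable _ _)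
    ((show Continuous fun z : ℝ => PP (a + z * b) from
      hcP.comp (by fun_prop)).intervalIntegrable _ _)] at h3
  unfold rr
  have e : (fun z : ℝ => PP (l * a + z * (l * b))) = fun z => PP (l * (a + z * b)) := by
    funext z; congr 1; ring
  rw [e]
  linarith

theorem mu0_anti (a a' b : ℝ) (ha : 0 ≤ a) (h : a ≤ a') (hb : 0 < b) : mu 0 a' b ≤ mu 0 a b := by
  rw [aux_mu0 a b hb, aux_mu0 a' b hb]
  have hc : Continuous fun y : ℝ => Real.exp (-y ^ 2 / 2) := by fun_prop
  have hA := aux_anti (fun y => Real.exp (-y ^ 2 / 2)) hc b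
    (fun c hc => aux_exp_anti c b hc hb)
  have h1 := hA (Set.mem_Ici.mpr ha) (Set.mem_Ici.mpr (le_trans ha h)) h
  simp only at h1
  have hs : ∀ c : ℝ, (∫ y in (c - b)..(c + b), Real.exp (-y ^ 2 / 2)) =
      (∫ y in (0 : ℝ)..(c + b), Real.exp (-y ^ 2 / 2)) -
        ∫ y in (0 : ℝ)..(c - b), Real.exp (-y ^ 2 / 2) := fun c =>
    (intervalIntegral.integral_interval_sub_left (hc.intervalIntegrable _ _)
      (hc.intervalIntegrable _ _)).symm
  rw [hs a, hs a']
  exact mul_le_mul_of_nonneg_left h1 (by positivity)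

theorem mu0_le (a b : ℝ) (hb : 0 < b) : mu 0 a b ≤ √(2 * Real.pi) / (2 * b) := by
  rw [aux_mu0 a b hb]
  have h1 : (∫ y in (a - b)..(a + b), Real.exp (-y ^ 2 / 2)) ≤ √(2 * Real.pi) := by
    rw [← aux_gauss_full, intervalIntegral.integral_of_le (by linarith)]
    exact setIntegral_le_integral aux_exp_int
      (Filter.Eventually.of_forall fun y => (Real.exp_pos _).le)
  rw [div_mul_eq_mul_div, one_mul]
  exact div_le_div_of_nonneg_right h1 (by positivity)

theorem GG_anti (a a' b : ℝ) (ha : 0 ≤ a) (h : a ≤ a') (hb : 0 < b) : GG a' b ≤ GG a b := by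
  unfold GG
  have hc : ∀ a : ℝ, Continuous fun s : ℝ => (PP (s * a + b) - PP (s * a - b)) / 2 := by
    intro a
    exact ((aux_PP_cont.comp (by fun_prop)).sub (aux_PP_cont.comp (by fun_prop))).div_const _
  refine intervalIntegral.integral_mono_on (by norm_num) ((hc a').intervalIntegrable _ _)
    ((hc a).intervalIntegrable _ _) ?_
  intro s hs
  have hA := aux_PPdiff_anti b hb
  have h1 := hA
    (Set.mem_Ici.mpr (mul_nonneg hs.1 ha)) (Set.mem_Ici.mpr (mul_nonneg hs.1 (le_trans ha h)))
    (mul_le_mul_of_nonneg_left h hs.1)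
  simp only at h1
  linarith

end J7668

end Pool.Agent.VPF
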