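import Pool.Agent.VPF.Defs

set_option autoImplicit false
open MeasureTheory ProbabilityTheory
open scoped ENNReal Matrix


namespace Pool.Agent.VPF

namespace J7669

theorem box
    (GG_mul : ∀ a b : ℝ, 0 < b → GG a b * a = rr a b * b)
    (rr_zero : ∀ b : ℝ, rr 0 b = 0)
    (rr_strictMono : ∀ b : ℝ, 0 < b → StrictMono (fun a => rr a b))
    (rr_lt_one : ∀ a b : ℝ, 0 < b → rr a b < 1)
    (rr_tendsto : ∀ b : ℝ, 0 < b → Filter.Tendsto (fun a => rr a b) Filter.atTop (nhds 1))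
    (rr_cont : Continuous (fun p : ℝ × ℝ => rr p.1 p.2))
    (mu_cont : ∀ k : ℕ, Continuous (fun p : ℝ × ℝ => mu k p.1 p.2))
    (rr_scale : ∀ a b l : ℝ, 0 ≤ a → 0 < b → 1 ≤ l → rr a b ≤ rr (l * a) (l * b))
    (mu0_anti : ∀ a a' b : ℝ, 0 ≤ a → a ≤ a' → 0 < b → mu 0 a' b ≤ mu 0 a b)
    (mu0_le : ∀ a b : ℝ, 0 < b → mu 0 a b ≤ √(2 * Real.pi) / (2 * b))
    (GG_anti : ∀ a a' b : ℝ, 0 ≤ a → a ≤ a' → 0 < b → GG a' b ≤ GG a b)
    (g a₀ b₀ r M : ℝ) (ha₀ : 0 < a₀) (hb₀ : 0 < b₀) (hg : g ≤ GG a₀ b₀) (hr0 : 0 < r)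
    (hr : r < rr a₀ b₀) (hM0 : 0 < M) (hM : M ≤ mu 0 a₀ b₀) :
    ∃ a b : ℝ, 0 < a ∧ 0 < b ∧ rr a b = r ∧ mu 0 a b = M ∧ g ≤ GG a b := by
  have hr1 : r < 1 := hr.trans (rr_lt_one _ _ hb₀)
  -- existence of the root
  have hex : ∀ b : ℝ, ∃ a : ℝ, 0 < b → (0 < a ∧ rr a b = r) := by
    intro b
    by_cases hb : 0 < b
    · have h1 : ∀ᶠ a in Filter.atTop, r < rr a b := (rr_tendsto b hb).eventually_const_lt hr1
      obtain ⟨A, hA, hA0⟩ := (h1.and (Filter.eventually_gt_atTop (0 : ℝ))).exists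
      have hc : ContinuousOn (fun a => rr a b) (Set.Icc 0 A) :=
        (rr_cont.comp (continuous_id.prodMk continuous_const)).continuousOn
      have h2 := intermediate_value_Icc hA0.le hc
      have h3 : r ∈ Set.Icc (rr 0 b) (rr A b) := ⟨by rw [rr_zero]; exact hr0.le, hA.le⟩
      obtain ⟨a, ha, har⟩ := h2 h3
      refine ⟨a, fun _ => ⟨?_, har⟩⟩
      rcases ha.1.lt_or_eq with h | h
      · exact h
      · exfalso
        have har' : rr a b = r := har
        rw [← h, rr_zero] at har'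
        exact hr0.ne har'
    · exact ⟨0, fun h => absurd h hb⟩
  choose al hal using hex
  have hpos : ∀ b, 0 < b → 0 < al b := fun b hb => (hal b hb).1
  have heq : ∀ b, 0 < b → rr (al b) b = r := fun b hb => (hal b hb).2
  -- continuity
  have hcont : ∀ b, 0 < b → ContinuousAt al b := by
    intro b1 hb1
    rw [Metric.continuousAt_iff']
    intro ε hε
    have c1 : rr (al b1 - ε) b1 < r := by
      rw [← heq b1 hb1]
      exact rr_strictMono b1 hb1 (by linarith)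
    have c2 : r < rr (al b1 + ε) b1 := by
      conv_lhs => rw [← heq b1 hb1]
      exact rr_strictMono b1 hb1 (by linarith)
    have d1 : ∀ᶠ b in nhds b1, rr (al b1 - ε) b < r :=
      ((rr_cont.comp (continuous_const.prodMk continuous_id)).continuousAt
        (x := b1)).eventually_lt_const c1
    have d2 : ∀ᶠ b in nhds b1, r < rr (al b1 + ε) b :=
      ((rr_cont.comp (continuous_const.prodMk continuous_id)).continuousAt
        (x := b1)).eventually_const_lt c2
    filter_upwards [d1, d2, lt_mem_nhds hb1] with b e1 e2 e3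
    rw [← heq b e3] at e1 e2
    have f1 : al b1 - ε < al b := (rr_strictMono b e3).lt_iff_lt.1 e1
    have f2 : al b < al b1 + ε := (rr_strictMono b e3).lt_iff_lt.1 e2
    rw [Real.dist_eq, abs_lt]
    constructor <;> linarith
  -- the value at `b₀`
  have ha1 : al b₀ < a₀ := by
    refine (rr_strictMono b₀ hb₀).lt_iff_lt.1 ?_
    show rr (al b₀) b₀ < rr a₀ b₀
    rw [heq b₀ hb₀]
    exact hr
  have hM1 : M ≤ mu 0 (al b₀) b₀ :=
    hM.trans (mu0_anti _ _ _ (hpos b₀ hb₀).le ha1.le hb₀)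
  have hg1 : g ≤ GG (al b₀) b₀ :=
    hg.trans (GG_anti _ _ _ (hpos b₀ hb₀).le ha1.le hb₀)
  -- the intermediate value theorem for `mu 0`
  set B : ℝ := max b₀ (√(2 * Real.pi) / (2 * M)) with hB
  have hB0 : b₀ ≤ B := le_max_left _ _
  have hBpos : 0 < B := hb₀.trans_le hB0
  have hMB : mu 0 (al B) B ≤ M := by
    refine (mu0_le _ _ hBpos).trans ?_
    rw [div_le_iff₀ (by positivity)]
    have h1 : √(2 * Real.pi) / (2 * M) ≤ B := le_max_right _ _
    rw [div_le_iff₀ (by positivity)] at h1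
    nlinarith
  have hc2 : ContinuousOn (fun b => mu 0 (al b) b) (Set.Icc b₀ B) := by
    intro b hb
    have hb' : 0 < b := hb₀.trans_le hb.1
    refine ContinuousAt.continuousWithinAt ?_
    exact ((mu_cont 0).continuousAt).comp (f := fun b => (al b, b))
      ((hcont b hb').prodMk continuousAt_id)
  have hivt := intermediate_value_Icc' hB0 hc2
  obtain ⟨b, hb, hbM⟩ := hivt ⟨hMB, hM1⟩
  have hb' : 0 < b := hb₀.trans_le hb.1
  refine ⟨al b, b, hpos b hb', hb', heq b hb', hbM, hg1.trans ?_⟩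
  have hl : 1 ≤ b / b₀ := by
    rw [le_div_iff₀ hb₀, one_mul]
    exact hb.1
  have hs := rr_scale (al b₀) b₀ (b / b₀) (hpos b₀ hb₀).le hb₀ hl
  rw [div_mul_cancel₀ _ hb₀.ne', heq b₀ hb₀] at hs
  rw [← heq b hb'] at hs
  have hle : al b ≤ b / b₀ * al b₀ := (rr_strictMono b hb').le_iff_le.1 hs
  have g1 := GG_mul (al b) b hb'
  have g0 := GG_mul (al b₀) b₀ hb₀
  rw [heq b hb'] at g1
  rw [heq b₀ hb₀] at g0
  have p0 := hpos b₀ hb₀
  have p1 := hpos b hb'
  have k0 : GG (al b₀) b₀ = r * b₀ / al b₀ := by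
    rw [eq_div_iff p0.ne']; exact g0
  have k1 : GG (al b) b = r * b / al b := by
    rw [eq_div_iff p1.ne']; exact g1
  rw [k0, k1, div_le_div_iff₀ p0 p1]
  have h5 : al b * b₀ ≤ b * al b₀ := by
    have := mul_le_mul_of_nonneg_right hle hb₀.le
    have h6 : b / b₀ * al b₀ * b₀ = b * al b₀ := by
      field_simp
    rw [h6] at this
    exact this
  nlinarith

end J7669

end Pool.Agent.VPF
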