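import Pool.Agent.VPF.Defs

set_option autoImplicit false
open MeasureTheory ProbabilityTheory
open scoped ENNReal Matrix


namespace Pool.Agent.VPF

namespace J7672

theorem b7_real (g : ℕ → ℝ) (m : ℕ) (hm : 1 ≤ m) (hg0 : g 0 = 0) (x : ℝ) : ∀ J : ℕ,
    (∀ j < J, g j ≤ g (j + 1)) → 0 ≤ g J ∧
    ∑ j ∈ Finset.range J, (if g (j + 1) ≤ x then g (j + 1) ^ m - g j ^ m else 0) ≤
      (min (max x 0) (g J)) ^ m := by
  intro J
  induction J with
  | zero =>
    intro _
    rw [hg0]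
    refine ⟨le_refl _, ?_⟩
    rw [Finset.sum_range_zero]
    have : min (max x 0) 0 = 0 := min_eq_right (le_max_right _ _)
    rw [this]
    positivity
  | succ J ih =>
    intro hg
    obtain ⟨h1, h2⟩ := ih fun j hj => hg j (by omega)
    have h3 := hg J (by omega)
    refine ⟨h1.trans h3, ?_⟩
    rw [Finset.sum_range_succ]
    split_ifs with hc
    · have e1 : min (max x 0) (g (J + 1)) = g (J + 1) := min_eq_right (hc.trans (le_max_left _ _))
      have e2 : min (max x 0) (g J) = g J :=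
        min_eq_right ((h3.trans hc).trans (le_max_left _ _))
      rw [e1]
      rw [e2] at h2
      linarith
    · rw [add_zero]
      refine h2.trans (pow_le_pow_left₀ (le_min (le_max_right _ _) h1) ?_ m)
      exact min_le_min (le_refl _) h3

theorem b7_enn (g : ℕ → ℝ) (m : ℕ) (hm : 1 ≤ m) (hg0 : g 0 = 0) (x : ℝ) (J : ℕ)
    (hg : ∀ j < J, g j ≤ g (j + 1)) (D : ℝ≥0∞) :
    ∑ j ∈ Finset.range J, ENNReal.ofReal (g (j + 1) ^ m - g j ^ m) *
      (if g (j + 1) ≤ x then D else 0) ≤ ENNReal.ofReal x ^ m * D := by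
  have hnn : ∀ j < J, 0 ≤ g (j + 1) ^ m - g j ^ m := by
    intro j hj
    have h0 := (b7_real g m hm hg0 x j fun i hi => hg i (by omega)).1
    exact sub_nonneg.2 (pow_le_pow_left₀ h0 (hg j hj) m)
  have h1 : ∑ j ∈ Finset.range J, ENNReal.ofReal (g (j + 1) ^ m - g j ^ m) *
      (if g (j + 1) ≤ x then D else 0) = ENNReal.ofReal (∑ j ∈ Finset.range J,
        (if g (j + 1) ≤ x then g (j + 1) ^ m - g j ^ m else 0)) * D := by
    rw [ENNReal.ofReal_sum_of_nonneg, Finset.sum_mul]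
    · refine Finset.sum_congr rfl fun j _ => ?_
      split_ifs <;> simp
    · intro j hj
      split_ifs
      · exact hnn j (Finset.mem_range.1 hj)
      · exact le_refl _
  rw [h1]
  refine mul_le_mul_left ?_ D
  have h2 := (b7_real g m hm hg0 x J hg).2
  have h3 : (0 : ℝ) ≤ min (max x 0) (g J) :=
    le_min (le_max_right _ _) (b7_real g m hm hg0 x J hg).1
  have h4 : (min (max x 0) (g J)) ^ m ≤ (max x 0) ^ m :=
    pow_le_pow_left₀ h3 (min_le_left _ _) m
  refine (ENNReal.ofReal_le_ofReal (h2.trans h4)).trans ?_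
  rw [ENNReal.ofReal_pow (le_max_right _ _)]
  refine pow_le_pow_left' (le_of_eq ?_) m
  rcases le_total 0 x with h | h
  · rw [max_eq_left h]
  · rw [max_eq_right h, ENNReal.ofReal_zero, ENNReal.ofReal_of_nonpos h]

theorem b7_super {α : Type*} [MeasurableSpace α] (μ : Measure α) (f : ℕ → α → ℝ≥0∞) (J : ℕ) :
    ∑ j ∈ Finset.range J, ∫⁻ a, f j a ∂μ ≤ ∫⁻ a, ∑ j ∈ Finset.range J, f j a ∂μ := by
  induction J with
  | zero => simp
  | succ J ih =>
    simp only [Finset.sum_range_succ]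
    refine le_trans (add_le_add_left ih _) ?_
    exact le_lintegral_add _ _

theorem BB_lower
    (KK_ge : ∀ n : ℕ, 2 ≤ n → ∀ a b : ℝ, 0 < b → ENNReal.ofReal (dn n a b) ≤ KK n a b)
    (n m : ℕ) (hn : 2 ≤ n) (hm : 1 ≤ m) (J : ℕ) (g Λ : ℕ → ℝ) (hg0 : g 0 = 0)
    (hg : ∀ j < J, g j ≤ g (j + 1)) (hΛ0 : ∀ j, 0 ≤ Λ j)
    (hΛ : ∀ j < J, ENNReal.ofReal (Λ (j + 1)) ≤
      ∫⁻ b in Set.Ioi (0 : ℝ), ∫⁻ a : ℝ,
        (if g (j + 1) ≤ GG a b then ENNReal.ofReal (dn n a b) else 0)) :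
    ENNReal.ofReal (∑ j ∈ Finset.range J, (g (j + 1) ^ m - g j ^ m) * Λ (j + 1)) ≤
      ∫⁻ b in Set.Ioi (0 : ℝ), ∫⁻ a : ℝ, ENNReal.ofReal (GG a b) ^ m * KK n a b := by
  have hnn : ∀ j < J, 0 ≤ g (j + 1) ^ m - g j ^ m := by
    intro j hj
    have h0 := (b7_real g m hm hg0 0 j fun i hi => hg i (by omega)).1
    exact sub_nonneg.2 (pow_le_pow_left₀ h0 (hg j hj) m)
  rw [ENNReal.ofReal_sum_of_nonneg fun j hj =>
    mul_nonneg (hnn j (Finset.mem_range.1 hj)) (hΛ0 _)]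
  have h1 : ∑ j ∈ Finset.range J, ENNReal.ofReal ((g (j + 1) ^ m - g j ^ m) * Λ (j + 1)) ≤
      ∑ j ∈ Finset.range J, ∫⁻ b in Set.Ioi (0 : ℝ), ∫⁻ a : ℝ,
        ENNReal.ofReal (g (j + 1) ^ m - g j ^ m) *
          (if g (j + 1) ≤ GG a b then ENNReal.ofReal (dn n a b) else 0) := by
    refine Finset.sum_le_sum fun j hj => ?_
    have hj' := Finset.mem_range.1 hj
    rw [ENNReal.ofReal_mul (hnn j hj')]
    refine (mul_le_mul_right (hΛ j hj') _).trans ?_
    refine (lintegral_const_mul_le _ _).trans ?_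
    exact lintegral_mono fun b => lintegral_const_mul_le _ _
  refine h1.trans ?_
  refine (b7_super _ _ J).trans ?_
  refine setLIntegral_mono' measurableSet_Ioi fun b hb => ?_
  refine (b7_super _ _ J).trans ?_
  refine lintegral_mono fun a => ?_
  refine (b7_enn g m hm hg0 (GG a b) J hg (ENNReal.ofReal (dn n a b))).trans ?_
  exact mul_le_mul_right (KK_ge n hn a b hb) _

end J7672

end Pool.Agent.VPF
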