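import Pool.Agent.VPF.J7665
import Pool.Agent.VPF.J7666
import Pool.Agent.VPF.J7667
import Pool.Agent.VPF.J7668
import Pool.Agent.VPF.J7669
import Pool.Agent.VPF.J7670
import Pool.Agent.VPF.J7671
import Pool.Agent.VPF.J7672
import Pool.Agent.VPF.J7673

set_option autoImplicit false
open MeasureTheory ProbabilityTheory
open scoped ENNReal Matrix

namespace Pool.Agent.VPF

/-- the main integral -/
noncomputable def EE (n m : ℕ) : ℝ≥0∞ :=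
  ∫⁻ x, (∫⁻ b in Set.Ioi (0 : ℝ), ∫⁻ a : ℝ, QQ (|x| / √(n : ℝ)) a b ^ m * KK n a b)
    ∂(gaussianReal 0 1)

/-- the factor in `(a, b)` -/
noncomputable def BI (n m : ℕ) : ℝ≥0∞ :=
  ∫⁻ b in Set.Ioi (0 : ℝ), ∫⁻ a : ℝ, ENNReal.ofReal (GG a b) ^ m * KK n a b

theorem om_le_one (a b : ℝ) : om a b ≤ 1 := prob_le_one

theorem QQ_le_one (H a b : ℝ) : QQ H a b ≤ 1 := by
  unfold QQ
  calc ∫⁻ x in {x : ℝ | |x| < H}, om (a * x / H) b ∂(gaussianReal 0 1)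
      ≤ ∫⁻ x in {x : ℝ | |x| < H}, 1 ∂(gaussianReal 0 1) :=
        lintegral_mono fun x => om_le_one _ _
    _ ≤ 1 := by
        rw [lintegral_const, one_mul]
        exact (Measure.restrict_apply_le _ _).trans prob_le_one

theorem EE_anti (n m m' : ℕ) (h : m ≤ m') : EE n m' ≤ EE n m := by
  unfold EE
  refine lintegral_mono fun x => lintegral_mono fun b => lintegral_mono fun a => ?_
  exact mul_le_mul_left (pow_le_pow_of_le_one (by positivity) (QQ_le_one _ _ _) h) _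

theorem EE_prod (n m : ℕ) (hn : 1 ≤ n) (hm : 1 ≤ m) : J1 n m * BI n m ≤ EE n m := by
  have hs : 0 < √(n : ℝ) := Real.sqrt_pos.2 (by exact_mod_cast hn)
  unfold J1 EE
  refine (lintegral_mul_const_le _ _).trans (lintegral_mono fun x => ?_)
  unfold BI
  rcases eq_or_ne x 0 with hx | hx
  · have h0 : SS (|x| / √(n : ℝ)) = 0 := by
      rw [hx]; unfold SS
      have : {t : ℝ | |t| < |(0:ℝ)| / √(n : ℝ)} = ∅ := by
        ext t; simp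
      rw [this]; simp
    rw [h0, zero_pow (by omega), zero_mul]
    exact zero_le
  · have hH : 0 < |x| / √(n : ℝ) := div_pos (abs_pos.2 hx) hs
    refine (lintegral_const_mul_le _ _).trans ?_
    refine setLIntegral_mono' measurableSet_Ioi fun b hb => ?_
    refine (lintegral_const_mul_le _ _).trans (lintegral_mono fun a => ?_)
    rw [← mul_assoc, ← mul_pow]
    exact mul_le_mul_left (pow_le_pow_left' (J7665.QQ_ge_GG _ a b hH hb) m) _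

theorem box : ∀ g a₀ b₀ r M : ℝ, 0 < a₀ → 0 < b₀ → g ≤ GG a₀ b₀ → 0 < r →
      r < rr a₀ b₀ → 0 < M → M ≤ mu 0 a₀ b₀ →
      ∃ a b : ℝ, 0 < a ∧ 0 < b ∧ rr a b = r ∧ mu 0 a b = M ∧ g ≤ GG a b :=
  fun g a₀ b₀ r M h1 h2 h3 h4 h5 h6 h7 =>
    J7669.box J7666.GG_mul J7668.rr_zero J7668.rr_strictMono J7668.rr_lt_one J7668.rr_tendsto
      J7668.rr_cont J7668.mu_cont J7668.rr_scale J7668.mu0_anti J7668.mu0_le J7668.GG_anti
      g a₀ b₀ r M h1 h2 h3 h4 h5 h6 h7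

/-- the measure of a superlevel set of `GG` -/
noncomputable def nuG (n : ℕ) (g : ℝ) : ℝ≥0∞ :=
  ∫⁻ b in Set.Ioi (0 : ℝ), ∫⁻ a : ℝ, (if g ≤ GG a b then ENNReal.ofReal (dn n a b) else 0)

theorem nu_lower (n : ℕ) (hn : 2 ≤ n) (g : ℝ) (I : ℕ) (a b ρ μ : ℕ → ℝ)
    (h : ∀ i < I, 0 < a i ∧ 0 < b i ∧ g ≤ GG (a i) (b i) ∧ ρ (i + 1) ≤ rr (a i) (b i) ∧
      0 ≤ μ i ∧ μ i ≤ mu 0 (a i) (b i))
    (h0 : ρ 0 = 0) (hmono : ∀ i < I, ρ i ≤ ρ (i + 1)) :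
    ENNReal.ofReal (√(n : ℝ) * ∑ i ∈ Finset.range I, (ρ (i + 1) - ρ i) * μ i ^ (n - 1)) ≤
      nuG n g :=
  J7670.nu_lower J7667.F_deriv J7667.F_det box n hn g I a b ρ μ h h0 hmono

theorem BB_lower (n : ℕ) (hn : 2 ≤ n) (m : ℕ) (hm : 1 ≤ m) (J : ℕ) (g Λ : ℕ → ℝ) (hg0 : g 0 = 0)
    (hg : ∀ j < J, g j ≤ g (j + 1)) (hΛ0 : ∀ j, 0 ≤ Λ j)
    (hΛ : ∀ j < J, ENNReal.ofReal (Λ (j + 1)) ≤ nuG n (g (j + 1))) :
    ENNReal.ofReal (∑ j ∈ Finset.range J, (g (j + 1) ^ m - g j ^ m) * Λ (j + 1)) ≤ BI n m :=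
  J7672.BB_lower J7671.KK_ge n m hn hm J g Λ hg0 hg hΛ0 hΛ

end Pool.Agent.VPF
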