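import Pool.Agent.VPF.Defs2

set_option autoImplicit false
open MeasureTheory ProbabilityTheory
open scoped ENNReal Matrix

namespace Pool.Agent.VPF.J9017

theorem ph_cont : Continuous ph := by
  unfold ph; fun_prop

theorem ph_even (y : ℝ) : ph (-y) = ph y := by
  unfold ph; simp

theorem PP_cont : Continuous PP := by
  unfold PP
  exact continuous_const.mul (intervalIntegral.continuous_primitive (fun a b => ph_cont.intervalIntegrable a b) 0)

theorem PP_odd (y : ℝ) : PP (-y) = - PP y := by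
  unfold PP
  have h := intervalIntegral.integral_comp_neg (f := ph) (a := 0) (b := y)
  simp only [ph_even, neg_zero] at h
  have h2 : (∫ t in (0:ℝ)..(-y), ph t) = - ∫ x in (0:ℝ)..y, ph x := by
    rw [intervalIntegral.integral_symm, h]
  rw [h2]
  ring

theorem GG_even (a b : ℝ) : GG (-a) b = GG a b := by
  unfold GG
  congr 1
  ext s
  rw [show s * -a + b = -(s * a - b) by ring, show s * -a - b = -(s * a + b) by ring, PP_odd, PP_odd]
  ring

theorem mu_neg (k : ℕ) (a b : ℝ) : mu k (-a) b = (-1) ^ k * mu k a b := by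
  unfold mu
  have h := intervalIntegral.integral_comp_neg (f := fun z : ℝ => z ^ k * Real.exp (-(-a + z * b) ^ 2 / 2)) (a := -1) (b := 1)
  rw [neg_neg] at h
  rw [← h]
  have : ∀ x : ℝ, (-x) ^ k * Real.exp (-(-a + -x * b) ^ 2 / 2) = (-1) ^ k * (x ^ k * Real.exp (-(a + x * b) ^ 2 / 2)) := by
    intro x
    rw [neg_pow, show (-a + -x * b) ^ 2 = (a + x * b) ^ 2 by ring]
    ring
  simp_rw [this]
  rw [intervalIntegral.integral_const_mul]
  ring

theorem dn_even (n : ℕ) (a b : ℝ) : dn n (-a) b = dn n a b := by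
  unfold dn
  rw [mu_neg, mu_neg, mu_neg]
  simp

theorem GG_cont : Continuous (fun p : ℝ × ℝ => GG p.1 p.2) := by
  unfold GG
  apply intervalIntegral.continuous_parametric_intervalIntegral_of_continuous'
  have := PP_cont
  fun_prop

theorem mu_cont' (k : ℕ) : Continuous (fun p : ℝ × ℝ => mu k p.1 p.2) := by
  unfold mu
  refine continuous_const.mul ?_
  apply intervalIntegral.continuous_parametric_intervalIntegral_of_continuous'
  fun_prop

theorem dn_cont (n : ℕ) : Continuous (fun p : ℝ × ℝ => dn n p.1 p.2) := by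
  unfold dn
  have h0 := mu_cont' 0
  have h1 := mu_cont' 1
  have h2 := mu_cont' 2
  fun_prop

theorem SS_lower_gen (n : ℕ) (S : Set (ℝ × ℝ)) (hSm : MeasurableSet S)
    (hS3 : ∀ a b : ℝ, (a, b) ∈ S → (-a, b) ∈ S) :
    2 * ∫⁻ p in {p : ℝ × ℝ | 0 < p.1 ∧ 0 < p.2 ∧ p ∈ S}, ENNReal.ofReal (dn n p.1 p.2) ≤
      ∫⁻ b in Set.Ioi (0 : ℝ), ∫⁻ a : ℝ,
        S.indicator (fun p => ENNReal.ofReal (dn n p.1 p.2)) (a, b) := by
  set f : ℝ × ℝ → ℝ≥0∞ := S.indicator (fun p => ENNReal.ofReal (dn n p.1 p.2)) with hf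
  have hfm : Measurable f := (dn_cont n).measurable.ennreal_ofReal.indicator hSm
  have hS : MeasurableSet {p : ℝ × ℝ | 0 < p.1 ∧ 0 < p.2 ∧ p ∈ S} := by
    apply MeasurableSet.inter
    · exact measurableSet_lt measurable_const measurable_fst
    apply MeasurableSet.inter
    · exact measurableSet_lt measurable_const measurable_snd
    · exact hSm
  have h1 : ∫⁻ p in {p : ℝ × ℝ | 0 < p.1 ∧ 0 < p.2 ∧ p ∈ S}, ENNReal.ofReal (dn n p.1 p.2)
      ≤ ∫⁻ p in Set.Ioi (0:ℝ) ×ˢ Set.Ioi (0:ℝ), f p := by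
    calc ∫⁻ p in {p : ℝ × ℝ | 0 < p.1 ∧ 0 < p.2 ∧ p ∈ S}, ENNReal.ofReal (dn n p.1 p.2)
        = ∫⁻ p in {p : ℝ × ℝ | 0 < p.1 ∧ 0 < p.2 ∧ p ∈ S}, f p := by
          apply setLIntegral_congr_fun hS
          intro p hp
          simp only [hf]
          rw [Set.indicator_of_mem hp.2.2]
      _ ≤ _ := by
          apply lintegral_mono_set
          intro p hp
          exact ⟨hp.1, hp.2.1⟩
  have h2 : ∫⁻ p in Set.Ioi (0:ℝ) ×ˢ Set.Ioi (0:ℝ), f p = ∫⁻ b in Set.Ioi (0:ℝ), ∫⁻ a in Set.Ioi (0:ℝ), f (a, b) := by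
    rw [Measure.volume_eq_prod, ← Measure.prod_restrict, lintegral_prod_symm _ hfm.aemeasurable]
  have hfs : ∀ a b : ℝ, f (-a, b) = f (a, b) := by
    intro a b
    simp only [hf]
    by_cases hab : (a, b) ∈ S
    · rw [Set.indicator_of_mem hab, Set.indicator_of_mem (hS3 a b hab)]
      simp only [dn_even]
    · have hab' : (-a, b) ∉ S := fun h => hab (by simpa using hS3 _ _ h)
      rw [Set.indicator_of_notMem hab, Set.indicator_of_notMem hab']
  have h3 : ∀ b : ℝ, 2 * ∫⁻ a in Set.Ioi (0:ℝ), f (a, b) ≤ ∫⁻ a : ℝ, f (a, b) := by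
    intro b
    have hsym : ∫⁻ a in Set.Iio (0:ℝ), f (a, b) = ∫⁻ a in Set.Ioi (0:ℝ), f (a, b) := by
      have hmp : MeasurePreserving (fun x : ℝ => -x) volume volume := Measure.measurePreserving_neg volume
      have := hmp.setLIntegral_comp_preimage (s := Set.Ioi (0:ℝ)) measurableSet_Ioi
        (f := fun a => f (a, b)) (hfm.comp (measurable_id.prodMk measurable_const))
      rw [← this]
      have e : (fun x : ℝ => -x) ⁻¹' Set.Ioi (0:ℝ) = Set.Iio 0 := by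
        ext x; simp
      rw [e]
      apply lintegral_congr
      intro x
      exact (hfs x b).symm
    calc 2 * ∫⁻ a in Set.Ioi (0:ℝ), f (a, b)
        = (∫⁻ a in Set.Iio (0:ℝ), f (a, b)) + ∫⁻ a in Set.Ioi (0:ℝ), f (a, b) := by rw [hsym, two_mul]
      _ = ∫⁻ a in Set.Iio (0:ℝ) ∪ Set.Ioi (0:ℝ), f (a, b) := by
          rw [lintegral_union measurableSet_Ioi]
          rw [Set.disjoint_left]
          intro x hx hx'
          rw [Set.mem_Iio] at hx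
          rw [Set.mem_Ioi] at hx'
          linarith
      _ ≤ ∫⁻ a : ℝ, f (a, b) := setLIntegral_le_lintegral _ _
  calc 2 * ∫⁻ p in {p : ℝ × ℝ | 0 < p.1 ∧ 0 < p.2 ∧ p ∈ S}, ENNReal.ofReal (dn n p.1 p.2)
      ≤ 2 * ∫⁻ p in Set.Ioi (0:ℝ) ×ˢ Set.Ioi (0:ℝ), f p := by gcongr
    _ = 2 * ∫⁻ b in Set.Ioi (0:ℝ), ∫⁻ a in Set.Ioi (0:ℝ), f (a, b) := by rw [h2]
    _ = ∫⁻ b in Set.Ioi (0:ℝ), 2 * ∫⁻ a in Set.Ioi (0:ℝ), f (a, b) := by
        rw [lintegral_const_mul' _ _ (by simp)]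
    _ ≤ ∫⁻ b in Set.Ioi (0:ℝ), ∫⁻ a : ℝ, f (a, b) := lintegral_mono (fun b => h3 b)

theorem rect_sum (I m : ℕ) (ρ μ : ℕ → ℝ) (hmono : ∀ i < I, ρ i ≤ ρ (i + 1)) (hμ : ∀ i < I, 0 ≤ μ i) :
    ENNReal.ofReal (∑ i ∈ Finset.range I, (ρ (i + 1) - ρ i) * μ i ^ m) ≤
      volume (⋃ i ∈ Finset.range I, Set.Ioo (ρ i) (ρ (i+1)) ×ˢ Set.Ioo (0:ℝ) (μ i ^ m)) := by
  rw [measure_biUnion_finset]
  · rw [ENNReal.ofReal_sum_of_nonneg]
    · apply Finset.sum_le_sum
      intro i hi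
      rw [Measure.volume_eq_prod, Measure.prod_prod, Real.volume_Ioo, Real.volume_Ioo, sub_zero,
        ENNReal.ofReal_mul (by linarith [hmono i (Finset.mem_range.mp hi)])]
    · intro i hi
      exact mul_nonneg (by linarith [hmono i (Finset.mem_range.mp hi)]) (pow_nonneg (hμ i (Finset.mem_range.mp hi)) _)
  · have key : ∀ i j, i < j → j < I → ρ (i+1) ≤ ρ j := by
      intro i j hij
      induction j, hij using Nat.le_induction with
      | base => intro _; exact le_rfl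
      | succ j hj ih =>
        intro hjI
        exact (ih (by omega)).trans (hmono j (by omega))
    intro i hi j hj hij
    rw [Function.onFun, Set.disjoint_left]
    rintro ⟨x, y⟩ ⟨hx, _⟩ ⟨hx', _⟩
    simp only [Set.mem_Ioo] at hx hx'
    have hi' : i < I := by simpa using hi
    have hj' : j < I := by simpa using hj
    rcases lt_or_gt_of_ne hij with h | h
    · linarith [key i j h hj', hx.2, hx'.1]
    · linarith [key j i h hi', hx'.2, hx.1]
  · intro i _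
    exact measurableSet_Ioo.prod measurableSet_Ioo

theorem box_gen
    (rr_zero : ∀ b : ℝ, rr 0 b = 0)
    (rr_strictMono : ∀ b : ℝ, 0 < b → StrictMono (fun a => rr a b))
    (rr_lt_one : ∀ a b : ℝ, 0 < b → rr a b < 1)
    (rr_tendsto : ∀ b : ℝ, 0 < b → Filter.Tendsto (fun a => rr a b) Filter.atTop (nhds 1))
    (rr_cont : Continuous (fun p : ℝ × ℝ => rr p.1 p.2))
    (mu_cont : ∀ k : ℕ, Continuous (fun p : ℝ × ℝ => mu k p.1 p.2))
    (rr_scale : ∀ a b l : ℝ, 0 ≤ a → 0 < b → 1 ≤ l → rr a b ≤ rr (l * a) (l * b))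
    (mu0_anti : ∀ a a' b : ℝ, 0 ≤ a → a ≤ a' → 0 < b → mu 0 a' b ≤ mu 0 a b)
    (mu0_le : ∀ a b : ℝ, 0 < b → mu 0 a b ≤ √(2 * Real.pi) / (2 * b))
    (S : Set (ℝ × ℝ))
    (hS1 : ∀ a a' b : ℝ, 0 ≤ a' → a' ≤ a → 0 < b → (a, b) ∈ S → (a', b) ∈ S)
    (hS2 : ∀ a b l : ℝ, 0 ≤ a → 0 < b → 1 ≤ l → (a, b) ∈ S → (l * a, l * b) ∈ S)
    (a₀ b₀ r M : ℝ) (ha₀ : 0 < a₀) (hb₀ : 0 < b₀) (hg : (a₀, b₀) ∈ S) (hr0 : 0 < r)
    (hr : r < rr a₀ b₀) (hM0 : 0 < M) (hM : M ≤ mu 0 a₀ b₀) :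
    ∃ a b : ℝ, 0 < a ∧ 0 < b ∧ rr a b = r ∧ mu 0 a b = M ∧ (a, b) ∈ S := by
  have hr1 : r < 1 := hr.trans (rr_lt_one _ _ hb₀)
  -- existence of the root
  have hex : ∀ b : ℝ, ∃ a : ℝ, 0 < b → (0 < a ∧ rr a b = r) := by
    intro b
    by_cases hb : 0 < b
    · have h1 : ∀ᶠ a in Filter.atTop, r < rr a b := (rr_tendsto b hb).eventually_const_lt hr1
      obtain ⟨A, hA, hA0⟩ := (h1.and (Filter.eventually_gt_atTop (0 : ℝ))).exists
      have hc : ContinuousOn (fun a => rr a b) (Set.Icc 0 A) :=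
        (rr_cont.comp (continuous_id.prodMk continuous_const)).continuousOn
      have h2 := intermediate_value_Icc hA0.le hc
      have h3 : r ∈ Set.Icc (rr 0 b) (rr A b) := ⟨by rw [rr_zero]; exact hr0.le, hA.le⟩
      obtain ⟨a, ha, har⟩ := h2 h3
      refine ⟨a, fun _ => ⟨?_, har⟩⟩
      rcases ha.1.lt_or_eq with h | h
      · exact h
      · exfalso
        have har' : rr a b = r := har
        rw [← h, rr_zero] at har'
        exact hr0.ne har'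
    · exact ⟨0, fun h => absurd h hb⟩
  choose al hal using hex
  have hpos : ∀ b, 0 < b → 0 < al b := fun b hb => (hal b hb).1
  have heq : ∀ b, 0 < b → rr (al b) b = r := fun b hb => (hal b hb).2
  -- continuity
  have hcont : ∀ b, 0 < b → ContinuousAt al b := by
    intro b1 hb1
    rw [Metric.continuousAt_iff']
    intro ε hε
    have c1 : rr (al b1 - ε) b1 < r := by
      rw [← heq b1 hb1]
      exact rr_strictMono b1 hb1 (by linarith)
    have c2 : r < rr (al b1 + ε) b1 := by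
      conv_lhs => rw [← heq b1 hb1]
      exact rr_strictMono b1 hb1 (by linarith)
    have d1 : ∀ᶠ b in nhds b1, rr (al b1 - ε) b < r :=
      ((rr_cont.comp (continuous_const.prodMk continuous_id)).continuousAt
        (x := b1)).eventually_lt_const c1
    have d2 : ∀ᶠ b in nhds b1, r < rr (al b1 + ε) b :=
      ((rr_cont.comp (continuous_const.prodMk continuous_id)).continuousAt
        (x := b1)).eventually_const_lt c2
    filter_upwards [d1, d2, lt_mem_nhds hb1] with b e1 e2 e3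
    rw [← heq b e3] at e1 e2
    have f1 : al b1 - ε < al b := (rr_strictMono b e3).lt_iff_lt.1 e1
    have f2 : al b < al b1 + ε := (rr_strictMono b e3).lt_iff_lt.1 e2
    rw [Real.dist_eq, abs_lt]
    constructor <;> linarith
  -- the value at `b₀`
  have ha1 : al b₀ < a₀ := by
    refine (rr_strictMono b₀ hb₀).lt_iff_lt.1 ?_
    show rr (al b₀) b₀ < rr a₀ b₀
    rw [heq b₀ hb₀]
    exact hr
  have hM1 : M ≤ mu 0 (al b₀) b₀ :=
    hM.trans (mu0_anti _ _ _ (hpos b₀ hb₀).le ha1.le hb₀)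
  have hg1 : (al b₀, b₀) ∈ S := hS1 _ _ _ (hpos b₀ hb₀).le ha1.le hb₀ hg
  -- the intermediate value theorem for `mu 0`
  set B : ℝ := max b₀ (√(2 * Real.pi) / (2 * M)) with hB
  have hB0 : b₀ ≤ B := le_max_left _ _
  have hBpos : 0 < B := hb₀.trans_le hB0
  have hMB : mu 0 (al B) B ≤ M := by
    refine (mu0_le _ _ hBpos).trans ?_
    rw [div_le_iff₀ (by positivity)]
    have h1 : √(2 * Real.pi) / (2 * M) ≤ B := le_max_right _ _
    rw [div_le_iff₀ (by positivity)] at h1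
    nlinarith
  have hc2 : ContinuousOn (fun b => mu 0 (al b) b) (Set.Icc b₀ B) := by
    intro b hb
    have hb' : 0 < b := hb₀.trans_le hb.1
    refine ContinuousAt.continuousWithinAt ?_
    exact ((mu_cont 0).continuousAt).comp (f := fun b => (al b, b))
      ((hcont b hb').prodMk continuousAt_id)
  have hivt := intermediate_value_Icc' hB0 hc2
  obtain ⟨b, hb, hbM⟩ := hivt ⟨hMB, hM1⟩
  have hb' : 0 < b := hb₀.trans_le hb.1
  refine ⟨al b, b, hpos b hb', hb', heq b hb', hbM, ?_⟩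
  have hl : 1 ≤ b / b₀ := by
    rw [le_div_iff₀ hb₀, one_mul]
    exact hb.1
  have hs := rr_scale (al b₀) b₀ (b / b₀) (hpos b₀ hb₀).le hb₀ hl
  rw [div_mul_cancel₀ _ hb₀.ne', heq b₀ hb₀] at hs
  rw [← heq b hb'] at hs
  have hle : al b ≤ b / b₀ * al b₀ := (rr_strictMono b hb').le_iff_le.1 hs
  have h5 := hS2 _ _ (b / b₀) (hpos b₀ hb₀).le hb₀ hl hg1
  rw [div_mul_cancel₀ _ hb₀.ne'] at h5
  exact hS1 _ _ _ (hpos b hb').le hle hb' h5

theorem nu_lower_gen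
    (F_deriv : ∀ n : ℕ, 2 ≤ n → ∀ a b : ℝ,
      HasFDerivAt (fun p : ℝ × ℝ => (rr p.1 p.2, mu 0 p.1 p.2 ^ (n - 1)))
      (((2 / √(2 * Real.pi)) • (mu 0 a b • ContinuousLinearMap.fst ℝ ℝ ℝ +
          mu 1 a b • ContinuousLinearMap.snd ℝ ℝ ℝ)).prod
        (((n - 1 : ℝ) * mu 0 a b ^ (n - 2)) •
          ((-(a * mu 0 a b + b * mu 1 a b)) • ContinuousLinearMap.fst ℝ ℝ ℝ +
           (-(a * mu 1 a b + b * mu 2 a b)) • ContinuousLinearMap.snd ℝ ℝ ℝ))) (a, b))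
    (F_det : ∀ n : ℕ, 2 ≤ n → ∀ a b : ℝ, 0 < b →
      |(((2 / √(2 * Real.pi)) • (mu 0 a b • ContinuousLinearMap.fst ℝ ℝ ℝ +
          mu 1 a b • ContinuousLinearMap.snd ℝ ℝ ℝ)).prod
        (((n - 1 : ℝ) * mu 0 a b ^ (n - 2)) •
          ((-(a * mu 0 a b + b * mu 1 a b)) • ContinuousLinearMap.fst ℝ ℝ ℝ +
           (-(a * mu 1 a b + b * mu 2 a b)) • ContinuousLinearMap.snd ℝ ℝ ℝ))).det| * (√(n : ℝ) / 2)
      = dn n a b)
    (rr_zero : ∀ b : ℝ, rr 0 b = 0)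
    (rr_strictMono : ∀ b : ℝ, 0 < b → StrictMono (fun a => rr a b))
    (rr_lt_one : ∀ a b : ℝ, 0 < b → rr a b < 1)
    (rr_tendsto : ∀ b : ℝ, 0 < b → Filter.Tendsto (fun a => rr a b) Filter.atTop (nhds 1))
    (rr_cont : Continuous (fun p : ℝ × ℝ => rr p.1 p.2))
    (mu_cont : ∀ k : ℕ, Continuous (fun p : ℝ × ℝ => mu k p.1 p.2))
    (rr_scale : ∀ a b l : ℝ, 0 ≤ a → 0 < b → 1 ≤ l → rr a b ≤ rr (l * a) (l * b))
    (mu0_anti : ∀ a a' b : ℝ, 0 ≤ a → a ≤ a' → 0 < b → mu 0 a' b ≤ mu 0 a b)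
    (mu0_le : ∀ a b : ℝ, 0 < b → mu 0 a b ≤ √(2 * Real.pi) / (2 * b))
    (n : ℕ) (hn : 2 ≤ n) (S : Set (ℝ × ℝ)) (hSm : MeasurableSet S)
    (hS1 : ∀ a a' b : ℝ, 0 ≤ a' → a' ≤ a → 0 < b → (a, b) ∈ S → (a', b) ∈ S)
    (hS2 : ∀ a b l : ℝ, 0 ≤ a → 0 < b → 1 ≤ l → (a, b) ∈ S → (l * a, l * b) ∈ S)
    (hS3 : ∀ a b : ℝ, (a, b) ∈ S → (-a, b) ∈ S)
    (I : ℕ) (a b ρ μ : ℕ → ℝ)
    (h : ∀ i < I, 0 < a i ∧ 0 < b i ∧ (a i, b i) ∈ S ∧ ρ (i + 1) ≤ rr (a i) (b i) ∧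
      0 ≤ μ i ∧ μ i ≤ mu 0 (a i) (b i))
    (h0 : ρ 0 = 0) (hmono : ∀ i < I, ρ i ≤ ρ (i + 1)) :
    ENNReal.ofReal (√(n : ℝ) * ∑ i ∈ Finset.range I, (ρ (i + 1) - ρ i) * μ i ^ (n - 1)) ≤
      ∫⁻ b in Set.Ioi (0 : ℝ), ∫⁻ a : ℝ,
        S.indicator (fun p => ENNReal.ofReal (dn n p.1 p.2)) (a, b) := by
  set S' : Set (ℝ × ℝ) := {p : ℝ × ℝ | 0 < p.1 ∧ 0 < p.2 ∧ p ∈ S} with hSdef
  have hS : MeasurableSet S' := by
    apply MeasurableSet.inter
    · exact measurableSet_lt measurable_const measurable_fst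
    apply MeasurableSet.inter
    · exact measurableSet_lt measurable_const measurable_snd
    · exact hSm
  refine le_trans ?_ (SS_lower_gen n S hSm hS3)
  set F : ℝ × ℝ → ℝ × ℝ := fun p : ℝ × ℝ => (rr p.1 p.2, mu 0 p.1 p.2 ^ (n - 1)) with hF
  set F' : ℝ × ℝ → (ℝ × ℝ →L[ℝ] ℝ × ℝ) := fun p => (((2 / √(2 * Real.pi)) • (mu 0 p.1 p.2 • ContinuousLinearMap.fst ℝ ℝ ℝ +
          mu 1 p.1 p.2 • ContinuousLinearMap.snd ℝ ℝ ℝ)).prod
        (((n - 1 : ℝ) * mu 0 p.1 p.2 ^ (n - 2)) •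
          ((-(p.1 * mu 0 p.1 p.2 + p.2 * mu 1 p.1 p.2)) • ContinuousLinearMap.fst ℝ ℝ ℝ +
           (-(p.1 * mu 1 p.1 p.2 + p.2 * mu 2 p.1 p.2)) • ContinuousLinearMap.snd ℝ ℝ ℝ))) with hF'
  have himg : volume (F '' S') ≤ ∫⁻ p in S', ENNReal.ofReal |(F' p).det| := by
    apply addHaar_image_le_lintegral_abs_det_fderiv volume hS
    intro p hp
    exact (F_deriv n hn p.1 p.2).hasFDerivWithinAt
  have hdet : ∫⁻ p in S', ENNReal.ofReal (dn n p.1 p.2) = ENNReal.ofReal (√(n:ℝ)/2) * ∫⁻ p in S', ENNReal.ofReal |(F' p).det| := by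
    rw [← lintegral_const_mul' _ _ (by simp)]
    apply setLIntegral_congr_fun hS
    intro p hp
    simp only
    rw [← F_det n hn p.1 p.2 hp.2.1, ENNReal.ofReal_mul (abs_nonneg _), mul_comm]
  have hsub : (⋃ i ∈ Finset.range I, Set.Ioo (ρ i) (ρ (i+1)) ×ˢ Set.Ioo (0:ℝ) (μ i ^ (n-1))) ⊆ F '' S' := by
    intro q hq
    simp only [Set.mem_iUnion, Finset.mem_range] at hq
    obtain ⟨i, hi, hq1, hq2⟩ := hq
    obtain ⟨ha, hb, hg, hr, hμ0, hμ⟩ := h i hi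
    have hρ : ∀ j, j ≤ I → 0 ≤ ρ j := by
      intro j
      induction j with
      | zero => intro _; rw [h0]
      | succ j ih => intro hj; exact (ih (by omega)).trans (hmono j (by omega))
    have hn1 : n - 1 ≠ 0 := by omega
    set M : ℝ := q.2 ^ (((n - 1 : ℕ) : ℝ)⁻¹) with hM
    have hMpow : M ^ (n - 1) = q.2 := Real.rpow_inv_natCast_pow hq2.1.le hn1
    have hMpos : 0 < M := Real.rpow_pos_of_pos hq2.1 _
    have hMle : M ≤ mu 0 (a i) (b i) := by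
      have : M < μ i := by
        apply lt_of_pow_lt_pow_left₀ (n - 1) hμ0
        rw [hMpow]; exact hq2.2
      linarith
    obtain ⟨a', b', ha', hb', hrr, hmu, hgg⟩ := box_gen rr_zero rr_strictMono rr_lt_one
      rr_tendsto rr_cont mu_cont rr_scale mu0_anti mu0_le S hS1 hS2 (a i) (b i) q.1 M ha hb hg
      (lt_of_le_of_lt (hρ i hi.le) hq1.1) (lt_of_lt_of_le hq1.2 hr) hMpos hMle
    refine ⟨(a', b'), ⟨ha', hb', hgg⟩, ?_⟩
    simp only [hF]
    rw [hrr, hmu, hMpow]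
  have hvol := (rect_sum I (n-1) ρ μ hmono (fun i hi => (h i hi).2.2.2.2.1)).trans ((measure_mono hsub).trans himg)
  rw [hdet, ENNReal.ofReal_mul (Real.sqrt_nonneg _), ← mul_assoc]
  have e2 : (2 : ℝ≥0∞) * ENNReal.ofReal (√(n:ℝ)/2) = ENNReal.ofReal (√(n:ℝ)) := by
    rw [show (2 : ℝ≥0∞) = ENNReal.ofReal 2 by simp, ← ENNReal.ofReal_mul (by norm_num)]
    congr 1
    ring
  rw [e2]
  gcongr

end Pool.Agent.VPF.J9017
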