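import Pool.Agent.VPF.Defs2

set_option autoImplicit false
open MeasureTheory ProbabilityTheory
open scoped ENNReal Matrix

namespace Pool.Agent.VPF.J9018

open Filter Topology Set in
theorem q2_ph_cont : Continuous ph := by
  unfold ph
  fun_prop

theorem q2_PP_deriv (y : ℝ) : HasDerivAt PP (2 * ph y) y := by
  have h1 : HasDerivAt (fun y => ∫ t in (0 : ℝ)..y, ph t) (ph y) y :=
    (q2_ph_cont.integral_hasStrictDerivAt 0 y).hasDerivAt
  exact h1.const_mul 2

theorem q2_PP_cont : Continuous PP :=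
  continuous_iff_continuousAt.2 fun y => (q2_PP_deriv y).continuousAt

theorem q2_PP_zero : PP 0 = 0 := by simp [PP]

theorem q2_ph_pos (y : ℝ) : 0 < ph y := by
  unfold ph
  positivity

theorem q2_ph_eq (y : ℝ) : 2 * ph y = √(2 / Real.pi) * Real.exp (-y ^ 2 / 2) := by
  have hpi := Real.pi_pos
  have h1 : √(2 / Real.pi) * √(2 * Real.pi) = 2 := by
    rw [← Real.sqrt_mul (by positivity)]
    have : 2 / Real.pi * (2 * Real.pi) = 2 ^ 2 := by
      rw [div_mul_eq_mul_div, div_eq_iff hpi.ne']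
      ring
    rw [this, Real.sqrt_sq (by norm_num)]
  have h2 : 0 < √(2 * Real.pi) := by positivity
  unfold ph
  rw [mul_div_assoc', div_eq_iff h2.ne']
  calc 2 * Real.exp (-y ^ 2 / 2) = (√(2 / Real.pi) * √(2 * Real.pi)) * Real.exp (-y ^ 2 / 2) := by
        rw [h1]
    _ = _ := by ring

open Filter Topology Set in
theorem q2_PP_tendsto : Tendsto PP atTop (𝓝 1) := by
  have hpi := Real.pi_pos
  have h1 : ∫ t in Ioi (0 : ℝ), ph t = 1 / 2 := by
    have h2 := integral_gaussian_Ioi (1 / 2)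
    have h3 : ∀ t : ℝ, ph t = (√(2 * Real.pi))⁻¹ * Real.exp (-(1 / 2) * t ^ 2) := by
      intro t
      unfold ph
      rw [div_eq_inv_mul]
      congr 2
      ring
    simp_rw [h3]
    rw [integral_const_mul, h2]
    have h4 : Real.pi / (1 / 2) = 2 * Real.pi := by ring
    rw [h4]
    have h5 : √(2 * Real.pi) ≠ 0 := by positivity
    field_simp
  have hint : IntegrableOn ph (Ioi 0) := by
    have h3 : ph = fun t => (√(2 * Real.pi))⁻¹ * Real.exp (-(1 / 2) * t ^ 2) := by
      funext t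
      unfold ph
      rw [div_eq_inv_mul]
      congr 2
      ring
    rw [h3]
    exact ((integrable_exp_neg_mul_sq (b := 1 / 2) (by norm_num)).const_mul _).integrableOn
  have h2 := (intervalIntegral_tendsto_integral_Ioi 0 hint tendsto_id).const_mul 2
  rw [h1] at h2
  have h3 : (2 : ℝ) * (1 / 2) = 1 := by norm_num
  rw [h3] at h2
  exact h2

theorem q2_PP_strictMono : StrictMono PP := by
  refine strictMono_of_deriv_pos fun x => ?_
  rw [(q2_PP_deriv x).deriv]
  have := q2_ph_pos x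
  positivity

theorem q2_PP_lt_one (y : ℝ) : PP y < 1 := by
  have h1 : PP y < PP (y + 1) := q2_PP_strictMono (by linarith)
  have h2 : PP (y + 1) ≤ 1 := q2_PP_strictMono.monotone.ge_of_tendsto q2_PP_tendsto (y + 1)
  linarith

open Filter Topology Set in
/-- Mills ratio, upper bound of the tail -/
theorem mills (y : ℝ) (hy : 0 < y) :
    1 - PP y ≤ √(2 / Real.pi) * (y ^ 2 + 2) / (y * (y ^ 2 + 3)) * Real.exp (-y ^ 2 / 2) := by
  set c : ℝ := √(2 / Real.pi) with hc
  have hc0 : 0 < c := by have := Real.pi_pos; positivity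
  set D : ℝ → ℝ := fun y => c * (y ^ 2 + 2) / (y * (y ^ 2 + 3)) * Real.exp (-y ^ 2 / 2) -
    (1 - PP y) with hD
  have hder : ∀ y : ℝ, 0 < y → HasDerivAt D
      (-(c * (6 / (y * (y ^ 2 + 3)) ^ 2) * Real.exp (-y ^ 2 / 2))) y := by
    intro y hy
    have h1 : HasDerivAt (fun y : ℝ => c * (y ^ 2 + 2)) (c * (2 * y)) y := by
      have := ((hasDerivAt_pow 2 y).add_const (2 : ℝ)).const_mul c
      simpa using this
    have h2 : HasDerivAt (fun y : ℝ => y * (y ^ 2 + 3)) (3 * y ^ 2 + 3) y := by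
      have := (hasDerivAt_id y).mul ((hasDerivAt_pow 2 y).add_const (3 : ℝ))
      refine this.congr_deriv ?_
      simp only [id]
      push_cast
      ring
    have h3 : HasDerivAt (fun y : ℝ => Real.exp (-y ^ 2 / 2))
        (Real.exp (-y ^ 2 / 2) * (-y)) y := by
      have h4 : HasDerivAt (fun y : ℝ => -y ^ 2 / 2) (-y) y := by
        have := ((hasDerivAt_pow 2 y).neg).div_const 2
        refine this.congr_deriv ?_
        push_cast
        ring
      exact h4.exp
    have hne : y * (y ^ 2 + 3) ≠ 0 := by positivity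
    have h5 := ((h1.div h2 hne).mul h3).sub ((q2_PP_deriv y).const_sub 1)
    refine h5.congr_deriv ?_
    rw [q2_ph_eq, ← hc]
    simp only [Pi.div_apply]
    field_simp
    ring
  have hanti : AntitoneOn D (Ioi 0) := by
    refine antitoneOn_of_deriv_nonpos (convex_Ioi 0) ?_ ?_ ?_
    · exact fun x hx => (hder x hx).continuousAt.continuousWithinAt
    · rw [interior_Ioi]
      exact fun x hx => (hder x hx).differentiableAt.differentiableWithinAt
    · rw [interior_Ioi]
      intro x hx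
      have hx' : 0 < x := hx
      rw [(hder x hx).deriv]
      have : 0 ≤ c * (6 / (x * (x ^ 2 + 3)) ^ 2) * Real.exp (-x ^ 2 / 2) := by positivity
      linarith
  have hlim : Tendsto D atTop (𝓝 0) := by
    have h1 : Tendsto (fun y : ℝ => c * Real.exp (-y ^ 2 / 2)) atTop (𝓝 0) := by
      have h2 : Tendsto (fun y : ℝ => -y ^ 2 / 2) atTop atBot := by
        have h3 : Tendsto (fun y : ℝ => y ^ 2 / 2) atTop atTop :=
          (tendsto_pow_atTop (by norm_num)).atTop_div_const (by norm_num)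
        have h4 := tendsto_neg_atTop_atBot.comp h3
        refine h4.congr fun y => ?_
        simp only [Function.comp]
        ring
      have h3 := (Real.tendsto_exp_atBot.comp h2).const_mul c
      simpa using h3
    have h2 : Tendsto (fun y : ℝ => c * (y ^ 2 + 2) / (y * (y ^ 2 + 3)) * Real.exp (-y ^ 2 / 2))
        atTop (𝓝 0) := by
      refine squeeze_zero' ?_ ?_ h1
      · filter_upwards [eventually_gt_atTop 0] with y hy
        positivity
      · filter_upwards [eventually_ge_atTop 1] with y hy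
        refine mul_le_mul_of_nonneg_right ?_ (Real.exp_pos _).le
        rw [div_le_iff₀ (by positivity)]
        refine mul_le_mul_of_nonneg_left ?_ hc0.le
        nlinarith
    have h3 : Tendsto (fun y : ℝ => 1 - PP y) atTop (𝓝 0) := by
      have := q2_PP_tendsto.const_sub 1
      simpa using this
    have h4 := h2.sub h3
    simpa using h4
  have h0 : 0 ≤ D y := by
    refine le_of_tendsto hlim ?_
    filter_upwards [eventually_ge_atTop y] with z hz
    exact hanti hy (lt_of_lt_of_le hy hz) hz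
  simp only [hD] at h0
  linarith

open Filter Topology Set in
theorem tail_anti (h h' : ℝ) (h0 : 0 ≤ h) (hh : h ≤ h') :
    (1 - PP h') * Real.exp (h' ^ 2 / 2) ≤ (1 - PP h) * Real.exp (h ^ 2 / 2) := by
  have hder : ∀ y : ℝ, HasDerivAt (fun y => (1 - PP y) * Real.exp (y ^ 2 / 2))
      (-(2 * ph y) * Real.exp (y ^ 2 / 2) + (1 - PP y) * (Real.exp (y ^ 2 / 2) * y)) y := by
    intro y
    have h3 : HasDerivAt (fun y : ℝ => Real.exp (y ^ 2 / 2))
        (Real.exp (y ^ 2 / 2) * y) y := by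
      have h4 : HasDerivAt (fun y : ℝ => y ^ 2 / 2) y y := by
        have := (hasDerivAt_pow 2 y).div_const 2
        refine this.congr_deriv ?_
        push_cast
        ring
      exact h4.exp
    exact ((q2_PP_deriv y).const_sub 1).mul h3
  have hanti : AntitoneOn (fun y => (1 - PP y) * Real.exp (y ^ 2 / 2)) (Ici 0) := by
    refine antitoneOn_of_deriv_nonpos (convex_Ici 0) ?_ ?_ ?_
    · exact fun x _ => (hder x).continuousAt.continuousWithinAt
    · exact fun x _ => (hder x).differentiableAt.differentiableWithinAt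
    · rw [interior_Ici]
      intro x hx
      have hx' : 0 < x := hx
      rw [(hder x).deriv, q2_ph_eq]
      have h1 := mills x hx'
      have h2 : √(2 / Real.pi) * (x ^ 2 + 2) / (x * (x ^ 2 + 3)) ≤ √(2 / Real.pi) / x := by
        rw [div_le_div_iff₀ (by positivity) hx']
        have : 0 ≤ √(2 / Real.pi) * x := by positivity
        nlinarith
      have h3 : 1 - PP x ≤ √(2 / Real.pi) / x * Real.exp (-x ^ 2 / 2) :=
        h1.trans (mul_le_mul_of_nonneg_right h2 (Real.exp_pos _).le)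
      have h4 : x * (1 - PP x) ≤ √(2 / Real.pi) * Real.exp (-x ^ 2 / 2) := by
        have := mul_le_mul_of_nonneg_left h3 hx'.le
        have e : x * (√(2 / Real.pi) / x * Real.exp (-x ^ 2 / 2)) =
            √(2 / Real.pi) * Real.exp (-x ^ 2 / 2) := by
          field_simp
        rwa [e] at this
      have h5 := mul_le_mul_of_nonneg_right h4 (Real.exp_pos (x ^ 2 / 2)).le
      linarith
  exact hanti h0 (h0.trans hh) hh

theorem tail_sq (h h' l : ℝ) (h0 : 0 < h) (h0' : 0 < h') (hl : 0 ≤ l)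
    (hh : 1 - PP h ≤ Real.exp l * (1 - PP h')) : h' ^ 2 ≤ h ^ 2 + 2 * l := by
  rcases le_total h' h with hle | hle
  · nlinarith
  · have h1 := tail_anti h h' h0.le hle
    have h2 : 0 < 1 - PP h' := by have := q2_PP_lt_one h'; linarith
    have h3 : (1 - PP h') * Real.exp (h' ^ 2 / 2) ≤ (1 - PP h') * Real.exp (l + h ^ 2 / 2) := by
      refine h1.trans ?_
      have := mul_le_mul_of_nonneg_right hh (Real.exp_pos (h ^ 2 / 2)).le
      rw [Real.exp_add]
      linarith
    have h4 := le_of_mul_le_mul_left h3 h2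
    have h5 := Real.exp_le_exp.1 h4
    linarith

open Filter Topology Set in
theorem tail_surj (u : ℝ) (hu : 0 < u) (hu1 : u < 1) : ∃ h : ℝ, 0 < h ∧ 1 - PP h = u := by
  have h1 : ∀ᶠ x in atTop, 1 - u < PP x :=
    q2_PP_tendsto.eventually (lt_mem_nhds (by linarith))
  obtain ⟨x, hx1, hx0⟩ := (h1.and (eventually_gt_atTop 0)).exists
  have h2 := intermediate_value_Icc hx0.le q2_PP_cont.continuousOn
  rw [q2_PP_zero] at h2
  obtain ⟨h, ⟨hh0, hhx⟩, hh⟩ := h2 (show 1 - u ∈ Icc 0 (PP x) from ⟨by linarith, hx1.le⟩)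
  refine ⟨h, lt_of_le_of_ne hh0 ?_, by linarith⟩
  rintro rfl
  rw [q2_PP_zero] at hh
  linarith

/-- if the quotient bound holds at `h0`, it holds for all larger `h` -/
theorem quot_mono (h0 h l f : ℝ) (hh0 : 0 < h0) (hh : h0 ≤ h) (hl : 0 ≤ l) (hf : 0 ≤ f) (hf1 : f ≤ 1)
    (hc : f ^ 2 * (h0 ^ 2 + 2 * l) ≤ (h0 * (h0 ^ 2 + 3) / (h0 ^ 2 + 2)) ^ 2) :
    f ^ 2 * (h ^ 2 + 2 * l) ≤ (h * (h ^ 2 + 3) / (h ^ 2 + 2)) ^ 2 := by
  have key : ∀ x : ℝ, (x * (x ^ 2 + 3) / (x ^ 2 + 2)) ^ 2 =
      x ^ 2 + x ^ 2 * (2 * x ^ 2 + 5) / (x ^ 2 + 2) ^ 2 := by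
    intro x
    field_simp
    ring
  rw [key] at hc ⊢
  have hw : h0 ^ 2 ≤ h ^ 2 := by nlinarith
  have h1 : h0 ^ 2 * (2 * h0 ^ 2 + 5) / (h0 ^ 2 + 2) ^ 2 ≤
      h ^ 2 * (2 * h ^ 2 + 5) / (h ^ 2 + 2) ^ 2 := by
    have hb : 0 ≤ h0 ^ 2 := sq_nonneg _
    have ha : 0 ≤ h ^ 2 := sq_nonneg _
    generalize h0 ^ 2 = b at hb hw ⊢
    generalize h ^ 2 = a at ha hw ⊢
    rw [div_le_div_iff₀ (by positivity) (by positivity)]
    have h3 : 0 ≤ (a - b) * (3 * a * b + 8 * (a + b) + 20) := by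
      refine mul_nonneg (by linarith) (by positivity)
    nlinarith
  have h2 : f ^ 2 * (h ^ 2 - h0 ^ 2) ≤ 1 * (h ^ 2 - h0 ^ 2) :=
    mul_le_mul_of_nonneg_right (by nlinarith) (by linarith)
  nlinarith

theorem g_mono (h0 h : ℝ) (hh0 : 0 ≤ h0) (hh : h0 ≤ h) :
    h0 * (h0 ^ 2 + 3) / (h0 ^ 2 + 2) ≤ h * (h ^ 2 + 3) / (h ^ 2 + 2) := by
  rw [div_le_div_iff₀ (by positivity) (by positivity)]
  have h1 : 0 ≤ (h - h0) * (h ^ 2 * h0 ^ 2 + 2 * h ^ 2 - h * h0 + 2 * h0 ^ 2 + 6) := by
    refine mul_nonneg (by linarith) ?_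
    nlinarith [sq_nonneg (h - h0), sq_nonneg (h * h0), sq_nonneg h, sq_nonneg h0]
  nlinarith

end Pool.Agent.VPF.J9018
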