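import Pool.Agent.VPF.Defs2

set_option autoImplicit false
open MeasureTheory ProbabilityTheory
open scoped ENNReal Matrix

namespace Pool.Agent.VPF.J9020

theorem rd_ph_cont : Continuous ph := by
  unfold ph
  fun_prop

theorem rd_ph_pos (y : ℝ) : 0 < ph y := by
  unfold ph
  positivity

theorem rd_PP_deriv (y : ℝ) : HasDerivAt PP (2 * ph y) y := by
  unfold PP
  exact (intervalIntegral.integral_hasDerivAt_right
    (rd_ph_cont.intervalIntegrable _ _)
    (rd_ph_cont.stronglyMeasurableAtFilter _ _) rd_ph_cont.continuousAt).const_mul 2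

theorem rd_PP_mono : StrictMono PP := by
  apply strictMono_of_hasDerivAt_pos (f' := fun y => 2 * ph y) rd_PP_deriv
  intro y
  have := rd_ph_pos y
  positivity

theorem rd_PP_cont : Continuous PP :=
  continuous_iff_continuousAt.2 fun y => (rd_PP_deriv y).continuousAt

theorem rd_PP_zero : PP 0 = 0 := by
  simp [PP]

theorem rd_sqrt_le : √(2 / Real.pi) ≤ 1 := by
  rw [Real.sqrt_le_iff]
  refine ⟨zero_le_one, ?_⟩
  rw [one_pow, div_le_one Real.pi_pos]
  linarith [Real.pi_gt_three]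

theorem rd_tail
    (mills : ∀ y : ℝ, 0 < y →
      1 - PP y ≤ √(2 / Real.pi) * (y ^ 2 + 2) / (y * (y ^ 2 + 3)) * Real.exp (-y ^ 2 / 2))
    {y : ℝ} (hy : 0 < y) : 1 - PP y ≤ 1 / y := by
  refine (mills y hy).trans ?_
  have h1 := rd_sqrt_le
  have h2 : Real.exp (-y ^ 2 / 2) ≤ 1 := by
    rw [← Real.exp_zero]
    apply Real.exp_le_exp.2
    nlinarith [sq_nonneg y]
  have h3 : √(2 / Real.pi) * (y ^ 2 + 2) / (y * (y ^ 2 + 3)) ≤ 1 / y := by
    rw [div_le_div_iff₀ (by positivity) hy]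
    have h0 := Real.sqrt_nonneg (2 / Real.pi)
    have h4 : √(2 / Real.pi) * (y ^ 2 + 2) ≤ 1 * (y ^ 2 + 3) :=
      mul_le_mul h1 (by linarith) (by positivity) zero_le_one
    nlinarith
  have h5 : 0 ≤ √(2 / Real.pi) * (y ^ 2 + 2) / (y * (y ^ 2 + 3)) := by positivity
  calc √(2 / Real.pi) * (y ^ 2 + 2) / (y * (y ^ 2 + 3)) * Real.exp (-y ^ 2 / 2)
      ≤ (1 / y) * 1 := mul_le_mul h3 h2 (Real.exp_pos _).le (by positivity)
    _ = 1 / y := mul_one _

theorem rd_ivt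
    (mills : ∀ y : ℝ, 0 < y →
      1 - PP y ≤ √(2 / Real.pi) * (y ^ 2 + 2) / (y * (y ^ 2 + 3)) * Real.exp (-y ^ 2 / 2))
    {w : ℝ} (h0 : 0 < w) (h1 : w < 1) : ∃ h, 0 < h ∧ 1 - PP h = w := by
  have hb : (0 : ℝ) ≤ 2 / w := by positivity
  have ht : 1 - PP (2 / w) ≤ w := by
    refine (rd_tail mills (by positivity : (0 : ℝ) < 2 / w)).trans ?_
    rw [one_div_div]
    linarith
  have := intermediate_value_Icc' hb
    ((continuous_const.sub rd_PP_cont).continuousOn (f := fun h => 1 - PP h))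
  obtain ⟨h, hh, hw⟩ := this ⟨ht, by rw [rd_PP_zero]; linarith⟩
  refine ⟨h, ?_, hw⟩
  rcases eq_or_lt_of_le hh.1 with he | he
  · exfalso
    rw [← he] at hw
    simp only [rd_PP_zero, sub_zero] at hw
    linarith
  · exact he

theorem rd_pdf (x : ℝ) : gaussianPDFReal 0 1 x = ph x := by
  unfold gaussianPDFReal ph
  simp only [NNReal.coe_one, mul_one, sub_zero]
  ring

theorem rd_meas {a b : ℝ} (hab : a ≤ b) :
    gaussianReal 0 1 (Set.Icc a b) = ENNReal.ofReal ((PP b - PP a) / 2) := by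
  rw [gaussianReal_apply_eq_integral 0 one_ne_zero]
  congr 1
  rw [integral_Icc_eq_integral_Ioc, ← intervalIntegral.integral_of_le hab]
  have h1 : ∫ x in a..b, gaussianPDFReal 0 1 x = ∫ x in a..b, ph x :=
    intervalIntegral.integral_congr fun x _ => rd_pdf x
  rw [h1]
  have h2 : ∀ x ∈ Set.uIcc a b, HasDerivAt (fun y => PP y / 2) (ph x) x := by
    intro x _
    exact ((rd_PP_deriv x).div_const 2).congr_deriv (by ring)
  rw [intervalIntegral.integral_eq_sub_of_hasDerivAt h2 (rd_ph_cont.intervalIntegrable _ _)]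
  ring

theorem rd_symm {a b : ℝ} : gaussianReal 0 1 (Set.Icc (-b) (-a)) = gaussianReal 0 1 (Set.Icc a b) := by
  have h := gaussianReal_map_neg (μ := 0) (v := 1)
  rw [neg_zero] at h
  conv_lhs => rw [← h]
  rw [Measure.map_apply measurable_neg measurableSet_Icc]
  congr 1
  ext x
  simp only [Set.mem_preimage, Set.mem_Icc]
  constructor <;> rintro ⟨h1, h2⟩ <;> constructor <;> linarith

theorem rd_ph_scale {n : ℕ} (hn : 1 ≤ n) (h : ℝ) :
    ph (√(n : ℝ) * h) = ph h * Real.exp (-h ^ 2 / 2) ^ (n - 1) := by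
  obtain ⟨m, rfl⟩ : ∃ m, n = m + 1 := ⟨n - 1, by omega⟩
  unfold ph
  rw [Nat.add_sub_cancel, mul_pow, Real.sq_sqrt (by positivity)]
  have e : Real.exp (-(((m + 1 : ℕ) : ℝ) * h ^ 2) / 2) =
      Real.exp (-h ^ 2 / 2) * Real.exp (-h ^ 2 / 2) ^ m := by
    rw [← Real.exp_nat_mul, ← Real.exp_add]
    congr 1
    push_cast
    ring
  rw [e]
  ring

theorem rd_core
    (mills : ∀ y : ℝ, 0 < y →
      1 - PP y ≤ √(2 / Real.pi) * (y ^ 2 + 2) / (y * (y ^ 2 + 3)) * Real.exp (-y ^ 2 / 2))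
    (n : ℕ) (hn : 1 ≤ n) (u₁ u₂ c : ℝ) (h0 : 0 ≤ u₁) (hc : 0 ≤ c)
    (hcell : ∀ h : ℝ, 0 < h → u₁ < 1 - PP h → 1 - PP h < u₂ →
      c ≤ h * (h ^ 2 + 3) / (h ^ 2 + 2)) {a b : ℝ} (ha : 0 < a) (hab : a ≤ b)
      (hva : 1 - PP a < u₂) (hvb : u₁ < 1 - PP b) :
    (√(Real.pi / 2) * c) ^ (n - 1) * ((1 - PP a) ^ n - (1 - PP b) ^ n) / √(n : ℝ) ≤
      PP (√(n : ℝ) * b) - PP (√(n : ℝ) * a) := by
  have hnpos : (0 : ℝ) < n := by exact_mod_cast hn
  have hsn : 0 < √(n : ℝ) := Real.sqrt_pos.2 hnpos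
  set K : ℝ := (√(Real.pi / 2) * c) ^ (n - 1) with hK
  have hK0 : 0 ≤ K := by positivity
  let D : ℝ → ℝ := fun h => PP (√(n : ℝ) * h) + K * (1 - PP h) ^ n / √(n : ℝ)
  have hD : ∀ h, HasDerivAt D (2 * ph (√(n : ℝ) * h) * √(n : ℝ) -
      K * (1 - PP h) ^ (n - 1) * (2 * ph h) * √(n : ℝ)) h := by
    intro h
    have h1 : HasDerivAt (fun h => PP (√(n : ℝ) * h)) (2 * ph (√(n : ℝ) * h) * √(n : ℝ)) h := by
      have h2 : HasDerivAt (fun h : ℝ => √(n : ℝ) * h) (√(n : ℝ)) h := by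
        simpa using (hasDerivAt_id h).const_mul (√(n : ℝ))
      exact (rd_PP_deriv _).comp h h2
    have h3 : HasDerivAt (fun h => 1 - PP h) (-(2 * ph h)) h := (rd_PP_deriv h).const_sub 1
    have h4 := ((h3.pow n).const_mul K).div_const (√(n : ℝ))
    refine (h1.add h4).congr_deriv ?_
    have hns : (n : ℝ) = √(n : ℝ) * √(n : ℝ) := (Real.mul_self_sqrt hnpos.le).symm
    have e : (n : ℝ) / √(n : ℝ) = √(n : ℝ) := by
      rw [div_eq_iff hsn.ne']; exact hns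
    have : K * (↑n * (1 - PP h) ^ (n - 1) * -(2 * ph h)) / √(n : ℝ) =
        -(K * (1 - PP h) ^ (n - 1) * (2 * ph h)) * ((n : ℝ) / √(n : ℝ)) := by ring
    rw [this, e]
    ring
  have hmono : MonotoneOn D (Set.Icc a b) := by
    apply monotoneOn_of_deriv_nonneg (convex_Icc a b)
    · exact (continuous_iff_continuousAt.2 fun h => (hD h).continuousAt).continuousOn
    · intro h _
      exact (hD h).differentiableAt.differentiableWithinAt
    · intro h hh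
      rw [interior_Icc] at hh
      rw [(hD h).deriv]
      have hh0 : 0 < h := ha.trans hh.1
      have hv1 : u₁ < 1 - PP h := hvb.trans (by linarith [rd_PP_mono hh.2])
      have hv2 : 1 - PP h < u₂ := lt_trans (by linarith [rd_PP_mono hh.1]) hva
      have hv0 : 0 < 1 - PP h := lt_of_le_of_lt h0 hv1
      have hcc := hcell h hh0 hv1 hv2
      have hm := mills h hh0
      have hbase : √(Real.pi / 2) * c * (1 - PP h) ≤ Real.exp (-h ^ 2 / 2) := by
        have hs : √(Real.pi / 2) * √(2 / Real.pi) = 1 := by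
          rw [← Real.sqrt_mul (by positivity)]
          have : Real.pi / 2 * (2 / Real.pi) = 1 := by
            field_simp
          rw [this, Real.sqrt_one]
        have hsp : 0 < √(Real.pi / 2) := Real.sqrt_pos.2 (by positivity)
        have h1 : √(Real.pi / 2) * c * (1 - PP h) ≤
            √(Real.pi / 2) * (h * (h ^ 2 + 3) / (h ^ 2 + 2)) *
            (√(2 / Real.pi) * (h ^ 2 + 2) / (h * (h ^ 2 + 3)) * Real.exp (-h ^ 2 / 2)) := by
          apply mul_le_mul _ hm hv0.le (by positivity)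
          exact mul_le_mul_of_nonneg_left hcc hsp.le
        have h2 : √(Real.pi / 2) * (h * (h ^ 2 + 3) / (h ^ 2 + 2)) *
            (√(2 / Real.pi) * (h ^ 2 + 2) / (h * (h ^ 2 + 3)) * Real.exp (-h ^ 2 / 2)) =
            (√(Real.pi / 2) * √(2 / Real.pi)) * Real.exp (-h ^ 2 / 2) := by
          field_simp
        rw [h2, hs, one_mul] at h1
        exact h1
      have hpow : K * (1 - PP h) ^ (n - 1) ≤ Real.exp (-h ^ 2 / 2) ^ (n - 1) := by
        rw [hK, ← mul_pow]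
        apply pow_le_pow_left₀ (by positivity) hbase
      rw [rd_ph_scale hn]
      have hp := rd_ph_pos h
      have : K * (1 - PP h) ^ (n - 1) * (2 * ph h) * √(n : ℝ) ≤
          Real.exp (-h ^ 2 / 2) ^ (n - 1) * (2 * ph h) * √(n : ℝ) := by
        apply mul_le_mul_of_nonneg_right _ hsn.le
        exact mul_le_mul_of_nonneg_right hpow (by positivity)
      nlinarith
  have h1 := hmono (Set.left_mem_Icc.2 hab) (Set.right_mem_Icc.2 hab) hab
  simp only [D] at h1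
  have e : K * ((1 - PP a) ^ n - (1 - PP b) ^ n) / √(n : ℝ) =
      K * (1 - PP a) ^ n / √(n : ℝ) - K * (1 - PP b) ^ n / √(n : ℝ) := by ring
  rw [e]
  linarith

theorem rd_step
    (mills : ∀ y : ℝ, 0 < y →
      1 - PP y ≤ √(2 / Real.pi) * (y ^ 2 + 2) / (y * (y ^ 2 + 3)) * Real.exp (-y ^ 2 / 2))
    (n : ℕ) (hn : 1 ≤ n) (u₁ u₂ c : ℝ) (h0 : 0 ≤ u₁) (h2 : u₂ < 1) (hc : 0 ≤ c)
    (hcell : ∀ h : ℝ, 0 < h → u₁ < 1 - PP h → 1 - PP h < u₂ →
      c ≤ h * (h ^ 2 + 3) / (h ^ 2 + 2)) {w₁ w₂ : ℝ} (h1 : u₁ < w₁) (h12 : w₁ < w₂)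
      (h22 : w₂ < u₂) :
    ENNReal.ofReal ((√(Real.pi / 2) * c) ^ (n - 1) * (w₂ ^ n - w₁ ^ n) / √(n : ℝ)) ≤
      gaussianReal 0 1 {x : ℝ | u₁ < 1 - PP (|x| / √(n : ℝ)) ∧ 1 - PP (|x| / √(n : ℝ)) < u₂} := by
  have hnpos : (0 : ℝ) < n := by exact_mod_cast hn
  have hsn : 0 < √(n : ℝ) := Real.sqrt_pos.2 hnpos
  obtain ⟨b, hb0, hb⟩ := rd_ivt mills (show 0 < w₁ by linarith) (show w₁ < 1 by linarith)
  obtain ⟨a, ha0, ha⟩ := rd_ivt mills (show 0 < w₂ by linarith) (show w₂ < 1 by linarith)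
  have hab : a ≤ b := by
    apply rd_PP_mono.le_iff_le.1
    linarith
  have hcore := rd_core mills n hn u₁ u₂ c h0 hc hcell ha0 hab (by rw [ha]; exact h22)
    (by rw [hb]; exact h1)
  rw [ha, hb] at hcore
  have hab' : √(n : ℝ) * a ≤ √(n : ℝ) * b := mul_le_mul_of_nonneg_left hab hsn.le
  have hpa : 0 < √(n : ℝ) * a := by positivity
  have hdisj : Disjoint (Set.Icc (√(n : ℝ) * a) (√(n : ℝ) * b))
      (Set.Icc (-(√(n : ℝ) * b)) (-(√(n : ℝ) * a))) := by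
    rw [Set.disjoint_left]
    rintro x ⟨hx1, -⟩ ⟨-, hx2⟩
    linarith
  have hmeas := measure_union (μ := gaussianReal 0 1) hdisj measurableSet_Icc
  rw [rd_symm, rd_meas hab'] at hmeas
  have hPP : PP (√(n : ℝ) * a) ≤ PP (√(n : ℝ) * b) := rd_PP_mono.monotone hab'
  have hsum : gaussianReal 0 1 (Set.Icc (√(n : ℝ) * a) (√(n : ℝ) * b) ∪
      Set.Icc (-(√(n : ℝ) * b)) (-(√(n : ℝ) * a))) =
      ENNReal.ofReal (PP (√(n : ℝ) * b) - PP (√(n : ℝ) * a)) := by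
    rw [hmeas, ← ENNReal.ofReal_add (by linarith) (by linarith)]
    congr 1
    ring
  calc ENNReal.ofReal ((√(Real.pi / 2) * c) ^ (n - 1) * (w₂ ^ n - w₁ ^ n) / √(n : ℝ))
      ≤ ENNReal.ofReal (PP (√(n : ℝ) * b) - PP (√(n : ℝ) * a)) := ENNReal.ofReal_le_ofReal hcore
    _ = gaussianReal 0 1 (Set.Icc (√(n : ℝ) * a) (√(n : ℝ) * b) ∪
      Set.Icc (-(√(n : ℝ) * b)) (-(√(n : ℝ) * a))) := hsum.symm
    _ ≤ _ := by
      apply measure_mono
      intro x hx
      have hx' : √(n : ℝ) * a ≤ |x| ∧ |x| ≤ √(n : ℝ) * b := by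
        rcases hx with hx | hx
        · rw [abs_of_pos (lt_of_lt_of_le hpa hx.1)]
          exact hx
        · rw [abs_of_neg (by linarith [hx.2])]
          constructor <;> linarith [hx.1, hx.2]
      have hxa : a ≤ |x| / √(n : ℝ) := by
        rw [le_div_iff₀ hsn]; linarith [hx'.1]
      have hxb : |x| / √(n : ℝ) ≤ b := by
        rw [div_le_iff₀ hsn]; linarith [hx'.2]
      have h3 := rd_PP_mono.monotone hxa
      have h4 := rd_PP_mono.monotone hxb
      constructor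
      · linarith
      · linarith

theorem radial
    (mills : ∀ y : ℝ, 0 < y →
      1 - PP y ≤ √(2 / Real.pi) * (y ^ 2 + 2) / (y * (y ^ 2 + 3)) * Real.exp (-y ^ 2 / 2))
    (n : ℕ) (hn : 1 ≤ n) (u₁ u₂ c : ℝ) (h0 : 0 ≤ u₁) (h12 : u₁ ≤ u₂) (h2 : u₂ < 1) (hc : 0 ≤ c)
    (hcell : ∀ h : ℝ, 0 < h → u₁ < 1 - PP h → 1 - PP h < u₂ →
      c ≤ h * (h ^ 2 + 3) / (h ^ 2 + 2)) :
    ENNReal.ofReal ((√(Real.pi / 2) * c) ^ (n - 1) * (u₂ ^ n - u₁ ^ n) / √(n : ℝ)) ≤
      gaussianReal 0 1 {x : ℝ | u₁ < 1 - PP (|x| / √(n : ℝ)) ∧ 1 - PP (|x| / √(n : ℝ)) < u₂} := by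
  rcases eq_or_lt_of_le h12 with he | hlt
  · rw [he]
    simp
  · have hcont : Continuous fun ε : ℝ =>
        ENNReal.ofReal ((√(Real.pi / 2) * c) ^ (n - 1) * ((u₂ - ε) ^ n - (u₁ + ε) ^ n) /
          √(n : ℝ)) := by
      apply ENNReal.continuous_ofReal.comp
      fun_prop
    have ht : Filter.Tendsto (fun ε : ℝ =>
        ENNReal.ofReal ((√(Real.pi / 2) * c) ^ (n - 1) * ((u₂ - ε) ^ n - (u₁ + ε) ^ n) /
          √(n : ℝ))) (nhdsWithin 0 (Set.Ioi 0))
        (nhds (ENNReal.ofReal ((√(Real.pi / 2) * c) ^ (n - 1) * (u₂ ^ n - u₁ ^ n) /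
          √(n : ℝ)))) := by
      have := (hcont.tendsto 0).mono_left (nhdsWithin_le_nhds (s := Set.Ioi 0))
      simpa using this
    refine le_of_tendsto ht ?_
    have hmem : Set.Ioo (0 : ℝ) ((u₂ - u₁) / 2) ∈ nhdsWithin 0 (Set.Ioi (0 : ℝ)) :=
      Ioo_mem_nhdsGT (by linarith)
    filter_upwards [hmem] with ε hε
    exact rd_step mills n hn u₁ u₂ c h0 h2 hc hcell (by linarith [hε.1])
      (by linarith [hε.2]) (by linarith [hε.1])

end Pool.Agent.VPF.J9020
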