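import Pool.Agent.VPF.Defs2

set_option autoImplicit false
open MeasureTheory ProbabilityTheory
open scoped ENNReal Matrix

namespace Pool.Agent.VPF.J9021

theorem disj9021 {α : Type*} (s : Finset ℕ) (A : ℕ → Set α) (K : ℕ → ℝ≥0∞) (F : α → ℝ≥0∞)
    (hd : ∀ i ∈ s, ∀ j ∈ s, i ≠ j → ∀ t ∈ A i, t ∉ A j)
    (h : ∀ i ∈ s, ∀ t ∈ A i, K i ≤ F t) (t : α) :
    ∑ i ∈ s, (A i).indicator (fun _ => K i) t ≤ F t := by
  classical
  by_cases hex : ∃ i ∈ s, t ∈ A i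
  · obtain ⟨i, hi, hti⟩ := hex
    rw [Finset.sum_eq_single i]
    · rw [Set.indicator_of_mem hti]
      exact h i hi t hti
    · intro j hj hji
      rw [Set.indicator_of_notMem (hd i hi j hj (Ne.symm hji) t hti)]
    · intro hcon
      exact absurd hi hcon
  · push Not at hex
    rw [Finset.sum_eq_zero]
    · exact zero_le
    · intro i hi
      rw [Set.indicator_of_notMem (hex i hi)]

theorem sum9021 {α : Type*} [MeasurableSpace α] (μ : Measure α) (s : Finset ℕ) (A : ℕ → Set α)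
    (hA : ∀ i ∈ s, MeasurableSet (A i)) (K : ℕ → ℝ≥0∞) (F : α → ℝ≥0∞)
    (hd : ∀ i ∈ s, ∀ j ∈ s, i ≠ j → ∀ t ∈ A i, t ∉ A j)
    (h : ∀ i ∈ s, ∀ t ∈ A i, K i ≤ F t) :
    ∑ i ∈ s, K i * μ (A i) ≤ ∫⁻ t, F t ∂μ := by
  refine le_trans (le_of_eq ?_) (lintegral_mono (disj9021 s A K F hd h))
  rw [lintegral_finsetSum']
  · apply Finset.sum_congr rfl
    intro i hi
    rw [lintegral_indicator_const (hA i hi)]
  · intro i hi
    exact (measurable_const.indicator (hA i hi)).aemeasurable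

theorem cell9021
    (tail_sq : ∀ (h h' l : ℝ), 0 < h → 0 < h' → 0 ≤ l →
      1 - PP h ≤ Real.exp l * (1 - PP h') → h' ^ 2 ≤ h ^ 2 + 2 * l)
    (tail_surj : ∀ u : ℝ, 0 < u → u < 1 → ∃ h : ℝ, 0 < h ∧ 1 - PP h = u)
    (PP_mono : StrictMono PP)
    (quot_mono : ∀ (h0 h l f : ℝ), 0 < h0 → h0 ≤ h → 0 ≤ l → 0 ≤ f → f ≤ 1 →
      f ^ 2 * (h0 ^ 2 + 2 * l) ≤ (h0 * (h0 ^ 2 + 3) / (h0 ^ 2 + 2)) ^ 2 →
      f ^ 2 * (h ^ 2 + 2 * l) ≤ (h * (h ^ 2 + 3) / (h ^ 2 + 2)) ^ 2)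
    (τ₀ : ℝ) (hτ1 : τ₀ < 1)
    (y h₀ η₀ κ f l : ℝ) (hy0 : 0 < y) (hy1 : y < 1)
    (hh₀ : 0 < h₀) (_hη₀ : 0 < η₀) (hκ : 0 < κ) (hκ1 : κ ≤ 1) (hf : 0 ≤ f) (hf1 : f ≤ 1)
    (hl : 0 ≤ l) (hP1 : y * τ₀ ≤ 1 - PP h₀) (hP2 : (1 - y) * τ₀ ≤ 1 - PP η₀)
    (hex : y ≤ Real.exp l * (1 - y)) (hk2 : κ ^ 2 * (h₀ ^ 2 + 2 * l) ≤ h₀ ^ 2)
    (hf2 : f ^ 2 * (h₀ ^ 2 + 2 * l) ≤ (h₀ * (h₀ ^ 2 + 3) / (h₀ ^ 2 + 2)) ^ 2)
    (τ : ℝ) (hτ : 0 < τ) (hττ : τ ≤ τ₀) :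
    ∃ h1 η : ℝ, 0 < h1 ∧ 0 < η ∧ 1 - PP h1 = y * τ ∧ 1 - PP η = (1 - y) * τ ∧ η₀ ≤ η ∧
      κ * η ≤ h1 ∧ f * η ≤ h1 * (h1 ^ 2 + 3) / (h1 ^ 2 + 2) := by
  have hτ1' : τ < 1 := lt_of_le_of_lt hττ hτ1
  obtain ⟨h1, hh1, e1⟩ := tail_surj (y * τ) (mul_pos hy0 hτ)
    (lt_of_le_of_lt (mul_le_of_le_one_right hy0.le hτ1'.le) hy1)
  obtain ⟨η, hη, e2⟩ := tail_surj ((1 - y) * τ) (mul_pos (by linarith) hτ)
    (lt_of_le_of_lt (mul_le_of_le_one_left hτ.le (by linarith)) hτ1')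
  have c1 : h₀ ≤ h1 := by
    rw [← PP_mono.le_iff_le]
    have : y * τ ≤ y * τ₀ := mul_le_mul_of_nonneg_left hττ hy0.le
    linarith
  have c2 : η₀ ≤ η := by
    rw [← PP_mono.le_iff_le]
    have : (1 - y) * τ ≤ (1 - y) * τ₀ := mul_le_mul_of_nonneg_left hττ (by linarith)
    linarith
  have c3 : η ^ 2 ≤ h1 ^ 2 + 2 * l := by
    apply tail_sq h1 η l hh1 hη hl
    rw [e1, e2, ← mul_assoc]
    exact mul_le_mul_of_nonneg_right hex hτ.le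
  have c4 : κ * η ≤ h1 := by
    have d1 : (κ * η) ^ 2 ≤ h1 ^ 2 := by
      have d2 : κ ^ 2 * η ^ 2 ≤ κ ^ 2 * (h1 ^ 2 + 2 * l) :=
        mul_le_mul_of_nonneg_left c3 (sq_nonneg κ)
      have d3 : κ ^ 2 ≤ 1 := pow_le_one₀ hκ.le hκ1
      have d4 : h₀ ^ 2 ≤ h1 ^ 2 := pow_le_pow_left₀ hh₀.le c1 2
      have d5 : (1 - κ ^ 2) * h₀ ^ 2 ≤ (1 - κ ^ 2) * h1 ^ 2 :=
        mul_le_mul_of_nonneg_left d4 (by linarith)
      rw [mul_pow]
      linarith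
    exact le_of_sq_le_sq d1 hh1.le
  have c5 : f * η ≤ h1 * (h1 ^ 2 + 3) / (h1 ^ 2 + 2) := by
    have d1 : (f * η) ^ 2 ≤ (h1 * (h1 ^ 2 + 3) / (h1 ^ 2 + 2)) ^ 2 := by
      rw [mul_pow]
      exact (mul_le_mul_of_nonneg_left c3 (sq_nonneg f)).trans
        (quot_mono h₀ h1 l f hh₀ c1 hl hf hf1 hf2)
    exact le_of_sq_le_sq d1 (by positivity)
  exact ⟨h1, η, hh1, hη, e1, e2, c2, c4, c5⟩

theorem final9021 (n : ℕ) (hn : 2 ≤ n) (η f W y1 y0 τ : ℝ) (hη : 0 < η) :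
    (√(n : ℝ) * (√(Real.pi / 2) / η) ^ (n - 1) * W) *
      ((√(Real.pi / 2) * (f * η)) ^ (n - 1) * ((y1 * τ) ^ n - (y0 * τ) ^ n) / √(n : ℝ)) =
    (y1 ^ n - y0 ^ n) * ((Real.pi / 2) * f) ^ (n - 1) * W * τ ^ n := by
  have hn0 : √(n : ℝ) ≠ 0 := by
    have : 0 < √(n : ℝ) := Real.sqrt_pos.2 (by
      have : 0 < n := by omega
      exact_mod_cast this)
    exact this.ne'
  have h1 : (√(Real.pi / 2) / η) ^ (n - 1) * (√(Real.pi / 2) * (f * η)) ^ (n - 1) =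
      ((Real.pi / 2) * f) ^ (n - 1) := by
    rw [← mul_pow]
    congr 1
    have h2 : √(Real.pi / 2) * √(Real.pi / 2) = Real.pi / 2 :=
      Real.mul_self_sqrt (by positivity)
    have h3 : √(Real.pi / 2) / η * (√(Real.pi / 2) * (f * η)) =
        √(Real.pi / 2) * √(Real.pi / 2) * f := by
      field_simp
    rw [h3, h2]
  rw [← h1, mul_pow, mul_pow]
  field_simp
  ring

/- NOTE (helper125): in the original job file the right hand side was written without parentheses,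
so that the Gaussian measure was bound to the innermost variable `a` and `t` ran over Lebesgue
measure. Below the parentheses are put as intended: Lebesgue in `a, b`, Gaussian in `t`. -/
theorem level_bound
    (tail_sq : ∀ (h h' l : ℝ), 0 < h → 0 < h' → 0 ≤ l →
      1 - PP h ≤ Real.exp l * (1 - PP h') → h' ^ 2 ≤ h ^ 2 + 2 * l)
    (tail_surj : ∀ u : ℝ, 0 < u → u < 1 → ∃ h : ℝ, 0 < h ∧ 1 - PP h = u)
    (PP_mono : StrictMono PP) (PP_cont : Continuous PP) (PP_lt_one : ∀ y, PP y < 1) (PP_zero : PP 0 = 0)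
    (quot_mono : ∀ (h0 h l f : ℝ), 0 < h0 → h0 ≤ h → 0 ≤ l → 0 ≤ f → f ≤ 1 →
      f ^ 2 * (h0 ^ 2 + 2 * l) ≤ (h0 * (h0 ^ 2 + 3) / (h0 ^ 2 + 2)) ^ 2 →
      f ^ 2 * (h ^ 2 + 2 * l) ≤ (h * (h ^ 2 + 3) / (h ^ 2 + 2)) ^ 2)
    (g_mono : ∀ (h0 h : ℝ), 0 ≤ h0 → h0 ≤ h →
      h0 * (h0 ^ 2 + 3) / (h0 ^ 2 + 2) ≤ h * (h ^ 2 + 3) / (h ^ 2 + 2))
    (radial : ∀ (n : ℕ), 1 ≤ n → ∀ (u₁ u₂ c : ℝ), 0 ≤ u₁ → u₁ ≤ u₂ → u₂ < 1 → 0 ≤ c →
      (∀ h : ℝ, 0 < h → u₁ < 1 - PP h → 1 - PP h < u₂ → c ≤ h * (h ^ 2 + 3) / (h ^ 2 + 2)) →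
      ENNReal.ofReal ((√(Real.pi / 2) * c) ^ (n - 1) * (u₂ ^ n - u₁ ^ n) / √(n : ℝ)) ≤
        gaussianReal 0 1 {x : ℝ | u₁ < 1 - PP (|x| / √(n : ℝ)) ∧ 1 - PP (|x| / √(n : ℝ)) < u₂})
    (n : ℕ) (hn : 2 ≤ n) (τ₀ : ℝ) (hτ0 : 0 < τ₀) (hτ1 : τ₀ < 1)
    (J : ℕ) (x h₀ η₀ κ f l W : ℕ → ℝ) (hx0 : x 0 = 0) (hxm : ∀ j < J, x j ≤ x (j + 1))
    (hx1 : ∀ j < J, 0 < x (j + 1) ∧ x (j + 1) < 1)
    (hcell : ∀ j < J, 0 < h₀ j ∧ 0 < η₀ j ∧ 0 < κ j ∧ κ j ≤ 1 ∧ 0 ≤ f j ∧ f j ≤ 1 ∧ 0 ≤ l j ∧ 0 ≤ W j ∧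
      x (j + 1) * τ₀ ≤ 1 - PP (h₀ j) ∧ (1 - x (j + 1)) * τ₀ ≤ 1 - PP (η₀ j) ∧
      x (j + 1) ≤ Real.exp (l j) * (1 - x (j + 1)) ∧
      κ j ^ 2 * (h₀ j ^ 2 + 2 * l j) ≤ h₀ j ^ 2 ∧
      f j ^ 2 * (h₀ j ^ 2 + 2 * l j) ≤ (h₀ j * (h₀ j ^ 2 + 3) / (h₀ j ^ 2 + 2)) ^ 2)
    (hW : ∀ j < J, ∀ h η : ℝ, 0 < h → η₀ j ≤ η → κ j * η ≤ h →
      ENNReal.ofReal (√(n : ℝ) * (√(Real.pi / 2) / η) ^ (n - 1) * W j) ≤
        ∫⁻ b in Set.Ioi (0 : ℝ), ∫⁻ a : ℝ,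
          (Sset h η).indicator (fun p => ENNReal.ofReal (dn n p.1 p.2)) (a, b))
    (τ : ℝ) (hτ : 0 < τ) (hττ : τ ≤ τ₀) :
    ENNReal.ofReal ((∑ j ∈ Finset.range J, (x (j + 1) ^ n - x j ^ n) *
        ((Real.pi / 2) * f j) ^ (n - 1) * W j) * τ ^ n) ≤
      ∫⁻ t, (∫⁻ b in Set.Ioi (0 : ℝ), ∫⁻ a : ℝ,
        Set.indicator {p : ℝ × ℝ | 1 - τ ≤ PP (|t| / √(n : ℝ)) *
            PP (p.2 * (|t| / √(n : ℝ)) / √((|t| / √(n : ℝ)) ^ 2 + p.1 ^ 2))}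
          (fun p => ENNReal.ofReal (dn n p.1 p.2)) (a, b)) ∂(gaussianReal 0 1) := by
  have hn1 : 1 ≤ n := by omega
  have hsn : 0 < √(n : ℝ) := Real.sqrt_pos.2 (by exact_mod_cast hn1)
  have hτ1' : τ < 1 := lt_of_le_of_lt hττ hτ1
  have hxnn : ∀ j ≤ J, 0 ≤ x j := by
    intro j hj
    cases j with
    | zero => rw [hx0]
    | succ j => exact (hx1 j (by omega)).1.le
  have hmono : ∀ i j, i ≤ j → j ≤ J → x i ≤ x j := by
    intro i j hij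
    induction j, hij using Nat.le_induction with
    | base => intro _; exact le_rfl
    | succ k hk ih =>
      intro hkJ
      exact (ih (by omega)).trans (hxm k (by omega))
  have hmain : ∀ j < J, ∃ h1 η : ℝ, 0 < h1 ∧ 0 < η ∧ 1 - PP h1 = x (j + 1) * τ ∧
      1 - PP η = (1 - x (j + 1)) * τ ∧ η₀ j ≤ η ∧
      κ j * η ≤ h1 ∧ f j * η ≤ h1 * (h1 ^ 2 + 3) / (h1 ^ 2 + 2) := by
    intro j hj
    obtain ⟨a1, a2, a3, a4, a5, a6, a7, a8, a9, a10, a11, a12, a13⟩ := hcell j hj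
    exact cell9021 tail_sq tail_surj PP_mono quot_mono τ₀ hτ1 (x (j + 1)) (h₀ j) (η₀ j) (κ j)
      (f j) (l j) (hx1 j hj).1 (hx1 j hj).2 a1 a2 a3 a4 a5 a6 a7 a9 a10 a11 a12 a13 τ hτ hττ
  choose! H E hH hE eH eE hE0 hκE hfE using hmain
  obtain ⟨A, hA⟩ : ∃ A : ℕ → Set ℝ, A = fun j => {t : ℝ | x j * τ < 1 - PP (|t| / √(n : ℝ)) ∧
    1 - PP (|t| / √(n : ℝ)) < x (j + 1) * τ} := ⟨_, rfl⟩
  obtain ⟨K, hK⟩ : ∃ K : ℕ → ℝ≥0∞, K = fun j =>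
    ENNReal.ofReal (√(n : ℝ) * (√(Real.pi / 2) / E j) ^ (n - 1) * W j) := ⟨_, rfl⟩
  have hcont : Continuous fun t : ℝ => 1 - PP (|t| / √(n : ℝ)) :=
    continuous_const.sub (PP_cont.comp (continuous_abs.div_const _))
  -- each term
  have hterm : ∀ j ∈ Finset.range J, ENNReal.ofReal ((x (j + 1) ^ n - x j ^ n) *
        ((Real.pi / 2) * f j) ^ (n - 1) * W j * τ ^ n) ≤ K j * gaussianReal 0 1 (A j) := by
    intro j hj
    rw [Finset.mem_range] at hj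
    obtain ⟨a1, a2, a3, a4, a5, a6, a7, a8, a9, a10, a11, a12, a13⟩ := hcell j hj
    have hr := radial n hn1 (x j * τ) (x (j + 1) * τ) (f j * E j)
      (mul_nonneg (hxnn j hj.le) hτ.le) (mul_le_mul_of_nonneg_right (hxm j hj) hτ.le)
      (by
        have := (hx1 j hj).2
        have h2 := (hx1 j hj).1
        nlinarith)
      (mul_nonneg a5 (hE j hj).le) (by
        intro h hh _ h2
        refine (hfE j hj).trans (g_mono (H j) h (hH j hj).le ?_)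
        rw [← PP_mono.le_iff_le]
        have := eH j hj
        linarith)
    have h1 : ENNReal.ofReal ((x (j + 1) ^ n - x j ^ n) *
        ((Real.pi / 2) * f j) ^ (n - 1) * W j * τ ^ n) = K j *
        ENNReal.ofReal ((√(Real.pi / 2) * (f j * E j)) ^ (n - 1) *
          ((x (j + 1) * τ) ^ n - (x j * τ) ^ n) / √(n : ℝ)) := by
      have hEj := hE j hj
      rw [hK, ← ENNReal.ofReal_mul (by positivity),
        final9021 n hn (E j) (f j) (W j) (x (j + 1)) (x j) τ hEj]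
    rw [h1]
    have h2 : A j = {t : ℝ | x j * τ < 1 - PP (|t| / √(n : ℝ)) ∧
      1 - PP (|t| / √(n : ℝ)) < x (j + 1) * τ} := by rw [hA]
    rw [h2]
    gcongr
  rw [Finset.sum_mul, ENNReal.ofReal_sum_of_nonneg]
  · refine (Finset.sum_le_sum hterm).trans ?_
    apply sum9021
    · intro j _
      rw [hA]
      exact ((measurableSet_lt measurable_const hcont.measurable).inter
        (measurableSet_lt hcont.measurable measurable_const))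
    · intro i hi j hj hij t hti htj
      rw [Finset.mem_range] at hi hj
      rw [hA] at hti htj
      obtain ⟨p1, p2⟩ := hti
      obtain ⟨q1, q2⟩ := htj
      rcases lt_or_gt_of_ne hij with h | h
      · have h3 := hmono (i + 1) j h hj.le
        have h4 := mul_le_mul_of_nonneg_right h3 hτ.le
        linarith
      · have h3 := hmono (j + 1) i h hi.le
        have h4 := mul_le_mul_of_nonneg_right h3 hτ.le
        linarith
    · intro j hj t ht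
      rw [Finset.mem_range] at hj
      rw [hA] at ht
      obtain ⟨p1, p2⟩ := ht
      obtain ⟨h, hh⟩ : ∃ h, h = |t| / √(n : ℝ) := ⟨_, rfl⟩
      rw [← hh] at p1 p2 ⊢
      have hx1j := hx1 j hj
      have hEj := hE j hj
      have hHj := hH j hj
      have eHj := eH j hj
      have eEj := eE j hj
      have hHh : H j < h := by
        rw [← PP_mono.lt_iff_lt]
        linarith
      have hh0 : 0 < h := hHj.trans hHh
      rw [hK]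
      refine (hW j hj h (E j) hh0 (hE0 j hj) ((hκE j hj).trans hHh.le)).trans ?_
      apply lintegral_mono
      intro b
      apply lintegral_mono
      intro a
      apply Set.indicator_le_indicator_of_subset
      · intro p hp
        have hp' : E j * √(h ^ 2 + p.1 ^ 2) ≤ p.2 * h := hp
        have hs : 0 < √(h ^ 2 + p.1 ^ 2) := Real.sqrt_pos.2 (by positivity)
        have h1 : E j ≤ p.2 * h / √(h ^ 2 + p.1 ^ 2) := by
          rw [le_div_iff₀ hs]; exact hp'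
        have h2 : PP (E j) ≤ PP (p.2 * h / √(h ^ 2 + p.1 ^ 2)) := PP_mono.monotone h1
        have h3 : PP (H j) ≤ PP h := PP_mono.monotone hHh.le
        have h4 : 0 ≤ PP (H j) := by rw [← PP_zero]; exact PP_mono.monotone hHj.le
        have h5 : 0 ≤ PP (E j) := by rw [← PP_zero]; exact PP_mono.monotone hEj.le
        have h6 : PP (H j) * PP (E j) ≤ PP h * PP (p.2 * h / √(h ^ 2 + p.1 ^ 2)) :=
          mul_le_mul h3 h2 h5 (h4.trans h3)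
        have h7 : PP (H j) = 1 - x (j + 1) * τ := by linarith
        have h8 : PP (E j) = 1 - (1 - x (j + 1)) * τ := by linarith
        show 1 - τ ≤ PP h * PP (p.2 * h / √(h ^ 2 + p.1 ^ 2))
        refine le_trans ?_ h6
        rw [h7, h8]
        have h9 : 0 ≤ x (j + 1) * τ * ((1 - x (j + 1)) * τ) := by
          apply mul_nonneg (mul_nonneg hx1j.1.le hτ.le)
          exact mul_nonneg (by linarith [hx1j.2]) hτ.le
        linarith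
      · intro p
        exact zero_le
  · intro j hj
    rw [Finset.mem_range] at hj
    obtain ⟨a1, a2, a3, a4, a5, a6, a7, a8, a9, a10, a11, a12, a13⟩ := hcell j hj
    have h1 : x j ^ n ≤ x (j + 1) ^ n := pow_le_pow_left₀ (hxnn j hj.le) (hxm j hj) n
    have h2 : 0 ≤ x (j + 1) ^ n - x j ^ n := by linarith
    positivity

end Pool.Agent.VPF.J9021
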