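import Pool.Agent.VPF.Defs2

set_option autoImplicit false
open MeasureTheory ProbabilityTheory
open scoped ENNReal Matrix

namespace Pool.Agent.VPF.J9256

theorem s2pi_pos_9256 : 0 < √(2 * Real.pi) := Real.sqrt_pos.2 (by positivity)

theorem ph_pos_9256 (y : ℝ) : 0 < ph y := div_pos (Real.exp_pos _) s2pi_pos_9256

theorem ph_cont_9256 : Continuous ph := by
  unfold ph
  fun_prop

theorem ph_deriv_9256 (y : ℝ) : HasDerivAt ph (-(y * ph y)) y := by
  unfold ph
  have h1 : HasDerivAt (fun y : ℝ => -y ^ 2 / 2) (-y) y := by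
    have := ((hasDerivAt_pow 2 y)).neg.div_const 2
    refine HasDerivAt.congr_deriv this ?_
    norm_num
    ring
  have h2 := (h1.exp).div_const √(2 * Real.pi)
  refine HasDerivAt.congr_deriv h2 ?_
  ring

theorem PP_deriv_9256 (y : ℝ) : HasDerivAt PP (2 * ph y) y := by
  unfold PP
  have := (ph_cont_9256.integral_hasStrictDerivAt 0 y).hasDerivAt
  exact this.const_mul 2

theorem ph_int_9256 : IntegrableOn ph (Set.Ioi 0) ∧ ∫ t in Set.Ioi (0:ℝ), ph t = 1 / 2 := by
  have h1 : ∀ t : ℝ, ph t = (√(2 * Real.pi))⁻¹ * Real.exp (-(1/2 : ℝ) * t ^ 2) := by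
    intro t
    unfold ph
    rw [div_eq_mul_inv, mul_comm]
    congr 2
    ring
  have h2 : ph = fun t => (√(2 * Real.pi))⁻¹ * Real.exp (-(1/2 : ℝ) * t ^ 2) := funext h1
  constructor
  · rw [h2]
    exact ((integrable_exp_neg_mul_sq (by norm_num : (0:ℝ) < 1/2)).const_mul _).integrableOn
  · rw [h2, integral_const_mul, integral_gaussian_Ioi]
    have h3 : Real.pi / (1 / 2) = 2 * Real.pi := by ring
    rw [h3]
    have := s2pi_pos_9256
    field_simp

theorem PP_tendsto_9256 : Filter.Tendsto PP Filter.atTop (nhds 1) := by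
  have h := intervalIntegral_tendsto_integral_Ioi 0 ph_int_9256.1 (Filter.tendsto_id (α := ℝ))
  have h2 := h.const_mul 2
  rw [ph_int_9256.2] at h2
  have e : (2 : ℝ) * (1 / 2) = 1 := by norm_num
  rw [e] at h2
  exact h2

theorem PP_strictMono : StrictMono PP := by
  apply strictMono_of_deriv_pos
  intro y
  rw [(PP_deriv_9256 y).deriv]
  have := ph_pos_9256 y
  positivity

theorem PP_lt_9256 (y : ℝ) : PP y < 1 :=
  lt_of_lt_of_le (PP_strictMono (lt_add_one y)) (PP_strictMono.monotone.ge_of_tendsto PP_tendsto_9256 _)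

theorem PP_zero : PP 0 = 0 := by
  unfold PP; simp

theorem quantile (u : ℝ) (h0 : 0 < u) (h1 : u < 1) : ∃ H : ℝ, 0 < H ∧ PP H = 1 - u := by
  have hc : Continuous PP := continuous_iff_continuousAt.2 fun y => (PP_deriv_9256 y).continuousAt
  have hev : ∀ᶠ y in Filter.atTop, 1 - u < PP y :=
    PP_tendsto_9256.eventually (lt_mem_nhds (by linarith))
  obtain ⟨M, hM1, hM2⟩ := (hev.and (Filter.eventually_ge_atTop (0:ℝ))).exists
  have := intermediate_value_Icc hM2 hc.continuousOn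
  obtain ⟨H, _, hH2⟩ := this ⟨by rw [PP_zero]; linarith, hM1.le⟩
  refine ⟨H, ?_, hH2⟩
  apply PP_strictMono.lt_iff_lt.1
  rw [PP_zero, hH2]
  linarith

theorem ph_tendsto_9256 : Filter.Tendsto ph Filter.atTop (nhds 0) := by
  unfold ph
  have h1 : Filter.Tendsto (fun y : ℝ => -y ^ 2 / 2) Filter.atTop Filter.atBot := by
    have h2 : Filter.Tendsto (fun y : ℝ => y ^ 2 / 2) Filter.atTop Filter.atTop :=
      (Filter.tendsto_pow_atTop (by norm_num)).atTop_div_const (by norm_num)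
    have h3 := Filter.tendsto_neg_atTop_atBot.comp h2
    refine h3.congr fun y => ?_
    simp only [Function.comp]
    ring
  have h4 := (Real.tendsto_exp_atBot.comp h1).div_const √(2 * Real.pi)
  rw [zero_div] at h4
  exact h4

theorem gen_9256 (D D' : ℝ → ℝ) (hd : ∀ x, 0 < x → HasDerivAt D (D' x) x) (hn : ∀ x, 0 < x → D' x ≤ 0)
    (hl : Filter.Tendsto D Filter.atTop (nhds 0)) (x : ℝ) (hx : 0 < x) : 0 ≤ D x := by
  have hanti : AntitoneOn D (Set.Ioi 0) := by
    apply antitoneOn_of_deriv_nonpos (convex_Ioi 0)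
    · exact fun y hy => (hd y hy).continuousAt.continuousWithinAt
    · intro y hy
      rw [interior_Ioi] at hy
      exact (hd y hy).differentiableAt.differentiableWithinAt
    · intro y hy
      rw [interior_Ioi] at hy
      rw [(hd y hy).deriv]
      exact hn y hy
  refine le_of_tendsto hl ?_
  filter_upwards [Filter.eventually_ge_atTop x] with y hy
  exact hanti hx (lt_of_lt_of_le hx hy) hy

/-- the function `2 ph g - (1 - PP)` tends to zero -/
theorem lim_9256 (g : ℝ → ℝ) (hg : ∀ x, 1 ≤ x → 0 ≤ g x ∧ g x ≤ 2) :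
    Filter.Tendsto (fun H => 2 * ph H * g H - (1 - PP H)) Filter.atTop (nhds 0) := by
  have h1 : Filter.Tendsto (fun H => 2 * ph H * g H) Filter.atTop (nhds 0) := by
    have h2 : Filter.Tendsto (fun H => 4 * ph H) Filter.atTop (nhds 0) := by
      have := ph_tendsto_9256.const_mul 4
      rwa [mul_zero] at this
    refine squeeze_zero' ?_ ?_ h2
    · filter_upwards [Filter.eventually_ge_atTop 1] with x hx
      have := ph_pos_9256 x
      have := (hg x hx).1
      positivity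
    · filter_upwards [Filter.eventually_ge_atTop 1] with x hx
      have h3 := ph_pos_9256 x
      have h4 := (hg x hx).2
      nlinarith
  have h5 : Filter.Tendsto (fun H => 1 - PP H) Filter.atTop (nhds 0) := by
    have := PP_tendsto_9256.const_sub 1
    rwa [sub_self] at this
  have := h1.sub h5
  rwa [sub_zero] at this

theorem der_9256 (g g' : ℝ → ℝ) (hg : ∀ x, 0 < x → HasDerivAt g (g' x) x) (x : ℝ) (hx : 0 < x) :
    HasDerivAt (fun H => 2 * ph H * g H - (1 - PP H)) (2 * ph x * (g' x - x * g x + 1)) x := by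
  have h1 := (((ph_deriv_9256 x).const_mul 2).mul (hg x hx)).sub ((PP_deriv_9256 x).const_sub 1)
  refine HasDerivAt.congr_deriv h1 ?_
  ring

theorem mills0_9256 (y : ℝ) (hy : 0 < y) : 1 - PP y ≤ 2 * ph y * y⁻¹ := by
  have h := gen_9256 (fun H => 2 * ph H * H⁻¹ - (1 - PP H))
    (fun x => 2 * ph x * (-(x ^ 2)⁻¹ - x * x⁻¹ + 1))
    (fun x hx => der_9256 (fun x => x⁻¹) (fun x => -(x ^ 2)⁻¹) (fun x hx => hasDerivAt_inv hx.ne') x hx)
    (fun x hx => by
      have h1 := ph_pos_9256 x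
      rw [mul_inv_cancel₀ hx.ne']
      have h2 : 0 < (x ^ 2)⁻¹ := by positivity
      nlinarith)
    (lim_9256 (fun x => x⁻¹) (fun x hx => ⟨by positivity, by
      have : x⁻¹ ≤ 1 := inv_le_one_of_one_le₀ hx
      linarith⟩)) y hy
  linarith

theorem tail_exp (y z : ℝ) (hy : 0 ≤ y) (hyz : y ≤ z) :
    Real.exp ((z ^ 2 - y ^ 2) / 2) * (1 - PP z) ≤ 1 - PP y := by
  have hd : ∀ x : ℝ, HasDerivAt (fun x => Real.exp (x ^ 2 / 2) * (1 - PP x))
      (Real.exp (x ^ 2 / 2) * (x * (1 - PP x) - 2 * ph x)) x := by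
    intro x
    have h1 : HasDerivAt (fun y : ℝ => y ^ 2 / 2) x x := by
      have := (hasDerivAt_pow 2 x).div_const 2
      refine HasDerivAt.congr_deriv this ?_
      norm_num
    have h2 := h1.exp.mul ((PP_deriv_9256 x).const_sub 1)
    refine HasDerivAt.congr_deriv h2 ?_
    ring
  have hanti : AntitoneOn (fun x => Real.exp (x ^ 2 / 2) * (1 - PP x)) (Set.Ici 0) := by
    apply antitoneOn_of_deriv_nonpos (convex_Ici 0)
    · exact fun y _ => (hd y).continuousAt.continuousWithinAt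
    · intro y _
      exact (hd y).differentiableAt.differentiableWithinAt
    · intro y hy
      rw [interior_Ici] at hy
      rw [(hd y).deriv]
      have hy' : 0 < y := hy
      have h1 := mills0_9256 y hy'
      have h2 : y * (1 - PP y) ≤ 2 * ph y := by
        have h3 := mul_le_mul_of_nonneg_left h1 hy'.le
        have h4 : y * (2 * ph y * y⁻¹) = 2 * ph y := by field_simp
        linarith
      have h5 := Real.exp_pos (y ^ 2 / 2)
      nlinarith
  have h := hanti (Set.mem_Ici.2 hy) (Set.mem_Ici.2 (hy.trans hyz)) hyz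
  simp only at h
  have h1 : Real.exp ((z ^ 2 - y ^ 2) / 2) = Real.exp (z ^ 2 / 2) / Real.exp (y ^ 2 / 2) := by
    rw [← Real.exp_sub]; congr 1; ring
  have h2 := Real.exp_pos (y ^ 2 / 2)
  rw [h1, div_mul_eq_mul_div, div_le_iff₀ h2]
  linarith

theorem mills (H : ℝ) (hH : 0 < H) :
    √(Real.pi / 2) * (H * (H ^ 2 + 3) / (H ^ 2 + 2)) * (1 - PP H) ≤ Real.exp (-H ^ 2 / 2) := by
  have h := gen_9256 (fun H => 2 * ph H * ((H ^ 2 + 2) / (H ^ 3 + 3 * H)) - (1 - PP H))
    (fun x => 2 * ph x * ((2 * x * (x ^ 3 + 3 * x) - (x ^ 2 + 2) * (3 * x ^ 2 + 3)) / (x ^ 3 + 3 * x) ^ 2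
      - x * ((x ^ 2 + 2) / (x ^ 3 + 3 * x)) + 1))
    (fun x hx => der_9256 (fun x => (x ^ 2 + 2) / (x ^ 3 + 3 * x))
      (fun x => (2 * x * (x ^ 3 + 3 * x) - (x ^ 2 + 2) * (3 * x ^ 2 + 3)) / (x ^ 3 + 3 * x) ^ 2) (fun x hx => by
        have h1 : HasDerivAt (fun x : ℝ => x ^ 2 + 2) (2 * x) x := by
          have := (hasDerivAt_pow 2 x).add_const 2
          refine HasDerivAt.congr_deriv this ?_
          norm_num
        have h2 : HasDerivAt (fun x : ℝ => x ^ 3 + 3 * x) (3 * x ^ 2 + 3) x := by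
          have := (hasDerivAt_pow 3 x).add ((hasDerivAt_id x).const_mul 3)
          refine HasDerivAt.congr_deriv this ?_
          norm_num
        exact h1.div h2 (by positivity)) x hx)
    (fun x hx => by
      have h1 := ph_pos_9256 x
      have h2 : (2 * x * (x ^ 3 + 3 * x) - (x ^ 2 + 2) * (3 * x ^ 2 + 3)) / (x ^ 3 + 3 * x) ^ 2
        - x * ((x ^ 2 + 2) / (x ^ 3 + 3 * x)) + 1 = -6 / (x ^ 3 + 3 * x) ^ 2 := by
        have h3 : x ^ 3 + 3 * x ≠ 0 := by positivity
        field_simp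
        ring
      rw [h2]
      have h4 : -6 / (x ^ 3 + 3 * x) ^ 2 ≤ 0 := div_nonpos_of_nonpos_of_nonneg (by norm_num) (by positivity)
      nlinarith)
    (lim_9256 (fun x => (x ^ 2 + 2) / (x ^ 3 + 3 * x)) (fun x hx => ⟨by positivity, by
      have hx0 : 0 < x := by linarith
      rw [div_le_iff₀ (by positivity)]
      nlinarith [mul_pos hx0 hx0, mul_pos (mul_pos hx0 hx0) hx0, sq_nonneg (x - 1), mul_nonneg (mul_nonneg hx0.le hx0.le) (sub_nonneg.2 hx)]⟩)) H hH
  have h1 : 1 - PP H ≤ 2 * ph H * ((H ^ 2 + 2) / (H ^ 3 + 3 * H)) := by linarith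
  have hs : 0 < √(Real.pi / 2) := Real.sqrt_pos.2 (by positivity)
  have h2 : √(Real.pi / 2) * 2 = √(2 * Real.pi) := by
    have e : 2 * Real.pi = Real.pi / 2 * 2 ^ 2 := by ring
    rw [e, Real.sqrt_mul (by positivity), Real.sqrt_sq (by norm_num)]
  have h3 : 0 < H * (H ^ 2 + 3) / (H ^ 2 + 2) := by positivity
  calc √(Real.pi / 2) * (H * (H ^ 2 + 3) / (H ^ 2 + 2)) * (1 - PP H)
      ≤ √(Real.pi / 2) * (H * (H ^ 2 + 3) / (H ^ 2 + 2)) * (2 * ph H * ((H ^ 2 + 2) / (H ^ 3 + 3 * H))) := by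
        apply mul_le_mul_of_nonneg_left h1
        positivity
    _ = (√(Real.pi / 2) * 2) * ph H := by
        have h3 : H ^ 3 + 3 * H ≠ 0 := by positivity
        field_simp
    _ = Real.exp (-H ^ 2 / 2) := by
        rw [h2]
        unfold ph
        rw [mul_div_cancel₀ _ s2pi_pos_9256.ne']

theorem mills_lower (H : ℝ) (hH : 0 < H) :
    2 * ph H * ((H ^ 3 + 5 * H) / (H ^ 4 + 6 * H ^ 2 + 3)) ≤ 1 - PP H := by
  have h := gen_9256 (fun H => -(2 * ph H * ((H ^ 3 + 5 * H) / (H ^ 4 + 6 * H ^ 2 + 3)) - (1 - PP H)))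
    (fun x => -(2 * ph x * (((3 * x ^ 2 + 5) * (x ^ 4 + 6 * x ^ 2 + 3) - (x ^ 3 + 5 * x) * (4 * x ^ 3 + 12 * x)) / (x ^ 4 + 6 * x ^ 2 + 3) ^ 2
      - x * ((x ^ 3 + 5 * x) / (x ^ 4 + 6 * x ^ 2 + 3)) + 1)))
    (fun x hx => (der_9256 (fun x => (x ^ 3 + 5 * x) / (x ^ 4 + 6 * x ^ 2 + 3))
      (fun x => ((3 * x ^ 2 + 5) * (x ^ 4 + 6 * x ^ 2 + 3) - (x ^ 3 + 5 * x) * (4 * x ^ 3 + 12 * x)) / (x ^ 4 + 6 * x ^ 2 + 3) ^ 2) (fun x hx => by
        have h1 : HasDerivAt (fun x : ℝ => x ^ 3 + 5 * x) (3 * x ^ 2 + 5) x := by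
          have := (hasDerivAt_pow 3 x).add ((hasDerivAt_id x).const_mul 5)
          refine HasDerivAt.congr_deriv this ?_
          norm_num
        have h2 : HasDerivAt (fun x : ℝ => x ^ 4 + 6 * x ^ 2 + 3) (4 * x ^ 3 + 12 * x) x := by
          have := ((hasDerivAt_pow 4 x).add ((hasDerivAt_pow 2 x).const_mul 6)).add_const 3
          refine HasDerivAt.congr_deriv this ?_
          norm_num
          ring
        exact h1.div h2 (by positivity)) x hx).neg)
    (fun x hx => by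
      have h1 := ph_pos_9256 x
      have h2 : ((3 * x ^ 2 + 5) * (x ^ 4 + 6 * x ^ 2 + 3) - (x ^ 3 + 5 * x) * (4 * x ^ 3 + 12 * x)) / (x ^ 4 + 6 * x ^ 2 + 3) ^ 2
      - x * ((x ^ 3 + 5 * x) / (x ^ 4 + 6 * x ^ 2 + 3)) + 1 = 24 / (x ^ 4 + 6 * x ^ 2 + 3) ^ 2 := by
        have h3 : x ^ 4 + 6 * x ^ 2 + 3 ≠ 0 := by positivity
        field_simp
        ring
      rw [h2]
      have h4 : 0 ≤ 24 / (x ^ 4 + 6 * x ^ 2 + 3) ^ 2 := by positivity
      nlinarith)
    (by
      have := (lim_9256 (fun x => (x ^ 3 + 5 * x) / (x ^ 4 + 6 * x ^ 2 + 3)) (fun x hx => ⟨by positivity, by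
        have hx0 : 0 < x := by linarith
        rw [div_le_iff₀ (by positivity)]
        have h1 : x ^ 3 ≤ x ^ 4 := pow_le_pow_right₀ hx (by norm_num)
        have h2 : x ≤ x ^ 2 := by nlinarith
        nlinarith [sq_nonneg x]⟩)).neg
      rwa [neg_zero] at this) H hH
  linarith

end Pool.Agent.VPF.J9256
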