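import Pool.Agent.VPF.Defs2

set_option autoImplicit false
open MeasureTheory ProbabilityTheory
open scoped ENNReal Matrix

namespace Pool.Agent.VPF.J9258

/-- lower tail of the binomial distribution `Bin (N, e)` -/
noncomputable def binTail (n N : ℕ) (e : ℝ) : ℝ :=
  ∑ j ∈ Finset.range n, (N.choose j : ℝ) * e ^ j * (1 - e) ^ (N - j)

theorem layer_deriv (N : ℕ) (e : ℝ) (n : ℕ) :
    HasDerivAt (fun e => binTail n N e)
      (-((n : ℝ) * (N.choose n : ℝ) * e ^ (n - 1) * (1 - e) ^ (N - n))) e := by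
  induction n with
  | zero =>
    simp only [binTail, Finset.range_zero, Finset.sum_empty]
    simpa using hasDerivAt_const e (0 : ℝ)
  | succ n ih =>
    have h1 : (fun e => binTail (n + 1) N e) =
        (fun e => binTail n N e + (N.choose n : ℝ) * e ^ n * (1 - e) ^ (N - n)) := by
      funext e
      simp only [binTail, Finset.sum_range_succ]
    rw [h1]
    have h2 : HasDerivAt (fun e : ℝ => (N.choose n : ℝ) * e ^ n * (1 - e) ^ (N - n))
        ((N.choose n : ℝ) * ((n : ℝ) * e ^ (n - 1)) * (1 - e) ^ (N - n) +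
          (N.choose n : ℝ) * e ^ n * (((N - n : ℕ) : ℝ) * (1 - e) ^ (N - n - 1) * (-1))) e := by
      have a1 := (hasDerivAt_pow n e).const_mul (N.choose n : ℝ)
      have a2 : HasDerivAt (fun e : ℝ => 1 - e) (-1) e := by
        simpa using (hasDerivAt_id e).const_sub 1
      have a3 := a2.pow (N - n)
      exact a1.mul a3
    refine HasDerivAt.congr_deriv (show HasDerivAt (fun e => binTail n N e +
      (N.choose n : ℝ) * e ^ n * (1 - e) ^ (N - n)) _ e from ih.add h2) ?_
    have h4 : ((N.choose (n + 1) : ℕ) : ℝ) * ((n : ℝ) + 1) =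
        (N.choose n : ℝ) * ((N - n : ℕ) : ℝ) := by
      exact_mod_cast Nat.choose_succ_right_eq N n
    rw [Nat.add_sub_cancel, ← Nat.sub_sub]
    push_cast
    linear_combination (e ^ n * (1 - e) ^ (N - n - 1)) * h4

theorem binTail_zero (n N : ℕ) (hn : 1 ≤ n) : binTail n N 0 = 1 := by
  unfold binTail
  obtain ⟨k, rfl⟩ : ∃ k, n = k + 1 := ⟨n - 1, by omega⟩
  rw [Finset.sum_range_succ']
  simp

theorem layer_real (n m : ℕ) (hn : 1 ≤ n) (hm : 1 ≤ m) (e₀ : ℝ) (he : 0 < e₀) (he1 : e₀ < 1) :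
    ∫ t in (0 : ℝ)..1, (m : ℝ) * t ^ (m - 1) * (min (1 - t) e₀) ^ n =
      (1 - binTail n (n + m) e₀) / ((n + m).choose n : ℝ) := by
  have hC : (0 : ℝ) < ((n + m).choose n : ℝ) := by
    exact_mod_cast Nat.choose_pos (Nat.le_add_right n m)
  have hcont : Continuous (fun t : ℝ => (m : ℝ) * t ^ (m - 1) * (min (1 - t) e₀) ^ n) := by
    fun_prop
  rw [← intervalIntegral.integral_add_adjacent_intervals (b := 1 - e₀)
    (hcont.intervalIntegrable _ _) (hcont.intervalIntegrable _ _)]
  have h1 : ∫ t in (0 : ℝ)..(1 - e₀), (m : ℝ) * t ^ (m - 1) * (min (1 - t) e₀) ^ n =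
      (1 - e₀) ^ m * e₀ ^ n := by
    have e1 : ∫ t in (0 : ℝ)..(1 - e₀), (m : ℝ) * t ^ (m - 1) * (min (1 - t) e₀) ^ n =
        ∫ t in (0 : ℝ)..(1 - e₀), (m : ℝ) * t ^ (m - 1) * e₀ ^ n := by
      apply intervalIntegral.integral_congr
      intro t ht
      rw [Set.uIcc_of_le (by linarith)] at ht
      simp only
      rw [min_eq_right (by linarith [ht.2])]
    rw [e1, intervalIntegral.integral_eq_sub_of_hasDerivAt (f := fun t => t ^ m * e₀ ^ n)]
    · have : (0 : ℝ) ^ m = 0 := zero_pow (by omega)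
      simp only [this]
      ring
    · intro t _
      exact (hasDerivAt_pow m t).mul_const _
    · apply Continuous.intervalIntegrable
      fun_prop
  have h2 : ∫ t in (1 - e₀)..1, (m : ℝ) * t ^ (m - 1) * (min (1 - t) e₀) ^ n =
      -((1 - e₀) ^ m * e₀ ^ n) + (1 - binTail n (n + m) e₀) / ((n + m).choose n : ℝ) := by
    have e1 : ∫ t in (1 - e₀)..1, (m : ℝ) * t ^ (m - 1) * (min (1 - t) e₀) ^ n =
        ∫ t in (1 - e₀)..1, (m : ℝ) * t ^ (m - 1) * (1 - t) ^ n := by
      apply intervalIntegral.integral_congr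
      intro t ht
      rw [Set.uIcc_of_le (by linarith)] at ht
      simp only
      rw [min_eq_left (by linarith [ht.1])]
    rw [e1, intervalIntegral.integral_eq_sub_of_hasDerivAt (f := fun t => t ^ m * (1 - t) ^ n -
      (1 - binTail n (n + m) (1 - t)) / ((n + m).choose n : ℝ))]
    · have : (0 : ℝ) ^ n = 0 := zero_pow (by omega)
      simp only [sub_self, this, binTail_zero n _ hn, sub_sub_cancel]
      ring
    · intro t _
      have a2 : HasDerivAt (fun e : ℝ => 1 - e) (-1) t := by
        simpa using (hasDerivAt_id t).const_sub 1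
      have a3 := (hasDerivAt_pow m t).mul (a2.pow n)
      have a4 := (layer_deriv (n + m) (1 - t) n).comp t a2
      have a5 := (a4.const_sub 1).div_const ((n + m).choose n : ℝ)
      refine HasDerivAt.congr_deriv (show HasDerivAt (fun t => t ^ m * (1 - t) ^ n -
        (1 - binTail n (n + m) (1 - t)) / ((n + m).choose n : ℝ)) _ t from a3.sub a5) ?_
      simp only [Pi.pow_apply, Nat.add_sub_cancel_left, sub_sub_cancel]
      field_simp
      ring
    · apply Continuous.intervalIntegrable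
      fun_prop
  rw [h1, h2]
  ring

theorem layer {α : Type*} [MeasurableSpace α] (μ : Measure α) (f : α → ℝ≥0∞) (hf : Measurable f)
    (hf1 : ∀ x, f x ≤ 1) (n m : ℕ) (hn : 1 ≤ n) (hm : 1 ≤ m) (S e₀ : ℝ) (hS : 0 ≤ S) (he : 0 < e₀)
    (he1 : e₀ < 1)
    (h : ∀ e : ℝ, 0 < e → e ≤ e₀ → ENNReal.ofReal (S * e ^ n) ≤ μ {x | ENNReal.ofReal (1 - e) < f x}) :
    ENNReal.ofReal (S * (1 - binTail n (n + m) e₀)) ≤
      ((n + m).choose n : ℝ≥0∞) * ∫⁻ x, f x ^ m ∂μ := by
  have hC : (0 : ℝ) < ((n + m).choose n : ℝ) := by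
    exact_mod_cast Nat.choose_pos (Nat.le_add_right n m)
  have hm0 : (0 : ℝ) < m := by exact_mod_cast hm
  have hft : ∀ x, f x ≠ ∞ := fun x => ne_top_of_le_ne_top ENNReal.one_ne_top (hf1 x)
  set g : α → ℝ := fun x => (f x).toReal with hg
  have hfg : ∀ x, f x ^ m = ENNReal.ofReal (g x ^ (m : ℝ)) := by
    intro x
    rw [Real.rpow_natCast, ENNReal.ofReal_pow ENNReal.toReal_nonneg, ENNReal.ofReal_toReal (hft x)]
  have hlay : ∫⁻ x, f x ^ m ∂μ = ENNReal.ofReal m *
      ∫⁻ t in Set.Ioi 0, μ {a | t < g a} * ENNReal.ofReal (t ^ ((m : ℝ) - 1)) := by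
    rw [← lintegral_rpow_eq_lintegral_meas_lt_mul μ
      (Filter.Eventually.of_forall (fun x => ENNReal.toReal_nonneg))
      (hf.ennreal_toReal.aemeasurable) hm0]
    exact lintegral_congr (fun x => hfg x)
  have hlow : ∀ t ∈ Set.Ioc (0 : ℝ) 1, ENNReal.ofReal (S * ((min (1 - t) e₀) ^ n * t ^ (m - 1))) ≤
      μ {a | t < g a} * ENNReal.ofReal (t ^ ((m : ℝ) - 1)) := by
    intro t ht
    have hmt : t ^ ((m : ℝ) - 1) = t ^ (m - 1) := by
      rw [← Real.rpow_natCast, Nat.cast_sub hm, Nat.cast_one]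
    rw [hmt, ← mul_assoc, ENNReal.ofReal_mul' (pow_nonneg ht.1.le _)]
    gcongr
    rcases eq_or_lt_of_le ht.2 with h1 | h1
    · rw [h1, sub_self, min_eq_left he.le, zero_pow (by omega), mul_zero, ENNReal.ofReal_zero]
      exact bot_le
    · have hlt : ∀ a, t < g a ↔ ENNReal.ofReal t < f a := by
        intro a
        rw [ENNReal.ofReal_lt_iff_lt_toReal ht.1.le (hft a)]
      have hset : {a | t < g a} = {a | ENNReal.ofReal t < f a} := by
        ext a; exact hlt a
      rw [hset]
      by_cases h2 : 1 - t ≤ e₀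
      · rw [min_eq_left h2]
        have := h (1 - t) (by linarith) h2
        rw [sub_sub_cancel] at this
        exact this
      · push Not at h2
        rw [min_eq_right h2.le]
        refine (h e₀ he le_rfl).trans ?_
        apply measure_mono
        intro a ha
        have ha' : ENNReal.ofReal (1 - e₀) < f a := ha
        refine lt_of_le_of_lt ?_ ha'
        apply ENNReal.ofReal_le_ofReal
        linarith
  have hint : ENNReal.ofReal (S * ((1 - binTail n (n + m) e₀) / ((n + m).choose n : ℝ))) ≤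
      ∫⁻ x, f x ^ m ∂μ := by
    rw [hlay, ← layer_real n m hn hm e₀ he he1]
    rw [intervalIntegral.integral_of_le zero_le_one]
    have hcont : Continuous (fun t : ℝ => (m : ℝ) * t ^ (m - 1) * (min (1 - t) e₀) ^ n) := by
      fun_prop
    rw [← MeasureTheory.integral_const_mul]
    rw [MeasureTheory.ofReal_integral_eq_lintegral_ofReal]
    · calc ∫⁻ t in Set.Ioc (0 : ℝ) 1,
            ENNReal.ofReal (S * ((m : ℝ) * t ^ (m - 1) * (min (1 - t) e₀) ^ n))
          = ∫⁻ t in Set.Ioc (0 : ℝ) 1, ENNReal.ofReal m *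
            ENNReal.ofReal (S * ((min (1 - t) e₀) ^ n * t ^ (m - 1))) := by
            apply lintegral_congr
            intro t
            rw [← ENNReal.ofReal_mul hm0.le]
            congr 1
            ring
        _ = ENNReal.ofReal m * ∫⁻ t in Set.Ioc (0 : ℝ) 1,
            ENNReal.ofReal (S * ((min (1 - t) e₀) ^ n * t ^ (m - 1))) := by
            rw [lintegral_const_mul' _ _ ENNReal.ofReal_ne_top]
        _ ≤ ENNReal.ofReal m * ∫⁻ t in Set.Ioc (0 : ℝ) 1,
            μ {a | t < g a} * ENNReal.ofReal (t ^ ((m : ℝ) - 1)) := by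
            gcongr 1
            exact setLIntegral_mono' measurableSet_Ioc hlow
        _ ≤ _ := by
            gcongr 1
            exact lintegral_mono_set Set.Ioc_subset_Ioi_self
    · exact ((continuous_const.mul hcont).integrableOn_Icc (a := 0) (b := 1)).mono_set
        Set.Ioc_subset_Icc_self
    · rw [Filter.EventuallyLE, ae_restrict_iff' measurableSet_Ioc]
      apply Filter.Eventually.of_forall
      intro t ht
      have : 0 ≤ min (1 - t) e₀ := le_min (by linarith [ht.2]) he.le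
      have h0 := ht.1.le
      simp only [Pi.zero_apply]
      positivity
  calc ENNReal.ofReal (S * (1 - binTail n (n + m) e₀))
      = ENNReal.ofReal ((n + m).choose n : ℝ) *
        ENNReal.ofReal (S * ((1 - binTail n (n + m) e₀) / ((n + m).choose n : ℝ))) := by
        rw [← ENNReal.ofReal_mul hC.le]
        congr 1
        field_simp
    _ ≤ ENNReal.ofReal ((n + m).choose n : ℝ) * ∫⁻ x, f x ^ m ∂μ := by gcongr
    _ = _ := by rw [ENNReal.ofReal_natCast]

end Pool.Agent.VPF.J9258
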