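import Pool.Agent.VPF.Defs2

set_option autoImplicit false

namespace Pool.Agent.VPF.J9260

/-- lower tail of the binomial distribution `Bin (N, e)` -/
noncomputable def binTail (n N : ℕ) (e : ℝ) : ℝ :=
  ∑ j ∈ Finset.range n, (N.choose j : ℝ) * e ^ j * (1 - e) ^ (N - j)

theorem binTail_step_h411 (N : ℕ) (e : ℝ) (n : ℕ) (hn : n ≤ N) :
    binTail (n + 1) (N + 1) e =
      binTail (n + 1) N e - (N.choose n : ℝ) * e ^ (n + 1) * (1 - e) ^ (N - n) := by
  induction n with
  | zero =>
    simp [binTail]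
    ring
  | succ n ih =>
    have ih' := ih (by omega)
    have e1 : binTail (n + 1 + 1) (N + 1) e = binTail (n + 1) (N + 1) e +
        ((N + 1).choose (n + 1) : ℝ) * e ^ (n + 1) * (1 - e) ^ (N + 1 - (n + 1)) := by
      unfold binTail
      rw [Finset.sum_range_succ]
    have e2 : binTail (n + 1 + 1) N e = binTail (n + 1) N e +
        (N.choose (n + 1) : ℝ) * e ^ (n + 1) * (1 - e) ^ (N - (n + 1)) := by
      unfold binTail
      rw [Finset.sum_range_succ]
    rw [e1, e2, ih', Nat.choose_succ_succ, Nat.add_sub_add_right]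
    obtain ⟨k, hk⟩ : ∃ k, N - n = k + 1 := ⟨N - n - 1, by omega⟩
    have hk2 : N - (n + 1) = k := by omega
    rw [hk, hk2]
    push_cast
    ring

theorem binTail_anti (n N : ℕ) (e : ℝ) (h0 : 0 ≤ e) (h1 : e ≤ 1) (hN : n ≤ N) :
    binTail n (N + 1) e ≤ binTail n N e := by
  rcases Nat.eq_zero_or_pos n with hn | hn
  · subst hn
    simp [binTail]
  · obtain ⟨m, rfl⟩ : ∃ m, n = m + 1 := ⟨n - 1, by omega⟩
    rw [binTail_step_h411 N e m (by omega)]
    have h2 : 0 ≤ 1 - e := by linarith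
    have : 0 ≤ (N.choose m : ℝ) * e ^ (m + 1) * (1 - e) ^ (N - m) := by positivity
    linarith

end Pool.Agent.VPF.J9260
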