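import Pool.Agent.VPF.Defs2
import Pool.Agent.VPF.J7666
import Pool.Agent.VPF.J7667
import Pool.Agent.VPF.J7668
import Pool.Agent.VPF.J9017
import Pool.Agent.VPF.J9018
import Pool.Agent.VPF.J9020
import Pool.Agent.VPF.J9021
import Pool.Agent.VPF.J9256

set_option autoImplicit false
open MeasureTheory ProbabilityTheory
open scoped ENNReal Matrix

namespace Pool.Agent.VPF.P4

theorem PP_cont : Continuous PP := J7666.PP_cont_7666
theorem PP_smono : StrictMono PP := J9256.PP_strictMono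

theorem nu_low (n : ℕ) (hn : 2 ≤ n) (S : Set (ℝ × ℝ)) (hSm : MeasurableSet S)
    (hS1 : ∀ a a' b : ℝ, 0 ≤ a' → a' ≤ a → 0 < b → (a, b) ∈ S → (a', b) ∈ S)
    (hS2 : ∀ a b l : ℝ, 0 ≤ a → 0 < b → 1 ≤ l → (a, b) ∈ S → (l * a, l * b) ∈ S)
    (hS3 : ∀ a b : ℝ, (a, b) ∈ S → (-a, b) ∈ S)
    (I : ℕ) (a b ρ μ : ℕ → ℝ)
    (h : ∀ i < I, 0 < a i ∧ 0 < b i ∧ (a i, b i) ∈ S ∧ ρ (i + 1) ≤ rr (a i) (b i) ∧
      0 ≤ μ i ∧ μ i ≤ mu 0 (a i) (b i))
    (h0 : ρ 0 = 0) (hmono : ∀ i < I, ρ i ≤ ρ (i + 1)) :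
    ENNReal.ofReal (√(n : ℝ) * ∑ i ∈ Finset.range I, (ρ (i + 1) - ρ i) * μ i ^ (n - 1)) ≤
      ∫⁻ b in Set.Ioi (0 : ℝ), ∫⁻ a : ℝ,
        S.indicator (fun p => ENNReal.ofReal (dn n p.1 p.2)) (a, b) :=
  J9017.nu_lower_gen J7667.F_deriv J7667.F_det J7668.rr_zero J7668.rr_strictMono J7668.rr_lt_one
    J7668.rr_tendsto J7668.rr_cont J7668.mu_cont J7668.rr_scale J7668.mu0_anti J7668.mu0_le
    n hn S hSm hS1 hS2 hS3 I a b ρ μ h h0 hmono

/-- `II y - y` decreases -/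
theorem JJ_anti {u v : ℝ} (h : u ≤ v) : II v - v ≤ II u - u := by
  have hd : ∀ y, HasDerivAt (fun y => II y - y) (PP y - 1) y := fun y =>
    (J7666.II_deriv y).sub (hasDerivAt_id y)
  have : Antitone (fun y => II y - y) := by
    apply antitone_of_deriv_nonpos
    · intro y; exact (hd y).differentiableAt
    · intro y; rw [(hd y).deriv]; linarith [J7666.PP_lt_one y]
  exact this h

theorem rr_low (a b v : ℝ) (hb : 0 < b) (hv : v ≤ b - a) :
    a / b - (II v - v) / (2 * b) ≤ rr a b := by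
  rw [J7666.rr_eq a b hb]
  have h1 : a + b ≤ II (a + b) := J7666.II_ge (a + b)
  have h2 : II (a - b) = II (b - a) := by rw [← J7666.II_even (a - b)]; congr 1; ring
  have h3 : II (b - a) - (b - a) ≤ II v - v := JJ_anti hv
  rw [h2]
  rw [show a / b - (II v - v) / (2 * b) = (2 * a - (II v - v)) / (2 * b) by field_simp]
  apply div_le_div_of_nonneg_right _ (by positivity)
  linarith

theorem inner2 (n : ℕ) (hn : 2 ≤ n)
    (h η η₀ κ : ℝ) (hh : 0 < h) (hη₀ : 0 < η₀) (hη : η₀ ≤ η) (hκ : 0 < κ) (hκ1 : κ ≤ 1)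
    (hκη : κ * η ≤ h)
    (I : ℕ) (s c o ρ : ℕ → ℝ)
    (hs : ∀ i < I, 0 < s i ∧ s i < 1 ∧ 0 < c i ∧ c i ^ 2 ≤ 1 - s i ^ 2 ∧ 0 ≤ o i ∧
      o i ≤ (PP (η₀ / √(1 - s i ^ 2) * (1 + κ * s i)) + PP (η₀ / √(1 - s i ^ 2) * (1 - κ * s i))) / 2 ∧
      ρ (i + 1) ≤ rr (κ * s i * (η₀ / √(1 - s i ^ 2))) (η₀ / √(1 - s i ^ 2)))
    (h0 : ρ 0 = 0) (hmono : ∀ i < I, ρ i ≤ ρ (i + 1)) :
    ENNReal.ofReal (√(n : ℝ) * (√(Real.pi / 2) / η) ^ (n - 1) *
        ∑ i ∈ Finset.range I, (ρ (i + 1) - ρ i) * (c i * o i) ^ (n - 1)) ≤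
      ∫⁻ b in Set.Ioi (0 : ℝ), ∫⁻ a : ℝ,
        (Sset h η).indicator (fun p => ENNReal.ofReal (dn n p.1 p.2)) (a, b) := by
  have hη0 : 0 < η := lt_of_lt_of_le hη₀ hη
  set S := Sset h η with hS
  set B : ℕ → ℝ := fun i => η / √(1 - s i ^ 2) with hB
  set A : ℕ → ℝ := fun i => κ * s i * B i with hA
  set M : ℕ → ℝ := fun i => √(Real.pi / 2) / η * (c i * o i) with hM
  have key := nu_low n hn S ?_ ?_ ?_ ?_ I A B ρ M ?_ h0 hmono
  · refine le_trans (le_of_eq ?_) key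
    congr 1
    rw [mul_assoc, Finset.mul_sum]
    congr 1
    apply Finset.sum_congr rfl
    intro i _
    rw [hM]
    simp only
    rw [mul_pow (√(Real.pi / 2) / η)]
    ring
  · rw [hS]
    unfold Sset
    exact measurableSet_le (by fun_prop) (by fun_prop)
  · intro a a' b ha' haa hb hab
    have h1 : η * √(h ^ 2 + a ^ 2) ≤ b * h := hab
    show η * √(h ^ 2 + a' ^ 2) ≤ b * h
    refine le_trans ?_ h1
    gcongr
  · intro a b l ha hb hl hab
    have h1 : η * √(h ^ 2 + a ^ 2) ≤ b * h := hab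
    show η * √(h ^ 2 + (l * a) ^ 2) ≤ (l * b) * h
    have h2 : √(h ^ 2 + (l * a) ^ 2) ≤ l * √(h ^ 2 + a ^ 2) := by
      have hl0 : 0 ≤ l := by linarith
      rw [show l * √(h ^ 2 + a ^ 2) = √(l ^ 2 * (h ^ 2 + a ^ 2)) by
        rw [Real.sqrt_mul (by positivity), Real.sqrt_sq hl0]]
      apply Real.sqrt_le_sqrt
      have : h ^ 2 ≤ l ^ 2 * h ^ 2 := by
        have : 1 ≤ l ^ 2 := by nlinarith
        nlinarith [sq_nonneg h]
      nlinarith
    calc η * √(h ^ 2 + (l * a) ^ 2) ≤ η * (l * √(h ^ 2 + a ^ 2)) := by gcongr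
      _ = l * (η * √(h ^ 2 + a ^ 2)) := by ring
      _ ≤ l * (b * h) := by gcongr
      _ = (l * b) * h := by ring
  · intro a b hab
    have h1 : η * √(h ^ 2 + a ^ 2) ≤ b * h := hab
    show η * √(h ^ 2 + (-a) ^ 2) ≤ b * h
    rwa [neg_sq]
  · intro i hi
    obtain ⟨hs0, hs1, hc0, hc1, ho0, ho1, hρ⟩ := hs i hi
    have hpos : 0 < 1 - s i ^ 2 := by nlinarith
    have hsq : 0 < √(1 - s i ^ 2) := Real.sqrt_pos.2 hpos
    have hBpos : 0 < B i := div_pos hη0 hsq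
    have hApos : 0 < A i := by
      show 0 < κ * s i * B i
      positivity
    have hks : κ * s i ≤ 1 := by nlinarith
    have hBge : η₀ / √(1 - s i ^ 2) ≤ B i := by
      show η₀ / √(1 - s i ^ 2) ≤ η / √(1 - s i ^ 2)
      gcongr
    have hom : o i ≤ (PP (A i + B i) - PP (A i - B i)) / 2 := by
      refine ho1.trans ?_
      have e1 : A i + B i = B i * (1 + κ * s i) := by
        show κ * s i * B i + B i = _; ring
      have e2 : A i - B i = -(B i * (1 - κ * s i)) := by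
        show κ * s i * B i - B i = _; ring
      rw [e1, e2, J7666.PP_odd]
      have h1 : PP (η₀ / √(1 - s i ^ 2) * (1 + κ * s i)) ≤ PP (B i * (1 + κ * s i)) := by
        apply PP_smono.monotone
        gcongr
      have h2 : PP (η₀ / √(1 - s i ^ 2) * (1 - κ * s i)) ≤ PP (B i * (1 - κ * s i)) := by
        apply PP_smono.monotone
        apply mul_le_mul_of_nonneg_right hBge
        linarith
      linarith
    refine ⟨hApos, hBpos, ?_, ?_, ?_, ?_⟩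
    · show η * √(h ^ 2 + (κ * s i * (η / √(1 - s i ^ 2))) ^ 2) ≤ η / √(1 - s i ^ 2) * h
      have h1 : √(h ^ 2 + (κ * s i * (η / √(1 - s i ^ 2))) ^ 2) ≤ h / √(1 - s i ^ 2) := by
        rw [Real.sqrt_le_left (by positivity)]
        have h2 : √(1 - s i ^ 2) ^ 2 = 1 - s i ^ 2 := Real.sq_sqrt hpos.le
        rw [mul_pow, div_pow, div_pow, h2]
        rw [← mul_div_assoc, ← sub_nonneg]
        have h3 : h ^ 2 / (1 - s i ^ 2) - (h ^ 2 + (κ * s i) ^ 2 * η ^ 2 / (1 - s i ^ 2)) =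
            s i ^ 2 * (h ^ 2 - (κ * η) ^ 2) / (1 - s i ^ 2) := by
          field_simp
          ring
        rw [h3]
        apply div_nonneg _ hpos.le
        apply mul_nonneg (sq_nonneg _)
        have : 0 < κ * η := by positivity
        nlinarith
      calc η * √(h ^ 2 + (κ * s i * (η / √(1 - s i ^ 2))) ^ 2) ≤ η * (h / √(1 - s i ^ 2)) := by
            gcongr
        _ = η / √(1 - s i ^ 2) * h := by ring
    · refine hρ.trans ?_
      have hb0 : 0 < η₀ / √(1 - s i ^ 2) := div_pos hη₀ hsq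
      have hl : 1 ≤ η / η₀ := by rwa [one_le_div hη₀]
      have h4 := J7668.rr_scale (κ * s i * (η₀ / √(1 - s i ^ 2))) (η₀ / √(1 - s i ^ 2)) (η / η₀)
        (by positivity) hb0 hl
      have e1 : η / η₀ * (η₀ / √(1 - s i ^ 2)) = B i := by
        show _ = η / √(1 - s i ^ 2)
        field_simp
      have e2 : η / η₀ * (κ * s i * (η₀ / √(1 - s i ^ 2))) = A i := by
        show _ = κ * s i * (η / √(1 - s i ^ 2))
        field_simp
      rwa [e1, e2] at h4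
    · show 0 ≤ √(Real.pi / 2) / η * (c i * o i)
      positivity
    · rw [J7666.mu_zero _ _ hBpos]
      show √(Real.pi / 2) / η * (c i * o i) ≤ _
      have hci : c i ≤ √(1 - s i ^ 2) := Real.le_sqrt_of_sq_le hc1
      have hpi : √(2 * Real.pi) = 2 * √(Real.pi / 2) := by
        rw [show 2 * Real.pi = 2 ^ 2 * (Real.pi / 2) by ring, Real.sqrt_mul (by positivity),
          Real.sqrt_sq (by norm_num)]
      have hBinv : B i = η / √(1 - s i ^ 2) := rfl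
      calc √(Real.pi / 2) / η * (c i * o i)
          ≤ √(Real.pi / 2) / η * (√(1 - s i ^ 2) * ((PP (A i + B i) - PP (A i - B i)) / 2)) := by
            gcongr
        _ = √(2 * Real.pi) * (PP (A i + B i) - PP (A i - B i)) / (4 * B i) := by
            rw [hpi]
            generalize PP (A i + B i) - PP (A i - B i) = w
            rw [hBinv]
            field_simp
            ring

/-- inner bound with the data of one point: `v₁ ≤ b (1+κ s)`, `v₂ ≤ b (1-κ s)` -/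
theorem inner3 (n : ℕ) (hn : 2 ≤ n)
    (h η η₀ κ : ℝ) (hh : 0 < h) (hη₀ : 0 < η₀) (hη : η₀ ≤ η) (hκ : 0 < κ) (hκ1 : κ ≤ 1)
    (hκη : κ * η ≤ h)
    (I : ℕ) (s c C o v₁ v₂ ρ : ℕ → ℝ)
    (hs : ∀ i < I, 0 < s i ∧ s i < 1 ∧ 0 < c i ∧ c i ^ 2 ≤ 1 - s i ^ 2 ∧ 0 < C i ∧
      1 - s i ^ 2 ≤ C i ^ 2 ∧ 0 ≤ v₁ i ∧ 0 ≤ v₂ i ∧
      v₁ i * C i ≤ η₀ * (1 + κ * s i) ∧ v₂ i * C i ≤ η₀ * (1 - κ * s i) ∧ 0 ≤ o i ∧
      o i ≤ (PP (v₁ i) + PP (v₂ i)) / 2 ∧
      ρ (i + 1) ≤ κ * s i - (II (v₂ i) - v₂ i) * C i / (2 * η₀))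
    (h0 : ρ 0 = 0) (hmono : ∀ i < I, ρ i ≤ ρ (i + 1)) :
    ENNReal.ofReal (√(n : ℝ) * (√(Real.pi / 2) / η) ^ (n - 1) *
        ∑ i ∈ Finset.range I, (ρ (i + 1) - ρ i) * (c i * o i) ^ (n - 1)) ≤
      ∫⁻ b in Set.Ioi (0 : ℝ), ∫⁻ a : ℝ,
        (Sset h η).indicator (fun p => ENNReal.ofReal (dn n p.1 p.2)) (a, b) := by
  apply inner2 n hn h η η₀ κ hh hη₀ hη hκ hκ1 hκη I s c o ρ _ h0 hmono
  intro i hi
  obtain ⟨hs0, hs1, hc0, hc1, hC0, hC1, hv1, hv2, hv3, hv4, ho0, ho1, hρ⟩ := hs i hi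
  have hpos : 0 < 1 - s i ^ 2 := by nlinarith
  have hsq : 0 < √(1 - s i ^ 2) := Real.sqrt_pos.2 hpos
  have hC : √(1 - s i ^ 2) ≤ C i := by
    rw [Real.sqrt_le_left hC0.le]; exact hC1
  have hw1 : v₁ i ≤ η₀ / √(1 - s i ^ 2) * (1 + κ * s i) := by
    rw [div_mul_eq_mul_div, le_div_iff₀ hsq]
    exact le_trans (by gcongr) hv3
  have hw2 : v₂ i ≤ η₀ / √(1 - s i ^ 2) * (1 - κ * s i) := by
    rw [div_mul_eq_mul_div, le_div_iff₀ hsq]
    exact le_trans (by gcongr) hv4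
  refine ⟨hs0, hs1, hc0, hc1, ho0, ?_, ?_⟩
  · refine ho1.trans ?_
    have := PP_smono.monotone hw1
    have := PP_smono.monotone hw2
    linarith
  · refine hρ.trans ?_
    have hb : 0 < η₀ / √(1 - s i ^ 2) := div_pos hη₀ hsq
    have h1 := rr_low (κ * s i * (η₀ / √(1 - s i ^ 2))) (η₀ / √(1 - s i ^ 2)) (v₂ i) hb
      (by refine hw2.trans (le_of_eq ?_); ring)
    refine le_trans ?_ h1
    have e1 : κ * s i * (η₀ / √(1 - s i ^ 2)) / (η₀ / √(1 - s i ^ 2)) = κ * s i := by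
      field_simp
    have e2 : (II (v₂ i) - v₂ i) / (2 * (η₀ / √(1 - s i ^ 2))) =
        (II (v₂ i) - v₂ i) * √(1 - s i ^ 2) / (2 * η₀) := by
      field_simp
    rw [e1, e2]
    have h3 : 0 ≤ II (v₂ i) - v₂ i := by linarith [J7666.II_ge (v₂ i)]
    have : (II (v₂ i) - v₂ i) * √(1 - s i ^ 2) / (2 * η₀) ≤ (II (v₂ i) - v₂ i) * C i / (2 * η₀) := by
      gcongr
    linarith

end Pool.Agent.VPF.P4
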