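import Pool.Agent.VPF.P4a
import Pool.Agent.VPF.J7665
import Pool.Agent.VPF.J7671
import Pool.Agent.VPF.J9258
import Pool.Agent.VPF.J9260

set_option autoImplicit false
open MeasureTheory ProbabilityTheory
open scoped ENNReal Matrix

namespace Pool.Agent.VPF.P4

/-- lower tail of the binomial distribution `Bin (N, e)` -/
noncomputable def bt (n N : ℕ) (e : ℝ) : ℝ :=
  ∑ j ∈ Finset.range n, (N.choose j : ℝ) * e ^ j * (1 - e) ^ (N - j)

theorem bt_anti (n N N' : ℕ) (e : ℝ) (h0 : 0 ≤ e) (h1 : e ≤ 1) (hN : n ≤ N) (hN' : N ≤ N') :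
    bt n N' e ≤ bt n N e := by
  induction N', hN' using Nat.le_induction with
  | base => exact le_rfl
  | succ k hk ih => exact le_trans (J9260.binTail_anti n k e h0 h1 (hN.trans hk)) ih

theorem tail_surj (u : ℝ) (hu : 0 < u) (hu1 : u < 1) : ∃ h : ℝ, 0 < h ∧ 1 - PP h = u := by
  obtain ⟨H, h1, h2⟩ := J9256.quantile u hu hu1
  exact ⟨H, h1, by rw [h2]; ring⟩

theorem level (n : ℕ) (hn : 2 ≤ n) (τ₀ : ℝ) (hτ0 : 0 < τ₀) (hτ1 : τ₀ < 1)
    (J : ℕ) (x h₀ η₀ κ f l W : ℕ → ℝ) (hx0 : x 0 = 0) (hxm : ∀ j < J, x j ≤ x (j + 1))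
    (hx1 : ∀ j < J, 0 < x (j + 1) ∧ x (j + 1) < 1)
    (hcell : ∀ j < J, 0 < h₀ j ∧ 0 < η₀ j ∧ 0 < κ j ∧ κ j ≤ 1 ∧ 0 ≤ f j ∧ f j ≤ 1 ∧ 0 ≤ l j ∧ 0 ≤ W j ∧
      x (j + 1) * τ₀ ≤ 1 - PP (h₀ j) ∧ (1 - x (j + 1)) * τ₀ ≤ 1 - PP (η₀ j) ∧
      x (j + 1) ≤ Real.exp (l j) * (1 - x (j + 1)) ∧
      κ j ^ 2 * (h₀ j ^ 2 + 2 * l j) ≤ h₀ j ^ 2 ∧
      f j ^ 2 * (h₀ j ^ 2 + 2 * l j) ≤ (h₀ j * (h₀ j ^ 2 + 3) / (h₀ j ^ 2 + 2)) ^ 2)
    (hW : ∀ j < J, ∀ h η : ℝ, 0 < h → η₀ j ≤ η → κ j * η ≤ h →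
      ENNReal.ofReal (√(n : ℝ) * (√(Real.pi / 2) / η) ^ (n - 1) * W j) ≤
        ∫⁻ b in Set.Ioi (0 : ℝ), ∫⁻ a : ℝ,
          (Sset h η).indicator (fun p => ENNReal.ofReal (dn n p.1 p.2)) (a, b))
    (τ : ℝ) (hτ : 0 < τ) (hττ : τ ≤ τ₀) :
    ENNReal.ofReal ((∑ j ∈ Finset.range J, (x (j + 1) ^ n - x j ^ n) *
        ((Real.pi / 2) * f j) ^ (n - 1) * W j) * τ ^ n) ≤
      ∫⁻ t, (∫⁻ b in Set.Ioi (0 : ℝ), ∫⁻ a : ℝ,
        Set.indicator {p : ℝ × ℝ | 1 - τ ≤ PP (|t| / √(n : ℝ)) *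
            PP (p.2 * (|t| / √(n : ℝ)) / √((|t| / √(n : ℝ)) ^ 2 + p.1 ^ 2))}
          (fun p => ENNReal.ofReal (dn n p.1 p.2)) (a, b)) ∂(gaussianReal 0 1) := by
  apply J9021.level_bound J9018.tail_sq tail_surj PP_smono PP_cont J7666.PP_lt_one J9256.PP_zero
    J9018.quot_mono J9018.g_mono _ n hn τ₀ hτ0 hτ1 J x h₀ η₀ κ f l W hx0 hxm hx1 hcell hW τ hτ hττ
  intro n hn u₁ u₂ c h0 h12 h2 hc hcell
  exact J9020.radial J9018.mills n hn u₁ u₂ c h0 h12 h2 hc hcell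

/-- the two factor lower bound of `QQ` -/
noncomputable def ff (n : ℕ) (p : ℝ × ℝ × ℝ) : ℝ :=
  PP (|p.1| / √(n : ℝ)) * PP (p.2.1 * (|p.1| / √(n : ℝ)) / √((|p.1| / √(n : ℝ)) ^ 2 + p.2.2 ^ 2))

theorem meas_dn (n : ℕ) : Measurable (fun p : ℝ × ℝ => dn n p.1 p.2) := by
  have h0 := J7668.mu_cont 0
  have h1 := J7668.mu_cont 1
  have h2 := J7668.mu_cont 2
  unfold dn
  apply Continuous.measurable
  fun_prop

theorem meas_ff (n : ℕ) : Measurable (ff n) := by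
  have hP : Measurable PP := PP_cont.measurable
  unfold ff
  apply Measurable.mul
  · exact hP.comp (by fun_prop)
  · exact hP.comp (by fun_prop)

/-- the measure with density `dn` -/
noncomputable def MM (n : ℕ) : Measure (ℝ × ℝ × ℝ) :=
  ((gaussianReal 0 1).prod ((volume.restrict (Set.Ioi (0 : ℝ))).prod volume)).withDensity
    (fun p => ENNReal.ofReal (dn n p.2.2 p.2.1))

theorem lint_MM (n : ℕ) (g : ℝ × ℝ × ℝ → ℝ≥0∞) (hg : Measurable g) :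
    ∫⁻ p, g p ∂(MM n) = ∫⁻ t, (∫⁻ b in Set.Ioi (0 : ℝ), ∫⁻ a : ℝ,
      g (t, b, a) * ENNReal.ofReal (dn n a b)) ∂(gaussianReal 0 1) := by
  have hd : Measurable (fun p : ℝ × ℝ × ℝ => ENNReal.ofReal (dn n p.2.2 p.2.1)) := by
    apply Measurable.ennreal_ofReal
    exact (meas_dn n).comp (by fun_prop : Measurable (fun p : ℝ × ℝ × ℝ => (p.2.2, p.2.1)))
  unfold MM
  rw [lintegral_withDensity_eq_lintegral_mul _ hd hg]
  rw [lintegral_prod _ (hd.mul hg).aemeasurable]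
  congr 1
  funext t
  have hm2 : Measurable (fun q : ℝ × ℝ => ((fun p : ℝ × ℝ × ℝ => ENNReal.ofReal (dn n p.2.2 p.2.1)) * g) (t, q)) :=
    (hd.mul hg).comp (by fun_prop : Measurable (fun q : ℝ × ℝ => (t, q)))
  rw [lintegral_prod _ hm2.aemeasurable]
  congr 1
  funext b
  congr 1
  funext a
  simp only [Pi.mul_apply]
  rw [mul_comm]

theorem ff_le (n : ℕ) (t b a : ℝ) (hb : 0 < b) :
    ENNReal.ofReal (ff n (t, b, a)) ≤ QQ (|t| / √(n : ℝ)) a b := by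
  have h0 : 0 ≤ |t| / √(n : ℝ) := by positivity
  rcases h0.lt_or_eq with h | h
  · have h1 := J7665.QQ_ge_sidak (|t| / √(n : ℝ)) a b h hb
    refine le_trans (le_of_eq ?_) h1
    rw [J7665.SS_eq _ h0, J7665.SS_eq _ (by positivity), ← ENNReal.ofReal_mul]
    · rfl
    · exact J7666.PP_nonneg_7666 h0
  · unfold ff
    simp only
    rw [← h, J9256.PP_zero]
    simp

theorem ff_le_one (n : ℕ) (p : ℝ × ℝ × ℝ) : ENNReal.ofReal (ff n p) ≤ 1 := by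
  rw [← ENNReal.ofReal_one]
  apply ENNReal.ofReal_le_ofReal
  unfold ff
  have h0 : 0 ≤ |p.1| / √(n : ℝ) := by positivity
  have h1 := J7666.PP_nonneg_7666 h0
  have h2 := J7666.PP_lt_one (|p.1| / √(n : ℝ))
  have h3 := J7666.PP_lt_one (p.2.1 * (|p.1| / √(n : ℝ)) / √((|p.1| / √(n : ℝ)) ^ 2 + p.2.2 ^ 2))
  nlinarith

theorem main (n : ℕ) (hn : 2 ≤ n) (τ₀ : ℝ) (hτ0 : 0 < τ₀) (hτ1 : τ₀ < 1)
    (J : ℕ) (x h₀ η₀ κ f l W : ℕ → ℝ) (hx0 : x 0 = 0) (hxm : ∀ j < J, x j ≤ x (j + 1))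
    (hx1 : ∀ j < J, 0 < x (j + 1) ∧ x (j + 1) < 1)
    (hcell : ∀ j < J, 0 < h₀ j ∧ 0 < η₀ j ∧ 0 < κ j ∧ κ j ≤ 1 ∧ 0 ≤ f j ∧ f j ≤ 1 ∧ 0 ≤ l j ∧ 0 ≤ W j ∧
      x (j + 1) * τ₀ ≤ 1 - PP (h₀ j) ∧ (1 - x (j + 1)) * τ₀ ≤ 1 - PP (η₀ j) ∧
      x (j + 1) ≤ Real.exp (l j) * (1 - x (j + 1)) ∧
      κ j ^ 2 * (h₀ j ^ 2 + 2 * l j) ≤ h₀ j ^ 2 ∧
      f j ^ 2 * (h₀ j ^ 2 + 2 * l j) ≤ (h₀ j * (h₀ j ^ 2 + 3) / (h₀ j ^ 2 + 2)) ^ 2)
    (hW : ∀ j < J, ∀ h η : ℝ, 0 < h → η₀ j ≤ η → κ j * η ≤ h →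
      ENNReal.ofReal (√(n : ℝ) * (√(Real.pi / 2) / η) ^ (n - 1) * W j) ≤
        ∫⁻ b in Set.Ioi (0 : ℝ), ∫⁻ a : ℝ,
          (Sset h η).indicator (fun p => ENNReal.ofReal (dn n p.1 p.2)) (a, b))
    (S : ℝ) (hS0 : 0 ≤ S)
    (hS : S ≤ ∑ j ∈ Finset.range J, (x (j + 1) ^ n - x j ^ n) *
        ((Real.pi / 2) * f j) ^ (n - 1) * W j)
    (m₀ : ℕ) (hm₀ : 1 ≤ S * (1 - bt n (n + m₀) τ₀))
    (m : ℕ) (hm1 : 1 ≤ m) (hm : m₀ ≤ m) :
    1 ≤ ((n + m).choose n : ℝ≥0∞) * ∫⁻ t, (∫⁻ b in Set.Ioi (0 : ℝ), ∫⁻ a : ℝ,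
        QQ (|t| / √(n : ℝ)) a b ^ m * KK n a b) ∂(gaussianReal 0 1) := by
  have hlev := level n hn τ₀ hτ0 hτ1 J x h₀ η₀ κ f l W hx0 hxm hx1 hcell hW
  have hfm : Measurable (fun p => ENNReal.ofReal (ff n p)) := (meas_ff n).ennreal_ofReal
  have h1 := J9258.layer (MM n) (fun p => ENNReal.ofReal (ff n p)) hfm (ff_le_one n) n m
    (by omega) hm1 S τ₀ hS0 hτ0 hτ1 ?_
  · have h2 : (1 : ℝ≥0∞) ≤ ENNReal.ofReal (S * (1 - J9258.binTail n (n + m) τ₀)) := by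
      rw [← ENNReal.ofReal_one]
      apply ENNReal.ofReal_le_ofReal
      have h3 : bt n (n + m) τ₀ ≤ bt n (n + m₀) τ₀ :=
        bt_anti n _ _ τ₀ hτ0.le hτ1.le (by omega) (by omega)
      have h4 : J9258.binTail n (n + m) τ₀ = bt n (n + m) τ₀ := rfl
      rw [h4]
      have : S * (1 - bt n (n + m₀) τ₀) ≤ S * (1 - bt n (n + m) τ₀) := by gcongr
      linarith
    refine h2.trans (h1.trans ?_)
    gcongr ((n + m).choose n : ℝ≥0∞) * ?_
    rw [lint_MM n _ (hfm.pow_const m)]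
    apply lintegral_mono
    intro t
    apply setLIntegral_mono' measurableSet_Ioi
    intro b hb
    apply lintegral_mono
    intro a
    have hb' : 0 < b := hb
    simp only
    gcongr
    · exact ff_le n t b a hb'
    · exact J7671.KK_ge n hn a b hb'
  · intro e he he1
    -- measure of the level set, through smaller `τ`
    have h2 : ∀ τ : ℝ, 0 < τ → τ < e →
        ENNReal.ofReal (S * τ ^ n) ≤ (MM n) {p | ENNReal.ofReal (1 - e) < ENNReal.ofReal (ff n p)} := by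
      intro τ hτ hτe
      have h3 := hlev τ hτ (by linarith)
      have hmeas : MeasurableSet {p | ENNReal.ofReal (1 - e) < ENNReal.ofReal (ff n p)} :=
        measurableSet_lt measurable_const hfm
      calc ENNReal.ofReal (S * τ ^ n) ≤ _ := ENNReal.ofReal_le_ofReal (by gcongr)
        _ ≤ _ := h3
        _ ≤ _ := by
          rw [← lintegral_indicator_one hmeas, lint_MM n _ (measurable_one.indicator hmeas)]
          apply lintegral_mono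
          intro t
          apply lintegral_mono
          intro b
          apply lintegral_mono
          intro a
          by_cases hc : 1 - τ ≤ ff n (t, b, a)
          · have hA : (a, b) ∈ {p : ℝ × ℝ | 1 - τ ≤ PP (|t| / √(n : ℝ)) *
                PP (p.2 * (|t| / √(n : ℝ)) / √((|t| / √(n : ℝ)) ^ 2 + p.1 ^ 2))} := hc
            have hB : (t, b, a) ∈ {p | ENNReal.ofReal (1 - e) < ENNReal.ofReal (ff n p)} := by
              show ENNReal.ofReal (1 - e) < ENNReal.ofReal (ff n (t, b, a))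
              have he2 : e < 1 := by linarith
              rw [ENNReal.ofReal_lt_ofReal_iff (by linarith)]
              linarith
            simp only [Set.indicator_of_mem hA, Set.indicator_of_mem hB]
            simp
          · have hA : (a, b) ∉ {p : ℝ × ℝ | 1 - τ ≤ PP (|t| / √(n : ℝ)) *
                PP (p.2 * (|t| / √(n : ℝ)) / √((|t| / √(n : ℝ)) ^ 2 + p.1 ^ 2))} := hc
            simp only [Set.indicator_of_notMem hA]
            exact bot_le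
    have h3 : Filter.Tendsto (fun τ : ℝ => ENNReal.ofReal (S * τ ^ n)) (nhdsWithin e (Set.Iio e))
        (nhds (ENNReal.ofReal (S * e ^ n))) := by
      apply Filter.Tendsto.mono_left _ nhdsWithin_le_nhds
      have : Continuous (fun τ : ℝ => ENNReal.ofReal (S * τ ^ n)) := by
        exact ENNReal.continuous_ofReal.comp (by fun_prop)
      exact this.tendsto e
    apply le_of_tendsto h3
    filter_upwards [self_mem_nhdsWithin, mem_nhdsWithin_of_mem_nhds (lt_mem_nhds he)] with τ h4 h5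
    exact h2 τ h5 h4

end Pool.Agent.VPF.P4
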