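import Pool.Agent.VPF.P4a

set_option autoImplicit false
open MeasureTheory ProbabilityTheory
open scoped ENNReal Nat

namespace Pool.Agent.VPF.P4

/-- Taylor polynomial of `exp (-u)` with `m` terms -/
noncomputable def Et (m : ℕ) (u : ℝ) : ℝ := ∑ k ∈ Finset.range m, (-u) ^ k / k !

/-- its integral -/
noncomputable def At (m : ℕ) (v : ℝ) : ℝ :=
  ∑ k ∈ Finset.range m, (-(v ^ 2 / 2)) ^ k / k ! * (v / (2 * k + 1))

theorem Et_deriv (m : ℕ) (u : ℝ) : HasDerivAt (Et (m + 1)) (-Et m u) u := by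
  unfold Et
  have h1 : ∀ k : ℕ, HasDerivAt (fun u : ℝ => (-u) ^ k / (k ! : ℝ))
      (-(if k = 0 then 0 else (-u) ^ (k - 1) / ((k - 1) ! : ℝ))) u := by
    intro k
    rcases k with _ | k
    · simpa using hasDerivAt_const u (1 : ℝ)
    · have h2 : HasDerivAt (fun u : ℝ => (-u) ^ (k + 1)) (((k + 1 : ℕ) : ℝ) * (-u) ^ k * (-1)) u :=
        ((hasDerivAt_neg u).fun_pow (k + 1)).congr_deriv (by simp)
      refine (h2.div_const ((k + 1)! : ℝ)).congr_deriv ?_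
      rw [Nat.factorial_succ]
      have : ((k ! : ℕ) : ℝ) ≠ 0 := by exact_mod_cast Nat.factorial_ne_zero k
      push_cast
      simp
      field_simp
  have h3 := HasDerivAt.fun_sum (fun k (_ : k ∈ Finset.range (m + 1)) => h1 k)
  refine h3.congr_deriv ?_
  rw [Finset.sum_neg_distrib, Finset.sum_range_succ']
  simp

theorem Et_zero (m : ℕ) : Et (m + 1) 0 = 1 := by
  unfold Et
  rw [Finset.sum_range_succ']
  simp

theorem Et_bound (m : ℕ) : ∀ u : ℝ, 0 ≤ u → 0 ≤ (-1) ^ m * (Real.exp (-u) - Et m u) := by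
  induction m with
  | zero => intro u _; simp [Et, Real.exp_nonneg]
  | succ m ih =>
    intro u hu
    have hd : ∀ y : ℝ, HasDerivAt (fun y => (-1) ^ (m + 1) * (Real.exp (-y) - Et (m + 1) y))
        ((-1) ^ m * (Real.exp (-y) - Et m y)) y := by
      intro y
      have h1 : HasDerivAt (fun y : ℝ => Real.exp (-y)) (-Real.exp (-y)) y :=
        ((hasDerivAt_neg y).exp).congr_deriv (by ring)
      have h2 := (h1.fun_sub (Et_deriv m y)).const_mul ((-1 : ℝ) ^ (m + 1))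
      refine h2.congr_deriv ?_
      rw [pow_succ]; ring
    have hmono : MonotoneOn (fun y => (-1 : ℝ) ^ (m + 1) * (Real.exp (-y) - Et (m + 1) y)) (Set.Ici 0) := by
      apply monotoneOn_of_deriv_nonneg (convex_Ici 0)
      · exact fun y _ => (hd y).continuousAt.continuousWithinAt
      · exact fun y _ => (hd y).differentiableAt.differentiableWithinAt
      · intro y hy
        rw [interior_Ici] at hy
        rw [(hd y).deriv]
        exact ih y (le_of_lt hy)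
    have h0 := hmono (Set.mem_Ici.2 le_rfl) (Set.mem_Ici.2 hu) hu
    simp only [neg_zero, Real.exp_zero, Et_zero, sub_self, mul_zero] at h0
    exact h0

/-- `c0 = √(2/π)` -/
noncomputable def c0 : ℝ := √(2 / Real.pi)

theorem two_ph (v : ℝ) : 2 * ph v = c0 * Real.exp (-(v ^ 2 / 2)) := by
  unfold ph c0
  have hpi := Real.pi_pos
  have h1 : √(2 / Real.pi) * √(2 * Real.pi) = 2 := by
    rw [← Real.sqrt_mul (by positivity)]
    rw [show 2 / Real.pi * (2 * Real.pi) = 2 ^ 2 by field_simp]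
    exact Real.sqrt_sq (by norm_num)
  have h2 : 0 < √(2 * Real.pi) := Real.sqrt_pos.2 (by positivity)
  rw [show -v ^ 2 / 2 = -(v ^ 2 / 2) by ring]
  rw [mul_div_assoc', div_eq_iff h2.ne']
  linear_combination (-Real.exp (-(v ^ 2 / 2))) * h1

theorem c0_nonneg : 0 ≤ c0 := Real.sqrt_nonneg _

theorem At_deriv (m : ℕ) (v : ℝ) : HasDerivAt (At m) (Et m (v ^ 2 / 2)) v := by
  unfold At Et
  apply HasDerivAt.fun_sum
  intro k _
  have h1 : (fun v : ℝ => (-(v ^ 2 / 2)) ^ k / (k ! : ℝ) * (v / (2 * k + 1))) =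
      fun v : ℝ => (-1 / 2 : ℝ) ^ k / (k ! : ℝ) / (2 * k + 1) * v ^ (2 * k + 1) := by
    funext v
    rw [show -(v ^ 2 / 2) = (-1 / 2) * v ^ 2 by ring, mul_pow, ← pow_mul, pow_succ]
    ring
  rw [h1]
  have h2 : HasDerivAt (fun v : ℝ => v ^ (2 * k + 1)) ((2 * k + 1 : ℕ) * v ^ (2 * k)) v :=
    (hasDerivAt_pow (2 * k + 1) v).congr_deriv (by simp)
  refine (h2.const_mul ((-1 / 2 : ℝ) ^ k / (k ! : ℝ) / (2 * k + 1))).congr_deriv ?_
  rw [show -(v ^ 2 / 2) = (-1 / 2) * v ^ 2 by ring, mul_pow, ← pow_mul]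
  have : (2 * (k : ℝ) + 1) ≠ 0 := by positivity
  push_cast
  field_simp

theorem PP_bound (m : ℕ) (v : ℝ) (hv : 0 ≤ v) : 0 ≤ (-1) ^ m * (PP v - c0 * At m v) := by
  have hd : ∀ y : ℝ, HasDerivAt (fun y => (-1) ^ m * (PP y - c0 * At m y))
      ((-1) ^ m * (c0 * (Real.exp (-(y ^ 2 / 2)) - Et m (y ^ 2 / 2)))) y := by
    intro y
    have h1 := ((J7666.PP_deriv y).fun_sub ((At_deriv m y).const_mul c0)).const_mul ((-1 : ℝ) ^ m)
    refine h1.congr_deriv ?_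
    rw [two_ph]; ring
  have hmono : MonotoneOn (fun y => (-1 : ℝ) ^ m * (PP y - c0 * At m y)) (Set.Ici 0) := by
    apply monotoneOn_of_deriv_nonneg (convex_Ici 0)
    · exact fun y _ => (hd y).continuousAt.continuousWithinAt
    · exact fun y _ => (hd y).differentiableAt.differentiableWithinAt
    · intro y _
      rw [(hd y).deriv]
      have h1 := Et_bound m (y ^ 2 / 2) (by positivity)
      have h2 := mul_nonneg c0_nonneg h1
      calc (0 : ℝ) ≤ c0 * ((-1) ^ m * (Real.exp (-(y ^ 2 / 2)) - Et m (y ^ 2 / 2))) := h2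
        _ = _ := by ring
  have h0 := hmono (Set.mem_Ici.2 le_rfl) (Set.mem_Ici.2 hv) hv
  have hA : At m 0 = 0 := by
    unfold At
    apply Finset.sum_eq_zero
    intro k _; simp
  simp only [hA, J9256.PP_zero, mul_zero, sub_self] at h0
  exact h0

theorem PP_lower (m : ℕ) (v : ℝ) (hv : 0 ≤ v) : c0 * At (2 * m) v ≤ PP v := by
  have := PP_bound (2 * m) v hv
  rw [pow_mul] at this
  simp at this
  linarith

theorem PP_upper (m : ℕ) (v : ℝ) (hv : 0 ≤ v) : PP v ≤ c0 * At (2 * m + 1) v := by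
  have := PP_bound (2 * m + 1) v hv
  rw [pow_succ, pow_mul] at this
  simp at this
  linarith

theorem exp_upper (m : ℕ) (u : ℝ) (hu : 0 ≤ u) : Real.exp (-u) ≤ Et (2 * m + 1) u := by
  have := Et_bound (2 * m + 1) u hu
  rw [pow_succ, pow_mul] at this
  simp at this
  linarith

theorem exp_lower (m : ℕ) (u : ℝ) (hu : 0 ≤ u) : Et (2 * m) u ≤ Real.exp (-u) := by
  have := Et_bound (2 * m) u hu
  rw [pow_mul] at this
  simp at this
  linarith

/-- integer recursion: `(p, P, F, Q, O)` with `p = (-i²)^k`, `F = D^k k!`, `O = (2k+1)‼`,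
`P / F` = Taylor sum, `Q / (F O)` = integrated Taylor sum -/
def PN (D i : ℕ) : ℕ → ℤ × ℤ × ℤ × ℤ × ℤ
  | 0 => (1, 1, 1, 1, 1)
  | k+1 =>
    match PN D i k with
    | (p, P, F, Q, O) => (p * (-(i:ℤ)^2), D * (k+1) * P + p * (-(i:ℤ)^2), D*(k+1)*F,
        D*(k+1)*(2*k+3)*Q + O * (p * (-(i:ℤ)^2)), O*(2*k+3))

theorem PN_spec (b i k : ℕ) (hb : 0 < b) :
    0 < (PN (2 * b ^ 2) i k).2.2.1 ∧ 0 < (PN (2 * b ^ 2) i k).2.2.2.2 ∧
    ((PN (2 * b ^ 2) i k).1 : ℝ) = (-(i : ℝ) ^ 2) ^ k ∧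
    ((PN (2 * b ^ 2) i k).2.2.1 : ℝ) = (2 * (b : ℝ) ^ 2) ^ k * k ! ∧
    ((PN (2 * b ^ 2) i k).2.1 : ℝ) = ((PN (2 * b ^ 2) i k).2.2.1 : ℝ) * Et (k + 1) ((i / b : ℝ) ^ 2 / 2) ∧
    ((PN (2 * b ^ 2) i k).2.2.2.1 : ℝ) * (i / b : ℝ) =
      ((PN (2 * b ^ 2) i k).2.2.1 : ℝ) * ((PN (2 * b ^ 2) i k).2.2.2.2 : ℝ) * At (k + 1) (i / b : ℝ) := by
  have hb' : (b : ℝ) ≠ 0 := by exact_mod_cast hb.ne'
  induction k with
  | zero =>
    simp [PN, Et, At]
  | succ k ih =>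
    obtain ⟨h1, h2, h3, h4, h5, h6⟩ := ih
    rcases hP : PN (2 * b ^ 2) i k with ⟨p, P, F, Q, O⟩
    rw [hP] at h1 h2 h3 h4 h5 h6
    simp only at h1 h2 h3 h4 h5 h6
    have hE : PN (2 * b ^ 2) i (k + 1) = (p * (-(i:ℤ)^2), ((2 * b ^ 2 : ℕ) : ℤ) * (k+1) * P + p * (-(i:ℤ)^2),
        ((2 * b ^ 2 : ℕ) : ℤ)*(k+1)*F,
        ((2 * b ^ 2 : ℕ) : ℤ)*(k+1)*(2*k+3)*Q + O * (p * (-(i:ℤ)^2)), O*(2*k+3)) := by
      rw [PN, hP]
    rw [hE]
    simp only
    have hF0 : (F : ℝ) ≠ 0 := by exact_mod_cast h1.ne'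
    have hkf : ((k ! : ℕ) : ℝ) ≠ 0 := by exact_mod_cast Nat.factorial_ne_zero k
    have hk1 : ((k : ℝ) + 1) ≠ 0 := by positivity
    have hk3 : (2 * (k : ℝ) + 3) ≠ 0 := by positivity
    have hterm : (-((i / b : ℝ) ^ 2 / 2)) ^ (k + 1) / ((k + 1)! : ℕ) =
        ((-(i : ℝ) ^ 2) ^ k * (-(i : ℝ) ^ 2)) / ((2 * (b : ℝ) ^ 2) * (k + 1) * F) := by
      rw [h4, Nat.factorial_succ]
      rw [show -((i / b : ℝ) ^ 2 / 2) = (-(i : ℝ) ^ 2) / (2 * (b : ℝ) ^ 2) by field_simp]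
      have hB : (2 * (b : ℝ) ^ 2) ≠ 0 := by positivity
      generalize (2 * (b : ℝ) ^ 2) = B at hB
      rw [div_pow, pow_succ, pow_succ]
      push_cast
      field_simp
      ring
    refine ⟨by positivity, by positivity, ?_, ?_, ?_, ?_⟩
    · push_cast; rw [h3]; ring
    · push_cast; rw [h4, pow_succ (2 * (b : ℝ) ^ 2) k, Nat.factorial_succ]; push_cast; ring
    · unfold Et at h5 ⊢
      rw [Finset.sum_range_succ, hterm]
      push_cast
      rw [h5, h3]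
      field_simp
    · unfold At at h6 ⊢
      rw [Finset.sum_range_succ, hterm]
      push_cast
      rw [mul_add (2 * (b : ℝ) ^ 2 * (k + 1) * F * (O * (2 * k + 3)))]
      have e1 : (2 * (b : ℝ) ^ 2 * (k + 1) * F) * (O * (2 * k + 3)) *
          ((-(i : ℝ) ^ 2) ^ k * (-(i : ℝ) ^ 2) / (2 * (b : ℝ) ^ 2 * (k + 1) * F) * ((i / b : ℝ) / (2 * (k + 1) + 1))) =
          O * ((-(i : ℝ) ^ 2) ^ k * (-(i : ℝ) ^ 2)) * (i / b : ℝ) := by
        rw [show 2 * ((k : ℝ) + 1) + 1 = 2 * k + 3 by ring]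
        field_simp
      rw [e1, h3]
      linear_combination (2 * (b : ℝ) ^ 2 * (k + 1) * (2 * k + 3)) * h6

end Pool.Agent.VPF.P4
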