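import Pool.Agent.VPF.P4c

set_option autoImplicit false
open MeasureTheory ProbabilityTheory
open scoped ENNReal Nat

namespace Pool.Agent.VPF.P4

theorem c0_bounds : (79788456080286535 : ℝ) / 10 ^ 17 ≤ c0 ∧ c0 ≤ (79788456080286536 : ℝ) / 10 ^ 17 := by
  unfold c0
  have h1 := Real.pi_gt_d20
  have h2 := Real.pi_lt_d20
  constructor
  · apply Real.le_sqrt_of_sq_le
    rw [le_div_iff₀ Real.pi_pos]
    nlinarith
  · rw [Real.sqrt_le_left (by positivity)]
    rw [div_le_iff₀ Real.pi_pos]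
    nlinarith

/-- lower bound of `PP` -/
theorem PP_ge_of (b i m T : ℕ) (hb : 0 < b)
    (h : (T : ℤ) * b * (PN (2 * b ^ 2) i (2 * m + 1)).2.2.1 * (PN (2 * b ^ 2) i (2 * m + 1)).2.2.2.2 * 10 ^ 17 ≤
      10 ^ 8 * 79788456080286535 * i * (PN (2 * b ^ 2) i (2 * m + 1)).2.2.2.1) :
    (T : ℝ) / 10 ^ 8 ≤ PP (i / b) := by
  obtain ⟨h1, h2, _, _, _, h6⟩ := PN_spec b i (2 * m + 1) hb
  generalize PN (2 * b ^ 2) i (2 * m + 1) = q at h h1 h2 h6
  rcases q with ⟨p, P, F, Q, O⟩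
  simp only at h h1 h2 h6
  have hb' : (0 : ℝ) < b := by exact_mod_cast hb
  have hF : (0 : ℝ) < F := by exact_mod_cast h1
  have hO : (0 : ℝ) < O := by exact_mod_cast h2
  have hR : (T : ℝ) * b * F * O * 10 ^ 17 ≤ 10 ^ 8 * 79788456080286535 * i * Q := by exact_mod_cast h
  have hA : At (2 * m + 1 + 1) (i / b) = Q * (i / b) / (F * O) := by
    rw [h6]; field_simp
  have hlow : (T : ℝ) / 10 ^ 8 ≤ 79788456080286535 / 10 ^ 17 * At (2 * m + 1 + 1) (i / b) := by
    rw [hA]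
    rw [show (79788456080286535 : ℝ) / 10 ^ 17 * (Q * (i / b) / (F * O)) =
      (10 ^ 8 * 79788456080286535 * i * Q) / (10 ^ 8 * (b * F * O * 10 ^ 17)) by field_simp]
    rw [div_le_div_iff₀ (by positivity) (by positivity)]
    linarith
  have hAnn : 0 ≤ At (2 * m + 1 + 1) (i / b) := by
    have : (0 : ℝ) ≤ T / 10 ^ 8 := by positivity
    nlinarith
  refine hlow.trans (le_trans ?_ (PP_lower (m + 1) (i / b) (by positivity)))
  rw [show 2 * (m + 1) = 2 * m + 1 + 1 by ring]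
  exact mul_le_mul_of_nonneg_right c0_bounds.1 hAnn

theorem At_nonneg_of_PP (m : ℕ) (v : ℝ) (hv : 0 ≤ v) : 0 ≤ At (2 * m + 1) v := by
  have h1 := PP_upper m v hv
  have h2 := J7666.PP_nonneg_7666 hv
  have h3 : 0 < c0 := lt_of_lt_of_le (by norm_num) c0_bounds.1
  by_contra h
  push Not at h
  nlinarith

/-- upper bound of `PP` -/
theorem PP_le_of (b i m : ℕ) (U : ℤ) (hb : 0 < b)
    (h : 79788456080286536 * i * (PN (2 * b ^ 2) i (2 * m)).2.2.2.1 * 10 ^ 12 ≤
      U * 10 ^ 17 * b * (PN (2 * b ^ 2) i (2 * m)).2.2.1 * (PN (2 * b ^ 2) i (2 * m)).2.2.2.2) :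
    PP (i / b) ≤ (U : ℝ) / 10 ^ 12 := by
  obtain ⟨h1, h2, _, _, _, h6⟩ := PN_spec b i (2 * m) hb
  generalize PN (2 * b ^ 2) i (2 * m) = q at h h1 h2 h6
  rcases q with ⟨p, P, F, Q, O⟩
  simp only at h h1 h2 h6
  have hb' : (0 : ℝ) < b := by exact_mod_cast hb
  have hF : (0 : ℝ) < F := by exact_mod_cast h1
  have hO : (0 : ℝ) < O := by exact_mod_cast h2
  have hR : (79788456080286536 : ℝ) * i * Q * 10 ^ 12 ≤ U * 10 ^ 17 * b * F * O := by exact_mod_cast h
  have hA : At (2 * m + 1) (i / b) = Q * (i / b) / (F * O) := by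
    rw [h6]; field_simp
  have hAnn := At_nonneg_of_PP m (i / b) (by positivity)
  refine (PP_upper m (i / b) (by positivity)).trans ((mul_le_mul_of_nonneg_right c0_bounds.2 hAnn).trans ?_)
  rw [hA]
  rw [show (79788456080286536 : ℝ) / 10 ^ 17 * (Q * (i / b) / (F * O)) =
      (79788456080286536 * i * Q) / (10 ^ 17 * b * F * O) by field_simp]
  rw [div_le_div_iff₀ (by positivity) (by positivity)]
  linarith

/-- upper bound of `II v - v` -/
theorem JJ_le_of (b i m T : ℕ) (hb : 0 < b)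
    (h : 79788456080286536 * 10 ^ 8 * (i ^ 2 * (PN (2 * b ^ 2) i (2 * m)).2.2.2.1 +
        b ^ 2 * (PN (2 * b ^ 2) i (2 * m)).2.2.2.2 * (PN (2 * b ^ 2) i (2 * m)).2.1) ≤
      10 ^ 17 * ((b : ℤ) * 10 ^ 8 * i + b ^ 2 * T) * (PN (2 * b ^ 2) i (2 * m)).2.2.1 *
        (PN (2 * b ^ 2) i (2 * m)).2.2.2.2) :
    II (i / b) - i / b ≤ (T : ℝ) / 10 ^ 8 := by
  obtain ⟨h1, h2, _, _, h5, h6⟩ := PN_spec b i (2 * m) hb
  generalize PN (2 * b ^ 2) i (2 * m) = q at h h1 h2 h5 h6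
  rcases q with ⟨p, P, F, Q, O⟩
  simp only at h h1 h2 h5 h6
  have hb' : (0 : ℝ) < b := by exact_mod_cast hb
  have hF : (0 : ℝ) < F := by exact_mod_cast h1
  have hO : (0 : ℝ) < O := by exact_mod_cast h2
  have hR : (79788456080286536 : ℝ) * 10 ^ 8 * (i ^ 2 * Q + b ^ 2 * O * P) ≤
      10 ^ 17 * (b * 10 ^ 8 * i + b ^ 2 * T) * F * O := by exact_mod_cast h
  have hA : At (2 * m + 1) (i / b) = Q * (i / b) / (F * O) := by
    rw [h6]; field_simp
  have hE : Et (2 * m + 1) ((i / b : ℝ) ^ 2 / 2) = P / F := by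
    rw [h5]; field_simp
  have hv : (0 : ℝ) ≤ i / b := by positivity
  have hAnn := At_nonneg_of_PP m (i / b) hv
  have hP := (PP_upper m (i / b) hv).trans (mul_le_mul_of_nonneg_right c0_bounds.2 hAnn)
  have hex := exp_upper m ((i / b : ℝ) ^ 2 / 2) (by positivity)
  have hEnn : 0 ≤ Et (2 * m + 1) ((i / b : ℝ) ^ 2 / 2) := (Real.exp_nonneg _).trans hex
  have hph : 2 * ph (i / b) ≤ 79788456080286536 / 10 ^ 17 * Et (2 * m + 1) ((i / b : ℝ) ^ 2 / 2) := by
    rw [two_ph]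
    exact (mul_le_mul_of_nonneg_left hex c0_nonneg).trans (mul_le_mul_of_nonneg_right c0_bounds.2 hEnn)
  rw [hA] at hP
  rw [hE] at hph
  unfold II
  have h7 : (i / b : ℝ) * PP (i / b) ≤ (i / b : ℝ) * (79788456080286536 / 10 ^ 17 * (Q * (i / b) / (F * O))) :=
    mul_le_mul_of_nonneg_left hP hv
  have h8 : (i / b : ℝ) * (79788456080286536 / 10 ^ 17 * (Q * (i / b) / (F * O))) +
      79788456080286536 / 10 ^ 17 * (P / F) - i / b ≤ T / 10 ^ 8 := by
    rw [show (i / b : ℝ) * (79788456080286536 / 10 ^ 17 * (Q * (i / b) / (F * O))) +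
      79788456080286536 / 10 ^ 17 * (P / F) - i / b =
      (79788456080286536 * 10 ^ 8 * (i ^ 2 * Q + b ^ 2 * O * P) - 10 ^ 17 * (b * 10 ^ 8 * i) * F * O) /
        (10 ^ 8 * (10 ^ 17 * b ^ 2 * F * O)) by field_simp]
    rw [div_le_div_iff₀ (by positivity) (by positivity)]
    have h9 : (79788456080286536 : ℝ) * 10 ^ 8 * (i ^ 2 * Q + b ^ 2 * O * P) -
        10 ^ 17 * (b * 10 ^ 8 * i) * F * O ≤ T * (10 ^ 17 * b ^ 2 * F * O) := by linarith
    linarith
  linarith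

/-- `X / (D - X) ≤ exp l`, `l = (i/b)^2/2` -/
theorem exp_ge_of (b i m X Y : ℕ) (hb : 0 < b)
    (h : X * (PN (2 * b ^ 2) i (2 * m)).2.1 ≤ Y * (PN (2 * b ^ 2) i (2 * m)).2.2.1) :
    (X : ℝ) ≤ Real.exp ((i / b : ℝ) ^ 2 / 2) * Y := by
  obtain ⟨h1, _, _, _, h5, _⟩ := PN_spec b i (2 * m) hb
  generalize PN (2 * b ^ 2) i (2 * m) = q at h h1 h5
  rcases q with ⟨p, P, F, Q, O⟩
  simp only at h h1 h5
  have hF : (0 : ℝ) < F := by exact_mod_cast h1
  have hR : (X : ℝ) * P ≤ Y * F := by exact_mod_cast h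
  have hE : Et (2 * m + 1) ((i / b : ℝ) ^ 2 / 2) = P / F := by
    rw [h5]; field_simp
  have hex := exp_upper m ((i / b : ℝ) ^ 2 / 2) (by positivity)
  rw [hE] at hex
  have h2 : (X : ℝ) * Real.exp (-((i / b : ℝ) ^ 2 / 2)) ≤ Y := by
    calc (X : ℝ) * Real.exp (-((i / b : ℝ) ^ 2 / 2)) ≤ X * (P / F) := by gcongr
      _ = X * P / F := by ring
      _ ≤ Y := by rw [div_le_iff₀ hF]; exact hR
  calc (X : ℝ) = Real.exp ((i / b : ℝ) ^ 2 / 2) * (X * Real.exp (-((i / b : ℝ) ^ 2 / 2))) := by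
        rw [Real.exp_neg]; field_simp
    _ ≤ Real.exp ((i / b : ℝ) ^ 2 / 2) * Y := by gcongr

def PTl : List ℕ := [0, 3987761, 7965567, 11923538, 15851941, 19741265, 23582284, 27366130, 31084348, 34728955, 38292492, 41768062, 45149376, 48430777, 51607269, 54674529, 57628920, 60467491, 63187974, 65788774, 68268949, 70628188, 72866787, 74985612, 76986065, 78870045, 80639903, 82298401, 83848668, 85294148, 86638559, 87885848, 89040141, 90105706, 91086907, 91988168, 92813936, 93568645, 94256688, 94882388, 95449973, 95963556, 96427115, 96844478, 97219310, 97555105, 97855177, 98122658, 98360492, 98571437, 98758066, 98922770, 99067762, 99195082, 99306605, 99404047, 99488973, 99562807, 99626837, 99682226, 99730020, 99771158, 99806479, 99836729, 99862572, 99884594, 99903315, 99919188, 99932614, 99943941, 99953474, 99961476, 99968178, 99973775, 99978440, 99982316, 99985530, 99988188, 99990380, 99992184, 99993665, 99994878, 99995868,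 99996675, 99997330, 99997862, 99998292, 99998638, 99998917, 99999141, 99999320, 99999463, 99999577, 99999668, 99999739, 99999796, 99999841, 99999876, 99999904, 99999925, 99999942, 99999955, 99999966, 99999973, 99999980, 99999984, 99999988, 99999991, 99999993, 99999994, 99999996, 99999997, 99999997, 99999998, 99999998, 99999999, 99999999, 99999999, 99999999, 99999999, 99999999]

def JTl : List ℕ := [79788457, 74888171, 70187067, 65684397, 61378928, 57268940, 53352249, 49626215, 46087768, 42733423, 39559312, 36561206, 33734547, 31074478, 28575876, 26233384, 24041447, 21994345, 20086228, 18311148, 16663095, 15136027, 13723902, 12420709, 11220491, 10117374, 9105593, 8179508, 7333629, 6562629, 5861359, 5224866, 4648394, 4127401, 3657559, 3234759, 2855117, 2514969, 2210871, 1939599, 1698141, 1483696, 1293663, 1125638, 977402, 846918, 732317, 631893, 544089, 467494, 400828, 342935, 292777, 249417, 212022, 179843, 152218, 128556,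 108335, 91096, 76431, 63987, 53450, 44550, 37050, 30744, 25454, 21028, 17332, 14254, 11697, 9576, 7823, 6376, 5185, 4207, 3405, 2750, 2216, 1782, 1430, 1144, 914, 728, 579, 459, 363, 287, 226, 178, 139, 109, 85, 66, 52, 40, 31, 24, 19, 14, 11, 9, 7, 5, 4, 3, 3, 2, 2, 1, 1, 1, 1, 1, 1, 1, 1, 1, 1, 1, 1]

/-- half number of terms used at grid index `i` (step 1/20) -/
def mT (i : ℕ) : ℕ := i / 4 + 6

def PTok (i : ℕ) : Prop :=
  ((PTl.getD i 0 : ℕ) : ℤ) * ((20 : ℕ) : ℤ) * (PN (2 * 20 ^ 2) i (2 * mT i + 1)).2.2.1 *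
      (PN (2 * 20 ^ 2) i (2 * mT i + 1)).2.2.2.2 * 10 ^ 17 ≤
    10 ^ 8 * 79788456080286535 * (i : ℤ) * (PN (2 * 20 ^ 2) i (2 * mT i + 1)).2.2.2.1

def JTok (i : ℕ) : Prop :=
  79788456080286536 * 10 ^ 8 * ((i : ℤ) ^ 2 * (PN (2 * 20 ^ 2) i (2 * mT i)).2.2.2.1 +
        ((20 : ℕ) : ℤ) ^ 2 * (PN (2 * 20 ^ 2) i (2 * mT i)).2.2.2.2 * (PN (2 * 20 ^ 2) i (2 * mT i)).2.1) ≤
      10 ^ 17 * (((20 : ℕ) : ℤ) * 10 ^ 8 * i + ((20 : ℕ) : ℤ) ^ 2 * ((JTl.getD i 0 : ℕ) : ℤ)) *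
        (PN (2 * 20 ^ 2) i (2 * mT i)).2.2.1 * (PN (2 * 20 ^ 2) i (2 * mT i)).2.2.2.2

instance (i : ℕ) : Decidable (PTok i) := by unfold PTok; infer_instance
instance (i : ℕ) : Decidable (JTok i) := by unfold JTok; infer_instance

theorem PTok_all : ∀ i < 121, PTok i := by decide +kernel
theorem JTok_all : ∀ i < 121, JTok i := by decide +kernel

theorem PT_le (i : ℕ) (hi : i < 121) : ((PTl.getD i 0 : ℕ) : ℝ) / 10 ^ 8 ≤ PP (i / 20) := by
  have := PP_ge_of 20 i (mT i) (PTl.getD i 0) (by norm_num) (PTok_all i hi)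
  exact_mod_cast this

theorem JT_ge (i : ℕ) (hi : i < 121) : II (i / 20) - i / 20 ≤ ((JTl.getD i 0 : ℕ) : ℝ) / 10 ^ 8 := by
  have := JJ_le_of 20 i (mT i) (JTl.getD i 0) (by norm_num) (JTok_all i hi)
  exact_mod_cast this

end Pool.Agent.VPF.P4
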