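import Pool.Agent.VPF.P4e
import Pool.Agent.VPF.P4b

set_option autoImplicit false
open MeasureTheory ProbabilityTheory
open scoped ENNReal Nat

namespace Pool.Agent.VPF.P4

def SNn (n : ℕ) : ℕ := ∑ j ∈ Finset.range 24, (xN (j + 1) ^ n - xN j ^ n) *
  ∑ i ∈ Finset.range 30, (rN j (i + 1) - rN j i) * pW j i ^ (n - 1)

def BTn (n N : ℕ) : ℕ := ∑ j ∈ Finset.range n, (N.descFactorial j / j !) * 49 ^ (N - j)

def Mn (n : ℕ) : ℕ := Ml.getD (n - 3) 0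

def finOK (n : ℕ) : Prop :=
  10 ^ (8 * n) * 50 ^ (n + Mn n) + SNn n * BTn n (n + Mn n) ≤ SNn n * 50 ^ (n + Mn n) ∧ 0 < Mn n

instance (n : ℕ) : Decidable (finOK n) := by unfold finOK; infer_instance

theorem finOK_all : ∀ n < 30, 3 ≤ n → finOK n := by decide +kernel

theorem bt_eq (n N : ℕ) (hN : n ≤ N) : bt n N (1 / 50) = (BTn n N : ℝ) / 50 ^ N := by
  unfold bt BTn
  rw [eq_div_iff (by positivity), Finset.sum_mul]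
  push_cast
  apply Finset.sum_congr rfl
  intro j hj
  have hj' : j < n := Finset.mem_range.1 hj
  have h1 : N.choose j = N.descFactorial j / j ! := Nat.choose_eq_descFactorial_div_factorial N j
  rw [← h1]
  have h2 : (50 : ℝ) ^ N = 50 ^ j * 50 ^ (N - j) := by
    rw [← pow_add]; congr 1; omega
  rw [h2, show (1 - 1 / 50 : ℝ) = 49 / 50 by norm_num, div_pow, div_pow, one_pow]
  field_simp

theorem xN_zero : xN 0 = 0 := rfl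
theorem xN_succ (j : ℕ) : xN (j + 1) = cX j := rfl
theorem rN_zero (j : ℕ) : rN j 0 = 0 := rfl
theorem rN_succ (j i : ℕ) : rN j (i + 1) = pR j i := rfl

theorem hSum (n : ℕ) (hn : 2 ≤ n) :
    (SNn n : ℝ) / 10 ^ (8 * n) ≤ ∑ j ∈ Finset.range 24, (((xN (j + 1) : ℝ) / 10 ^ 4) ^ n -
        ((xN j : ℝ) / 10 ^ 4) ^ n) * ((Real.pi / 2) * ((cF j : ℝ) / 10 ^ 4)) ^ (n - 1) *
        ∑ i ∈ Finset.range 30, ((rN j (i + 1) : ℝ) / 10 ^ 4 - (rN j i : ℝ) / 10 ^ 4) *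
          ((CLn i : ℝ) / 10 ^ 6 * (((PTn (pA j i) : ℝ) + (PTn (pB j i) : ℝ)) / (2 * 10 ^ 8))) ^ (n - 1) := by
  unfold SNn
  push_cast
  rw [Finset.sum_div]
  apply Finset.sum_le_sum
  intro j hj
  have hj' : j < 24 := Finset.mem_range.1 hj
  obtain ⟨hm, -⟩ := cellOK_all j hj'
  have hx : xN j ^ n ≤ xN (j + 1) ^ n := Nat.pow_le_pow_left hm n
  have e8 : (10 : ℝ) ^ (8 * n) = (10 ^ 4) ^ n * (10 ^ 4 * (10 ^ 4) ^ (n - 1)) := by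
    rw [← pow_succ', ← pow_mul, ← pow_mul, ← pow_add]; congr 1; omega
  rw [mul_div_assoc, Finset.sum_div, mul_assoc, Finset.mul_sum, Finset.mul_sum, Finset.mul_sum]
  apply Finset.sum_le_sum
  intro i hi
  have hi' : i < 30 := Finset.mem_range.1 hi
  obtain ⟨-, -, -, -, hr, -, hw⟩ := ptOK_all j hj' i hi'
  have hr' : rN j i ≤ rN j (i + 1) := hr
  rw [Nat.cast_sub hx, Nat.cast_sub hr', e8]
  push_cast
  have hw' : (pW j i : ℝ) / 10 ^ 4 ≤ (Real.pi / 2) * ((cF j : ℝ) / 10 ^ 4) *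
      ((CLn i : ℝ) / 10 ^ 6 * (((PTn (pA j i) : ℝ) + (PTn (pB j i) : ℝ)) / (2 * 10 ^ 8))) := by
    have h1 : (pW j i : ℝ) * (4 * 10 ^ 21) ≤ 31415926 * cF j * CLn i * (PTn (pA j i) + PTn (pB j i)) := by
      exact_mod_cast hw
    have h2 : (3.1415926 : ℝ) ≤ Real.pi := by
      have := Real.pi_gt_d20; linarith
    have h3 : (3.1415926 : ℝ) / 2 * ((cF j : ℝ) / 10 ^ 4) *
      ((CLn i : ℝ) / 10 ^ 6 * (((PTn (pA j i) : ℝ) + (PTn (pB j i) : ℝ)) / (2 * 10 ^ 8))) ≤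
        (Real.pi / 2) * ((cF j : ℝ) / 10 ^ 4) *
      ((CLn i : ℝ) / 10 ^ 6 * (((PTn (pA j i) : ℝ) + (PTn (pB j i) : ℝ)) / (2 * 10 ^ 8))) := by
      gcongr
    refine le_trans ?_ h3
    have h4 : (3.1415926 : ℝ) / 2 * ((cF j : ℝ) / 10 ^ 4) *
      ((CLn i : ℝ) / 10 ^ 6 * (((PTn (pA j i) : ℝ) + (PTn (pB j i) : ℝ)) / (2 * 10 ^ 8))) =
      (31415926 * cF j * CLn i * (PTn (pA j i) + PTn (pB j i))) / (4 * 10 ^ 25) := by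
      ring
    rw [h4, div_le_div_iff₀ (by positivity) (by positivity)]
    linarith
  have hpw := pow_le_pow_left₀ (by positivity) hw' (n - 1)
  have hX : (0 : ℝ) ≤ (xN (j + 1) : ℝ) ^ n - (xN j : ℝ) ^ n := by
    have : ((xN j ^ n : ℕ) : ℝ) ≤ ((xN (j + 1) ^ n : ℕ) : ℝ) := by exact_mod_cast hx
    push_cast at this; linarith
  have hR : (0 : ℝ) ≤ (rN j (i + 1) : ℝ) - (rN j i : ℝ) := by
    have : (rN j i : ℝ) ≤ (rN j (i + 1) : ℝ) := by exact_mod_cast hr'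
    linarith
  calc ((xN (j + 1) : ℝ) ^ n - (xN j : ℝ) ^ n) * (((rN j (i + 1) : ℝ) - rN j i) * (pW j i : ℝ) ^ (n - 1) /
        ((10 ^ 4) ^ n * (10 ^ 4 * (10 ^ 4) ^ (n - 1))))
      = (((xN (j + 1) : ℝ) ^ n - (xN j : ℝ) ^ n) / (10 ^ 4) ^ n) * ((((rN j (i + 1) : ℝ) - rN j i) / 10 ^ 4) *
          ((pW j i : ℝ) / 10 ^ 4) ^ (n - 1)) := by
        rw [div_pow]
        generalize ((10 : ℝ) ^ 4) ^ n = u
        generalize ((10 : ℝ) ^ 4) ^ (n - 1) = v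
        ring
    _ ≤ (((xN (j + 1) : ℝ) ^ n - (xN j : ℝ) ^ n) / (10 ^ 4) ^ n) * ((((rN j (i + 1) : ℝ) - rN j i) / 10 ^ 4) *
          ((Real.pi / 2) * ((cF j : ℝ) / 10 ^ 4) *
      ((CLn i : ℝ) / 10 ^ 6 * (((PTn (pA j i) : ℝ) + (PTn (pB j i) : ℝ)) / (2 * 10 ^ 8)))) ^ (n - 1)) := by
        gcongr
    _ = _ := by
        rw [mul_pow (Real.pi / 2 * ((cF j : ℝ) / 10 ^ 4)), div_pow (xN (j + 1) : ℝ), div_pow (xN j : ℝ)]
        ring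

theorem hInner (n : ℕ) (hn : 2 ≤ n) (j : ℕ) (hj : j < 24) (h η : ℝ) (hh : 0 < h)
    (hη : (cZ j : ℝ) / 10 ≤ η) (hκη : (cK j : ℝ) / 10 ^ 4 * η ≤ h) :
    ENNReal.ofReal (√(n : ℝ) * (√(Real.pi / 2) / η) ^ (n - 1) *
        ∑ i ∈ Finset.range 30, ((rN j (i + 1) : ℝ) / 10 ^ 4 - (rN j i : ℝ) / 10 ^ 4) *
          ((CLn i : ℝ) / 10 ^ 6 * (((PTn (pA j i) : ℝ) + (PTn (pB j i) : ℝ)) / (2 * 10 ^ 8))) ^ (n - 1)) ≤
      ∫⁻ b in Set.Ioi (0 : ℝ), ∫⁻ a : ℝ,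
        (Sset h η).indicator (fun p => ENNReal.ofReal (dn n p.1 p.2)) (a, b) := by
  obtain ⟨-, -, -, -, hZ, hK0, hK1, -⟩ := cellOK_all j hj
  have hZ' : (0 : ℝ) < cZ j := by exact_mod_cast hZ
  have hK0' : (0 : ℝ) < cK j := by exact_mod_cast hK0
  have hK1' : (cK j : ℝ) ≤ 10 ^ 4 := by exact_mod_cast hK1
  refine inner3 n hn h η ((cZ j : ℝ) / 10) ((cK j : ℝ) / 10 ^ 4) hh (by positivity) hη (by positivity)
    (by rw [div_le_one (by positivity)]; exact hK1') hκη 30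
    (fun i => 2 * ((i : ℝ) + 1) / 61) (fun i => (CLn i : ℝ) / 10 ^ 6) (fun i => (CUn i : ℝ) / 10 ^ 6)
    (fun i => ((PTn (pA j i) : ℝ) + (PTn (pB j i) : ℝ)) / (2 * 10 ^ 8))
    (fun i => (pA j i : ℝ) / 20) (fun i => (pB j i : ℝ) / 20) (fun i => (rN j i : ℝ) / 10 ^ 4) ?_ ?_ ?_
  · intro i hi
    obtain ⟨hc0, hC0, hc1, hC1⟩ := cOK_all i hi
    obtain ⟨hA, hB, h1, h2, h3, h4, h5⟩ := ptOK_all j hj i hi
    have hi' : (i : ℝ) ≤ 29 := by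
      have : i ≤ 29 := by omega
      exact_mod_cast this
    have hc0' : (0 : ℝ) < CLn i := by exact_mod_cast hc0
    have hC0' : (0 : ℝ) < CUn i := by exact_mod_cast hC0
    have hc1' : (CLn i : ℝ) ^ 2 * 3721 + 10 ^ 12 * (4 * ((i : ℝ) + 1) ^ 2) ≤ 3721 * 10 ^ 12 := by
      exact_mod_cast hc1
    have hC1' : (3721 : ℝ) * 10 ^ 12 ≤ (CUn i : ℝ) ^ 2 * 3721 + 10 ^ 12 * (4 * ((i : ℝ) + 1) ^ 2) := by
      exact_mod_cast hC1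
    have h1' : (pA j i : ℝ) * CUn i * 61 * 10 ^ 4 * 10 ≤
        cZ j * 20 * 10 ^ 6 * (61 * 10 ^ 4 + cK j * (2 * ((i : ℝ) + 1))) := by exact_mod_cast h1
    have h2' : (pB j i : ℝ) * CUn i * 61 * 10 ^ 4 * 10 + cZ j * 20 * 10 ^ 6 * (cK j * (2 * ((i : ℝ) + 1))) ≤
        cZ j * 20 * 10 ^ 6 * (61 * 10 ^ 4) := by exact_mod_cast h2
    have h4' : (pR j i : ℝ) * (61 * 10 ^ 10 * cZ j) + JTn (pB j i) * CUn i * (61 * 5) ≤
        cK j * (2 * ((i : ℝ) + 1)) * (10 ^ 10 * cZ j) := by exact_mod_cast h4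
    have hPA := PT_le (pA j i) hA
    have hPB := PT_le (pB j i) hB
    have hJ := JT_ge (pB j i) hB
    refine ⟨by positivity, ?_, by positivity, ?_, by positivity, ?_, by positivity, by positivity, ?_, ?_,
      by positivity, ?_, ?_⟩
    · rw [div_lt_one (by norm_num)]; linarith
    · rw [div_pow, div_pow]
      have : (CLn i : ℝ) ^ 2 / (10 ^ 6) ^ 2 + (2 * ((i : ℝ) + 1)) ^ 2 / 61 ^ 2 ≤ 1 := by
        rw [div_add_div _ _ (by positivity) (by positivity), div_le_one (by positivity)]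
        linarith
      linarith
    · rw [div_pow, div_pow]
      have : 1 ≤ (CUn i : ℝ) ^ 2 / (10 ^ 6) ^ 2 + (2 * ((i : ℝ) + 1)) ^ 2 / 61 ^ 2 := by
        rw [div_add_div _ _ (by positivity) (by positivity), le_div_iff₀ (by positivity)]
        linarith
      linarith
    · linarith
    · linarith
    · show _ ≤ (PP ((pA j i : ℝ) / 20) + PP ((pB j i : ℝ) / 20)) / 2
      have hPA' : (PTn (pA j i) : ℝ) / 10 ^ 8 ≤ PP ((pA j i : ℝ) / 20) := hPA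
      have hPB' : (PTn (pB j i) : ℝ) / 10 ^ 8 ≤ PP ((pB j i : ℝ) / 20) := hPB
      linarith
    · have hJ' : II ((pB j i : ℝ) / 20) - (pB j i : ℝ) / 20 ≤ (JTn (pB j i) : ℝ) / 10 ^ 8 := hJ
      have h6 : (II ((pB j i : ℝ) / 20) - (pB j i : ℝ) / 20) * ((CUn i : ℝ) / 10 ^ 6) / (2 * ((cZ j : ℝ) / 10)) ≤
          (JTn (pB j i) : ℝ) / 10 ^ 8 * ((CUn i : ℝ) / 10 ^ 6) / (2 * ((cZ j : ℝ) / 10)) := by
        gcongr
      have h7 : ((rN j (i + 1) : ℕ) : ℝ) / 10 ^ 4 + (JTn (pB j i) : ℝ) / 10 ^ 8 * ((CUn i : ℝ) / 10 ^ 6) /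
          (2 * ((cZ j : ℝ) / 10)) ≤ (cK j : ℝ) / 10 ^ 4 * (2 * ((i : ℝ) + 1) / 61) := by
        have e : ((rN j (i + 1) : ℕ) : ℝ) / 10 ^ 4 + (JTn (pB j i) : ℝ) / 10 ^ 8 * ((CUn i : ℝ) / 10 ^ 6) /
          (2 * ((cZ j : ℝ) / 10)) = ((pR j i : ℝ) * (61 * 10 ^ 10 * cZ j) + JTn (pB j i) * CUn i * (61 * 5)) /
            (61 * 10 ^ 14 * cZ j) := by
          show (pR j i : ℝ) / 10 ^ 4 + _ = _
          field_simp
          ring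
        rw [e, div_le_iff₀ (by positivity)]
        calc _ ≤ _ := h4'
          _ = _ := by ring
      linarith
  · simp [rN]
  · intro i hi
    obtain ⟨-, -, -, -, hr, -, -⟩ := ptOK_all j hj i hi
    have hr' : rN j i ≤ rN j (i + 1) := hr
    have : (rN j i : ℝ) ≤ (rN j (i + 1) : ℝ) := by exact_mod_cast hr'
    gcongr

theorem hCell (j : ℕ) (hj : j < 24) :
    0 < (cH j : ℝ) / 100 ∧ 0 < (cZ j : ℝ) / 10 ∧ 0 < (cK j : ℝ) / 10 ^ 4 ∧ (cK j : ℝ) / 10 ^ 4 ≤ 1 ∧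
      0 ≤ (cF j : ℝ) / 10 ^ 4 ∧ (cF j : ℝ) / 10 ^ 4 ≤ 1 ∧ 0 ≤ ((cL j : ℝ) / 10 ^ 4) ^ 2 / 2 ∧
      (xN (j + 1) : ℝ) / 10 ^ 4 * (1 / 50) ≤ 1 - PP ((cH j : ℝ) / 100) ∧
      (1 - (xN (j + 1) : ℝ) / 10 ^ 4) * (1 / 50) ≤ 1 - PP ((cZ j : ℝ) / 10) ∧
      (xN (j + 1) : ℝ) / 10 ^ 4 ≤ Real.exp (((cL j : ℝ) / 10 ^ 4) ^ 2 / 2) * (1 - (xN (j + 1) : ℝ) / 10 ^ 4) ∧
      ((cK j : ℝ) / 10 ^ 4) ^ 2 * (((cH j : ℝ) / 100) ^ 2 + 2 * (((cL j : ℝ) / 10 ^ 4) ^ 2 / 2)) ≤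
        ((cH j : ℝ) / 100) ^ 2 ∧
      ((cF j : ℝ) / 10 ^ 4) ^ 2 * (((cH j : ℝ) / 100) ^ 2 + 2 * (((cL j : ℝ) / 10 ^ 4) ^ 2 / 2)) ≤
        ((cH j : ℝ) / 100 * (((cH j : ℝ) / 100) ^ 2 + 3) / (((cH j : ℝ) / 100) ^ 2 + 2)) ^ 2 := by
  obtain ⟨-, hX0, hX1, hH, hZ, hK0, hK1, hF, h1, h2, h3, h4, h5⟩ := cellOK_all j hj
  have hX1' : (cX j : ℝ) < 10 ^ 4 := by exact_mod_cast hX1
  have hH' : (0 : ℝ) < cH j := by exact_mod_cast hH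
  have hZ' : (0 : ℝ) < cZ j := by exact_mod_cast hZ
  have hK0' : (0 : ℝ) < cK j := by exact_mod_cast hK0
  have hK1' : (cK j : ℝ) ≤ 10 ^ 4 := by exact_mod_cast hK1
  have hF' : (cF j : ℝ) ≤ 10 ^ 4 := by exact_mod_cast hF
  have h1' : (cK j : ℝ) ^ 2 * ((cH j : ℝ) ^ 2 * 10 ^ 4 + (cL j : ℝ) ^ 2) ≤ (cH j : ℝ) ^ 2 * 10 ^ 12 := by
    exact_mod_cast h1
  have h2' : (cF j : ℝ) ^ 2 * ((cH j : ℝ) ^ 2 * 10 ^ 4 + (cL j : ℝ) ^ 2) * 10 ^ 4 * ((cH j : ℝ) ^ 2 + 20000) ^ 2 ≤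
    (cH j : ℝ) ^ 2 * ((cH j : ℝ) ^ 2 + 30000) ^ 2 * 10 ^ 16 := by exact_mod_cast h2
  have h3' := PP_le_of 100 (cH j) (mH j) _ (by norm_num) h3
  have h4' := PP_le_of 10 (cZ j) 27 _ (by norm_num) h4
  have h5' := exp_ge_of 10000 (cL j) 25 (cX j) (10 ^ 4 - cX j) (by norm_num) h5
  have e5 : ((10 ^ 4 - cX j : ℕ) : ℝ) = 10 ^ 4 - (cX j : ℝ) := by
    rw [Nat.cast_sub hX1.le]; norm_num
  rw [e5] at h5'
  push_cast at h3' h4' h5'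
  refine ⟨by positivity, by positivity, by positivity, ?_, by positivity, ?_, by positivity, ?_, ?_, ?_, ?_, ?_⟩
  · rw [div_le_one (by positivity)]; exact hK1'
  · rw [div_le_one (by positivity)]; exact hF'
  · show (cX j : ℝ) / 10 ^ 4 * (1 / 50) ≤ _
    have : PP ((cH j : ℝ) / 100) ≤ 1 - (cX j : ℝ) / 10 ^ 4 * (1 / 50) := by
      refine h3'.trans (le_of_eq ?_); ring
    linarith
  · show (1 - (cX j : ℝ) / 10 ^ 4) * (1 / 50) ≤ _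
    have : PP ((cZ j : ℝ) / 10) ≤ 1 - (1 - (cX j : ℝ) / 10 ^ 4) * (1 / 50) := by
      refine h4'.trans (le_of_eq ?_); ring
    linarith
  · show (cX j : ℝ) / 10 ^ 4 ≤ _ * (1 - (cX j : ℝ) / 10 ^ 4)
    rw [show (10 : ℝ) ^ 4 = 10000 by norm_num] at *
    linarith
  · have e : ((cK j : ℝ) / 10 ^ 4) ^ 2 * (((cH j : ℝ) / 100) ^ 2 + 2 * (((cL j : ℝ) / 10 ^ 4) ^ 2 / 2)) =
        ((cK j : ℝ) ^ 2 * ((cH j : ℝ) ^ 2 * 10 ^ 4 + (cL j : ℝ) ^ 2)) / 10 ^ 16 := by ring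
    rw [e, div_pow, div_le_div_iff₀ (by positivity) (by positivity)]
    linarith
  · have e : ((cF j : ℝ) / 10 ^ 4) ^ 2 * (((cH j : ℝ) / 100) ^ 2 + 2 * (((cL j : ℝ) / 10 ^ 4) ^ 2 / 2)) =
        ((cF j : ℝ) ^ 2 * ((cH j : ℝ) ^ 2 * 10 ^ 4 + (cL j : ℝ) ^ 2)) / 10 ^ 16 := by ring
    have e2 : (cH j : ℝ) / 100 * (((cH j : ℝ) / 100) ^ 2 + 3) / (((cH j : ℝ) / 100) ^ 2 + 2) =
        (cH j : ℝ) * ((cH j : ℝ) ^ 2 + 30000) / (100 * ((cH j : ℝ) ^ 2 + 20000)) := by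
      field_simp
      ring
    rw [e, e2, div_pow, div_le_div_iff₀ (by positivity) (by positivity)]
    calc _ = (cF j : ℝ) ^ 2 * ((cH j : ℝ) ^ 2 * 10 ^ 4 + (cL j : ℝ) ^ 2) * 10 ^ 4 * ((cH j : ℝ) ^ 2 + 20000) ^ 2 := by ring
      _ ≤ _ := h2'
      _ = _ := by ring

attribute [local irreducible] SNn BTn Mn xN rN cX cZ cH cL cK cF pA pB pR pW CLn CUn PTn JTn

theorem scalar_large' (n m : ℕ) (hn : 3 ≤ n) (hn2 : n ≤ 29) (hm : Mn n ≤ m) :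
    1 ≤ ((n + m).choose n : ℝ≥0∞) * ∫⁻ t, (∫⁻ b in Set.Ioi (0 : ℝ), ∫⁻ a : ℝ,
        QQ (|t| / √(n : ℝ)) a b ^ m * KK n a b) ∂(gaussianReal 0 1) := by
  obtain ⟨hf, hM⟩ := finOK_all n (by omega) hn
  refine main n (by omega) (1 / 50) (by norm_num) (by norm_num) 24 (fun j => (xN j : ℝ) / 10 ^ 4)
    (fun j => (cH j : ℝ) / 100) (fun j => (cZ j : ℝ) / 10) (fun j => (cK j : ℝ) / 10 ^ 4)
    (fun j => (cF j : ℝ) / 10 ^ 4) (fun j => ((cL j : ℝ) / 10 ^ 4) ^ 2 / 2)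
    (fun j => ∑ i ∈ Finset.range 30, ((rN j (i + 1) : ℝ) / 10 ^ 4 - (rN j i : ℝ) / 10 ^ 4) *
          ((CLn i : ℝ) / 10 ^ 6 * (((PTn (pA j i) : ℝ) + (PTn (pB j i) : ℝ)) / (2 * 10 ^ 8))) ^ (n - 1))
    ?_ ?_ ?_ ?_ ?_ ((SNn n : ℝ) / 10 ^ (8 * n)) (by positivity) (hSum n (by omega)) (Mn n) ?_ m (by omega) hm
  · simp [xN_zero]
  · intro j hj
    obtain ⟨h1, -⟩ := cellOK_all j hj
    have : (xN j : ℝ) ≤ (xN (j + 1) : ℝ) := by exact_mod_cast h1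
    show (xN j : ℝ) / 10 ^ 4 ≤ (xN (j + 1) : ℝ) / 10 ^ 4
    gcongr
  · intro j hj
    obtain ⟨-, h1, h2, -⟩ := cellOK_all j hj
    have h1' : (0 : ℝ) < cX j := by exact_mod_cast h1
    have h2' : (cX j : ℝ) < 10 ^ 4 := by exact_mod_cast h2
    constructor
    · show (0 : ℝ) < (xN (j + 1) : ℝ) / 10 ^ 4
      rw [xN_succ]
      positivity
    · show (xN (j + 1) : ℝ) / 10 ^ 4 < 1
      rw [xN_succ, div_lt_one (by positivity)]; exact h2'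
  · intro j hj
    obtain ⟨a1, a2, a3, a4, a5, a6, a7, a8, a9, a10, a11, a12⟩ := hCell j hj
    refine ⟨a1, a2, a3, a4, a5, a6, a7, ?_, a8, a9, a10, a11, a12⟩
    apply Finset.sum_nonneg
    intro i hi
    have hi' : i < 30 := Finset.mem_range.1 hi
    obtain ⟨-, -, -, -, hr, -, -⟩ := ptOK_all j hj i hi'
    have hr' : rN j i ≤ rN j (i + 1) := by rw [rN_succ]; exact hr
    have : (rN j i : ℝ) ≤ (rN j (i + 1) : ℝ) := by exact_mod_cast hr'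
    apply mul_nonneg
    · rw [sub_nonneg]; gcongr
    · positivity
  · intro j hj h η hh hη hκη
    exact hInner n (by omega) j hj h η hh hη hκη
  · rw [bt_eq n _ (by omega)]
    have h1 : (10 : ℝ) ^ (8 * n) * 50 ^ (n + Mn n) + SNn n * BTn n (n + Mn n) ≤ SNn n * 50 ^ (n + Mn n) := by
      exact_mod_cast hf
    rw [show (SNn n : ℝ) / 10 ^ (8 * n) * (1 - (BTn n (n + Mn n) : ℝ) / 50 ^ (n + Mn n)) =
      ((SNn n : ℝ) * 50 ^ (n + Mn n) - SNn n * BTn n (n + Mn n)) / (10 ^ (8 * n) * 50 ^ (n + Mn n)) by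
        field_simp]
    rw [le_div_iff₀ (by positivity)]
    linarith

end Pool.Agent.VPF.P4
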